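import Pool.Agent.Lib.SubBisX.Regret

/-!
Uniform random bits give uniform random worlds: the random numbers are read off a bit stream at
explicit positions.
-/

open Finset
open scoped BigOperators

namespace Pool.Agent.Lib.SubBisX.Seed

open Pool.Agent.Lib.SubBisX.Reg

/-- the infinite stream that starts with `a` -/
def ext {α : Type} (z : α) {L : ℕ} (a : Fin L → α) (i : ℕ) : α := if h : i < L then a ⟨i, h⟩ else z

theorem ext_lt {α : Type} (z : α) {L : ℕ} (a : Fin L → α) {i : ℕ} (h : i < L) :
    ext z a i = a ⟨i, h⟩ := dif_pos h

/-- `dec` depends on the first `L` entries of the stream only, and for uniform entries its value is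
uniform -/
def Unif {α β : Type} [Fintype α] [Fintype β] (L : ℕ) (dec : (ℕ → α) → β) : Prop :=
  (∀ s s' : ℕ → α, (∀ i < L, s i = s' i) → dec s = dec s') ∧
    ∀ (z : α) (F : β → ℝ), av (fun a : Fin L → α => F (dec (ext z a))) = av F

variable {α β γ : Type} [Fintype α] [Fintype β] [Fintype γ]

theorem unif_one : Unif (α := α) 1 (fun s => s 0) := by
  refine ⟨fun s s' h => h 0 one_pos, fun z F => ?_⟩
  have h := av_equiv (Equiv.funUnique (Fin 1) α) F
  rw [← h]
  rfl

/-- a fixed number of independent copies -/
theorem Unif.pow {L : ℕ} {dec : (ℕ → α) → β} (h : Unif L dec) (K : ℕ) :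
    Unif (K * L) (fun s => fun k : Fin K => dec fun i => s (k * L + i)) := by
  constructor
  · intro s s' hs
    funext k
    refine h.1 _ _ fun i hi => hs _ ?_
    calc (k : ℕ) * L + i < k * L + L := by omega
      _ = (k + 1) * L := by ring
      _ ≤ K * L := Nat.mul_le_mul_right _ k.2
  · intro z F
    have h1 := av_equiv (((Equiv.curry (Fin K) (Fin L) α).symm.trans
      (Equiv.arrowCongr finProdFinEquiv (Equiv.refl α))))
      (fun a : Fin (K * L) → α => F fun k : Fin K => dec fun i => ext z a (k * L + i))
    rw [← h1]
    have h2 : (fun w : Fin K → Fin L → α => F fun k : Fin K => dec fun i =>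
        ext z (((Equiv.curry (Fin K) (Fin L) α).symm.trans
          (Equiv.arrowCongr finProdFinEquiv (Equiv.refl α))) w) (k * L + i)) =
        fun w => F fun k => dec (ext z (w k)) := by
      funext w
      congr 1
      funext k
      refine h.1 _ _ fun i hi => ?_
      have hlt : (k : ℕ) * L + i < K * L := by
        calc (k : ℕ) * L + i < k * L + L := by omega
          _ = (k + 1) * L := by ring
          _ ≤ K * L := Nat.mul_le_mul_right _ k.2
      rw [ext_lt z _ hlt, ext_lt z _ hi]
      have e1 : finProdFinEquiv.symm (⟨k * L + i, hlt⟩ : Fin (K * L)) = (k, ⟨i, hi⟩) := by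
        rw [Equiv.symm_apply_eq]
        apply Fin.ext
        show (k : ℕ) * L + i = i + L * k
        ring
      show (Function.uncurry w) (finProdFinEquiv.symm (⟨k * L + i, hlt⟩ : Fin (K * L))) = _
      rw [e1]
      rfl
    rw [h2]
    clear h1 h2
    -- average over a product of independent coordinates
    have key : ∀ (K : ℕ) (F : (Fin K → β) → ℝ),
        av (fun w : Fin K → Fin L → α => F fun k => dec (ext z (w k))) = av F := by
      intro K
      induction K with
      | zero =>
        intro F
        have e1 : (fun w : Fin 0 → Fin L → α => F fun k => dec (ext z (w k))) =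
            fun _ => F (fun k => k.elim0) := by
          funext w
          congr 1
          funext k
          exact k.elim0
        have e2 : F = fun _ => F (fun k => k.elim0) := by
          funext w
          congr 1
          funext k
          exact k.elim0
        rw [e1, av_const]
        conv_rhs => rw [e2]
        rw [av_const]
      | succ K ih =>
        intro F
        have h3 := av_equiv (Fin.consEquiv (fun _ : Fin (K + 1) => Fin L → α))
          (fun w : Fin (K + 1) → Fin L → α => F fun k => dec (ext z (w k)))
        have h4 := av_equiv (Fin.consEquiv (fun _ : Fin (K + 1) => β)) F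
        rw [← h3, ← h4, av_prod, av_prod]
        have h5 : ∀ a : Fin L → α, (av fun b : Fin K → Fin L → α =>
            F fun k => dec (ext z (Fin.consEquiv (fun _ : Fin (K + 1) => Fin L → α) (a, b) k))) =
            av fun b : Fin K → β => F (Fin.cons (dec (ext z a)) b) := by
          intro a
          rw [← ih fun b => F (Fin.cons (dec (ext z a)) b)]
          refine congrArg av (funext fun b => ?_)
          congr 1
          funext k
          refine Fin.cases ?_ (fun k => ?_) k
          · rfl
          · rfl
        rw [funext h5]
        exact h.2 z fun x => av fun b : Fin K → β => F (Fin.cons x b)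
    exact key K F

/-- the pair of two decoders on consecutive parts of the stream -/
theorem Unif.prod {L L' : ℕ} {dec : (ℕ → α) → β} {dec' : (ℕ → α) → γ} (h : Unif L dec)
    (h' : Unif L' dec') : Unif (L + L') (fun s => (dec s, dec' fun i => s (L + i))) := by
  constructor
  · intro s s' hs
    have e1 : dec s = dec s' := h.1 _ _ fun i hi => hs i (by omega)
    have e2 : (dec' fun i => s (L + i)) = dec' fun i => s' (L + i) :=
      h'.1 _ _ fun i hi => hs _ (by omega)
    simp only [e1, e2]
  · intro z F
    have h1 := av_equiv (Fin.appendEquiv L L' (α := α))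
      (fun a : Fin (L + L') → α => F (dec (ext z a), dec' fun i => ext z a (L + i)))
    rw [← h1, av_prod, av_prod]
    have h2 : ∀ (a : Fin L → α) (b : Fin L' → α),
        (dec (ext z (Fin.appendEquiv L L' (α := α) (a, b))),
          dec' fun i => ext z (Fin.appendEquiv L L' (α := α) (a, b)) (L + i)) =
        (dec (ext z a), dec' (ext z b)) := by
      intro a b
      congr 1
      · refine h.1 _ _ fun i hi => ?_
        rw [ext_lt z _ (show i < L + L' by omega), ext_lt z _ hi]
        exact Fin.append_left a b ⟨i, hi⟩
      · refine h'.1 _ _ fun i hi => ?_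
        rw [ext_lt z _ (show L + i < L + L' by omega), ext_lt z _ hi]
        exact Fin.append_right a b ⟨i, hi⟩
    have h3 : (fun a : Fin L → α => av fun b : Fin L' → α =>
        F (dec (ext z (Fin.appendEquiv L L' (α := α) (a, b))),
          dec' fun i => ext z (Fin.appendEquiv L L' (α := α) (a, b)) (L + i))) =
        fun a => av fun c : γ => F (dec (ext z a), c) := by
      funext a
      rw [← h'.2 z fun c => F (dec (ext z a), c)]
      exact congrArg av (funext fun b => by rw [h2])
    rw [h3]
    exact h.2 z fun x => av fun c : γ => F (x, c)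

/-- digits of `μ` entries each -/
theorem Unif.comp {L L' : ℕ} {dec : (ℕ → α) → β} {dec' : (ℕ → β) → γ} (h : Unif L dec)
    (h' : Unif L' dec') : Unif (L' * L) (fun s => dec' fun j => dec fun i => s (j * L + i)) := by
  have hp := h.pow L'
  constructor
  · intro s s' hs
    refine h'.1 _ _ fun j hj => h.1 _ _ fun i hi => hs _ ?_
    calc j * L + i < j * L + L := by omega
      _ = (j + 1) * L := by ring
      _ ≤ L' * L := Nat.mul_le_mul_right _ hj
  · intro z F
    rw [← h'.2 (dec fun _ => z) F, ← hp.2 z fun a : Fin L' → β => F (dec' (ext (dec fun _ => z) a))]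
    refine congrArg av (funext fun a => ?_)
    congr 1
    refine h'.1 _ _ fun j hj => ?_
    rw [ext_lt _ _ hj]

/-- the number with the binary digits `s 0, …, s (μ - 1)` -/
def bv (μ : ℕ) (s : ℕ → Bool) : ℕ := ∑ k ∈ range μ, if s k then 2 ^ k else 0

theorem bv_succ (μ : ℕ) (s : ℕ → Bool) :
    bv (μ + 1) s = (s 0).toNat + 2 * bv μ fun i => s (i + 1) := by
  unfold bv
  rw [sum_range_succ', add_comm, mul_sum]
  congr 1
  · cases s 0 <;> rfl
  · refine sum_congr rfl fun k _ => ?_
    split_ifs
    · ring
    · ring

theorem bv_lt (μ : ℕ) (s : ℕ → Bool) : bv μ s < 2 ^ μ := by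
  induction μ generalizing s with
  | zero => simp [bv]
  | succ μ ih =>
    rw [bv_succ, pow_succ]
    have h1 := ih fun i => s (i + 1)
    have h2 : (s 0).toNat ≤ 1 := Bool.toNat_le _
    omega

/-- the number read off the first `μ` bits -/
def rd (μ : ℕ) (s : ℕ → Bool) : Fin (2 ^ μ) := ⟨bv μ s, bv_lt μ s⟩

theorem unif_rd (μ : ℕ) : Unif μ (rd μ) := by
  constructor
  · intro s s' hs
    apply Fin.ext
    show bv μ s = bv μ s'
    unfold bv
    exact sum_congr rfl fun k hk => by rw [hs k (mem_range.1 hk)]
  · intro z F
    have hinj : Function.Injective fun a : Fin μ → Bool => rd μ (ext z a) := by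
      induction μ with
      | zero => exact fun a b _ => funext fun k => k.elim0
      | succ μ ih =>
        intro a b hab
        have h1 : bv (μ + 1) (ext z a) = bv (μ + 1) (ext z b) := congrArg Fin.val hab
        rw [bv_succ, bv_succ] at h1
        have h0 : ext z a 0 = ext z b 0 := by
          have h2 : (ext z a 0).toNat = (ext z b 0).toNat := by
            have h3 := Bool.toNat_le (ext z a 0)
            have h4 := Bool.toNat_le (ext z b 0)
            omega
          revert h2
          cases ext z a 0 <;> cases ext z b 0 <;> simp
        have hs : bv μ (fun i => ext z a (i + 1)) = bv μ fun i => ext z b (i + 1) := by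
          rw [h0] at h1
          omega
        have hshift : ∀ c : Fin (μ + 1) → Bool, bv μ (fun i => ext z c (i + 1)) =
            bv μ (ext z fun i : Fin μ => c i.succ) := by
          intro c
          unfold bv
          refine sum_congr rfl fun k hk => ?_
          have hk' := mem_range.1 hk
          have e1 : ext z c (k + 1) = ext z (fun i : Fin μ => c i.succ) k := by
            rw [ext_lt z c (show k + 1 < μ + 1 by omega), ext_lt z _ hk']
            rfl
          show (if ext z c (k + 1) = true then 2 ^ k else 0) = _
          rw [e1]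
        rw [hshift, hshift] at hs
        have hab' := ih (F := fun _ => 0) (Fin.ext hs)
        funext k
        refine Fin.cases ?_ (fun k => ?_) k
        · have h5 := h0
          rw [ext_lt z a (Nat.succ_pos μ), ext_lt z b (Nat.succ_pos μ)] at h5
          exact h5
        · exact congrFun hab' k
    have hcard : Fintype.card (Fin μ → Bool) = Fintype.card (Fin (2 ^ μ)) := by simp
    have hbij := (Fintype.bijective_iff_injective_and_card _).2 ⟨hinj, hcard⟩
    exact av_equiv (Equiv.ofBijective _ hbij) F

/-- an element of `XW m n r` read off `(n + 1) ^ r` digits: the first block is the first component, the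
block `x + 1` is the component `x` of the fresh world -/
def decX (m n : ℕ) : ∀ r, (ℕ → Fin m) → XW m n r
  | 0, d => d 0
  | r + 1, d => (decX m n r d, fun x => decX m n r fun i => d ((x + 1) * (n + 1) ^ r + i))

theorem unif_decX (m n : ℕ) : ∀ r, Unif ((n + 1) ^ r) (decX m n r)
  | 0 => unif_one
  | r + 1 => by
    have ih := unif_decX m n r
    have h1 := ih.prod (ih.pow n)
    have e1 : (n + 1) ^ r + n * (n + 1) ^ r = (n + 1) ^ (r + 1) := by ring
    rw [e1] at h1
    have e2 : decX m n (r + 1) = fun s => (decX m n r s,
        fun k : Fin n => decX m n r fun i => s ((n + 1) ^ r + (k * (n + 1) ^ r + i))) := by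
      funext s
      show (decX m n r s, fun x : Fin n => decX m n r fun i => s ((x + 1) * (n + 1) ^ r + i)) = _
      congr 1
      funext k
      congr 1
      funext i
      congr 1
      ring
    rw [e2]
    exact h1

/-- a world read off `n (n + 1) ^ r` digits, row by row -/
def decW (m n r : ℕ) (d : ℕ → Fin m) : Fin n → XW m n r :=
  fun v => decX m n r fun i => d (v * (n + 1) ^ r + i)

theorem unif_decW (m n r : ℕ) : Unif (n * (n + 1) ^ r) (decW m n r) := (unif_decX m n r).pow n

/-- `K` worlds read off a bit stream -/
def decS (μ n r K : ℕ) (s : ℕ → Bool) : Fin K → Fin n → XW (2 ^ μ) n r :=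
  fun k => decW (2 ^ μ) n r fun j => rd μ fun i => s ((k * (n * (n + 1) ^ r) + j) * μ + i)

/-- the number of random bits used -/
def nbits (μ n r K : ℕ) : ℕ := K * (n * (n + 1) ^ r) * μ

theorem unif_decS (μ n r K : ℕ) : Unif (nbits μ n r K) (decS μ n r K) :=
  (unif_rd μ).comp ((unif_decW (2 ^ μ) n r).pow K)

end Pool.Agent.Lib.SubBisX.Seed
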