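import Mathlib

/-!
The parameters of the subexponential approximation scheme.
-/

open Finset

namespace Pool.Agent.Lib.SubBisX.Par

/-- the number of steps for the quality `q` -/
def TT (q : ℕ) : ℕ := q ^ 2 * (3 * q.size + 4) ^ 2

/-- binary digits of the random numbers -/
def mu (q : ℕ) : ℕ := 2 * q.size + 3

/-- weight of the penalty -/
def kap (q : ℕ) : ℕ := q.size + 1

/-- scale of the iterates (the unit `c` is `q`) -/
def MM (q : ℕ) : ℕ := q ^ 2 * (3 * q.size + 4) ^ 2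

/-- number of independent worlds -/
def KK (n q : ℕ) : ℕ := 8 * q ^ 2 * (3 * q.size + 5) ^ 2 * (n + 3)

/-- the quality for the number of vertices `n` and the precision `t` -/
def qq (n t : ℕ) : ℕ := ((range (t.size + 1)).filter fun i => 1 ≤ i ∧ (n + 1) ^ TT i ≤ t).card

theorem TT_mono {i j : ℕ} (h : i ≤ j) : TT i ≤ TT j :=
  Nat.mul_le_mul (Nat.pow_le_pow_left h 2) (Nat.pow_le_pow_left
    (Nat.add_le_add_right (Nat.mul_le_mul_left 3 (Nat.size_le_size h)) 4) 2)

theorem le_TT (i : ℕ) : i ≤ TT i := by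
  unfold TT
  rcases Nat.eq_zero_or_pos i with h | h
  · rw [h]
    exact Nat.zero_le _
  · have h1 : 1 ≤ (3 * i.size + 4) ^ 2 := Nat.one_le_pow _ _ (by omega)
    calc i = i * 1 * 1 := by ring
      _ ≤ i * i * (3 * i.size + 4) ^ 2 := Nat.mul_le_mul (Nat.mul_le_mul_left i h) h1
      _ = i ^ 2 * (3 * i.size + 4) ^ 2 := by ring

theorem qq_eq {n t : ℕ} (hn : 1 ≤ n) :
    ∃ q, qq n t = q ∧ (1 ≤ q → (n + 1) ^ TT q ≤ t) ∧ t < (n + 1) ^ TT (q + 1) := by
  classical
  have hbig : t < (n + 1) ^ TT t.size := by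
    calc t < 2 ^ t.size := Nat.lt_size_self t
      _ ≤ (n + 1) ^ t.size := Nat.pow_le_pow_left (by omega) _
      _ ≤ (n + 1) ^ TT t.size := Nat.pow_le_pow_right (by omega) (le_TT _)
  set P : ℕ → Prop := fun i => t < (n + 1) ^ TT i with hP
  have hex : ∃ i, P (i + 1) := by
    refine ⟨t.size, ?_⟩
    exact lt_of_lt_of_le hbig (Nat.pow_le_pow_right (by omega) (TT_mono (by omega)))
  set q := Nat.find hex with hq
  have h1 : P (q + 1) := Nat.find_spec hex
  have h2 : ∀ i, i < q → ¬ P (i + 1) := fun i hi => Nat.find_min hex hi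
  have h3 : q ≤ t.size := by
    apply Nat.find_min' hex
    exact lt_of_lt_of_le hbig (Nat.pow_le_pow_right (by omega) (TT_mono (by omega)))
  refine ⟨q, ?_, ?_, h1⟩
  · unfold qq
    have h4 : ((range (t.size + 1)).filter fun i => 1 ≤ i ∧ (n + 1) ^ TT i ≤ t) = Icc 1 q := by
      ext i
      simp only [mem_filter, mem_range, mem_Icc]
      constructor
      · rintro ⟨-, h5, h6⟩
        refine ⟨h5, ?_⟩
        by_contra h7
        have h8 : t < (n + 1) ^ TT i := lt_of_lt_of_le h1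
          (Nat.pow_le_pow_right (by omega) (TT_mono (by omega)))
        omega
      · rintro ⟨h5, h6⟩
        refine ⟨by omega, h5, ?_⟩
        have h7 := h2 (i - 1) (by omega)
        rw [hP] at h7
        simp only [not_lt] at h7
        rwa [Nat.sub_add_cancel h5] at h7
    rw [h4, Nat.card_Icc, Nat.add_sub_cancel]
  · intro h4
    have h5 := h2 (q - 1) (by omega)
    rw [hP] at h5
    simp only [not_lt] at h5
    rwa [Nat.sub_add_cancel h4] at h5

theorem size_le_log (n : ℕ) : (n.size : ℝ) ≤ Real.logb 2 (n + 1) + 1 := by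
  rcases Nat.eq_zero_or_pos n with h | h
  · rw [h]
    simp
  · have h1 : 2 ^ (n.size - 1) ≤ n := by
      have : 0 < n.size := Nat.size_pos.2 h
      exact Nat.lt_size.1 (by omega)
    have h2 : ((n.size - 1 : ℕ) : ℝ) ≤ Real.logb 2 (n + 1) := by
      rw [Real.le_logb_iff_rpow_le one_lt_two (by positivity), Real.rpow_natCast]
      have h3 : ((2 ^ (n.size - 1) : ℕ) : ℝ) ≤ n := by exact_mod_cast h1
      push_cast at h3
      linarith
    have h3 : 0 < n.size := Nat.size_pos.2 h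
    have h4 : ((n.size - 1 : ℕ) : ℝ) = n.size - 1 := by
      rw [Nat.cast_sub (by omega)]
      simp
    rw [h4] at h2
    linarith

/-- the promise gives a good quality -/
theorem par {n t : ℕ} (hn : 1 ≤ n) (ht : 1 ≤ t)
    (h : (2 : ℝ) ^ (200 * (n : ℝ) ^ (2 / 3 : ℝ) * Real.logb 2 (n + 1)) ≤ t) :
    1 ≤ qq n t ∧ (n + 1) ^ TT (qq n t) ≤ t ∧ (100 : ℝ) * n ≤ qq n t * Real.logb 2 t ∧
      (200 : ℝ) ≤ Real.logb 2 t ∧ (n : ℝ) ≤ Real.logb 2 t ^ 2 := by
  obtain ⟨q, hq, hq1, hq2⟩ := qq_eq (t := t) hn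
  rw [hq]
  set L := Real.logb 2 ((n : ℝ) + 1) with hL
  set lam := Real.logb 2 (t : ℝ) with hlam
  set x := (n : ℝ) ^ (2 / 3 : ℝ) with hx
  have hn1 : (1 : ℝ) ≤ n := by exact_mod_cast hn
  have ht0 : (0 : ℝ) < t := by exact_mod_cast ht
  have hL1 : 1 ≤ L := by
    rw [hL, Real.le_logb_iff_rpow_le one_lt_two (by positivity), Real.rpow_one]
    linarith
  have hx1 : 1 ≤ x := Real.one_le_rpow hn1 (by norm_num)
  have hx3 : x ^ 3 = (n : ℝ) ^ 2 := by
    rw [hx, ← Real.rpow_natCast, ← Real.rpow_mul (by positivity)]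
    norm_num
  have hlam1 : 200 * x * L ≤ lam := by
    rw [hlam, Real.le_logb_iff_rpow_le one_lt_two ht0]
    exact h
  have hlam2 : 200 ≤ lam := by nlinarith
  have hTT : lam < TT (q + 1) * L := by
    have h1 : (t : ℝ) < ((n : ℝ) + 1) ^ TT (q + 1) := by exact_mod_cast hq2
    have h2 : lam < Real.logb 2 (((n : ℝ) + 1) ^ TT (q + 1)) :=
      Real.logb_lt_logb one_lt_two ht0 h1
    rwa [Real.logb_pow] at h2
  have hnl : (n : ℝ) ≤ lam ^ 2 := by
    have h1 : x ^ 3 ≤ (lam / 200) ^ 3 := pow_le_pow_left₀ (by positivity) (by nlinarith) 3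
    have h2 : (n : ℝ) ≤ (n : ℝ) ^ 2 := by nlinarith
    rw [hx3] at h1
    have h4 : ((n : ℝ)) ^ 2 ≤ (lam ^ 2) ^ 2 := by
      refine h1.trans ?_
      have h5 : (lam / 200) ^ 3 ≤ lam ^ 3 := pow_le_pow_left₀ (by positivity) (by linarith) 3
      have h6 : lam ^ 3 ≤ lam ^ 4 := pow_le_pow_right₀ (by linarith) (by norm_num)
      calc (lam / 200) ^ 3 ≤ lam ^ 4 := h5.trans h6
        _ = (lam ^ 2) ^ 2 := by ring
    exact (pow_le_pow_iff_left₀ (by positivity) (by positivity) (by norm_num)).1 h4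
  have hq0 : 1 ≤ q := by
    by_contra h0
    have h0 : q = 0 := by omega
    rw [h0] at hTT
    have h1 : TT (0 + 1) = 49 := by decide
    rw [h1] at hTT
    push_cast at hTT
    nlinarith
  refine ⟨hq0, hq1 hq0, ?_, hlam2, hnl⟩
  have hq1' : (1 : ℝ) ≤ q := by exact_mod_cast hq0
  rcases le_or_gt n q with hc | hc
  · have h1 : (n : ℝ) ≤ q := by exact_mod_cast hc
    nlinarith
  · have h1 : ((q + 1).size : ℝ) ≤ L + 1 := by
      refine le_trans ?_ (size_le_log n)
      exact_mod_cast Nat.size_le_size (show q + 1 ≤ n by omega)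
    have h2 : (TT (q + 1) : ℝ) ≤ ((q : ℝ) + 1) ^ 2 * (10 * L) ^ 2 := by
      unfold TT
      push_cast
      refine mul_le_mul_of_nonneg_left ?_ (by positivity)
      refine pow_le_pow_left₀ (by positivity) ?_ 2
      linarith
    have h3 : lam < ((q : ℝ) + 1) ^ 2 * (100 * L ^ 3) := by
      have h4 : (TT (q + 1) : ℝ) * L ≤ ((q : ℝ) + 1) ^ 2 * (10 * L) ^ 2 * L :=
        mul_le_mul_of_nonneg_right h2 (by linarith)
      nlinarith
    have h5 : (200 * (n : ℝ)) ^ 2 ≤ (((q : ℝ) + 1) * lam) ^ 2 := by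
      have h6 : (200 * x * L) ^ 3 ≤ lam ^ 3 := pow_le_pow_left₀ (by positivity) hlam1 3
      have h7 : lam ^ 3 ≤ ((q : ℝ) + 1) ^ 2 * (100 * L ^ 3) * lam ^ 2 := by
        nlinarith [sq_nonneg lam]
      have h8 : (200 * x * L) ^ 3 = 8000000 * (n : ℝ) ^ 2 * L ^ 3 := by
        rw [mul_pow, mul_pow, hx3]
        norm_num
      have h9 : 8000000 * (n : ℝ) ^ 2 * L ^ 3 ≤ 100 * (((q : ℝ) + 1) * lam) ^ 2 * L ^ 3 := by
        rw [← h8]
        refine (h6.trans h7).trans (le_of_eq (by ring))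
      have h10 : 8000000 * (n : ℝ) ^ 2 ≤ 100 * (((q : ℝ) + 1) * lam) ^ 2 :=
        le_of_mul_le_mul_right h9 (by positivity)
      nlinarith
    have h6 : 200 * (n : ℝ) ≤ ((q : ℝ) + 1) * lam :=
      (pow_le_pow_iff_left₀ (by positivity) (by positivity) (by norm_num)).1 h5
    nlinarith

end Pool.Agent.Lib.SubBisX.Par
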