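import Pool.Agent.Lib.SubBisX.Core
import Pool.Agent.Lib.SubBisX.Par

/-!
The mean and the range of `Val` in terms of the parameters of `Par.lean`.
-/

namespace Pool.Agent.Lib.SubBisX.Core

open Finset Reg SubBis

variable {n : ℕ}

/-- **Core**, with the parameters of `Par.lean`. -/
theorem corePar {q : ℕ} (hq : 1 ≤ q) {F : Finset (Fin n) → ℤ} (h0 : F ∅ = 0) (hF : FCS.Subm F)
    (hk : ∀ S v, |F (insert v S) - F S| ≤ Par.kap q) :
    |(av fun w : Fin n → XW (2 ^ Par.mu q) n (Par.TT q) =>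
        (Val q (Par.MM q) F (Par.TT q) w : ℝ)) / (Par.TT q * q * Par.MM q) - Bounds.logZ F| ≤
      3 * n / q := by
  have e1 : Par.MM q = MQ q := by
    unfold Par.MM MQ KQ muQ kapQ
    ring
  have e2 : Par.TT q = TQ q := by
    unfold Par.TT TQ KQ muQ kapQ
    ring
  rw [e1, e2]
  exact coreQ hq h0 hF hk

/-- the range of `Val` -/
theorem range_ValPar {q : ℕ} {F : Finset (Fin n) → ℤ} (h0 : F ∅ = 0)
    (hk : ∀ S v, |F (insert v S) - F S| ≤ Par.kap q) (T : ℕ)
    (w : Fin n → XW (2 ^ Par.mu q) n T) :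
    |Val q (Par.MM q) F T w| ≤ T * q * Par.MM q * (n * (3 * q.size + 5)) := by
  refine (abs_Val_le (c := q) (M := Par.MM q) h0 hk T w).trans ?_
  refine mul_le_mul_of_nonneg_left (mul_le_mul_of_nonneg_left ?_ (Int.natCast_nonneg n))
    (by positivity)
  unfold Par.mu Par.kap
  push_cast
  linarith

end Pool.Agent.Lib.SubBisX.Core
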