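import Mathlib

/-!
# Averages of independent copies (finite uniform spaces)

`Ω` is a finite nonempty type with the uniform distribution, `W : Fin M → Ω` are `M` independent points. `EX f` is the mean of `f`.
Hoeffding's inequality by counting, the union bound over finitely many functions, and the combination of one seed with further random bits.
-/

set_option autoImplicit false

namespace Pool.Agent.Lib.SubBisX

open Finset

/-- The mean over a finite type. -/
noncomputable def EX {Ω : Type*} [Fintype Ω] (f : Ω → ℝ) : ℝ := (∑ ω, f ω) / Fintype.card Ω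

/-- The mean of `f` over `M` points. -/
noncomputable def av {Ω : Type*} {M : ℕ} (f : Ω → ℝ) (W : Fin M → Ω) : ℝ := (∑ k, f (W k)) / M

section Hoeffding

variable {Ω : Type*} [Fintype Ω] [Nonempty Ω]

theorem card_pos_real : (0 : ℝ) < Fintype.card Ω := by exact_mod_cast Fintype.card_pos

/-- The exponential moment of a bounded centred function. -/
theorem exp_moment {B : ℝ} (hB : 0 < B) (g : Ω → ℝ) (hg : ∀ ω, |g ω| ≤ B) (h0 : ∑ ω, g ω = 0)
    (t : ℝ) : ∑ ω, Real.exp (t * g ω) ≤ Fintype.card Ω * Real.exp ((t * B) ^ 2 / 2) := by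
  have h1 : ∀ ω, Real.exp (t * g ω) ≤ Real.cosh (t * B) + g ω / B * Real.sinh (t * B) := by
    intro ω
    have h2 := abs_le.1 (hg ω)
    have ha : 0 ≤ (B + g ω) / (2 * B) := div_nonneg (by linarith) (by linarith)
    have hb : 0 ≤ (B - g ω) / (2 * B) := div_nonneg (by linarith) (by linarith)
    have hab : (B + g ω) / (2 * B) + (B - g ω) / (2 * B) = 1 := by field_simp; ring
    have h3 := convexOn_exp.2 (Set.mem_univ (t * B)) (Set.mem_univ (-(t * B))) ha hb hab
    simp only [smul_eq_mul] at h3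
    have h4 : (B + g ω) / (2 * B) * (t * B) + (B - g ω) / (2 * B) * -(t * B) = t * g ω := by
      field_simp
      ring
    rw [h4] at h3
    refine h3.trans (le_of_eq ?_)
    rw [Real.cosh_eq, Real.sinh_eq]
    field_simp
    ring
  calc ∑ ω, Real.exp (t * g ω)
      ≤ ∑ ω, (Real.cosh (t * B) + g ω / B * Real.sinh (t * B)) := sum_le_sum fun ω _ => h1 ω
    _ = Fintype.card Ω * Real.cosh (t * B) := by
        rw [sum_add_distrib, sum_const, card_univ, nsmul_eq_mul, ← sum_mul, ← sum_div, h0,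
          zero_div, zero_mul, add_zero]
    _ ≤ Fintype.card Ω * Real.exp ((t * B) ^ 2 / 2) :=
        mul_le_mul_of_nonneg_left (Real.cosh_le_exp_half_sq _) card_pos_real.le

open Classical in
/-- One sided Hoeffding inequality for a centred function. -/
theorem hoeffding_centred {B : ℝ} (hB : 0 < B) (g : Ω → ℝ) (hg : ∀ ω, |g ω| ≤ B)
    (h0 : ∑ ω, g ω = 0) (M : ℕ) {δ : ℝ} (hδ : 0 ≤ δ) :
    ((univ.filter fun W : Fin M → Ω => (M : ℝ) * δ ≤ ∑ k, g (W k)).card : ℝ) ≤
      Real.exp (-(M * δ ^ 2 / (2 * B ^ 2))) * Fintype.card (Fin M → Ω) := by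
  set t : ℝ := δ / B ^ 2 with ht
  have htn : 0 ≤ t := div_nonneg hδ (sq_nonneg B)
  have h1 : ((univ.filter fun W : Fin M → Ω => (M : ℝ) * δ ≤ ∑ k, g (W k)).card : ℝ) *
      Real.exp (t * (M * δ)) ≤ ∑ W : Fin M → Ω, Real.exp (t * ∑ k, g (W k)) := by
    rw [← nsmul_eq_mul, ← sum_const]
    refine (sum_le_sum (fun W hW => ?_)).trans
      (sum_le_sum_of_subset_of_nonneg (filter_subset _ _) fun W _ _ => (Real.exp_pos _).le)
    exact Real.exp_le_exp.2 (mul_le_mul_of_nonneg_left (mem_filter.1 hW).2 htn)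
  have h2 : ∑ W : Fin M → Ω, Real.exp (t * ∑ k, g (W k)) = (∑ ω, Real.exp (t * g ω)) ^ M := by
    rw [Fintype.sum_pow]
    refine sum_congr rfl fun W _ => ?_
    rw [mul_sum, Real.exp_sum]
  have h3 : (∑ ω, Real.exp (t * g ω)) ^ M ≤
      (Fintype.card Ω * Real.exp ((t * B) ^ 2 / 2)) ^ M :=
    pow_le_pow_left₀ (sum_nonneg fun ω _ => (Real.exp_pos _).le) (exp_moment hB g hg h0 t) M
  have h4 : ((Fintype.card Ω : ℝ) * Real.exp ((t * B) ^ 2 / 2)) ^ M =
      Fintype.card (Fin M → Ω) * Real.exp (M * ((t * B) ^ 2 / 2)) := by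
    rw [mul_pow, ← Real.exp_nat_mul, Fintype.card_fun, Fintype.card_fin]
    push_cast
    ring
  have h5 := (h1.trans (h2.le.trans h3)).trans h4.le
  rw [← le_div_iff₀ (Real.exp_pos _)] at h5
  refine h5.trans (le_of_eq ?_)
  rw [mul_div_assoc, ← Real.exp_sub, mul_comm]
  congr 2
  rw [ht]
  field_simp
  ring

open Classical in
/-- Two sided Hoeffding inequality. -/
theorem hoeffding {B : ℝ} (hB : 0 < B) (f : Ω → ℝ) (hf : ∀ ω, |f ω| ≤ B) (M : ℕ) (hM : 0 < M)
    {δ : ℝ} (hδ : 0 < δ) :
    ((univ.filter fun W : Fin M → Ω => δ < |av f W - EX f|).card : ℝ) ≤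
      2 * Real.exp (-(M * δ ^ 2 / (8 * B ^ 2))) * Fintype.card (Fin M → Ω) := by
  have hMr : (0 : ℝ) < M := by exact_mod_cast hM
  have hE : |EX f| ≤ B := by
    unfold EX
    rw [abs_div, abs_of_pos (card_pos_real (Ω := Ω)), div_le_iff₀ card_pos_real]
    refine (abs_sum_le_sum_abs _ _).trans ((sum_le_sum fun ω _ => hf ω).trans (le_of_eq ?_))
    rw [sum_const, card_univ, nsmul_eq_mul, mul_comm]
  have hsum : ∑ ω, (f ω - EX f) = 0 := by
    rw [sum_sub_distrib, sum_const, card_univ, nsmul_eq_mul]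
    unfold EX
    rw [mul_div_cancel₀ _ (card_pos_real (Ω := Ω)).ne', sub_self]
  have hb : ∀ ω, |f ω - EX f| ≤ 2 * B := fun ω => by
    have h1 := abs_le.1 (hf ω)
    have h2 := abs_le.1 hE
    rw [abs_le]
    constructor <;> linarith
  have hb' : ∀ ω, |-(f ω - EX f)| ≤ 2 * B := fun ω => by rw [abs_neg]; exact hb ω
  have hsum' : ∑ ω, -(f ω - EX f) = 0 := by rw [sum_neg_distrib, hsum, neg_zero]
  have h1 := hoeffding_centred (by linarith : (0 : ℝ) < 2 * B) _ hb hsum M hδ.le
  have h2 := hoeffding_centred (by linarith : (0 : ℝ) < 2 * B) _ hb' hsum' M hδ.le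
  have hsub : (univ.filter fun W : Fin M → Ω => δ < |av f W - EX f|) ⊆
      (univ.filter fun W : Fin M → Ω => (M : ℝ) * δ ≤ ∑ k, (f (W k) - EX f)) ∪
      (univ.filter fun W : Fin M → Ω => (M : ℝ) * δ ≤ ∑ k, -(f (W k) - EX f)) := by
    intro W hW
    have h3 := (mem_filter.1 hW).2
    have h4 : ∑ k, (f (W k) - EX f) = M * (av f W - EX f) := by
      rw [sum_sub_distrib, sum_const, card_univ, Fintype.card_fin, nsmul_eq_mul, mul_sub]
      unfold av
      rw [mul_div_cancel₀ _ hMr.ne']
    rw [mem_union, mem_filter, mem_filter, sum_neg_distrib, h4]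
    rcases lt_abs.1 h3 with h5 | h5
    · exact Or.inl ⟨mem_univ _, by nlinarith⟩
    · exact Or.inr ⟨mem_univ _, by nlinarith⟩
  have h5 : ((univ.filter fun W : Fin M → Ω => δ < |av f W - EX f|).card : ℝ) ≤
      ((univ.filter fun W : Fin M → Ω => (M : ℝ) * δ ≤ ∑ k, (f (W k) - EX f)).card : ℝ) +
      ((univ.filter fun W : Fin M → Ω => (M : ℝ) * δ ≤ ∑ k, -(f (W k) - EX f)).card : ℝ) := by
    exact_mod_cast (card_le_card hsub).trans (card_union_le _ _)
  refine h5.trans ((add_le_add h1 h2).trans (le_of_eq ?_))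
  have h6 : 2 * (2 * B) ^ 2 = 8 * B ^ 2 := by ring
  rw [h6]
  ring

open Classical in
/-- All averages of finitely many bounded functions are near the means, up to a small part of the
seeds. -/
theorem hoeffding_union {I : Type*} [Fintype I] {B : ℝ} (hB : 0 < B) (f : I → Ω → ℝ)
    (hf : ∀ i ω, |f i ω| ≤ B) (M : ℕ) (hM : 0 < M) {δ : ℝ} (hδ : 0 < δ) :
    ((univ.filter fun W : Fin M → Ω => ∃ i, δ < |av (f i) W - EX (f i)|).card : ℝ) ≤
      Fintype.card I * (2 * Real.exp (-(M * δ ^ 2 / (8 * B ^ 2)))) *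
        Fintype.card (Fin M → Ω) := by
  have h1 : (univ.filter fun W : Fin M → Ω => ∃ i, δ < |av (f i) W - EX (f i)|) ⊆
      univ.biUnion (fun i : I => univ.filter fun W : Fin M → Ω => δ < |av (f i) W - EX (f i)|) := by
    intro W hW
    obtain ⟨i, hi⟩ := (mem_filter.1 hW).2
    exact mem_biUnion.2 ⟨i, mem_univ _, mem_filter.2 ⟨mem_univ _, hi⟩⟩
  have h2 : ((univ.filter fun W : Fin M → Ω => ∃ i, δ < |av (f i) W - EX (f i)|).card : ℝ) ≤
      ∑ i : I, ((univ.filter fun W : Fin M → Ω => δ < |av (f i) W - EX (f i)|).card : ℝ) := by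
    exact_mod_cast (card_le_card h1).trans card_biUnion_le
  refine h2.trans ((sum_le_sum fun i _ => hoeffding hB (f i) (hf i) M hM hδ).trans (le_of_eq ?_))
  rw [sum_const, card_univ, nsmul_eq_mul]
  ring

open Classical in
/-- Under the condition on the number of copies at most one eighth of the seeds are bad. -/
theorem seed_bad {I : Type*} [Fintype I] [Nonempty I] {B : ℝ} (hB : 0 < B) (f : I → Ω → ℝ)
    (hf : ∀ i ω, |f i ω| ≤ B) (M : ℕ) (hM : 0 < M) {δ : ℝ} (hδ : 0 < δ)
    (h : 8 * B ^ 2 * Real.log (16 * Fintype.card I) ≤ M * δ ^ 2) :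
    8 * (univ.filter fun W : Fin M → Ω => ∃ i, δ < |av (f i) W - EX (f i)|).card ≤
      Fintype.card (Fin M → Ω) := by
  have hI : (0 : ℝ) < Fintype.card I := by exact_mod_cast Fintype.card_pos
  have h1 := hoeffding_union hB f hf M hM hδ
  have h2 : Real.exp (-(M * δ ^ 2 / (8 * B ^ 2))) ≤ (16 * (Fintype.card I : ℝ))⁻¹ := by
    rw [← Real.exp_log (show (0 : ℝ) < (16 * (Fintype.card I : ℝ))⁻¹ by positivity),
      Real.log_inv, Real.exp_le_exp, neg_le_neg_iff, le_div_iff₀ (by positivity)]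
    linarith
  have h3 : (Fintype.card I : ℝ) * (2 * Real.exp (-(M * δ ^ 2 / (8 * B ^ 2)))) ≤ 1 / 8 := by
    calc (Fintype.card I : ℝ) * (2 * Real.exp (-(M * δ ^ 2 / (8 * B ^ 2))))
        ≤ (Fintype.card I : ℝ) * (2 * (16 * (Fintype.card I : ℝ))⁻¹) :=
          mul_le_mul_of_nonneg_left (by linarith) hI.le
      _ = 1 / 8 := by
          field_simp
          norm_num
  have h4 : (8 : ℝ) * ((univ.filter fun W : Fin M → Ω =>
      ∃ i, δ < |av (f i) W - EX (f i)|).card : ℝ) ≤ Fintype.card (Fin M → Ω) := by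
    have h5 := h1.trans (mul_le_mul_of_nonneg_right h3 (Nat.cast_nonneg _))
    linarith
  exact_mod_cast h4

end Hoeffding

/-! ### Chebyshev's inequality -/

open Classical in
/-- Chebyshev's inequality by counting: if the second moment of `X` is at most `(1 + c) μ ^ 2` with `μ`
the mean, then at most the fraction `c / s ^ 2` of the points has `|X - μ| > s μ`. -/
theorem chebyshev {T : Type*} [Fintype T] [Nonempty T] (X : T → ℝ) {c s : ℝ} (hs : 0 < s)
    (hμ : 0 < EX X) (h2 : EX (fun x => X x ^ 2) ≤ (1 + c) * EX X ^ 2) :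
    ((univ.filter fun x : T => s * EX X < |X x - EX X|).card : ℝ) ≤
      c / s ^ 2 * Fintype.card T := by
  have hT : (0 : ℝ) < Fintype.card T := by exact_mod_cast Fintype.card_pos
  have h1 : ((univ.filter fun x : T => s * EX X < |X x - EX X|).card : ℝ) * (s * EX X) ^ 2 ≤
      ∑ x, (X x - EX X) ^ 2 := by
    rw [← nsmul_eq_mul, ← sum_const]
    refine (sum_le_sum (fun x hx => ?_)).trans
      (sum_le_sum_of_subset_of_nonneg (filter_subset _ _) fun x _ _ => sq_nonneg _)
    rw [← sq_abs (X x - EX X)]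
    exact pow_le_pow_left₀ (by positivity) (mem_filter.1 hx).2.le 2
  have h3 : ∑ x, (X x - EX X) ^ 2 = Fintype.card T * (EX (fun x => X x ^ 2) - EX X ^ 2) := by
    have e1 : ∑ x, X x = Fintype.card T * EX X := by
      unfold EX
      rw [mul_div_cancel₀ _ hT.ne']
    have e2 : ∑ x, X x ^ 2 = Fintype.card T * EX (fun x => X x ^ 2) := by
      unfold EX
      rw [mul_div_cancel₀ _ hT.ne']
    have e3 : ∀ x, (X x - EX X) ^ 2 = X x ^ 2 - 2 * EX X * X x + EX X ^ 2 := fun x => by ring
    rw [sum_congr rfl fun x _ => e3 x, sum_add_distrib, sum_sub_distrib, ← mul_sum, e1, e2,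
      sum_const, card_univ, nsmul_eq_mul]
    ring
  have h4 : ∑ x, (X x - EX X) ^ 2 ≤ Fintype.card T * (c * EX X ^ 2) := by
    rw [h3]
    exact mul_le_mul_of_nonneg_left (by linarith) hT.le
  have h5 : 0 < (s * EX X) ^ 2 := by positivity
  have h6 := (le_div_iff₀ h5).2 (h1.trans h4)
  refine h6.trans (le_of_eq ?_)
  field_simp

/-! ### One seed and further random bits -/

open Classical in
/-- If at most one eighth of the seeds is bad and for each good seed at most one eighth of the
further random bits fails, then at most a quarter of the pairs fails. -/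
theorem seed_bits {S T : Type*} [Fintype S] [Fintype T] (bad : S → Prop) (fail : S → T → Prop)
    (hbad : 8 * (univ.filter bad).card ≤ Fintype.card S)
    (hfail : ∀ s, ¬ bad s → 8 * (univ.filter (fail s)).card ≤ Fintype.card T) :
    4 * (univ.filter fun p : S × T => fail p.1 p.2).card ≤ Fintype.card (S × T) := by
  have h1 : (univ.filter fun p : S × T => fail p.1 p.2).card =
      ∑ s, (univ.filter (fail s)).card := by
    rw [card_filter, Fintype.sum_prod_type]
    refine sum_congr rfl fun s _ => ?_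
    rw [card_filter]
  have h2 : ∀ s, 8 * (univ.filter (fail s)).card ≤
      Fintype.card T + (if bad s then 7 * Fintype.card T else 0) := by
    intro s
    by_cases hs : bad s
    · rw [if_pos hs]
      have := card_le_univ (univ.filter (fail s))
      omega
    · rw [if_neg hs]
      exact (hfail s hs).trans (Nat.le_add_right _ _)
  have h3 : 8 * (univ.filter fun p : S × T => fail p.1 p.2).card ≤
      Fintype.card S * Fintype.card T + (univ.filter bad).card * (7 * Fintype.card T) := by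
    rw [h1, mul_sum]
    refine (sum_le_sum fun s _ => h2 s).trans (le_of_eq ?_)
    rw [sum_add_distrib, sum_const, card_univ, smul_eq_mul, ← sum_filter, sum_const, smul_eq_mul]
  rw [Fintype.card_prod]
  have h4 := Nat.mul_le_mul_right (Fintype.card T) hbad
  nlinarith

end Pool.Agent.Lib.SubBisX
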