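import Pool.Agent.Lib.SubBisX.Node
import Pool.Agent.Lib.SubBisX.CorePar
import Pool.Agent.Lib.SubBisX.Hoeff
import Pool.Agent.Lib.P7sG.Defs

/-!
For seven eighths of the seeds the estimates of all induced subgraphs are good; the tree of the
decisions on the left vertices is then a good system in the sense of `P7sG.Good`.
-/

open Finset
open scoped BigOperators

namespace Pool.Agent.Lib.SubBisX.Sys

open Pool.Agent.Lib.Pa7c826 Pool.Agent.Lib.Pa7c826t Reg Node

/-- a seed: `KK n q` independent worlds -/
abbrev Seed (n q : ℕ) : Type := Fin (Par.KK n q) → Fin n → XW (2 ^ Par.mu q) n (Par.TT q)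

/-- the sum of the random values of the copies -/
def tot (n a : ℕ) (adj : ℕ → ℕ → Bool) (q : ℕ) (s : Seed n q) (W : Finset ℕ) : ℤ :=
  ∑ k, Core.Val q (Par.MM q) (FW n a adj (Par.kap q) W) (Par.TT q) (s k)

/-- the denominator -/
def den (n q : ℕ) : ℕ := Par.KK n q * (Par.TT q * q * Par.MM q)

/-- the estimate of the binary logarithm of the number of independent subsets of `W` -/
def es (n a : ℕ) (adj : ℕ → ℕ → Bool) (q : ℕ) (s : Seed n q) (W : Finset ℕ) : ℕ :=
  eW n a W (tot n a adj q s W) (den n q)

/-- all estimates are good -/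
def GoodSeed (n a : ℕ) (adj : ℕ → ℕ → Bool) (q : ℕ) (s : Seed n q) : Prop :=
  ∀ W ⊆ range n, |(es n a adj q s W : ℝ) - Real.logb 2 (ind adj W)| ≤ 5 * n / q + 1

variable {n a : ℕ} {adj : ℕ → ℕ → Bool} {q : ℕ}

theorem den_pos (hq : 1 ≤ q) : 0 < den n q := by
  unfold den Par.KK Par.TT Par.MM
  positivity

open Classical in
/-- most seeds are good -/
theorem good_seeds (hq : 1 ≤ q) (hs : ∀ u v, adj u v = adj v u)
    (hbip : ∀ u v, adj u v = true → (u < a ↔ ¬ v < a)) :
    8 * (univ.filter fun s : Seed n q => ¬ GoodSeed n a adj q s).card ≤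
      Fintype.card (Seed n q) := by
  have hq0 : (0 : ℝ) < q := by exact_mod_cast hq
  rcases Nat.eq_zero_or_pos n with hn | hn
  · have h1 : (univ.filter fun s : Seed n q => ¬ GoodSeed n a adj q s) = ∅ := by
      rw [filter_eq_empty_iff]
      intro s _
      rw [not_not]
      intro W hW
      rw [hn, range_zero, subset_empty] at hW
      subst hW
      have h2 : es n a adj q s ∅ = 0 := by
        unfold es eW
        rw [filter_empty, if_pos rfl, card_empty]
      rw [h2, ind_empty]
      simp only [Nat.cast_zero, Nat.cast_one, Real.logb_one, sub_self, abs_zero]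
      positivity
    rw [h1, card_empty]
    exact Nat.zero_le _
  · have hn0 : (0 : ℝ) < n := by exact_mod_cast hn
    set D : ℝ := Par.TT q * q * Par.MM q with hD
    have hD0 : 0 < D := by
      rw [hD]
      have h1 : 0 < Par.TT q := by unfold Par.TT; positivity
      have h2 : 0 < Par.MM q := by unfold Par.MM; positivity
      positivity
    set f : Finset (Fin n) → (Fin n → XW (2 ^ Par.mu q) n (Par.TT q)) → ℝ := fun I w =>
      (Core.Val q (Par.MM q) (FW n a adj (Par.kap q) (toN I)) (Par.TT q) w : ℝ) / D with hf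
    set B : ℝ := n * (3 * q.size + 5) with hB
    have hB0 : 0 < B := by positivity
    have hfB : ∀ I w, |f I w| ≤ B := by
      intro I w
      have h1 := Core.range_ValPar (q := q) (F := FW n a adj (Par.kap q) (toN I))
        (FW_empty (toN_subset I) hs hbip) (fun S v => FW_insert (toN_subset I) hs hbip v S)
        (Par.TT q) w
      rw [hf]
      simp only
      rw [abs_div, abs_of_pos hD0, div_le_iff₀ hD0]
      have h2 : |(Core.Val q (Par.MM q) (FW n a adj (Par.kap q) (toN I)) (Par.TT q) w : ℝ)| ≤
          Par.TT q * q * Par.MM q * (n * (3 * q.size + 5)) := by exact_mod_cast h1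
      refine h2.trans (le_of_eq ?_)
      rw [hD, hB]
      ring
    have hK : 0 < Par.KK n q := by unfold Par.KK; positivity
    have hδ : (0 : ℝ) < n / q := div_pos hn0 hq0
    have hcond : 8 * B ^ 2 * Real.log (16 * Fintype.card (Finset (Fin n))) ≤
        Par.KK n q * ((n : ℝ) / q) ^ 2 := by
      have h1 : Real.log (16 * Fintype.card (Finset (Fin n))) ≤ n + 3 := by
        rw [Fintype.card_finset, Fintype.card_fin]
        push_cast
        have e1 : (16 : ℝ) * 2 ^ n = 2 ^ (n + 4) := by ring
        rw [e1, Real.log_pow]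
        have h2 := Real.log_two_lt_d9
        push_cast
        nlinarith
      have h2 : (Par.KK n q : ℝ) * ((n : ℝ) / q) ^ 2 = 8 * B ^ 2 * (n + 3) := by
        unfold Par.KK
        rw [hB]
        push_cast
        field_simp
      rw [h2]
      exact mul_le_mul_of_nonneg_left h1 (by positivity)
    have hbad := SubBisX.seed_bad hB0 f hfB (Par.KK n q) hK hδ hcond
    refine le_trans (Nat.mul_le_mul_left 8 (card_le_card ?_)) hbad
    intro s hs1
    rw [mem_filter] at hs1 ⊢
    refine ⟨mem_univ _, ?_⟩
    by_contra hcon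
    push Not at hcon
    apply hs1.2
    intro W hW
    set I : Finset (Fin n) := univ.filter fun v : Fin n => (v : ℕ) ∈ W with hI
    have hIW : toN I = W := by
      ext v
      rw [mem_toN]
      constructor
      · rintro ⟨h, hv⟩
        exact (mem_filter.1 hv).2
      · intro hv
        exact ⟨mem_range.1 (hW hv), mem_filter.2 ⟨mem_univ _, hv⟩⟩
    have h1 := hcon I
    have e3 : ∀ w, f I w = (Core.Val q (Par.MM q) (FW n a adj (Par.kap q) W) (Par.TT q) w : ℝ) /
        D := by
      intro w
      rw [← hIW]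
    have h2 : |SubBisX.EX (f I) - Bounds.logZ (FW n a adj (Par.kap q) W)| ≤ 3 * n / q := by
      have h3 := Core.corePar hq (F := FW n a adj (Par.kap q) W) (FW_empty hW hs hbip)
        (fun S S' => FW_sub hW hs hbip S S') (fun S v => FW_insert hW hs hbip v S)
      have h4 : SubBisX.EX (f I) = (Reg.av fun w : Fin n → XW (2 ^ Par.mu q) n (Par.TT q) =>
          (Core.Val q (Par.MM q) (FW n a adj (Par.kap q) W) (Par.TT q) w : ℝ)) /
            (Par.TT q * q * Par.MM q) := by
        unfold SubBisX.EX Reg.av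
        rw [sum_congr rfl fun w _ => e3 w, ← sum_div, hD]
        ring
      rw [h4]
      exact h3
    have h5 : SubBisX.av (f I) s = (tot n a adj q s W : ℝ) / (den n q : ℕ) := by
      unfold SubBisX.av tot den
      rw [sum_congr rfl fun k _ => e3 (s k), ← sum_div, div_div]
      push_cast
      rw [hD]
      congr 1
      ring
    have h6 : |(tot n a adj q s W : ℝ) / (den n q : ℕ) -
        Bounds.logZ (FW n a adj (Par.kap q) W)| ≤ 4 * n / q := by
      rw [← h5]
      have h7 := abs_sub_le (SubBisX.av (f I) s) (SubBisX.EX (f I))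
        (Bounds.logZ (FW n a adj (Par.kap q) W))
      have h8 : (4 : ℝ) * n / q = n / q + 3 * n / q := by ring
      rw [h8]
      linarith
    refine (eW_err hW hs hbip (den_pos hq) h6).trans ?_
    have h9 : (n : ℝ) * (2 / 2 ^ Par.kap q) ≤ n / q := by
      have h10 : (q : ℝ) ≤ 2 ^ q.size := by exact_mod_cast (Nat.lt_size_self q).le
      have h11 : (2 : ℝ) / 2 ^ Par.kap q = 1 / 2 ^ q.size := by
        unfold Par.kap
        rw [pow_succ]
        field_simp
      rw [h11, mul_one_div]
      exact div_le_div_of_nonneg_left hn0.le hq0 h10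
    have h12 : (5 : ℝ) * n / q = 4 * n / q + n / q := by ring
    linarith

/-- the tree of the decisions on the left vertices: a level and a set of vertices -/
def ch (adj : ℕ → ℕ → Bool) (X : ℕ × Finset ℕ) (b : Bool) : ℕ × Finset ℕ :=
  (X.1 + 1, if b then (X.2.erase X.1).filter (fun u => adj X.1 u = false) else X.2.erase X.1)

/-- valid nodes of level `j` -/
def ok (n a : ℕ) (j : ℕ) (X : ℕ × Finset ℕ) : Prop :=
  X.1 = j ∧ X.2 ⊆ range n ∧ ∀ v < a, (v ∈ X.2 ↔ j ≤ v)

theorem ok_root (ha : a ≤ n) : ok n a 0 (0, range n) :=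
  ⟨rfl, Subset.rfl, fun v hv => ⟨fun _ => Nat.zero_le v, fun _ => mem_range.2 (by omega)⟩⟩

theorem good_system {s : Seed n q} (hq : 1 ≤ q) (ha : a ≤ n) (hs : ∀ u v, adj u v = adj v u)
    (hbip : ∀ u v, adj u v = true → (u < a ↔ ¬ v < a)) (hg : GoodSeed n a adj q s) :
    P7sG.Good (ch adj) (fun X => es n a adj q s X.2) (fun X => (ind adj X.2 : ℝ)) (ok n a) a
      (6 * n + 1) ((2 : ℝ) ^ ((5 : ℝ) * n / q + 1)) := by
  have hl : ∀ u, adj u u = false := by
    intro u
    by_contra h
    rw [Bool.not_eq_false] at h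
    have := hbip u u h
    tauto
  have hpos : ∀ W : Finset ℕ, (0 : ℝ) < ind adj W := fun W => by
    exact_mod_cast ind_pos (adj := adj) W
  refine ⟨fun j X _ => hpos _, ?_, ?_, ?_, ?_, ?_, ?_⟩
  · rintro j ⟨i, W⟩ b hj ⟨h1, h2, h3⟩
    simp only at h1 h2 h3
    subst h1
    refine ⟨rfl, ?_, fun v hv => ?_⟩
    · unfold ch
      simp only
      split_ifs
      · exact (filter_subset _ _).trans ((erase_subset _ _).trans h2)
      · exact (erase_subset _ _).trans h2
    · unfold ch
      simp only
      have h4 : v ∈ W.erase i ↔ i + 1 ≤ v := by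
        rw [mem_erase, h3 v hv]
        omega
      split_ifs
      · rw [mem_filter, h4]
        refine ⟨fun h => h.1, fun h => ⟨h, ?_⟩⟩
        by_contra hcon
        rw [Bool.not_eq_false] at hcon
        exact (hbip i v hcon).1 hj hv
      · exact h4
  · rintro j ⟨i, W⟩ hj ⟨h1, h2, h3⟩
    simp only at h1 h2 h3
    subst h1
    have h4 := ind_erase hs hl ((h3 i hj).2 le_rfl)
    unfold ch
    simp only [Bool.false_eq_true, if_false, if_true]
    exact_mod_cast h4
  · rintro j ⟨i, W⟩ ⟨h1, h2, h3⟩
    have h4 := abs_le.1 (hg W h2)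
    have h5 : Real.logb 2 (ind adj W) ≤ (5 * n / q + 1) + es n a adj q s W := by linarith [h4.1]
    rw [Real.logb_le_iff_le_rpow (by norm_num) (hpos W),
      Real.rpow_add (by norm_num), Real.rpow_natCast] at h5
    exact h5
  · rintro j ⟨i, W⟩ ⟨h1, h2, h3⟩
    have h4 := abs_le.1 (hg W h2)
    have h5 : (es n a adj q s W : ℝ) - (5 * n / q + 1) ≤ Real.logb 2 (ind adj W) := by
      linarith [h4.2]
    rw [Real.le_logb_iff_rpow_le (by norm_num) (hpos W), Real.rpow_sub (by norm_num),
      Real.rpow_natCast, div_le_iff₀ (by positivity)] at h5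
    simp only
    linarith
  · rintro ⟨i, W⟩ ⟨h1, h2, h3⟩
    have h4 := eW_leaf (n := n) (adj := adj) (tot n a adj q s W) (den n q)
      (W := W) (fun v hv hva => absurd ((h3 v hva).1 hv) (by omega)) hbip
    simp only
    unfold es
    rw [h4]
    push_cast
    rfl
  · rintro j ⟨i, W⟩ b hj ⟨h1, h2, h3⟩
    have h4 := abs_le.1 (hg W h2)
    have h5 : Real.logb 2 (ind adj W) ≤ n := by
      rw [Real.logb_le_iff_le_rpow (by norm_num) (hpos W), Real.rpow_natCast]
      have h6 : ind adj W ≤ 2 ^ n := (ind_le_two_pow W).trans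
        (Nat.pow_le_pow_right (by norm_num) (by simpa using card_le_card h2))
      exact_mod_cast h6
    have h7 : (5 : ℝ) * n / q ≤ 5 * n := div_le_self (by positivity) (by exact_mod_cast hq)
    have h8 : (es n a adj q s W : ℝ) ≤ ((6 * n + 1 : ℕ) : ℝ) := by
      push_cast
      linarith [h4.2]
    have h9 : es n a adj q s W ≤ 6 * n + 1 := by exact_mod_cast h8
    simp only
    omega

end Pool.Agent.Lib.SubBisX.Sys
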