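import Pool.Agent.Lib.SubBisX.TabSeed
import Pool.Agent.Lib.SubBisX.System

/-!
The estimate `Sys.es` of the logarithm of the number of independent sets of an induced subgraph,
with the seed read off a string of random bits, in polynomial time.
-/

namespace Pool.Agent.Lib.SubBisX.Tab

open Finset Pool.Agent.Lib.PolyTime Pool.Agent.Lib.Pa7c826 Pool.Agent.Lib.Pa7c826t
open Pool.Agent.Lib.SubBisX.Seed

variable {α : Type*} {D : α → Prop} {ctx : List (α → List Bool)}

/-- The seed read off the string `r`. -/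
def seedOf (n q : ℕ) (r : List Bool) : Sys.Seed n q :=
  decS (Par.mu q) n (Par.TT q) (Par.KK n q) fun i => r.getD i false

theorem poly_es {w : α → List Bool} {W : α → Finset ℕ} {q : α → ℕ} {r : α → List Bool}
    (hw : PolyC D ctx w) (hW : PolyS D ctx (fun x => nOf (w x)) W) (hq : PolyN D ctx q)
    (hμ : PolyN D ctx (fun a => Par.mu (q a))) (h2 : PolyN D ctx (fun a => 2 ^ Par.mu (q a)))
    (hM : PolyN D ctx (fun a => Par.MM (q a))) (hT : PolyN D ctx (fun a => Par.TT (q a)))
    (hκ : PolyN D ctx (fun a => Par.kap (q a)))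
    (hK : PolyN D ctx (fun a => Par.KK (nOf (w a)) (q a)))
    (hN : PolyN D ctx (fun a => (nOf (w a) + 1) ^ Par.TT (q a))) (hr : PolyC D ctx r) :
    PolyN D ctx (fun a => Sys.es (nOf (w a)) (aOf (w a)) (adjOf (w a)) (q a)
      (seedOf (nOf (w a)) (q a) (r a)) (W a)) :=
  (poly_eW hw hW hμ h2 hq hM hT hκ hK (hK.mul ((hT.mul hq).mul hM)) hN hr).congr fun _ _ => rfl

end Pool.Agent.Lib.SubBisX.Tab
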