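import Pool.Agent.Lib.SubBisX.System
import Pool.Agent.Lib.SubBisX.Seed
import Pool.Agent.Lib.P7sG.Tape

/-!
The success probability over uniform random bits: the first bits of the tape are the seed, the later
ones the coins of the population.
-/

open Finset
open scoped BigOperators

namespace Pool.Agent.Lib.SubBisX.Prob

open Pool.Agent.Lib.Pa7c826 Pool.Agent.Lib.Pa7c826t Reg Node Sys P7sG

/-- the tape as a stream -/
def str (l : List Bool) (i : ℕ) : Bool := l.getD i false

theorem str_ofFn {m : ℕ} (τ : Fin m → Bool) : str (List.ofFn τ) = Seed.ext false τ := by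
  funext i
  unfold str Seed.ext
  split_ifs with h
  · rw [List.getD_eq_getElem _ _ (by simpa using h)]
    simp
  · rw [List.getD_eq_default _ _ (by simpa using Nat.le_of_not_lt h)]

/-- the number of bits of the seed -/
def off (n q : ℕ) : ℕ := Seed.nbits (Par.mu q) n (Par.TT q) (Par.KK n q)

/-- the seed read off the tape -/
def seedT (n q : ℕ) (l : List Bool) : Sys.Seed n q :=
  Seed.decS (Par.mu q) n (Par.TT q) (Par.KK n q) (str l)

/-- the estimate of the tape -/
def esT (n a : ℕ) (adj : ℕ → ℕ → Bool) (q : ℕ) (l : List Bool) (W : Finset ℕ) : ℕ :=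
  es n a adj q (seedT n q l) W

/-- the final size of the population -/
def cntT (n a : ℕ) (adj : ℕ → ℕ → Bool) (q K cap : ℕ) (l : List Bool) : ℕ :=
  (runC (ch adj) (fun X => esT n a adj q l X.2) cap (coinT l (off n q) cap (6 * n + 1))
    (List.replicate K (0, range n)) a).length

variable {n a : ℕ} {adj : ℕ → ℕ → Bool} {q : ℕ}

open Classical in
/-- most tapes give good seeds -/
theorem bad_tapes (hq : 1 ≤ q) (hs : ∀ u v, adj u v = adj v u)
    (hbip : ∀ u v, adj u v = true → (u < a ↔ ¬ v < a)) :
    8 * (univ.filter fun σ : Fin (off n q) → Bool =>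
      ¬ GoodSeed n a adj q (seedT n q (List.ofFn σ))).card ≤
        Fintype.card (Fin (off n q) → Bool) := by
  have h1 := (Seed.unif_decS (Par.mu q) n (Par.TT q) (Par.KK n q)).2 false
    (fun s => if ¬ GoodSeed n a adj q s then (1 : ℝ) else 0)
  have h2 := good_seeds (n := n) (a := a) (adj := adj) hq hs hbip
  have hc : (0 : ℝ) < Fintype.card (Sys.Seed n q) := by
    have : 0 < Fintype.card (Sys.Seed n q) := Fintype.card_pos
    exact_mod_cast this
  have hc' : (0 : ℝ) < Fintype.card (Fin (off n q) → Bool) := by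
    have : 0 < Fintype.card (Fin (off n q) → Bool) := Fintype.card_pos
    exact_mod_cast this
  have e1 : Reg.av (fun s : Sys.Seed n q => if ¬ GoodSeed n a adj q s then (1 : ℝ) else 0) =
      ((univ.filter fun s : Sys.Seed n q => ¬ GoodSeed n a adj q s).card : ℝ) /
        Fintype.card (Sys.Seed n q) := by
    unfold Reg.av
    rw [card_filter]
    push_cast
    rfl
  have e2 : Reg.av (fun σ : Fin (off n q) → Bool => if ¬ GoodSeed n a adj q
      (Seed.decS (Par.mu q) n (Par.TT q) (Par.KK n q) (Seed.ext false σ)) then (1 : ℝ) else 0) =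
      ((univ.filter fun σ : Fin (off n q) → Bool =>
        ¬ GoodSeed n a adj q (seedT n q (List.ofFn σ))).card : ℝ) /
        Fintype.card (Fin (off n q) → Bool) := by
    unfold Reg.av seedT
    rw [card_filter]
    push_cast
    simp only [str_ofFn]
  have h3 : (8 : ℝ) * ((univ.filter fun s : Sys.Seed n q => ¬ GoodSeed n a adj q s).card : ℝ) ≤
      Fintype.card (Sys.Seed n q) := by exact_mod_cast h2
  have h4 := e2.symm.trans (h1.trans e1)
  have h5 : (8 : ℝ) * (((univ.filter fun σ : Fin (off n q) → Bool =>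
      ¬ GoodSeed n a adj q (seedT n q (List.ofFn σ))).card : ℝ) /
        Fintype.card (Fin (off n q) → Bool)) ≤ 1 := by
    rw [h4, ← mul_div_assoc, div_le_one hc]
    exact h3
  rw [← mul_div_assoc, div_le_one hc'] at h5
  exact_mod_cast h5

theorem card_tapes (m : ℕ) : Fintype.card (Fin m → Bool) = 2 ^ m := by simp

/-- the seed depends on the first bits only -/
theorem seedT_append {r : ℕ} (σ : Fin (off n q) → Bool) (ρ : Fin r → Bool) :
    seedT n q (List.ofFn (Fin.append σ ρ)) = seedT n q (List.ofFn σ) := by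
  unfold seedT
  refine (Seed.unif_decS (Par.mu q) n (Par.TT q) (Par.KK n q)).1 _ _ fun i hi => ?_
  have hi' : i < off n q := hi
  rw [str_ofFn, str_ofFn, Seed.ext_lt _ _ hi', Seed.ext_lt _ _ (by omega : i < off n q + r)]
  exact Fin.append_left σ ρ ⟨i, hi'⟩

/-- the coins read after the seed -/
theorem coinT_append {s r : ℕ} (σ : Fin s → Bool) (ρ : Fin r → Bool) (cap dm : ℕ) :
    coinT (List.ofFn (Fin.append σ ρ)) s cap dm = coinT (List.ofFn ρ) 0 cap dm := by
  funext j i b d
  unfold coinT
  have h : ∀ k, (List.ofFn (Fin.append σ ρ)).getD (s + k) false =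
      (List.ofFn ρ).getD (0 + k) false := by
    intro k
    rw [zero_add]
    have h1 := congrFun (str_ofFn (Fin.append σ ρ)) (s + k)
    have h2 := congrFun (str_ofFn ρ) k
    unfold str at h1 h2
    rw [h1, h2]
    unfold Seed.ext
    by_cases hk : k < r
    · rw [dif_pos (by omega : s + k < s + r), dif_pos hk]
      exact Fin.append_right σ ρ ⟨k, hk⟩
    · rw [dif_neg (by omega), dif_neg hk]
  simp only [Nat.add_assoc, h, Bool.decide_and]

open Classical in
/-- splitting the tape -/
theorem split_tapes {s r : ℕ} (P : (Fin (s + r) → Bool) → Prop)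
    (bad : (Fin s → Bool) → Prop)
    (hbad : 8 * (univ.filter bad).card ≤ Fintype.card (Fin s → Bool))
    (hfail : ∀ σ, ¬ bad σ → 8 * (univ.filter fun ρ : Fin r → Bool => ¬ P (Fin.append σ ρ)).card ≤
      Fintype.card (Fin r → Bool)) :
    3 * 2 ^ (s + r) ≤ 4 * (univ.filter P).card := by
  have h1 : 4 * (univ.filter fun p : (Fin s → Bool) × (Fin r → Bool) =>
      ¬ P (Fin.append p.1 p.2)).card ≤ Fintype.card ((Fin s → Bool) × (Fin r → Bool)) := by
    have h0 := seed_bits bad (fun σ ρ => ¬ P (Fin.append σ ρ)) hbad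
      (fun σ hσ => by convert hfail σ hσ)
    convert h0
  have h2 : (univ.filter fun p : (Fin s → Bool) × (Fin r → Bool) => ¬ P (Fin.append p.1 p.2)).card =
      (univ.filter fun τ : Fin (s + r) → Bool => ¬ P τ).card := by
    refine card_bij (fun p _ => Fin.appendEquiv s r (α := Bool) p) ?_ ?_ ?_
    · intro p hp
      rw [mem_filter] at hp ⊢
      exact ⟨mem_univ _, hp.2⟩
    · intro p _ p' _ h
      exact (Fin.appendEquiv s r (α := Bool)).injective h
    · intro τ hτ
      rw [mem_filter] at hτ
      refine ⟨(Fin.appendEquiv s r (α := Bool)).symm τ, ?_, Equiv.apply_symm_apply _ _⟩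
      rw [mem_filter]
      refine ⟨mem_univ _, ?_⟩
      have h3 : Fin.append ((Fin.appendEquiv s r (α := Bool)).symm τ).1
          ((Fin.appendEquiv s r (α := Bool)).symm τ).2 = τ :=
        (Fin.appendEquiv s r (α := Bool)).apply_symm_apply τ
      rw [h3]
      exact hτ.2
  have h3 : (univ.filter P).card + (univ.filter fun τ : Fin (s + r) → Bool => ¬ P τ).card =
      2 ^ (s + r) := by
    rw [card_filter_add_card_filter_not, card_univ, card_tapes]
  have h4 : Fintype.card ((Fin s → Bool) × (Fin r → Bool)) = 2 ^ (s + r) := by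
    rw [Fintype.card_prod, card_tapes, card_tapes, pow_add]
  rw [h2, h4] at h1
  omega

open Classical in
/-- **The success probability of the approximation scheme.** -/
theorem prob_S (hq : 1 ≤ q) (ha : a ≤ n) (hs : ∀ u v, adj u v = adj v u)
    (hbip : ∀ u v, adj u v = true → (u < a ↔ ¬ v < a)) {K cap m : ℕ} {t : ℝ} (ht : 1 ≤ t)
    (hK0 : 0 < K) (hK : 8 * (a * ((2 : ℝ) ^ ((5 : ℝ) * n / q + 1)) ^ 2 * t ^ 2) ≤ K)
    (hcap : 2 * ((2 : ℝ) ^ ((5 : ℝ) * n / q + 1)) ^ 2 * K ≤ cap)
    (hm : off n q + a * cap * 2 * (6 * n + 1) ≤ m) :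
    3 * 2 ^ m ≤ 4 * (univ.filter fun τ : Fin m → Bool =>
      |(cntT n a adj q K cap (List.ofFn τ) : ℝ) * 2 ^ esT n a adj q (List.ofFn τ) (range n) -
        K * ind adj (range n)| ≤ K * ind adj (range n) / t).card := by
  obtain ⟨r, rfl⟩ : ∃ r, m = off n q + r := ⟨m - off n q, by omega⟩
  refine split_tapes _ (fun σ => ¬ GoodSeed n a adj q (seedT n q (List.ofFn σ)))
    (by convert bad_tapes (n := n) (a := a) (adj := adj) hq hs hbip) ?_
  intro σ hσ
  rw [not_not] at hσ
  have hsys := good_system (s := seedT n q (List.ofFn σ)) hq ha hs hbip hσ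
  have h1 := av_tape hsys (cap := cap) (K := K) (root := (0, range n)) (ok_root ha) ht hcap hK0
    (m := r) 0 (by omega)
  have hK' : (0 : ℝ) < K := by exact_mod_cast hK0
  have e1 : ∀ ρ : Fin r → Bool,
      (|(cntT n a adj q K cap (List.ofFn (Fin.append σ ρ)) : ℝ) *
        2 ^ esT n a adj q (List.ofFn (Fin.append σ ρ)) (range n) -
        K * ind adj (range n)| ≤ K * ind adj (range n) / t) ↔
      (|((runC (ch adj) (fun X => es n a adj q (seedT n q (List.ofFn σ)) X.2) cap
        (coinT (List.ofFn ρ) 0 cap (6 * n + 1)) (List.replicate K (0, range n)) a).length : ℝ) *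
          2 ^ es n a adj q (seedT n q (List.ofFn σ)) (range n) -
        K * ind adj (range n)| ≤ K * ind adj (range n) / t) := by
    intro ρ
    unfold cntT esT
    rw [seedT_append, coinT_append]
  have h2 : (univ.filter fun ρ : Fin r → Bool =>
      ¬ (|(cntT n a adj q K cap (List.ofFn (Fin.append σ ρ)) : ℝ) *
        2 ^ esT n a adj q (List.ofFn (Fin.append σ ρ)) (range n) -
        K * ind adj (range n)| ≤ K * ind adj (range n) / t)) =
      univ.filter fun ρ : Fin r → Bool =>
      ¬ (|((runC (ch adj) (fun X => es n a adj q (seedT n q (List.ofFn σ)) X.2) cap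
        (coinT (List.ofFn ρ) 0 cap (6 * n + 1)) (List.replicate K (0, range n)) a).length : ℝ) *
          2 ^ es n a adj q (seedT n q (List.ofFn σ)) (range n) -
        K * ind adj (range n)| ≤ K * ind adj (range n) / t) :=
    filter_congr fun ρ _ => not_congr (e1 ρ)
  rw [h2]
  set P : (Fin r → Bool) → Prop := fun ρ =>
    |((runC (ch adj) (fun X => es n a adj q (seedT n q (List.ofFn σ)) X.2) cap
        (coinT (List.ofFn ρ) 0 cap (6 * n + 1)) (List.replicate K (0, range n)) a).length : ℝ) *
          2 ^ es n a adj q (seedT n q (List.ofFn σ)) (range n) -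
        K * ind adj (range n)| ≤ K * ind adj (range n) / t with hP
  have h3 : 1 - a * ((2 : ℝ) ^ ((5 : ℝ) * n / q + 1)) ^ 2 * t ^ 2 / K ≤
      ((univ.filter P).card : ℝ) / Fintype.card (Fin r → Bool) := by
    refine h1.trans (le_of_eq ?_)
    unfold P7sG.av
    rw [card_filter]
    push_cast
    rfl
  have hcr : (0 : ℝ) < Fintype.card (Fin r → Bool) := by
    have : 0 < Fintype.card (Fin r → Bool) := Fintype.card_pos
    exact_mod_cast this
  have h4 : a * ((2 : ℝ) ^ ((5 : ℝ) * n / q + 1)) ^ 2 * t ^ 2 / K ≤ 1 / 8 := by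
    rw [div_le_iff₀ hK']
    linarith
  have h5 : (7 / 8 : ℝ) * Fintype.card (Fin r → Bool) ≤ (univ.filter P).card := by
    rw [le_div_iff₀ hcr] at h3
    refine le_trans (mul_le_mul_of_nonneg_right ?_ hcr.le) h3
    linarith
  have h6 : ((univ.filter P).card : ℝ) + (univ.filter fun ρ => ¬ P ρ).card =
      Fintype.card (Fin r → Bool) := by
    have := card_filter_add_card_filter_not (s := (univ : Finset (Fin r → Bool))) P
    rw [card_univ] at this
    exact_mod_cast this
  have h7 : (8 : ℝ) * (univ.filter fun ρ => ¬ P ρ).card ≤ Fintype.card (Fin r → Bool) := by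
    linarith
  have h8 : ((8 * (univ.filter fun ρ => ¬ P ρ).card : ℕ) : ℝ) ≤
      (Fintype.card (Fin r → Bool) : ℕ) := by
    rw [Nat.cast_mul]
    exact h7
  exact Nat.cast_le.1 h8

open Classical in
/-- **The success probability of the estimate of the logarithm.** -/
theorem prob_P (hq : 1 ≤ q) (hs : ∀ u v, adj u v = adj v u)
    (hbip : ∀ u v, adj u v = true → (u < a ↔ ¬ v < a)) {m : ℕ} (hm : off n q ≤ m) :
    3 * 2 ^ m ≤ 4 * (univ.filter fun τ : Fin m → Bool =>
      |(esT n a adj q (List.ofFn τ) (range n) : ℝ) - Real.logb 2 (ind adj (range n))| ≤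
        5 * n / q + 1).card := by
  obtain ⟨r, rfl⟩ : ∃ r, m = off n q + r := ⟨m - off n q, by omega⟩
  refine split_tapes _ (fun σ => ¬ GoodSeed n a adj q (seedT n q (List.ofFn σ)))
    (by convert bad_tapes (n := n) (a := a) (adj := adj) hq hs hbip) ?_
  intro σ hσ
  rw [not_not] at hσ
  have h1 : (univ.filter fun ρ : Fin r → Bool =>
      ¬ (|(esT n a adj q (List.ofFn (Fin.append σ ρ)) (range n) : ℝ) -
        Real.logb 2 (ind adj (range n))| ≤ 5 * n / q + 1)) = ∅ := by
    rw [filter_eq_empty_iff]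
    intro ρ _
    rw [not_not]
    unfold esT
    rw [seedT_append]
    exact hσ _ Subset.rfl
  rw [h1, card_empty]
  exact Nat.zero_le _

end Pool.Agent.Lib.SubBisX.Prob
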