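import Pool.Agent.Lib.SubBisX.Par
import Pool.Agent.Lib.P8e91ed.PolyBin

/-!
The parameters `Par.mu`, `Par.kap`, `Par.MM`, `Par.TT`, `Par.KK`, `Par.qq` in polynomial time.
-/

namespace Pool.Agent.Lib.SubBisX.Par

open Finset Pool.Agent.Lib.PolyTime Pool.Agent.Lib.Pa7c826 Pool.Agent.Lib.P8e91ed.PT

variable {α : Type*} {D : α → Prop} {ctx : List (α → List Bool)}

theorem size_eq_log (x : ℕ) : x.size = if x = 0 then 0 else Nat.log 2 x + 1 := by
  by_cases h : x = 0
  · rw [h]
    simp
  · rw [if_neg h]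
    apply le_antisymm
    · exact Nat.size_le.2 (Nat.lt_pow_succ_log_self (by norm_num) x)
    · have h1 : Nat.log 2 x < x.size := Nat.lt_size.2 (Nat.pow_log_le_self 2 h)
      omega

theorem poly_size {f : α → ℕ} (hf : PolyN D ctx f) : PolyN D ctx (fun a => (f a).size) := by
  have h : PolyN D ctx (fun a => if f a = 0 then 0 else Nat.log 2 (f a) + 1) :=
    n_ite (PolyP.eq hf (PolyN.const 0)) (PolyN.const 0)
      (PolyC.mono (n_log hf).succ fun a ha => ha.1)
  exact h.congr (fun a _ => (size_eq_log (f a)).symm)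

theorem poly_mu {q : α → ℕ} (hq : PolyN D ctx q) : PolyN D ctx (fun a => mu (q a)) :=
  (((PolyN.const 2).mul (poly_size hq)).add (PolyN.const 3)).congr (fun _ _ => rfl)

theorem poly_kap {q : α → ℕ} (hq : PolyN D ctx q) : PolyN D ctx (fun a => kap (q a)) :=
  ((poly_size hq).add (PolyN.const 1)).congr (fun _ _ => rfl)

theorem poly_TT {q : α → ℕ} (hq : PolyN D ctx q) : PolyN D ctx (fun a => TT (q a)) := by
  have h1 : PolyN D ctx (fun a => 3 * (q a).size + 4) :=
    ((PolyN.const 3).mul (poly_size hq)).add (PolyN.const 4)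
  exact ((hq.mul hq).mul (h1.mul h1)).congr (fun a _ => by unfold TT; ring)

theorem poly_MM {q : α → ℕ} (hq : PolyN D ctx q) : PolyN D ctx (fun a => MM (q a)) :=
  (poly_TT hq).congr (fun _ _ => rfl)

theorem poly_KK {n q : α → ℕ} (hn : PolyN D ctx n) (hq : PolyN D ctx q) :
    PolyN D ctx (fun a => KK (n a) (q a)) := by
  have h1 : PolyN D ctx (fun a => 3 * (q a).size + 5) :=
    ((PolyN.const 3).mul (poly_size hq)).add (PolyN.const 5)
  exact ((((PolyN.const 8).mul (hq.mul hq)).mul (h1.mul h1)).mul (hn.add (PolyN.const 3))).congr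
    (fun a _ => by unfold KK; ring)

theorem two_pow_size_le (q : ℕ) : 2 ^ q.size ≤ 2 * q + 1 := by
  rcases Nat.eq_zero_or_pos q with h | h
  · rw [h]; simp
  · have h1 : 2 ^ (q.size - 1) ≤ q := by
      have : 0 < q.size := Nat.size_pos.2 h
      exact Nat.lt_size.1 (by omega)
    have h2 : 0 < q.size := Nat.size_pos.2 h
    have h3 : 2 ^ q.size = 2 * 2 ^ (q.size - 1) := by
      rw [← pow_succ']
      congr 1
      omega
    omega

theorem poly_two_size {q : α → ℕ} (hq : PolyN D ctx q) :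
    PolyN D ctx (fun a => 2 ^ (q a).size) := by
  refine n_pow (PolyN.const 2) (poly_size hq) ?_
  exact (Bdd.ofN (((PolyN.const 2).mul hq).add (PolyN.const 1))).le
    (fun a _ => two_pow_size_le (q a))

theorem poly_two_mu {q : α → ℕ} (hq : PolyN D ctx q) :
    PolyN D ctx (fun a => 2 ^ mu (q a)) := by
  have h1 := poly_two_size hq
  exact ((PolyN.const 8).mul (h1.mul h1)).congr (fun a _ => by unfold mu; ring)

/-- the quality is computed in polynomial time from `n` and `t` in unary -/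
theorem poly_qq {n t : α → ℕ} (hn : PolyN D ctx n) (ht : PolyN D ctx t) :
    PolyN D ctx (fun a => qq (n a) (t a)) := by
  have hs : PolyN D ctx (fun a => (t a).size + 1) := (poly_size ht).succ
  have L := last (D := D) (ctx := ctx) (n := fun a => (t a).size + 1)
  have hT := poly_TT L
  have hn' := upN (n := fun a => (t a).size + 1) hn
  have ht' := upN (n := fun a => (t a).size + 1) ht
  have h1 : PolyP (Dx D (fun a => (t a).size + 1)) (cx ctx)
      (fun p : α × ℕ => 1 ≤ p.2 ∧ (n p.1 + 1) ^ TT p.2 ≤ t p.1) :=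
    PolyP.and (PolyP.le (PolyN.const 1) L)
      (PolyP.binle (bin_pow (bin_ofN hn'.succ) hT) (bin_ofN ht'))
  exact (n_card (P := fun a i => 1 ≤ i ∧ (n a + 1) ^ TT i ≤ t a) hs h1).congr
    (fun a _ => by unfold qq; congr 1)

theorem pow_TT_qq_le (n t : ℕ) : (n + 1) ^ TT (qq n t) ≤ t + 1 := by
  rcases Nat.eq_zero_or_pos n with h | h
  · rw [h]
    simp
  · obtain ⟨q, hq, h1, -⟩ := qq_eq (t := t) h
    rw [hq]
    rcases Nat.eq_zero_or_pos q with h0 | h0
    · rw [h0]
      simp [TT]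
    · exact (h1 h0).trans (Nat.le_succ _)

/-- `(n + 1) ^ TT q` for a quality `q` with a bounded power -/
theorem poly_pow_TT {n q : α → ℕ} (hn : PolyN D ctx n) (hq : PolyN D ctx q)
    (hB : Bdd D ctx (fun a => (n a + 1) ^ TT (q a))) :
    PolyN D ctx (fun a => (n a + 1) ^ TT (q a)) := n_pow hn.succ (poly_TT hq) hB

theorem poly_pow_TT_qq {n t : α → ℕ} (hn : PolyN D ctx n) (ht : PolyN D ctx t) :
    PolyN D ctx (fun a => (n a + 1) ^ TT (qq (n a) (t a))) :=
  poly_pow_TT hn (poly_qq hn ht) ((Bdd.ofN ht.succ).le (fun a _ => pow_TT_qq_le (n a) (t a)))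

/-- for a constant quality the power is bounded -/
theorem poly_pow_TT_const {n : α → ℕ} (hn : PolyN D ctx n) (q : ℕ) :
    PolyN D ctx (fun a => (n a + 1) ^ TT q) :=
  poly_pow_TT hn (PolyN.const q) ((Bdd.ofN hn.succ).pow (TT q))

end Pool.Agent.Lib.SubBisX.Par
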