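import Pool.Agent.Lib.Pa7c826.Scheme
import Mathlib.Analysis.SpecialFunctions.Log.Base

/-!
Randomised approximation of the logarithm of the number of independent sets, and randomised
approximation of this number in a given time, for all bipartite graphs.
-/

namespace Pool.Agent.Lib.SubBisX

open Pool.Agent.Lib.Pa7c826

/-- The string `o` denotes a positive number that is correct up to a factor `2 ^ x`: its binary
logarithm is within `x` of that of the number of independent sets of `G`. -/
def LogGood (G : BGraph) (x : ℝ) (o : List Bool) : Prop :=
  0 < outVal o ∧ |Real.logb 2 (outVal o : ℝ) - Real.logb 2 (numIndep G.graph : ℝ)| ≤ x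

/-- Randomised approximation of the number of independent sets of all bipartite graphs up to a
factor `2 ^ (e n t)`, `n` the number of vertices: there are a polynomial `m` and a machine that on
input `(G, 1^t)` with `t ≥ 1`, followed by a string of `m(length)` random bits, runs in polynomial
time and outputs, for at least three quarters of these strings, a number correct up to a factor
`2 ^ (e n t)`. -/
def RScheme (e : ℕ → ℕ → ℝ) : Prop :=
  ∃ (m : Polynomial ℕ) (f : BGraph → ℕ → List Bool → List Bool),
    Nonempty (Turing.TM2ComputableInPolyTime
      (α := {x : BGraph × ℕ × List Bool //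
        1 ≤ x.2.1 ∧ x.2.2.length = m.eval (inCode x.1 x.2.1).length})
      (αΓ := Bool) (βΓ := Bool) (fun x => inCode x.1.1 x.1.2.1 ++ x.1.2.2) id
      (fun x => f x.1.1 x.1.2.1 x.1.2.2)) ∧
    ∀ G t, 1 ≤ t →
      3 * 2 ^ m.eval (inCode G t).length ≤
        4 * Nat.card {r : Fin (m.eval (inCode G t).length) → Bool //
          LogGood G (e (G.a + G.b) t) (f G t (List.ofFn r))}

/-- The input string: `1^s 0` followed by the code of `(G, 1^t)`. -/
def padCode (G : BGraph) (s t : ℕ) : List Bool := List.replicate s true ++ false :: inCode G t

/-- Randomised approximation of the number of independent sets of all bipartite graphs in time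
polynomial in `τ(n)` and `t`, `n` the number of vertices: there are a polynomial `m` and a machine
that on input `1^s 0`, `(G, 1^t)` with `s ≥ τ(n)` and `t ≥ 1`, followed by `m(length)` random bits,
runs in polynomial time and outputs, for at least three quarters of the strings of random bits, a
number within a factor `1 ± 1 / t` of the number of independent sets of `G`. -/
def HasRTime (τ : ℕ → ℝ) : Prop :=
  ∃ (m : Polynomial ℕ) (f : BGraph → ℕ → ℕ → List Bool → List Bool),
    Nonempty (Turing.TM2ComputableInPolyTime
      (α := {x : BGraph × ℕ × ℕ × List Bool //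
        τ (x.1.a + x.1.b) ≤ x.2.1 ∧ 1 ≤ x.2.2.1 ∧
          x.2.2.2.length = m.eval (padCode x.1 x.2.1 x.2.2.1).length})
      (αΓ := Bool) (βΓ := Bool) (fun x => padCode x.1.1 x.1.2.1 x.1.2.2.1 ++ x.1.2.2.2) id
      (fun x => f x.1.1 x.1.2.1 x.1.2.2.1 x.1.2.2.2)) ∧
    ∀ G (s t : ℕ), τ (G.a + G.b) ≤ s → 1 ≤ t →
      3 * 2 ^ m.eval (padCode G s t).length ≤
        4 * Nat.card {r : Fin (m.eval (padCode G s t).length) → Bool //
          Good G t (f G s t (List.ofFn r))}

end Pool.Agent.Lib.SubBisX
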