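import Pool.Agent.Lib.Pa7c826.Transfer
import Pool.Agent.Lib.Pa7c826m.Defs
import Pool.Agent.Lib.SubBisX.LogDefs

/-!
From a randomised procedure which needs `need G t` random bits to the machines of `HasRApx` and
`RScheme`: the number of random bits is a polynomial in the length of the input, and the input
string is split into the code of `(G, 1^t)` and the random bits.
-/

set_option autoImplicit false

namespace Pool.Agent.Lib.SubBisX

open Pool.Agent.Lib.Pa7c826 Pool.Agent.Lib.PolyTime

/-- The code of `(G, 1^t)` followed by the random bits. -/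
def encR (x : BGraph × ℕ × List Bool) : List Bool := inCode x.1 x.2.1 ++ x.2.2

/-- The two parts of the input string can be used separately. -/
theorem poly_split {D : BGraph × ℕ × List Bool → Prop} {f : BGraph × ℕ × List Bool → List Bool}
    (h : PolyC D [fun x => inCode x.1 x.2.1, fun x => x.2.2] f) : PolyC D [encR] f := by
  have hw : PolyC D [encR] encR := PolyC.var (by simp)
  have hlen : PolyN D [encR] (fun x => (inCode x.1 x.2.1).length) :=
    (((poly_tOf hw).add ((poly_aOf hw).add ((poly_bOf hw).add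
      ((poly_aOf hw).mul (poly_bOf hw))))).add (PolyN.const 3)).congr (fun x _ =>
        lenOf_append x.1 x.2.1 x.2.2)
  have hpre : PolyC D [encR] (fun x => inCode x.1 x.2.1) :=
    (PolyC.take hw hlen).congr (fun x _ => List.take_left)
  have hsuf : PolyC D [encR] (fun x => x.2.2) :=
    (PolyC.drop hw hlen).congr (fun x _ => List.drop_left)
  refine h.comp fun g hg => ?_
  rw [List.mem_cons, List.mem_singleton] at hg
  rcases hg with rfl | rfl
  · exact hpre
  · exact hsuf

/-- A number that is computable in polynomial time (in unary) is at most a polynomial in the length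
of the input. -/
theorem exists_need {D : BGraph × ℕ → Prop} {need : BGraph → ℕ → ℕ}
    (hneed : PolyN D [fun x => inCode x.1 x.2] (fun x => need x.1 x.2)) :
    ∃ m : Polynomial ℕ, ∀ G t, D (G, t) → need G t ≤ m.eval (inCode G t).length := by
  obtain ⟨m, hm⟩ := PolyC.length_le hneed
  refine ⟨m, fun G t h => ?_⟩
  have h3 := hm (G, t) h
  simp only [vals_cons, vals_nil, total_cons, total_nil, Nat.add_zero, un_length] at h3
  exact h3

theorem hasRApx_of {P : BGraph → ℕ → Prop} {need : BGraph → ℕ → ℕ}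
    {out : BGraph → ℕ → List Bool → List Bool}
    (hneed : PolyN (fun x : BGraph × ℕ => P x.1 x.2 ∧ 1 ≤ x.2) [fun x => inCode x.1 x.2]
      (fun x => need x.1 x.2))
    (hout : PolyC (fun x : BGraph × ℕ × List Bool =>
        P x.1 x.2.1 ∧ 1 ≤ x.2.1 ∧ need x.1 x.2.1 ≤ x.2.2.length)
      [fun x => inCode x.1 x.2.1, fun x => x.2.2] (fun x => out x.1 x.2.1 x.2.2))
    (hgood : ∀ G t, P G t → 1 ≤ t → ∀ N, need G t ≤ N →
      3 * 2 ^ N ≤ 4 * Nat.card {r : Fin N → Bool // Good G t (out G t (List.ofFn r))}) :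
    Pool.Agent.Lib.Pa7c826m.HasRApx P := by
  obtain ⟨m, hm⟩ := exists_need hneed
  refine ⟨m, out, ?_, fun G t hP ht => hgood G t hP ht _ (hm G t ⟨hP, ht⟩)⟩
  have h1 := poly_split (hout.mono (D' := fun x : BGraph × ℕ × List Bool =>
    P x.1 x.2.1 ∧ 1 ≤ x.2.1 ∧ x.2.2.length = m.eval (inCode x.1 x.2.1).length) ?_)
  · exact PolyC.toTM2 encR (fun x => out x.1 x.2.1 x.2.2) id h1
  · rintro ⟨G, t, r⟩ ⟨hP, ht, hr⟩
    exact ⟨hP, ht, (hm G t ⟨hP, ht⟩).trans hr.ge⟩

theorem rScheme_of {e : ℕ → ℕ → ℝ} {need : BGraph → ℕ → ℕ}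
    {out : BGraph → ℕ → List Bool → List Bool}
    (hneed : PolyN (fun x : BGraph × ℕ => 1 ≤ x.2) [fun x => inCode x.1 x.2]
      (fun x => need x.1 x.2))
    (hout : PolyC (fun x : BGraph × ℕ × List Bool =>
        1 ≤ x.2.1 ∧ need x.1 x.2.1 ≤ x.2.2.length)
      [fun x => inCode x.1 x.2.1, fun x => x.2.2] (fun x => out x.1 x.2.1 x.2.2))
    (hgood : ∀ G t, 1 ≤ t → ∀ N, need G t ≤ N →
      3 * 2 ^ N ≤ 4 * Nat.card {r : Fin N → Bool //
        LogGood G (e (G.a + G.b) t) (out G t (List.ofFn r))}) :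
    RScheme e := by
  obtain ⟨m, hm⟩ := exists_need hneed
  refine ⟨m, out, ?_, fun G t ht => hgood G t ht _ (hm G t ht)⟩
  have h1 := poly_split (hout.mono (D' := fun x : BGraph × ℕ × List Bool =>
    1 ≤ x.2.1 ∧ x.2.2.length = m.eval (inCode x.1 x.2.1).length) ?_)
  · exact PolyC.toTM2 encR (fun x => out x.1 x.2.1 x.2.2) id h1
  · rintro ⟨G, t, r⟩ ⟨ht, hr⟩
    exact ⟨ht, (hm G t ht).trans hr.ge⟩

end Pool.Agent.Lib.SubBisX
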