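import Pool.Agent.Lib.SubBisX.Regret
import Pool.Agent.Lib.SubBis.LB

/-!
# Upper and lower bound for adapted families, in the frame `av`, `Upto`

`W : (Fin n → Bool) → ℝ` is arbitrary (no submodularity is used here).
-/

namespace Pool.Agent.Lib.SubBisX.Bounds

open Finset SubBis Pool.Agent.Lib.SubBisX.Reg

section upper

variable {n m : ℕ} {X : Type*} [Fintype X] [Nonempty X]

theorem av_update (v : Fin n) (g : (Fin n → X) → ℝ) :
    (av fun w => av fun x => g (Function.update w v x)) = av g := by
  classical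
  have key : ∑ w : Fin n → X, ∑ x : X, g (Function.update w v x)
      = ∑ w : Fin n → X, ∑ _x : X, g w := by
    rw [← Finset.sum_product', ← Finset.sum_product']
    refine Finset.sum_bij' (fun p _ => (Function.update p.1 v p.2, p.1 v))
      (fun p _ => (Function.update p.1 v p.2, p.1 v)) ?_ ?_ ?_ ?_ ?_
    · intro p _; simp
    · intro p _; simp
    · intro p _; simp
    · intro p _; simp
    · intro p _; rfl
  have hX : (Fintype.card X : ℝ) ≠ 0 := by exact_mod_cast Fintype.card_ne_zero
  simp only [av]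
  rw [← Finset.sum_div, key]
  simp only [Finset.sum_const, Finset.card_univ, nsmul_eq_mul, ← Finset.mul_sum]
  field_simp

/-- Grouping by digits. -/
theorem av_digit [NeZero m] (d : X → Fin m) (hd : ∀ f : Fin m → ℝ, av (fun x => f (d x)) = av f)
    (b : X → Bool) :
    ∃ q : ℕ → ℝ, (∀ u < m, 0 ≤ q u ∧ q u ≤ 1) ∧
      ∀ φ : ℕ → ℝ, m * av (fun x => φ (d x) * bit (b x)) = ∑ u ∈ range m, φ u * q u := by
  classical
  have hX : (0 : ℝ) < (Fintype.card X : ℝ) := by exact_mod_cast Fintype.card_pos
  have hm : (0 : ℝ) < (m : ℝ) := by exact_mod_cast Nat.pos_of_ne_zero (NeZero.ne m)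
  have hcard : ∀ j : Fin m, (∑ x : X, if d x = j then (1 : ℝ) else 0)
      = (Fintype.card X : ℝ) / m := by
    intro j
    have h := hd (fun i => if i = j then (1 : ℝ) else 0)
    unfold av at h
    rw [Finset.sum_ite_eq' univ j] at h
    simp only [mem_univ, if_true, Fintype.card_fin] at h
    rw [div_eq_iff hX.ne'] at h
    rw [h]; ring
  refine ⟨fun u => if h : u < m then
      (m / (Fintype.card X : ℝ)) * ∑ x : X, (if d x = ⟨u, h⟩ then bit (b x) else 0) else 0,
    ?_, ?_⟩
  · intro u hu
    simp only [hu, dif_pos]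
    constructor
    · apply mul_nonneg (by positivity)
      apply Finset.sum_nonneg
      intro x _
      split_ifs
      · exact bit_nonneg _
      · exact le_rfl
    · have h1 : ∑ x : X, (if d x = ⟨u, hu⟩ then bit (b x) else 0)
          ≤ (Fintype.card X : ℝ) / m := by
        rw [← hcard ⟨u, hu⟩]
        apply Finset.sum_le_sum
        intro x _
        split_ifs
        · exact bit_le_one _
        · exact le_rfl
      calc (m / (Fintype.card X : ℝ)) * ∑ x : X, (if d x = ⟨u, hu⟩ then bit (b x) else 0)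
          ≤ (m / (Fintype.card X : ℝ)) * ((Fintype.card X : ℝ) / m) :=
            mul_le_mul_of_nonneg_left h1 (by positivity)
        _ = 1 := by field_simp
  · intro φ
    rw [Finset.sum_range]
    have h1 : ∑ i : Fin m, φ i * (if h : (i : ℕ) < m then
        (m / (Fintype.card X : ℝ)) * ∑ x : X, (if d x = ⟨i, h⟩ then bit (b x) else 0) else 0)
        = ∑ i : Fin m, (m / (Fintype.card X : ℝ)) * ∑ x : X,
          (if d x = i then φ (d x) * bit (b x) else 0) := by
      apply Finset.sum_congr rfl
      intro i _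
      simp only [i.isLt, dif_pos, Fin.eta]
      rw [mul_left_comm, Finset.mul_sum]
      congr 1
      apply Finset.sum_congr rfl
      intro x _
      split_ifs with h
      · rw [h]
      · rw [mul_zero]
    rw [h1, ← Finset.mul_sum, Finset.sum_comm]
    have h2 : ∀ x : X, ∑ i : Fin m, (if d x = i then φ (d x) * bit (b x) else 0)
        = φ (d x) * bit (b x) := by
      intro x
      rw [Finset.sum_ite_eq univ (d x)]
      simp
    simp only [h2]
    unfold av
    field_simp

/-- THE UPPER BOUND, with hidden randomness. -/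
theorem upper_av [NeZero m] (c : ℕ) (d : X → Fin m)
    (hd : ∀ f : Fin m → ℝ, av (fun x => f (d x)) = av f)
    (W : (Fin n → Bool) → ℝ) (z : (Fin n → X) → Fin n → Bool)
    (hz : ∀ v, Upto v fun w => z w v) :
    (av fun w => ∑ v, (ee m c (d (w v)) : ℝ) * bit (z w v) + c * W (z w))
      ≤ c * Real.logb 2 (∑ y, (2 : ℝ) ^ W y) + n := by
  classical
  have hm0 : 0 < m := Nat.pos_of_ne_zero (NeZero.ne m)
  have hm : (0 : ℝ) < (m : ℝ) := by exact_mod_cast hm0
  set L : ℝ := Real.logb 2 (∑ y, (2 : ℝ) ^ W y) with hL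
  have h1 : (fun w : Fin n → X => ∑ v, (ee m c (d (w v)) : ℝ) * bit (z w v) + c * W (z w))
      = fun w => (∑ v, ((ee m c (d (w v)) : ℝ) * bit (z w v)
          + c * (VV W (v + 1) (z w) - VV W v (z w)))) + c * L := by
    funext w
    have := VV_telescope W (z w)
    rw [Finset.sum_add_distrib, ← Finset.mul_sum, ← this]
    ring
  rw [h1, av_add, av_const, av_sum]
  have h2 : ∀ v : Fin n, (av fun w : Fin n → X => (ee m c (d (w v)) : ℝ) * bit (z w v)
          + c * (VV W (v + 1) (z w) - VV W v (z w))) ≤ 1 := by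
    intro v
    rw [← av_update v]
    have h3 : (av fun _ : Fin n → X => (1 : ℝ)) = 1 := av_const 1
    rw [← h3]
    apply av_mono
    intro w
    set y := z w with hy
    have hpast : ∀ x : X, ∀ i, i < v → z (Function.update w v x) i = y i := by
      intro x i hi
      apply hz i
      intro j hj
      have : j ≠ v := (lt_of_le_of_lt hj hi).ne
      rw [Function.update_of_ne this]
    set A := VV W (v + 1) (Function.update y v true) with hA
    set B := VV W (v + 1) (Function.update y v false) with hB
    have hV0 : ∀ x : X, VV W v (z (Function.update w v x))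
        = Real.logb 2 ((2 : ℝ) ^ A + (2 : ℝ) ^ B) := by
      intro x
      rw [hA, hB, ← VV_step W v y]
      apply VV_congr
      intro i hi
      exact hpast x i (Fin.lt_def.mpr hi)
    have hV1 : ∀ x : X, VV W (v + 1) (z (Function.update w v x))
        = bit (z (Function.update w v x) v) * A + (1 - bit (z (Function.update w v x) v)) * B := by
      intro x
      have h8 : VV W (v + 1) (z (Function.update w v x))
          = VV W (v + 1) (Function.update y v (z (Function.update w v x) v)) := by
        apply VV_congr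
        intro i hi
        by_cases hiv : i = v
        · subst hiv; simp
        · rw [Function.update_of_ne hiv]
          apply hpast
          have : (i : ℕ) ≠ v := fun h => hiv (Fin.ext h)
          exact Fin.lt_def.mpr (by omega)
      rw [h8]
      cases z (Function.update w v x) v
      · simp [hB]
      · simp [hA]
    obtain ⟨q, hq, hqs⟩ := av_digit d hd (fun x => z (Function.update w v x) v)
    have h9 := upper_ee (c := c) hm0 q hq A B
    have e1 : (av fun x => (ee m c (d (Function.update w v x v)) : ℝ)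
          * bit (z (Function.update w v x) v)
          + c * (VV W (v + 1) (z (Function.update w v x)) - VV W v (z (Function.update w v x))))
        = (av fun x => (ee m c (d x) : ℝ) * bit (z (Function.update w v x) v))
          + c * ((A - B) * (av fun x => (1 : ℝ) * bit (z (Function.update w v x) v))
            + (B - Real.logb 2 ((2 : ℝ) ^ A + (2 : ℝ) ^ B))) := by
      have e2 : (fun x : X => (ee m c (d (Function.update w v x v)) : ℝ)
          * bit (z (Function.update w v x) v)
          + c * (VV W (v + 1) (z (Function.update w v x)) - VV W v (z (Function.update w v x))))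
          = fun x => (ee m c (d x) : ℝ) * bit (z (Function.update w v x) v)
            + c * ((A - B) * ((1 : ℝ) * bit (z (Function.update w v x) v))
              + (B - Real.logb 2 ((2 : ℝ) ^ A + (2 : ℝ) ^ B))) := by
        funext x
        rw [hV0, hV1, Function.update_self]
        ring
      rw [e2, av_add, av_smul, av_add, av_smul, av_const]
    have e3 := hqs (fun u => (ee m c u : ℝ))
    have e4 := hqs (fun _ => (1 : ℝ))
    rw [e1]
    set S1 := av fun x => (ee m c (d x) : ℝ) * bit (z (Function.update w v x) v) with hS1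
    set S2 := av fun x => (1 : ℝ) * bit (z (Function.update w v x) v) with hS2
    have e5 : ∑ u ∈ range m, ((ee m c u : ℝ) * q u + c * (q u * A + (1 - q u) * B))
        = m * S1 + c * ((A - B) * (m * S2) + m * B) := by
      rw [e3, e4, Finset.mul_sum, Finset.sum_add_distrib]
      congr 1
      rw [← Finset.mul_sum]
      congr 1
      have : ∀ u ∈ range m, q u * A + (1 - q u) * B = (A - B) * (1 * q u) + B := fun u _ => by ring
      rw [Finset.sum_congr rfl this, Finset.sum_add_distrib]
      simp
    rw [e5] at h9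
    have h10 : m * (S1 + c * ((A - B) * S2 + (B - Real.logb 2 ((2 : ℝ) ^ A + (2 : ℝ) ^ B))))
        ≤ m * 1 := by
      nlinarith
    exact le_of_mul_le_mul_left h10 hm
  have h12 : ∑ v : Fin n, (av fun w : Fin n → X => (ee m c (d (w v)) : ℝ) * bit (z w v)
          + c * (VV W (v + 1) (z w) - VV W v (z w))) ≤ ∑ _v : Fin n, (1 : ℝ) :=
    Finset.sum_le_sum (fun v _ => h2 v)
  simp only [Finset.sum_const, Finset.card_univ, Fintype.card_fin, nsmul_eq_mul, mul_one] at h12
  linarith

end upper

section lower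

variable {n m : ℕ}

theorem av_eq_ev (f : (Fin n → Fin m) → ℝ) : av f = ev f := by
  unfold av ev
  simp

/-- THE LOWER BOUND. -/
theorem lower_av [NeZero m] (c : ℕ) (W : (Fin n → Bool) → ℝ) :
    ∃ z : (Fin n → Fin m) → Fin n → Bool, (∀ v, Upto v fun U => z U v) ∧
      c * Real.logb 2 (∑ y, (2 : ℝ) ^ W y) - n * (1 + c * Real.logb 2 ((m : ℝ) + 1) / m)
        ≤ av fun U => ∑ v, (ee m c (U v) : ℝ) * bit (z U v) + c * W (z U) := by
  have hm0 : 0 < m := Nat.pos_of_ne_zero (NeZero.ne m)
  refine ⟨zstar hm0 c W, ?_, ?_⟩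
  · intro v a b hab
    exact zstar_congr hm0 c W hab
  · rw [av_eq_ev]
    exact lower_bound hm0 c W

end lower

section threshold

variable {n m : ℕ}

/-- the set of a bit vector -/
def setOf (z : Fin n → Bool) : Finset (Fin n) := univ.filter (fun v => z v = true)

/-- The threshold form of the (Lovász) extension of a set function at `Y` in `[0, M]`. -/
def Fhat (F : Finset (Fin n) → ℤ) (M : ℕ) (Y : Fin n → ℤ) : ℤ :=
  ∑ i ∈ range M, F (univ.filter (fun v => ((i : ℤ) + 1) ≤ Y v))

/-- The same as a sum over `1..M` in `ℕ`. -/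
theorem Fhat_eq_nat (F : Finset (Fin n) → ℤ) (M : ℕ) (Y : Fin n → ℤ) :
    Fhat F M Y = ∑ i ∈ Finset.Icc 1 M, F (univ.filter (fun v => (i : ℤ) ≤ Y v)) := by
  unfold Fhat
  refine Finset.sum_bij' (fun i _ => i + 1) (fun i _ => i - 1) ?_ ?_ ?_ ?_ ?_
  · intro i hi; simp at hi ⊢; omega
  · intro i hi; simp at hi ⊢; omega
  · intro i hi; simp
  · intro i hi; simp at hi; omega
  · intro i hi; push_cast; rfl

/-- The same as a sum over `1..M` in `ℤ`. -/
theorem Fhat_eq_int (F : Finset (Fin n) → ℤ) (M : ℕ) (Y : Fin n → ℤ) :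
    Fhat F M Y = ∑ i ∈ Finset.Icc (1 : ℤ) (M : ℤ), F (univ.filter (fun v => i ≤ Y v)) := by
  unfold Fhat
  refine Finset.sum_bij' (fun i _ => (i : ℤ) + 1) (fun i _ => (i - 1).toNat) ?_ ?_ ?_ ?_ ?_
  · intro i hi; simp at hi ⊢; omega
  · intro i hi; simp at hi ⊢; omega
  · intro i hi; simp
  · intro i hi; simp at hi; omega
  · intro i hi; rfl

/-- `log2 ∑_S 2 ^ (-F S)` -/
noncomputable def logZ (F : Finset (Fin n) → ℤ) : ℝ :=
  Real.logb 2 (∑ S : Finset (Fin n), (2 : ℝ) ^ (-(F S : ℝ)))

theorem sum_bool_eq (F : Finset (Fin n) → ℤ) :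
    ∑ z : Fin n → Bool, (2 : ℝ) ^ (-(F (setOf z) : ℝ))
      = ∑ S : Finset (Fin n), (2 : ℝ) ^ (-(F S : ℝ)) := by
  classical
  refine Finset.sum_bij' (fun z _ => setOf z) (fun S _ => fun v => decide (v ∈ S)) ?_ ?_ ?_ ?_ ?_
  · intro z _; simp
  · intro S _; simp
  · intro z _
    funext v
    simp [setOf]
  · intro S _
    ext v
    simp [setOf]
  · intro z _; rfl

theorem sum_levels {M : ℕ} {y : ℤ} (h0 : 0 ≤ y) (h1 : y ≤ M) :
    ∑ i ∈ range M, bit (decide (((i : ℤ) + 1) ≤ y)) = (y : ℝ) := by
  obtain ⟨k, rfl⟩ := Int.eq_ofNat_of_zero_le h0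
  have hk : k ≤ M := by exact_mod_cast h1
  have h2 : ∀ i ∈ range M, bit (decide (((i : ℤ) + 1) ≤ (k : ℤ))) = if i < k then (1 : ℝ) else 0 := by
    intro i _
    by_cases h : i < k
    · have : ((i : ℤ) + 1) ≤ (k : ℤ) := by omega
      simp [h, this]
    · have : ¬ ((i : ℤ) + 1) ≤ (k : ℤ) := by omega
      simp [h, this]
  rw [Finset.sum_congr rfl h2, ← Finset.sum_filter]
  have h3 : (range M).filter (fun i => i < k) = range k := by
    ext i; simp; omega
  rw [h3]
  simp

/-- Upper bound for the integer iterates. -/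
theorem upper_int [NeZero m] {X : Type*} [Fintype X] [Nonempty X] (c M : ℕ) (d : X → Fin m)
    (hd : ∀ f : Fin m → ℝ, av (fun x => f (d x)) = av f)
    (F : Finset (Fin n) → ℤ) (Y : (Fin n → X) → Fin n → ℤ)
    (hY0 : ∀ w v, 0 ≤ Y w v) (hY1 : ∀ w v, Y w v ≤ M)
    (hY : ∀ v, Upto v fun w => Y w v) :
    (av fun w => ((∑ v, ee m c (d (w v)) * Y w v - c * Fhat F M (Y w) : ℤ) : ℝ))
      ≤ M * (c * logZ F + n) := by
  classical
  have h1 : ∀ i ∈ range M, (av fun w => ∑ v, (ee m c (d (w v)) : ℝ)
        * bit (decide (((i : ℤ) + 1) ≤ Y w v))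
        + c * (-(F (setOf (fun v => decide (((i : ℤ) + 1) ≤ Y w v))) : ℝ)))
      ≤ c * logZ F + n := by
    intro i _
    have h := upper_av c d hd (fun z => -(F (setOf z) : ℝ))
      (fun w v => decide (((i : ℤ) + 1) ≤ Y w v)) (by
        intro v a b hab
        have := hY v a b hab
        simp only at this
        simp only [this])
    rw [sum_bool_eq] at h
    exact h
  have h2 : (fun w : Fin n → X => ((∑ v, ee m c (d (w v)) * Y w v - c * Fhat F M (Y w) : ℤ) : ℝ))
      = fun w => ∑ i ∈ range M, (∑ v, (ee m c (d (w v)) : ℝ)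
        * bit (decide (((i : ℤ) + 1) ≤ Y w v))
        + c * (-(F (setOf (fun v => decide (((i : ℤ) + 1) ≤ Y w v))) : ℝ))) := by
    funext w
    rw [Finset.sum_add_distrib, Finset.sum_comm]
    have e1 : ∀ v : Fin n, ∑ i ∈ range M, (ee m c (d (w v)) : ℝ)
        * bit (decide (((i : ℤ) + 1) ≤ Y w v)) = (ee m c (d (w v)) : ℝ) * (Y w v : ℝ) := by
      intro v
      rw [← Finset.mul_sum, sum_levels (hY0 w v) (hY1 w v)]
    simp only [e1]
    rw [← Finset.mul_sum, Finset.sum_neg_distrib]
    unfold Fhat setOf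
    push_cast
    simp only [decide_eq_true_eq]
    ring
  rw [h2, av_sum]
  refine (Finset.sum_le_sum h1).trans (le_of_eq ?_)
  simp only [Finset.sum_const, Finset.card_range, nsmul_eq_mul]

theorem Fhat_mul (F : Finset (Fin n) → ℤ) (M : ℕ) (z : Fin n → Bool) :
    Fhat F M (fun v => (M : ℤ) * (if z v then 1 else 0)) = M * F (setOf z) := by
  classical
  unfold Fhat
  have h : ∀ i ∈ range M, F (univ.filter (fun v => ((i : ℤ) + 1)
      ≤ (M : ℤ) * (if z v then 1 else 0))) = F (setOf z) := by
    intro i hi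
    have hi' : i < M := by simpa using hi
    congr 1
    ext v
    simp only [mem_filter, mem_univ, true_and, setOf]
    have h1 : ¬ ((i : ℤ) + 1 ≤ 0) := by omega
    have h2 : ((i : ℤ) + 1 ≤ (M : ℤ)) := by omega
    cases z v
    · simp [h1]
    · simp [h2]
  rw [Finset.sum_congr rfl h]
  simp

/-- Comparison family in integer form. -/
theorem lower_int [NeZero m] (c M : ℕ) (F : Finset (Fin n) → ℤ) :
    ∃ z : (Fin n → Fin m) → Fin n → ℤ, (∀ v, Upto v fun U => z U v) ∧
      (∀ U v, 0 ≤ z U v) ∧ (∀ U v, z U v ≤ M) ∧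
      M * (c * logZ F - n * (1 + c * Real.logb 2 ((m : ℝ) + 1) / m))
        ≤ av fun U => ((∑ v, ee m c (U v) * z U v - c * Fhat F M (z U) : ℤ) : ℝ) := by
  obtain ⟨z, hz, h⟩ := lower_av (m := m) (n := n) c (fun z => -(F (setOf z) : ℝ))
  refine ⟨fun U v => (M : ℤ) * (if z U v then 1 else 0), ?_, ?_, ?_, ?_⟩
  · intro v a b hab
    have := hz v a b hab
    simp only at this
    simp only [this]
  · intro U v
    simp only
    cases z U v <;> simp
  · intro U v
    simp only
    cases z U v <;> simp
  · rw [sum_bool_eq] at h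
    have h2 : (fun U : Fin n → Fin m => ((∑ v, ee m c (U v)
          * ((M : ℤ) * (if z U v then 1 else 0))
          - c * Fhat F M (fun v => (M : ℤ) * (if z U v then 1 else 0)) : ℤ) : ℝ))
        = fun U => (M : ℝ) * (∑ v, (ee m c (U v) : ℝ) * bit (z U v)
          + c * (-(F (setOf (z U)) : ℝ))) := by
      funext U
      rw [Fhat_mul, mul_add, Finset.mul_sum]
      push_cast
      have : ∀ v, (ee m c (U v) : ℝ) * ((M : ℝ) * (if z U v = true then 1 else 0))
          = (M : ℝ) * ((ee m c (U v) : ℝ) * bit (z U v)) := by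
        intro v
        unfold bit
        ring
      simp only [this]
      ring
    rw [h2, av_smul]
    exact mul_le_mul_of_nonneg_left h (by positivity)

end threshold

end Pool.Agent.Lib.SubBisX.Bounds
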