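import Pool.Agent.Lib.SubBisX.TabDefs

/-!
The tables of `TabDefs` contain the iterates `Yit`, and `posV - negV` is `Val`.

PROOF. `el_congr`: `el m n R r o` depends on `R` on `[o, o + (n + 1) ^ r)` only. `low_wo`, `splice_wo`:
by definition. `off_child`: for `k ≤ n` and the world `X * (n + 1) + k`, one level down, `off` is the
offset of the parent for `k = 0` or `x < k`, and the offset of the row `k - 1` plus
`(x + 1) * (n + 1) ^ r` otherwise (`Nat.mul_add_mod`, `Nat.add_div`). `YN_eq` by induction on `r`.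
`base m n r (el m n R r o) = R o % m = R o`. `val_eq`: by induction on `r ≤ T`: the world
`low (... low (world))` of level `r` is `wo r (off n (T - r) r 0)`, and `off n j r 0 x =
x * (n + 1) ^ (r + j)`.
-/

namespace Pool.Agent.Lib.SubBisX.Tab

open Finset Pool.Agent.Lib.SubBisX.Reg Pool.Agent.Lib.SubBisX.Core

variable {n m : ℕ} {R : ℕ → ℕ}

theorem YN_le (c M T : ℕ) (G : Finset ℕ → ℕ) (R : ℕ → ℕ) (r X v : ℕ) :
    YN n m c M T G R r X v ≤ M := by
  cases r with
  | zero => exact Nat.zero_le _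
  | succ r => exact min_le_left _ _

theorem off_child (j r X k x : ℕ) (hk : k < n + 1) :
    off n (j + 1) r (X * (n + 1) + k) x =
      if k = 0 ∨ x < k then off n j (r + 1) X x
      else off n j (r + 1) X (k - 1) + (x + 1) * (n + 1) ^ r := by
  have h1 : (X * (n + 1) + k) % (n + 1) = k := by
    rw [mul_comm, Nat.mul_add_mod, Nat.mod_eq_of_lt hk]
  have h2 : (X * (n + 1) + k) / (n + 1) = X := by
    rw [mul_comm, Nat.mul_add_div (by omega), Nat.div_eq_of_lt hk, add_zero]
  rw [off, h1, h2]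

theorem off_zero (j r x : ℕ) : off n j r 0 x = x * (n + 1) ^ (r + j) := by
  induction j generalizing r with
  | zero => rfl
  | succ j ih =>
    rw [off, if_pos (Or.inl (Nat.zero_mod _)), Nat.zero_div, ih]
    congr 2
    omega

section

variable [NeZero m]

theorem low_wo (r : ℕ) (o : ℕ → ℕ) : low (wo m n R (r + 1) o) = wo m n R r o := rfl

theorem splice_wo (r : ℕ) (o : ℕ → ℕ) (v : Fin n) :
    splice v (low (wo m n R (r + 1) o)) (fresh (wo m n R (r + 1) o) v) =
      wo m n R r (fun x => if x ≤ (v : ℕ) then o x else o v + (x + 1) * (n + 1) ^ r) := by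
  funext x
  show (if x ≤ v then el m n R r (o x) else el m n R r (o v + ((x : ℕ) + 1) * (n + 1) ^ r)) =
    el m n R r (if (x : ℕ) ≤ (v : ℕ) then o x else o v + ((x : ℕ) + 1) * (n + 1) ^ r)
  by_cases h : x ≤ v
  · have h' : (x : ℕ) ≤ (v : ℕ) := h
    rw [if_pos h, if_pos h']
  · have h' : ¬ (x : ℕ) ≤ (v : ℕ) := h
    rw [if_neg h, if_neg h']

theorem base_el (hR : ∀ i, R i < m) (r o : ℕ) : (base m n r (el m n R r o) : ℕ) = R o := by
  induction r with
  | zero =>
    show R o % m = R o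
    exact Nat.mod_eq_of_lt (hR o)
  | succ r ih => exact ih

theorem wo_congr (r : ℕ) {o o' : ℕ → ℕ} (h : ∀ x < n, o x = o' x) :
    wo m n R r o = wo m n R r o' := by
  funext x
  show el m n R r (o x) = el m n R r (o' x)
  rw [h x x.isLt]

end

theorem map_Up {y : Fin n → ℤ} {yN : ℕ → ℕ} (h : ∀ x : Fin n, y x = yN x) (v : Fin n) :
    (Up y v).map Fin.valEmbedding = upS n yN v := by
  ext w
  simp only [Up, upS, mem_map, mem_filter, mem_univ, true_and, Fin.valEmbedding_apply, mem_range]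
  constructor
  · rintro ⟨x, hx, rfl⟩
    refine ⟨x.isLt, ?_⟩
    rw [h x, h v] at hx
    rcases hx with hx | ⟨hx, hx'⟩
    · left; exact_mod_cast hx
    · right; exact ⟨by exact_mod_cast hx, hx'⟩
  · rintro ⟨hw, hx⟩
    refine ⟨⟨w, hw⟩, ?_, rfl⟩
    rw [h ⟨w, hw⟩, h v]
    rcases hx with hx | ⟨hx, hx'⟩
    · left; exact_mod_cast hx
    · right; exact ⟨by exact_mod_cast hx, hx'⟩

theorem map_Upo {y : Fin n → ℤ} {yN : ℕ → ℕ} (h : ∀ x : Fin n, y x = yN x) (v : Fin n) :
    (Upo y v).map Fin.valEmbedding = upoS n yN v := by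
  ext w
  simp only [Upo, upoS, mem_map, mem_filter, mem_univ, true_and, Fin.valEmbedding_apply, mem_range]
  constructor
  · rintro ⟨x, hx, rfl⟩
    refine ⟨x.isLt, ?_⟩
    rw [h x, h v] at hx
    rcases hx with hx | ⟨hx, hx'⟩
    · left; exact_mod_cast hx
    · right; exact ⟨by exact_mod_cast hx, hx'⟩
  · rintro ⟨hw, hx⟩
    refine ⟨⟨w, hw⟩, ?_, rfl⟩
    rw [h ⟨w, hw⟩, h v]
    rcases hx with hx | ⟨hx, hx'⟩
    · left; exact_mod_cast hx
    · right; exact ⟨by exact_mod_cast hx, hx'⟩

theorem newY_eq (c M : ℕ) (G : Finset ℕ → ℕ) (y0 : ℕ) (u : Fin m) {y : Fin n → ℤ} {yN : ℕ → ℕ}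
    (h : ∀ x : Fin n, y x = yN x) (v : Fin n) :
    ((newY n m c M G y0 u yN v : ℕ) : ℤ) =
      clip (M : ℤ) ((y0 : ℤ) + gr c (GF G) v u y) := by
  unfold gr GF SubBis.ee newY clip
  rw [map_Up h, map_Upo h]
  generalize G (upS n yN v) = a
  generalize G (upoS n yN v) = b
  generalize Nat.log 2 ((m - (u : ℕ)) ^ c) = P
  generalize Nat.log 2 (((u : ℕ) + 1) ^ c) = Q
  have h1 : (c : ℤ) * ((a : ℤ) - (b : ℤ)) = ((c * a : ℕ) : ℤ) - ((c * b : ℕ) : ℤ) := by
    push_cast; ring
  rw [h1]
  generalize c * a = ca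
  generalize c * b = cb
  omega

variable [NeZero m]

theorem YN_eq (hR : ∀ i, R i < m) (c M T : ℕ) (G : Finset ℕ → ℕ) (r j X : ℕ) (h : r + j = T)
    (v : Fin n) :
    (YN n m c M T G R r X v : ℤ) =
      Yit (M : ℤ) (gr c (GF G)) r (wo m n R r (off n j r X)) v := by
  induction r generalizing j X v with
  | zero => rfl
  | succ r ih =>
    have hj : T - (r + 1) = j := by omega
    have e1 : wo m n R r (off n j (r + 1) X) = wo m n R r (off n (j + 1) r (X * (n + 1))) := by
      apply wo_congr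
      intro x _
      have := off_child (n := n) j r X 0 x (by omega)
      rw [add_zero] at this
      rw [this, if_pos (Or.inl rfl)]
    have e2 : splice v (low (wo m n R (r + 1) (off n j (r + 1) X)))
        (fresh (wo m n R (r + 1) (off n j (r + 1) X)) v) =
        wo m n R r (off n (j + 1) r (X * (n + 1) + ((v : ℕ) + 1))) := by
      rw [splice_wo]
      apply wo_congr
      intro x _
      rw [off_child j r X ((v : ℕ) + 1) x (by have := v.isLt; omega)]
      by_cases hx : x ≤ (v : ℕ)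
      · rw [if_pos hx, if_pos (Or.inr (by omega))]
      · rw [if_neg hx, if_neg (by omega)]
        rfl
    have e3 : (base m n r ((wo m n R (r + 1) (off n j (r + 1) X) v).1) : ℕ)
        = R (off n j (r + 1) X v) := base_el hR r _
    show _ = clip (M : ℤ) (Yit (M : ℤ) (gr c (GF G)) r
        (low (wo m n R (r + 1) (off n j (r + 1) X))) v +
      gr c (GF G) v (base m n r ((wo m n R (r + 1) (off n j (r + 1) X) v).1))
        (Yit (M : ℤ) (gr c (GF G)) r (splice v (low (wo m n R (r + 1) (off n j (r + 1) X)))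
        (fresh (wo m n R (r + 1) (off n j (r + 1) X)) v))))
    rw [e2, low_wo, e1, ← ih (j + 1) (X * (n + 1)) (by omega) v]
    rw [← newY_eq (m := m) c M G (YN n m c M T G R r (X * (n + 1)) v)
      (base m n r ((wo m n R (r + 1) (off n j (r + 1) X) v).1))
      (yN := YN n m c M T G R r (X * (n + 1) + ((v : ℕ) + 1)))
      (fun x => (ih (j + 1) (X * (n + 1) + ((v : ℕ) + 1)) (by omega) x).symm) v]
    rw [e3, YN, hj]

/-- the sums of one level -/
theorem phi_level (hR : ∀ i, R i < m) (c M T : ℕ) (G : Finset ℕ → ℕ) (r : ℕ) (hr : r ≤ T) :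
    ((∑ v ∈ range n, Nat.log 2 ((m - R (v * (n + 1) ^ T)) ^ c) * YN n m c M T G R r 0 v : ℕ) : ℤ) -
      ((∑ v ∈ range n, Nat.log 2 ((R (v * (n + 1) ^ T) + 1) ^ c) * YN n m c M T G R r 0 v +
      c * ∑ i ∈ range M, G ((range n).filter fun w => i < YN n m c M T G R r 0 w) : ℕ) : ℤ) =
    Phi c M (GF G) (dig r (wo m n R r (off n (T - r) r 0)))
      (Yit (M : ℤ) (gr c (GF G)) r (wo m n R r (off n (T - r) r 0))) := by
  have hy : ∀ v : Fin n, Yit (M : ℤ) (gr c (GF G)) r (wo m n R r (off n (T - r) r 0)) v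
      = YN n m c M T G R r 0 v := fun v => (YN_eq hR c M T G r (T - r) 0 (by omega) v).symm
  have hd : ∀ v : Fin n, (dig r (wo m n R r (off n (T - r) r 0)) v : ℕ)
      = R ((v : ℕ) * (n + 1) ^ T) := by
    intro v
    have h1 : (dig r (wo m n R r (off n (T - r) r 0)) v : ℕ) = R (off n (T - r) r 0 v) :=
      base_el hR r _
    rw [h1, off_zero]
    congr 3
    omega
  unfold Phi
  have e1 : ∑ v : Fin n, SubBis.ee m c (dig r (wo m n R r (off n (T - r) r 0)) v) *
      Yit (M : ℤ) (gr c (GF G)) r (wo m n R r (off n (T - r) r 0)) v =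
      ∑ v ∈ range n, ((Nat.log 2 ((m - R (v * (n + 1) ^ T)) ^ c) : ℤ) * YN n m c M T G R r 0 v -
        (Nat.log 2 ((R (v * (n + 1) ^ T) + 1) ^ c) : ℤ) * YN n m c M T G R r 0 v) := by
    rw [Finset.sum_range]
    refine Finset.sum_congr rfl fun v _ => ?_
    rw [hy v]
    unfold SubBis.ee
    rw [hd v]
    ring
  have e2 : ∑ i ∈ Icc 1 M, GF G (univ.filter fun w : Fin n => (i : ℤ) ≤
      Yit (M : ℤ) (gr c (GF G)) r (wo m n R r (off n (T - r) r 0)) w) =
      ∑ i ∈ range M, (G ((range n).filter fun w => i < YN n m c M T G R r 0 w) : ℤ) := by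
    refine Finset.sum_bij' (fun i _ => i - 1) (fun i _ => i + 1) ?_ ?_ ?_ ?_ ?_
    · intro i hi; simp at hi ⊢; omega
    · intro i hi; simp at hi ⊢; omega
    · intro i hi; simp at hi; omega
    · intro i hi; simp
    · intro i hi
      have hi' : 1 ≤ i ∧ i ≤ M := by simpa using hi
      show ((G ((univ.filter fun w : Fin n => (i : ℤ) ≤
        Yit (M : ℤ) (gr c (GF G)) r (wo m n R r (off n (T - r) r 0)) w).map
          Fin.valEmbedding) : ℕ) : ℤ) = _
      congr 2
      ext w
      simp only [mem_map, mem_filter, mem_univ, true_and, Fin.valEmbedding_apply, mem_range]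
      constructor
      · rintro ⟨x, hx, rfl⟩
        refine ⟨x.isLt, ?_⟩
        rw [hy x] at hx
        have : i ≤ YN n m c M T G R r 0 x := by exact_mod_cast hx
        omega
      · rintro ⟨hw, hx⟩
        refine ⟨⟨w, hw⟩, ?_, rfl⟩
        rw [hy ⟨w, hw⟩]
        have : i ≤ YN n m c M T G R r 0 w := by omega
        exact_mod_cast this
  rw [e1, e2, Finset.sum_sub_distrib]
  push_cast
  ring

theorem val_level (hR : ∀ i, R i < m) (c M T : ℕ) (G : Finset ℕ → ℕ) (r : ℕ) (hr : r ≤ T) :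
    Val c M (GF G) r (wo m n R r (off n (T - r) r 0)) =
      ∑ s ∈ range r, (((∑ v ∈ range n, Nat.log 2 ((m - R (v * (n + 1) ^ T)) ^ c) *
        YN n m c M T G R s 0 v : ℕ) : ℤ) -
      ((∑ v ∈ range n, Nat.log 2 ((R (v * (n + 1) ^ T) + 1) ^ c) * YN n m c M T G R s 0 v +
      c * ∑ i ∈ range M, G ((range n).filter fun w => i < YN n m c M T G R s 0 w) : ℕ) : ℤ)) := by
  induction r with
  | zero => rfl
  | succ r ih =>
    rw [Finset.sum_range_succ, ← ih (by omega), phi_level hR c M T G r (by omega)]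
    have e1 : low (wo m n R (r + 1) (off n (T - (r + 1)) (r + 1) 0))
        = wo m n R r (off n (T - r) r 0) := by
      rw [low_wo]
      apply wo_congr
      intro x _
      rw [off_zero, off_zero]
      congr 2
      omega
    show Val c M (GF G) r (low (wo m n R (r + 1) (off n (T - (r + 1)) (r + 1) 0))) +
      Phi c M (GF G) (dig r (low (wo m n R (r + 1) (off n (T - (r + 1)) (r + 1) 0))))
        (Yit (M : ℤ) (gr c (GF G)) r (low (wo m n R (r + 1) (off n (T - (r + 1)) (r + 1) 0)))) = _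
    rw [e1]

theorem val_eq (hR : ∀ i, R i < m) (c M T : ℕ) (G : Finset ℕ → ℕ) :
    (posV n m c M T G R : ℤ) - negV n m c M T G R = Val c M (GF G) T (world m n R T) := by
  have h := val_level (n := n) hR c M T G T le_rfl
  have e1 : wo m n R T (off n (T - T) T 0) = world m n R T := by
    apply wo_congr
    intro x _
    rw [off_zero]
    congr 2
    omega
  rw [e1] at h
  rw [h, Finset.sum_sub_distrib]
  unfold posV negV
  push_cast
  rfl

end Pool.Agent.Lib.SubBisX.Tab
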