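import Pool.Agent.Lib.SubBisX.AccTabDefs
import Pool.Agent.Lib.SubBisX.TabBridge

/-!
The tables of `AccTabDefs` contain the states `St`, and `posA - negA` is the objective.

PROOF (as TabBridge.lean). Put `el r o := (decXN m n s N r fun k => d (o + k)).1`,
`wo r o : Fin n → XA m n s N r := fun v => el r (o v)`, `C = s * n + 1`.
`low (wo (r + 1) o) = wo r o`; `splice v (low w) (wd (smp w v i)) = wo r fun x => if x ≤ v then o x
else o v + (1 + i * n + x) * C ^ r` for `w = wo (r + 1) o`; `nz (smp w v i) x = Z (o v + (1 + i * n + x)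
* C ^ r)` (the own noise of a block is the noise of its first entry: induction on `r`), the digit
`base (wo r o v) = D (o v)`. `offA_child`: for `k < C` and the world `X * C + k`, one level down, as the
definition. Then `stN_eq` by induction on `r`, for all `j X` with `r + j = T`:
`((stN .. r X v).1 : ℤ) = (St M (gr c (GF G)) r (wo r (offA n s j r X))).1 v` and the same for `.2`
(`newY_eq` of TabBridge shows how `clip` and the truncated subtraction fit; `map_Up`, `map_Upo` are
there; `Finset.sum_range` for the sum over `i : Fin s`; `Int.natCast_div` for `qy`).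
`valA_eq`: as `phi_level` of TabBridge.
-/

namespace Pool.Agent.Lib.SubBisX.AccTab

open Finset Pool.Agent.Lib.SubBisX.Reg Pool.Agent.Lib.SubBisX.Core Pool.Agent.Lib.SubBisX.Acc
open Pool.Agent.Lib.SubBisX.Tab Pool.Agent.Lib.SubBisX.Seed

variable {m n s N : ℕ}

theorem stN_le (c M T : ℕ) (G : Finset ℕ → ℕ) (D Z : ℕ → ℕ) (r X v : ℕ) :
    (stN n m s c M T G D Z r X v).1 ≤ M ∧ (stN n m s c M T G D Z r X v).2 ≤ wt r * M := by
  induction r generalizing X v with
  | zero => exact ⟨Nat.zero_le _, Nat.zero_le _⟩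
  | succ r ih =>
    obtain ⟨-, h2⟩ := ih (X * (s * n + 1)) v
    have h3 : (stN n m s c M T G D Z (r + 1) X v).1 ≤ M := min_le_left _ _
    refine ⟨h3, ?_⟩
    have h4 : (stN n m s c M T G D Z (r + 1) X v).2 = (stN n m s c M T G D Z r (X * (s * n + 1)) v).2 +
      (r + 1) * (stN n m s c M T G D Z (r + 1) X v).1 := rfl
    rw [h4, wt_succ]
    calc (stN n m s c M T G D Z r (X * (s * n + 1)) v).2 +
          (r + 1) * (stN n m s c M T G D Z (r + 1) X v).1
        ≤ wt r * M + (r + 1) * M := add_le_add h2 (Nat.mul_le_mul_left _ h3)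
      _ = (wt r + (r + 1)) * M := (add_mul _ _ _).symm

namespace BridgeAux

theorem offA_child (j r X k x : ℕ) (hk : k < s * n + 1) :
    offA n s (j + 1) r (X * (s * n + 1) + k) x =
      if k = 0 ∨ x ≤ (k - 1) / s then offA n s j (r + 1) X x
      else offA n s j (r + 1) X ((k - 1) / s) + (1 + (k - 1) % s * n + x) * (s * n + 1) ^ r := by
  have h1 : (X * (s * n + 1) + k) % (s * n + 1) = k := by
    rw [mul_comm, Nat.mul_add_mod, Nat.mod_eq_of_lt hk]
  have h2 : (X * (s * n + 1) + k) / (s * n + 1) = X := by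
    rw [mul_comm, Nat.mul_add_div (by omega), Nat.div_eq_of_lt hk, add_zero]
  rw [offA, h1, h2]

theorem child_lt {v i : ℕ} (hv : v < n) (hi : i < s) : 1 + v * s + i < s * n + 1 := by
  have h : (v + 1) * s ≤ n * s := Nat.mul_le_mul_right _ hv
  rw [add_mul, one_mul, mul_comm n s] at h
  omega

theorem offA_sample (j r X v i x : ℕ) (hv : v < n) (hi : i < s) :
    offA n s (j + 1) r (X * (s * n + 1) + (1 + v * s + i)) x =
      if x ≤ v then offA n s j (r + 1) X x
      else offA n s j (r + 1) X v + (1 + i * n + x) * (s * n + 1) ^ r := by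
  have hs : 0 < s := by omega
  have h1 : (1 + v * s + i - 1) / s = v := by
    have h : 1 + v * s + i - 1 = s * v + i := by rw [mul_comm s v]; omega
    rw [h, Nat.mul_add_div hs, Nat.div_eq_of_lt hi, add_zero]
  have h2 : (1 + v * s + i - 1) % s = i := by
    have h : 1 + v * s + i - 1 = s * v + i := by rw [mul_comm s v]; omega
    rw [h, Nat.mul_add_mod, Nat.mod_eq_of_lt hi]
  rw [offA_child j r X _ x (child_lt hv hi), h1, h2]
  by_cases h : x ≤ v
  · rw [if_pos (Or.inr h), if_pos h]
  · rw [if_neg (by omega), if_neg h]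

theorem offA_low (j r X x : ℕ) :
    offA n s (j + 1) r (X * (s * n + 1)) x = offA n s j (r + 1) X x := by
  have h := offA_child (n := n) (s := s) j r X 0 x (Nat.succ_pos _)
  rw [add_zero] at h
  rw [h, if_pos (Or.inl rfl)]

theorem offA_zero (j r x : ℕ) : offA n s j r 0 x = x * (s * n + 1) ^ (r + j) := by
  induction j generalizing r with
  | zero => rfl
  | succ j ih =>
    rw [offA, if_pos (Or.inl (Nat.zero_mod _)), Nat.zero_div, ih]
    congr 2
    omega

/-- The element coded by the entries starting at `o`. -/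
def el (n s : ℕ) (d : ℕ → Fin m × Fin N) (r o : ℕ) : XA m n s N r :=
  (decXN m n s N r fun k => d (o + k)).1

/-- The world whose rows start at the positions `o`. -/
def wo (n s : ℕ) (d : ℕ → Fin m × Fin N) (r : ℕ) (o : ℕ → ℕ) : Fin n → XA m n s N r :=
  fun v => el n s d r (o v)

theorem dec_snd (r : ℕ) (e : ℕ → Fin m × Fin N) : (decXN m n s N r e).2 = (e 0).2 := by
  induction r generalizing e with
  | zero => rfl
  | succ r ih => exact ih e

theorem base_dec (r : ℕ) (e : ℕ → Fin m × Fin N) :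
    base m n s N r (decXN m n s N r e).1 = (e 0).1 := by
  induction r generalizing e with
  | zero => rfl
  | succ r ih => exact ih e

theorem base_el (d : ℕ → Fin m × Fin N) (r o : ℕ) : base m n s N r (el n s d r o) = (d o).1 :=
  base_dec r _

theorem wo_congr (d : ℕ → Fin m × Fin N) (r : ℕ) {o o' : ℕ → ℕ} (h : ∀ x < n, o x = o' x) :
    wo n s d r o = wo n s d r o' := by
  funext x
  show el n s d r (o x) = el n s d r (o' x)
  rw [h x x.isLt]

theorem low_wo (d : ℕ → Fin m × Fin N) (r : ℕ) (o : ℕ → ℕ) :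
    low (wo n s d (r + 1) o) = wo n s d r o := rfl

theorem smp_wo (d : ℕ → Fin m × Fin N) (r : ℕ) (o : ℕ → ℕ) (v : Fin n) (i : Fin s) (x : Fin n) :
    smp (wo n s d (r + 1) o) v i x =
      decXN m n s N r fun k => d (o v + (1 + i * n + x) * (s * n + 1) ^ r + k) := by
  show decXN m n s N r (fun k => d (o v + ((1 + i * n + x) * (s * n + 1) ^ r + k))) = _
  congr 1
  funext k
  exact congrArg d (add_assoc _ _ _).symm

theorem splice_wo (d : ℕ → Fin m × Fin N) (r : ℕ) (o : ℕ → ℕ) (v : Fin n) (i : Fin s) :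
    splice v (low (wo n s d (r + 1) o)) (wd (smp (wo n s d (r + 1) o) v i)) =
      wo n s d r (fun x => if x ≤ (v : ℕ) then o x
        else o v + (1 + i * n + x) * (s * n + 1) ^ r) := by
  funext x
  show (if x ≤ v then el n s d r (o x) else (smp (wo n s d (r + 1) o) v i x).1) =
    el n s d r (if (x : ℕ) ≤ (v : ℕ) then o x else o v + (1 + i * n + x) * (s * n + 1) ^ r)
  by_cases h : x ≤ v
  · have h' : (x : ℕ) ≤ (v : ℕ) := h
    rw [if_pos h, if_pos h']
  · have h' : ¬ (x : ℕ) ≤ (v : ℕ) := h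
    rw [if_neg h, if_neg h', smp_wo]
    rfl

theorem nz_wo (d : ℕ → Fin m × Fin N) (r : ℕ) (o : ℕ → ℕ) (v : Fin n) (i : Fin s) (x : Fin n) :
    nz (smp (wo n s d (r + 1) o) v i) x =
      (((d (o v + (1 + i * n + x) * (s * n + 1) ^ r)).2 : ℕ) : ℤ) := by
  show (((smp (wo n s d (r + 1) o) v i x).2 : ℕ) : ℤ) = _
  rw [smp_wo, dec_snd, add_zero]

theorem St_fst (M : ℤ) (g : Fin n → Fin m → (Fin n → ℤ) → ℤ) (r : ℕ)
    (w : Fin n → XA m n s N (r + 1)) (v : Fin n) :
    (St M g (r + 1) w).1 v = clip M ((St M g r (low w)).1 v + (r + 1 : ℕ) *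
      ∑ i : Fin s, sg g (St M g r) v (low w) (smp w v i)) := rfl

theorem St_snd (M : ℤ) (g : Fin n → Fin m → (Fin n → ℤ) → ℤ) (r : ℕ)
    (w : Fin n → XA m n s N (r + 1)) (v : Fin n) :
    (St M g (r + 1) w).2 v = (St M g r (low w)).2 v + (r + 1 : ℕ) * (St M g (r + 1) w).1 v := rfl

theorem newZ_eq (c M t : ℕ) (G : Finset ℕ → ℕ) (z0 : ℕ) (u : Fin m) {y : Fin s → Fin n → ℤ}
    {yN : ℕ → ℕ → ℕ} (h : ∀ (i : Fin s) (x : Fin n), y i x = yN i x) (v : Fin n) :
    ((newZ n m s c M t G z0 u yN v : ℕ) : ℤ) =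
      clip (M : ℤ) ((z0 : ℤ) + (t : ℕ) * ∑ i : Fin s, gr c (GF G) v u (y i)) := by
  have h1 : ∑ i : Fin s, gr c (GF G) v u (y i) =
      ((∑ i ∈ range s, (Nat.log 2 ((m - u) ^ c) + c * G (upoS n (yN i) v)) : ℕ) : ℤ) -
      ((∑ i ∈ range s, (Nat.log 2 ((u + 1) ^ c) + c * G (upS n (yN i) v)) : ℕ) : ℤ) := by
    rw [Finset.sum_range, Finset.sum_range]
    push_cast
    rw [← Finset.sum_sub_distrib]
    refine Finset.sum_congr rfl fun i _ => ?_
    unfold gr GF SubBis.ee
    rw [map_Up (h i), map_Upo (h i)]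
    ring
  rw [h1]
  unfold newZ clip
  generalize (∑ i ∈ range s, (Nat.log 2 ((m - u) ^ c) + c * G (upoS n (yN i) v))) = A
  generalize (∑ i ∈ range s, (Nat.log 2 ((u + 1) ^ c) + c * G (upS n (yN i) v))) = B
  have h2 : (t : ℤ) * ((A : ℤ) - (B : ℤ)) = ((t * A : ℕ) : ℤ) - ((t * B : ℕ) : ℤ) := by
    push_cast; ring
  rw [h2]
  generalize t * A = tA
  generalize t * B = tB
  omega

theorem stN_wo (c M T : ℕ) (G : Finset ℕ → ℕ) (d : ℕ → Fin m × Fin N) (r j X : ℕ)
    (h : r + j = T) (v : Fin n) :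
    ((stN n m s c M T G (fun j => (d j).1) (fun j => (d j).2) r X v).1 : ℤ) =
        (St (M : ℤ) (gr c (GF G)) r (wo n s d r (offA n s j r X))).1 v ∧
      ((stN n m s c M T G (fun j => (d j).1) (fun j => (d j).2) r X v).2 : ℤ) =
        (St (M : ℤ) (gr c (GF G)) r (wo n s d r (offA n s j r X))).2 v := by
  induction r generalizing j X v with
  | zero => exact ⟨rfl, rfl⟩
  | succ r ih =>
    have hj : T - (r + 1) = j := by omega
    have e1 : wo n s d r (offA n s j (r + 1) X) =
        wo n s d r (offA n s (j + 1) r (X * (s * n + 1))) :=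
      wo_congr d r fun x _ => (offA_low j r X x).symm
    have e2 : ∀ i : Fin s, splice v (low (wo n s d (r + 1) (offA n s j (r + 1) X)))
        (wd (smp (wo n s d (r + 1) (offA n s j (r + 1) X)) v i)) =
        wo n s d r (offA n s (j + 1) r (X * (s * n + 1) + (1 + (v : ℕ) * s + i))) := by
      intro i
      rw [splice_wo]
      exact wo_congr d r fun x _ => (offA_sample j r X v i x v.isLt i.isLt).symm
    obtain ⟨h1, h2⟩ := ih (j + 1) (X * (s * n + 1)) (by omega) v
    rw [← e1] at h1 h2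
    have hsum : ∑ i : Fin s, sg (gr c (GF G)) (St (M : ℤ) (gr c (GF G)) r) v
          (low (wo n s d (r + 1) (offA n s j (r + 1) X)))
          (smp (wo n s d (r + 1) (offA n s j (r + 1) X)) v i) =
        ∑ i : Fin s, gr c (GF G) v (d (offA n s j (r + 1) X v)).1
          (fun x : Fin n => ((((stN n m s c M T G (fun j => (d j).1) (fun j => (d j).2) r
              (X * (s * n + 1) + (1 + (v : ℕ) * s + i)) x).2 +
            (r + 1) * (stN n m s c M T G (fun j => (d j).1) (fun j => (d j).2) r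
              (X * (s * n + 1) + (1 + (v : ℕ) * s + i)) x).1) / wt (r + 1) +
            ((d (offA n s j (r + 1) X v + (1 + i * n + x) * (s * n + 1) ^ r)).2 : ℕ) : ℕ) : ℤ)) := by
      refine Finset.sum_congr rfl fun i _ => ?_
      unfold sg
      have e3 : base m n s N r (low (wo n s d (r + 1) (offA n s j (r + 1) X)) v) =
          (d (offA n s j (r + 1) X v)).1 := base_el d r _
      rw [e3, e2 i]
      congr 1
      funext x
      rw [nz_wo]
      obtain ⟨h3, h4⟩ := ih (j + 1) (X * (s * n + 1) + (1 + (v : ℕ) * s + i)) (by omega) x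
      show ((St (M : ℤ) (gr c (GF G)) r _).2 x + (r + 1 : ℕ) *
        (St (M : ℤ) (gr c (GF G)) r _).1 x) / (wt (r + 1) : ℤ) + _ = _
      rw [← h3, ← h4]
      push_cast
      rfl
    have hz : ((stN n m s c M T G (fun j => (d j).1) (fun j => (d j).2) (r + 1) X v).1 : ℤ) =
        (St (M : ℤ) (gr c (GF G)) (r + 1) (wo n s d (r + 1) (offA n s j (r + 1) X))).1 v := by
      rw [St_fst, hsum, low_wo, ← h1]
      rw [← newZ_eq c M (r + 1) G _ (d (offA n s j (r + 1) X v)).1
        (yN := fun i x => ((stN n m s c M T G (fun j => (d j).1) (fun j => (d j).2) r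
              (X * (s * n + 1) + (1 + (v : ℕ) * s + i)) x).2 +
            (r + 1) * (stN n m s c M T G (fun j => (d j).1) (fun j => (d j).2) r
              (X * (s * n + 1) + (1 + (v : ℕ) * s + i)) x).1) / wt (r + 1) +
            ((d (offA n s j (r + 1) X v + (1 + i * n + x) * (s * n + 1) ^ r)).2 : ℕ))
        (fun _ _ => rfl) v]
      rw [stN, hj]
    refine ⟨hz, ?_⟩
    rw [St_snd, ← hz, low_wo, ← h2]
    have h5 : (stN n m s c M T G (fun j => (d j).1) (fun j => (d j).2) (r + 1) X v).2 =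
      (stN n m s c M T G (fun j => (d j).1) (fun j => (d j).2) r (X * (s * n + 1)) v).2 +
      (r + 1) * (stN n m s c M T G (fun j => (d j).1) (fun j => (d j).2) (r + 1) X v).1 := rfl
    rw [h5]
    push_cast
    rfl

theorem wo_top (T : ℕ) (d : ℕ → Fin m × Fin N) :
    wo n s d T (offA n s 0 T 0) = wd (decWN m n s N T d) := rfl

end BridgeAux

open BridgeAux

theorem stN_eq (c M T : ℕ) (G : Finset ℕ → ℕ) (d : ℕ → Fin m × Fin N) (v : Fin n) :
    ((stN n m s c M T G (fun j => (d j).1) (fun j => (d j).2) T 0 v).1 : ℤ) =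
        (St (M : ℤ) (gr c (GF G)) T (wd (decWN m n s N T d))).1 v ∧
      ((stN n m s c M T G (fun j => (d j).1) (fun j => (d j).2) T 0 v).2 : ℤ) =
        (St (M : ℤ) (gr c (GF G)) T (wd (decWN m n s N T d))).2 v := by
  have h := stN_wo (n := n) (s := s) c M T G d T 0 0 (add_zero T) v
  rw [wo_top] at h
  exact h

theorem valA_eq (c M T : ℕ) (G : Finset ℕ → ℕ) (d : ℕ → Fin m × Fin N) :
    (posA n m s c M T G (fun j => (d j).1) (fun j => (d j).2) : ℤ) -
        negA n m s c M T G (fun j => (d j).1) (fun j => (d j).2) =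
      Phi c M (GF G) (dig T (wd (decWN m n s N T d)))
        (xo (M : ℤ) (gr c (GF G)) T (wd (decWN m n s N T d))) := by
  set w := wd (decWN m n s N T d) with hw
  have hy : ∀ v : Fin n, xo (M : ℤ) (gr c (GF G)) T w v =
      xoN n m s c M T G (fun j => (d j).1) (fun j => (d j).2) v := by
    intro v
    obtain ⟨-, h2⟩ := stN_eq (n := n) (s := s) c M T G d v
    show (St (M : ℤ) (gr c (GF G)) T w).2 v / (wt T : ℤ) = _
    rw [← h2]
    unfold xoN
    push_cast
    rfl
  have hd : ∀ v : Fin n, (dig T w v : ℕ) = ((d ((v : ℕ) * (s * n + 1) ^ T)).1 : ℕ) := by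
    intro v
    have h1 : dig T w v = (d ((v : ℕ) * (s * n + 1) ^ T)).1 := base_el d T _
    rw [h1]
  unfold Phi posA negA
  have e1 : ∑ v : Fin n, SubBis.ee m c (dig T w v) * xo (M : ℤ) (gr c (GF G)) T w v =
      ∑ v ∈ range n, ((Nat.log 2 ((m - ((d (v * (s * n + 1) ^ T)).1 : ℕ)) ^ c) : ℤ) *
          xoN n m s c M T G (fun j => (d j).1) (fun j => (d j).2) v -
        (Nat.log 2 ((((d (v * (s * n + 1) ^ T)).1 : ℕ) + 1) ^ c) : ℤ) *
          xoN n m s c M T G (fun j => (d j).1) (fun j => (d j).2) v) := by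
    rw [Finset.sum_range]
    refine Finset.sum_congr rfl fun v _ => ?_
    rw [hy v]
    unfold SubBis.ee
    rw [hd v]
    ring
  have e2 : ∑ i ∈ Icc 1 M, GF G (univ.filter fun x : Fin n => (i : ℤ) ≤
      xo (M : ℤ) (gr c (GF G)) T w x) =
      ∑ i ∈ range M, (G ((range n).filter fun x =>
        i < xoN n m s c M T G (fun j => (d j).1) (fun j => (d j).2) x) : ℤ) := by
    refine Finset.sum_bij' (fun i _ => i - 1) (fun i _ => i + 1) ?_ ?_ ?_ ?_ ?_
    · intro i hi; simp at hi ⊢; omega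
    · intro i hi; simp at hi ⊢; omega
    · intro i hi; simp at hi; omega
    · intro i hi; simp
    · intro i hi
      have hi' : 1 ≤ i ∧ i ≤ M := by simpa using hi
      show ((G ((univ.filter fun x : Fin n => (i : ℤ) ≤
        xo (M : ℤ) (gr c (GF G)) T w x).map Fin.valEmbedding) : ℕ) : ℤ) = _
      congr 2
      ext x
      simp only [mem_map, mem_filter, mem_univ, true_and, Fin.valEmbedding_apply, mem_range]
      constructor
      · rintro ⟨x, hx, rfl⟩
        refine ⟨x.isLt, ?_⟩
        rw [hy x] at hx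
        have : i ≤ xoN n m s c M T G (fun j => (d j).1) (fun j => (d j).2) x := by exact_mod_cast hx
        omega
      · rintro ⟨hx', hx⟩
        refine ⟨⟨x, hx'⟩, ?_, rfl⟩
        rw [hy ⟨x, hx'⟩]
        have : i ≤ xoN n m s c M T G (fun j => (d j).1) (fun j => (d j).2) x := by omega
        exact_mod_cast this
  rw [e1, e2, Finset.sum_sub_distrib]
  push_cast
  ring

end Pool.Agent.Lib.SubBisX.AccTab
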