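import Pool.Agent.Lib.SubBisX.CoreDefs

/-!
The stochastic supergradient method as a computation with tables of natural numbers.

The random string is a sequence `R 0, R 1, …` of `n * (n + 1) ^ T` digits. A world of level `T` has
`n` rows of `(n + 1) ^ T` digits. It has `n + 1` children of level `T - 1`, and so on; the worlds of
level `r` below it are numbered by `X < (n + 1) ^ (T - r)`, the children of the world `X` are
`X * (n + 1) + k`, `k ≤ n`: the child `0` is the world `low`, the child `v + 1` is the world `low`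
up to `v`, continued by the fresh rows at `v`.
-/

namespace Pool.Agent.Lib.SubBisX.Tab

open Finset Pool.Agent.Lib.SubBisX.Reg Pool.Agent.Lib.SubBisX.Core

/-- The position of the first digit of the row `x` of the world `X` of level `r`, `j` levels below
the top. -/
def off (n : ℕ) : ℕ → ℕ → ℕ → ℕ → ℕ
  | 0, r, _, x => x * (n + 1) ^ r
  | j + 1, r, X, x =>
    if X % (n + 1) = 0 ∨ x < X % (n + 1) then off n j (r + 1) (X / (n + 1)) x
    else off n j (r + 1) (X / (n + 1)) (X % (n + 1) - 1) + (x + 1) * (n + 1) ^ r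

/-- the elements before and including `v` in the order of decreasing `y` -/
def upS (n : ℕ) (y : ℕ → ℕ) (v : ℕ) : Finset ℕ :=
  (range n).filter fun w => y v < y w ∨ (y w = y v ∧ w ≤ v)

/-- the elements before `v` in the order of decreasing `y` -/
def upoS (n : ℕ) (y : ℕ → ℕ) (v : ℕ) : Finset ℕ :=
  (range n).filter fun w => y v < y w ∨ (y w = y v ∧ w < v)

/-- The new value at `v`: old value `y0`, digit `u`, values `y` of the continued world. -/
def newY (n m c M : ℕ) (G : Finset ℕ → ℕ) (y0 u : ℕ) (y : ℕ → ℕ) (v : ℕ) : ℕ :=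
  min M ((y0 + Nat.log 2 ((m - u) ^ c) + c * G (upoS n y v)) -
    (Nat.log 2 ((u + 1) ^ c) + c * G (upS n y v)))

/-- The value at `v` of the `r`-th iterate in the world `X` of level `r`. -/
def YN (n m c M T : ℕ) (G : Finset ℕ → ℕ) (R : ℕ → ℕ) : ℕ → ℕ → ℕ → ℕ
  | 0, _, _ => 0
  | r + 1, X, v => newY n m c M G (YN n m c M T G R r (X * (n + 1)) v)
      (R (off n (T - (r + 1)) (r + 1) X v)) (YN n m c M T G R r (X * (n + 1) + (v + 1))) v

/-- The positive part of the sum of the objectives. -/
def posV (n m c M T : ℕ) (G : Finset ℕ → ℕ) (R : ℕ → ℕ) : ℕ :=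
  ∑ r ∈ range T, ∑ v ∈ range n,
    Nat.log 2 ((m - R (v * (n + 1) ^ T)) ^ c) * YN n m c M T G R r 0 v

/-- The negative part of the sum of the objectives. -/
def negV (n m c M T : ℕ) (G : Finset ℕ → ℕ) (R : ℕ → ℕ) : ℕ :=
  ∑ r ∈ range T, (∑ v ∈ range n,
    Nat.log 2 ((R (v * (n + 1) ^ T) + 1) ^ c) * YN n m c M T G R r 0 v +
      c * ∑ i ∈ range M, G ((range n).filter fun w => i < YN n m c M T G R r 0 w))

/-- The set function on the subsets of `Fin n`. -/
def GF {n : ℕ} (G : Finset ℕ → ℕ) (S : Finset (Fin n)) : ℤ := G (S.map Fin.valEmbedding)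

/-- The element of `XW m n r` coded by the digits starting at `o`. -/
def el (m n : ℕ) [NeZero m] (R : ℕ → ℕ) : ∀ r, ℕ → XW m n r
  | 0, o => (⟨R o % m, Nat.mod_lt _ (NeZero.pos m)⟩ : Fin m)
  | r + 1, o => (el m n R r o, fun x : Fin n => el m n R r (o + ((x : ℕ) + 1) * (n + 1) ^ r))

/-- The world of level `r` whose rows start at the positions `o`. -/
def wo (m n : ℕ) [NeZero m] (R : ℕ → ℕ) (r : ℕ) (o : ℕ → ℕ) : Fin n → XW m n r :=
  fun v => el m n R r (o v)

/-- The world coded by the string. -/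
def world (m n : ℕ) [NeZero m] (R : ℕ → ℕ) (T : ℕ) : Fin n → XW m n T :=
  wo m n R T fun v => v * (n + 1) ^ T

/-- A sequence from a finite string. -/
def ext {L m : ℕ} (D : Fin L → Fin m) (i : ℕ) : ℕ := if h : i < L then (D ⟨i, h⟩ : ℕ) else 0

end Pool.Agent.Lib.SubBisX.Tab
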