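import Pool.Agent.Lib.SubBisX.AccDefs
import Pool.Agent.Lib.SubBisX.Seed
import Pool.Agent.Lib.SubBisX.TabDefs

/-!
# The accelerated method as a computation with tables of natural numbers

LAYOUT. `C = s * n + 1`. An element of `XA m n s N r × Fin N` is coded by `C ^ r` entries
`(digit, noise)`: the first block of `C ^ (r - 1)` entries codes the element below together with the
own noise, the block number `1 + i * n + x` codes the entry at `x` of the sample `i`.

The random string is given by two sequences `D` (digits) and `Z` (noise) of `n * C ^ T` entries.  The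
worlds of level `r` below the world of level `T` are numbered by `X < C ^ (T - r)`, the children of the
world `X` are `X * C + k`, `k < C`: the child `0` is the world `low`, the child `1 + v * s + i` is the
world `low` up to `v`, continued by the sample `i` at `v`.
-/

namespace Pool.Agent.Lib.SubBisX.AccTab

open Finset Pool.Agent.Lib.SubBisX.Reg Pool.Agent.Lib.SubBisX.Core Pool.Agent.Lib.SubBisX.Acc
open Pool.Agent.Lib.SubBisX.Tab Pool.Agent.Lib.SubBisX.Seed

/-! ## The decoder -/

/-- an element of `XA m n s N r × Fin N` read off `(s * n + 1) ^ r` entries -/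
def decXN (m n s N : ℕ) : ∀ r, (ℕ → Fin m × Fin N) → XA m n s N r × Fin N
  | 0, d => d 0
  | r + 1, d => (((decXN m n s N r d).1, fun (i : Fin s) (x : Fin n) =>
      decXN m n s N r fun k => d ((1 + i * n + x) * (s * n + 1) ^ r + k)), (decXN m n s N r d).2)

/-- a world with noise read off `n * (s * n + 1) ^ r` entries, row by row -/
def decWN (m n s N r : ℕ) (d : ℕ → Fin m × Fin N) : Smp m n s N r :=
  fun v => decXN m n s N r fun k => d (v * (s * n + 1) ^ r + k)

/-- an entry read off `μ + ν` bits -/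
def rdp (μ ν : ℕ) (b : ℕ → Bool) : Fin (2 ^ μ) × Fin (2 ^ ν) := (rd μ b, rd ν fun i => b (μ + i))

/-- `K` worlds read off a bit stream -/
def decSA (μ ν n s r K : ℕ) (b : ℕ → Bool) : Fin K → Smp (2 ^ μ) n s (2 ^ ν) r :=
  fun k => decWN (2 ^ μ) n s (2 ^ ν) r fun j =>
    rdp μ ν fun i => b ((k * (n * (s * n + 1) ^ r) + j) * (μ + ν) + i)

/-- the number of random bits used -/
def nbitsA (μ ν n s r K : ℕ) : ℕ := K * (n * (s * n + 1) ^ r) * (μ + ν)

/-- the digits of the `k`-th copy -/
def DkA (μ ν n s T k : ℕ) (b : ℕ → Bool) (j : ℕ) : ℕ :=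
  bv μ fun i => b ((k * (n * (s * n + 1) ^ T) + j) * (μ + ν) + i)

/-- the noise of the `k`-th copy -/
def ZkA (μ ν n s T k : ℕ) (b : ℕ → Bool) (j : ℕ) : ℕ :=
  bv ν fun i => b ((k * (n * (s * n + 1) ^ T) + j) * (μ + ν) + (μ + i))

/-! ## The tables -/

/-- The position of the first entry of the row `x` of the world `X` of level `r`, `j` levels below
the top. -/
def offA (n s : ℕ) : ℕ → ℕ → ℕ → ℕ → ℕ
  | 0, r, _, x => x * (s * n + 1) ^ r
  | j + 1, r, X, x =>
    if X % (s * n + 1) = 0 ∨ x ≤ (X % (s * n + 1) - 1) / s then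
      offA n s j (r + 1) (X / (s * n + 1)) x
    else offA n s j (r + 1) (X / (s * n + 1)) ((X % (s * n + 1) - 1) / s) +
      (1 + (X % (s * n + 1) - 1) % s * n + x) * (s * n + 1) ^ r

/-- The new `z` at `v`: old `z0`, weight `t`, digit `u`, query points `y i`. -/
def newZ (n m s c M t : ℕ) (G : Finset ℕ → ℕ) (z0 u : ℕ) (y : ℕ → ℕ → ℕ) (v : ℕ) : ℕ :=
  min M ((z0 + t * ∑ i ∈ range s, (Nat.log 2 ((m - u) ^ c) + c * G (upoS n (y i) v))) -
    t * ∑ i ∈ range s, (Nat.log 2 ((u + 1) ^ c) + c * G (upS n (y i) v)))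

/-- The state `(z, S)` at `v` of the world `X` of level `r`. -/
def stN (n m s c M T : ℕ) (G : Finset ℕ → ℕ) (D Z : ℕ → ℕ) : ℕ → ℕ → ℕ → ℕ × ℕ
  | 0, _, _ => (0, 0)
  | r + 1, X, v =>
    let p := stN n m s c M T G D Z r (X * (s * n + 1)) v
    let o := offA n s (T - (r + 1)) (r + 1) X v
    let z := newZ n m s c M (r + 1) G p.1 (D o) (fun i x =>
      ((stN n m s c M T G D Z r (X * (s * n + 1) + (1 + v * s + i)) x).2 +
        (r + 1) * (stN n m s c M T G D Z r (X * (s * n + 1) + (1 + v * s + i)) x).1) / wt (r + 1) +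
          Z (o + (1 + i * n + x) * (s * n + 1) ^ r)) v
    (z, p.2 + (r + 1) * z)

/-- The state as a table of `2 * n` numbers: first `z`, then `S`. -/
def stT (n m s c M T : ℕ) (G : Finset ℕ → ℕ) (D Z : ℕ → ℕ) (r X i : ℕ) : ℕ :=
  if r ≤ T then
    (if i < n then (stN n m s c M T G D Z r X i).1 else (stN n m s c M T G D Z r X (i - n)).2)
  else 0

/-- The averaged point at `v`. -/
def xoN (n m s c M T : ℕ) (G : Finset ℕ → ℕ) (D Z : ℕ → ℕ) (v : ℕ) : ℕ :=
  (stN n m s c M T G D Z T 0 v).2 / wt T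

/-- The positive part of the objective. -/
def posA (n m s c M T : ℕ) (G : Finset ℕ → ℕ) (D Z : ℕ → ℕ) : ℕ :=
  ∑ v ∈ range n, Nat.log 2 ((m - D (v * (s * n + 1) ^ T)) ^ c) * xoN n m s c M T G D Z v

/-- The negative part of the objective. -/
def negA (n m s c M T : ℕ) (G : Finset ℕ → ℕ) (D Z : ℕ → ℕ) : ℕ :=
  ∑ v ∈ range n, Nat.log 2 ((D (v * (s * n + 1) ^ T) + 1) ^ c) * xoN n m s c M T G D Z v +
    c * ∑ i ∈ range M, G ((range n).filter fun w => i < xoN n m s c M T G D Z w)

end Pool.Agent.Lib.SubBisX.AccTab
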