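import Pool.Agent.Lib.SubBisX.IXDef

/-!
The sum of `2 ^ (-kap nu)` over all sets of sites: it is, up to the power `2 ^ (n - |W|)`, the sum
over all subsets of `W`, and this lies between `i(W)` and `i(W) (1 + 2 ^ (-kap)) ^ |W|`.
-/

set_option autoImplicit false

namespace Pool.Agent.Lib.SubBisX

open Finset Pool.Agent.Lib.Pa7c826 Pool.Agent.Lib.Pa7c826t

/-- `IX` only depends on `X` inside `W`. -/
theorem IX_inter (a : ℕ) (W X : Finset ℕ) : IX a W (X ∩ W) = IX a W X := by
  ext v
  rw [mem_IX, mem_IX]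
  refine and_congr_right fun hv => ?_
  split_ifs with h
  · rw [mem_inter]
    exact ⟨fun h1 => h1.1, fun h1 => ⟨h1, hv⟩⟩
  · rw [mem_inter]
    exact ⟨fun h1 h2 => h1 ⟨h2, hv⟩, fun h1 h2 => h1 h2.1⟩

/-- `IX` is an involution on the subsets of `W`. -/
theorem IX_IX (a : ℕ) {W X : Finset ℕ} (hX : X ⊆ W) : IX a W (IX a W X) = X := by
  ext v
  rw [mem_IX, mem_IX]
  constructor
  · rintro ⟨hv, h⟩
    split_ifs at h with h1
    · exact h.2
    · by_contra h2
      exact h ⟨hv, h2⟩
  · intro hv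
    refine ⟨hX hv, ?_⟩
    split_ifs with h1
    · exact ⟨hX hv, hv⟩
    · exact fun h2 => h2.2 hv

/-- The sum over all sets of sites is a sum over the subsets of `W`. -/
theorem sum_IX (a : ℕ) {n : ℕ} {W : Finset ℕ} (hW : W ⊆ range n) (g : Finset ℕ → ℝ) :
    ∑ X ∈ (range n).powerset, g (IX a W X) = 2 ^ (n - W.card) * ∑ I ∈ W.powerset, g I := by
  have h1 : ∑ X ∈ (range n).powerset, g (IX a W X) =
      ∑ Y ∈ W.powerset, ∑ X ∈ (range n).powerset with X ∩ W = Y, g (IX a W X) := by
    rw [sum_fiberwise_of_maps_to]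
    intro X _
    rw [mem_powerset]
    exact inter_subset_right
  have h2 : ∀ Y ∈ W.powerset, ∑ X ∈ (range n).powerset with X ∩ W = Y, g (IX a W X) =
      2 ^ (n - W.card) * g (IX a W Y) := by
    intro Y hY
    have hY' := mem_powerset.1 hY
    have h3 : ∀ X ∈ (range n).powerset.filter (fun X => X ∩ W = Y), g (IX a W X) =
        g (IX a W Y) := by
      intro X hX
      have h4 := (mem_filter.1 hX).2
      rw [← h4, IX_inter]
    rw [sum_congr rfl h3, sum_const, nsmul_eq_mul]
    congr 1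
    have h5 : ((range n).powerset.filter (fun X => X ∩ W = Y)).card =
        ((range n) \ W).powerset.card := by
      refine card_nbij' (fun X => X \ W) (fun Z => Z ∪ Y) ?_ ?_ ?_ ?_
      · intro X hX
        have h6 := mem_powerset.1 (mem_filter.1 hX).1
        simp only [coe_powerset, Set.mem_preimage, Set.mem_powerset_iff, coe_subset]
        exact sdiff_subset_sdiff h6 subset_rfl
      · intro Z hZ
        have h6 : Z ⊆ range n \ W := mem_powerset.1 (mem_coe.1 hZ)
        simp only [coe_filter, mem_powerset, Set.mem_ofPred_eq]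
        refine ⟨union_subset (h6.trans sdiff_subset) (hY'.trans hW), ?_⟩
        ext v
        simp only [mem_inter, mem_union]
        constructor
        · rintro ⟨h7 | h7, h8⟩
          · exact absurd h8 (mem_sdiff.1 (h6 h7)).2
          · exact h7
        · intro h7
          exact ⟨Or.inr h7, hY' h7⟩
      · intro X hX
        have h6 := (mem_filter.1 hX).2
        simp only
        rw [← h6]
        exact sdiff_union_inter X W
      · intro Z hZ
        have h6 : Z ⊆ range n \ W := mem_powerset.1 (mem_coe.1 hZ)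
        simp only
        ext v
        simp only [mem_sdiff, mem_union]
        constructor
        · rintro ⟨h7 | h7, h8⟩
          · exact h7
          · exact absurd (hY' h7) h8
        · intro h7
          exact ⟨Or.inl h7, (mem_sdiff.1 (h6 h7)).2⟩
    rw [h5, card_powerset, card_sdiff_of_subset hW, card_range]
    push_cast
    rfl
  rw [h1, sum_congr rfl h2, ← mul_sum]
  congr 1
  refine sum_nbij' (fun Y => IX a W Y) (fun Y => IX a W Y) ?_ ?_ ?_ ?_ ?_
  · intro Y _
    exact mem_powerset.2 (IX_subset a W Y)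
  · intro Y _
    exact mem_powerset.2 (IX_subset a W Y)
  · intro Y hY
    exact IX_IX a (mem_powerset.1 hY)
  · intro Y hY
    exact IX_IX a (mem_powerset.1 hY)
  · intro Y _
    rfl

/-- The number `nu` of an independent set is zero. -/
theorem nu_eq_zero {n a : ℕ} {adj : ℕ → ℕ → Bool} {S : Finset ℕ} (hS : S ⊆ range n)
    (hs : ∀ u v, adj u v = adj v u) (hbip : ∀ u v, adj u v = true → (u < a ↔ ¬ v < a))
    (hI : ∀ u ∈ S, ∀ v ∈ S, adj u v = false) : nu n a adj S = 0 := by
  have := indep_nu hS hs hbip subset_rfl hI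
  omega

/-- The number of independent sets is at most the sum. -/
theorem ind_le_sum {n a : ℕ} {adj : ℕ → ℕ → Bool} {W : Finset ℕ} (hW : W ⊆ range n)
    (hs : ∀ u v, adj u v = adj v u) (hbip : ∀ u v, adj u v = true → (u < a ↔ ¬ v < a))
    (kap : ℕ) :
    (ind adj W : ℝ) ≤ ∑ I ∈ W.powerset, ((1 / 2 : ℝ) ^ kap) ^ nu n a adj I := by
  unfold ind
  rw [card_filter]
  push_cast
  refine sum_le_sum fun I hI => ?_
  split_ifs with h
  · rw [nu_eq_zero ((mem_powerset.1 hI).trans hW) hs hbip h, pow_zero]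
  · positivity

/-- The sum is at most the number of independent sets times `(1 + 2 ^ (-kap)) ^ |W|`. -/
theorem sum_le_ind {n a : ℕ} {adj : ℕ → ℕ → Bool} {W : Finset ℕ} (hW : W ⊆ range n)
    (hs : ∀ u v, adj u v = adj v u) (hbip : ∀ u v, adj u v = true → (u < a ↔ ¬ v < a))
    (kap : ℕ) :
    ∑ I ∈ W.powerset, ((1 / 2 : ℝ) ^ kap) ^ nu n a adj I ≤
      ind adj W * (1 + (1 / 2 : ℝ) ^ kap) ^ W.card := by
  have hex : ∀ I : Finset ℕ, I ⊆ W → ∃ J ⊆ I, J.card + nu n a adj I = I.card ∧
      ∀ u ∈ J, ∀ v ∈ J, adj u v = false := fun I hI => nu_indep (hI.trans hW) hs hbip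
  choose! J hJ1 hJ2 hJ3 using hex
  have h1 : (ind adj W : ℝ) * (1 + (1 / 2 : ℝ) ^ kap) ^ W.card =
      ∑ p ∈ (W.powerset.filter (fun I => ∀ u ∈ I, ∀ v ∈ I, adj u v = false)) ×ˢ W.powerset,
        ((1 / 2 : ℝ) ^ kap) ^ p.2.card := by
    have h0 : ∑ C ∈ W.powerset, ((1 / 2 : ℝ) ^ kap) ^ C.card = (1 + (1 / 2 : ℝ) ^ kap) ^ W.card := by
      have h := Finset.prod_one_add (f := fun _ : ℕ => (1 / 2 : ℝ) ^ kap) W
      rw [prod_const] at h
      rw [h]
      refine sum_congr rfl fun C _ => ?_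
      rw [prod_const]
    rw [sum_product]
    simp only
    rw [h0, sum_const, nsmul_eq_mul]
    rfl
  rw [h1]
  have h2 : ∀ I ∈ W.powerset, ((1 / 2 : ℝ) ^ kap) ^ nu n a adj I =
      ((1 / 2 : ℝ) ^ kap) ^ ((fun I => (J I, I \ J I)) I).2.card := by
    intro I hI
    have h3 := mem_powerset.1 hI
    congr 1
    have h4 := hJ2 I h3
    have h5 := card_sdiff_add_card_eq_card (hJ1 I h3)
    show nu n a adj I = (I \ J I).card
    omega
  have hinj : Set.InjOn (fun I => (J I, I \ J I)) (W.powerset : Set (Finset ℕ)) := by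
    intro I hI I' hI' h
    have h3 : I ⊆ W := by simpa using hI
    have h4 : I' ⊆ W := by simpa using hI'
    have h5 := Prod.mk.inj h
    have h6 := union_sdiff_of_subset (hJ1 I h3)
    have h7 := union_sdiff_of_subset (hJ1 I' h4)
    rw [h5.2, h5.1] at h6
    exact h6.symm.trans h7
  rw [sum_congr rfl h2, ← sum_image (f := fun p : Finset ℕ × Finset ℕ =>
    ((1 / 2 : ℝ) ^ kap) ^ p.2.card) hinj]
  refine sum_le_sum_of_subset_of_nonneg ?_ fun p _ _ => by positivity
  intro p hp
  obtain ⟨I, hI, rfl⟩ := mem_image.1 hp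
  have h3 := mem_powerset.1 hI
  rw [mem_product]
  exact ⟨mem_filter.2 ⟨mem_powerset.2 ((hJ1 I h3).trans h3), hJ3 I h3⟩,
    mem_powerset.2 (sdiff_subset.trans h3)⟩

end Pool.Agent.Lib.SubBisX
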