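import Pool.Agent.Lib.SubBisX.NuF
import Pool.Agent.Lib.SubBisX.NuSum
import Pool.Agent.Lib.SubBisX.Bounds
import Pool.Agent.Lib.SubBisX.Par

/-!
The set function of an induced subgraph `W` of a bipartite graph on `range n` (left vertices `< a`), its
partition function, and the estimate `eW` of the binary logarithm of the number of independent sets.
-/

open Finset

namespace Pool.Agent.Lib.SubBisX.Node

open Pool.Agent.Lib.Pa7c826 Pool.Agent.Lib.Pa7c826t

variable {n : ℕ}

/-- a set of sites as a set of numbers -/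
def toN (X : Finset (Fin n)) : Finset ℕ := X.map Fin.valEmbedding

theorem mem_toN {X : Finset (Fin n)} {v : ℕ} : v ∈ toN X ↔ ∃ h : v < n, (⟨v, h⟩ : Fin n) ∈ X := by
  unfold toN
  rw [mem_map]
  constructor
  · rintro ⟨w, hw, rfl⟩
    exact ⟨w.2, hw⟩
  · rintro ⟨h, hv⟩
    exact ⟨⟨v, h⟩, hv, rfl⟩

theorem toN_subset (X : Finset (Fin n)) : toN X ⊆ range n := fun _ hv =>
  mem_range.2 (mem_toN.1 hv).1

theorem toN_empty : toN (∅ : Finset (Fin n)) = ∅ := rfl

theorem toN_union (X Y : Finset (Fin n)) : toN (X ∪ Y) = toN X ∪ toN Y := map_union _ _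

theorem toN_inter (X Y : Finset (Fin n)) : toN (X ∩ Y) = toN X ∩ toN Y := map_inter _ _

theorem toN_insert (v : Fin n) (X : Finset (Fin n)) : toN (insert v X) = insert (v : ℕ) (toN X) :=
  map_insert _ _ _

/-- the penalty: `κ` times the matching number of the part of `W` described by `X` -/
def FW (n a : ℕ) (adj : ℕ → ℕ → Bool) (κ : ℕ) (W : Finset ℕ) (X : Finset (Fin n)) : ℤ :=
  κ * (nu n a adj (IX a W (toN X)) : ℤ)

section

variable {a : ℕ} {adj : ℕ → ℕ → Bool} {κ : ℕ} {W : Finset ℕ}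

theorem FW_empty (hW : W ⊆ range n) (hs : ∀ u v, adj u v = adj v u)
    (hbip : ∀ u v, adj u v = true → (u < a ↔ ¬ v < a)) : FW n a adj κ W ∅ = 0 := by
  unfold FW
  rw [toN_empty, nu_eq_zero ((IX_subset _ _ _).trans hW) hs hbip]
  · simp
  · intro u hu v hv
    rw [mem_IX] at hu hv
    have hu2 := hu.2
    have hv2 := hv.2
    by_contra hcon
    rw [Bool.not_eq_false] at hcon
    have h1 := hbip u v hcon
    by_cases h : u < a
    · rw [if_pos h] at hu2
      exact absurd hu2 (notMem_empty u)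
    · have h2 : v < a := by
        by_contra h3
        exact h (h1.2 h3)
      rw [if_pos h2] at hv2
      exact absurd hv2 (notMem_empty v)

theorem FW_insert (hW : W ⊆ range n) (hs : ∀ u v, adj u v = adj v u)
    (hbip : ∀ u v, adj u v = true → (u < a ↔ ¬ v < a)) (v : Fin n) (S : Finset (Fin n)) :
    |FW n a adj κ W (insert v S) - FW n a adj κ W S| ≤ κ := by
  have h := nu_IX_insert (X := toN S) hW hs hbip (v : ℕ)
  unfold FW
  rw [toN_insert, ← mul_sub, abs_mul, Nat.abs_cast]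
  have h1 : |((nu n a adj (IX a W (insert (v : ℕ) (toN S))) : ℕ) : ℤ) -
      (nu n a adj (IX a W (toN S)) : ℕ)| ≤ 1 := by
    rw [abs_le]
    omega
  calc (κ : ℤ) * _ ≤ κ * 1 := mul_le_mul_of_nonneg_left h1 (Nat.cast_nonneg _)
    _ = κ := mul_one _

theorem FW_sub (hW : W ⊆ range n) (hs : ∀ u v, adj u v = adj v u)
    (hbip : ∀ u v, adj u v = true → (u < a ↔ ¬ v < a)) (S S' : Finset (Fin n)) :
    FW n a adj κ W (S ∪ S') + FW n a adj κ W (S ∩ S') ≤ FW n a adj κ W S + FW n a adj κ W S' := by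
  have h := nu_IX_sub hW hs hbip (toN S) (toN S')
  unfold FW
  rw [toN_union, toN_inter, ← mul_add, ← mul_add]
  refine mul_le_mul_of_nonneg_left ?_ (Nat.cast_nonneg _)
  exact_mod_cast h

theorem sum_toN (g : Finset ℕ → ℝ) :
    ∑ X : Finset (Fin n), g (toN X) = ∑ Y ∈ (range n).powerset, g Y := by
  classical
  refine sum_bij (fun X _ => toN X) (fun X _ => mem_powerset.2 (toN_subset X)) ?_ ?_ ?_
  · intro X _ Y _ h
    exact map_injective _ h
  · intro Y hY
    refine ⟨univ.filter fun v : Fin n => (v : ℕ) ∈ Y, mem_univ _, ?_⟩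
    ext v
    rw [mem_toN]
    constructor
    · rintro ⟨h, hv⟩
      exact (mem_filter.1 hv).2
    · intro hv
      exact ⟨mem_range.1 (mem_powerset.1 hY hv), mem_filter.2 ⟨mem_univ _, hv⟩⟩
  · intro X _
    rfl

/-- the partition function of `FW` -/
theorem sum_FW (hW : W ⊆ range n) :
    ∑ S : Finset (Fin n), (2 : ℝ) ^ (-(FW n a adj κ W S : ℝ)) =
      2 ^ (n - W.card) * ∑ I ∈ W.powerset, ((1 / 2 : ℝ) ^ κ) ^ nu n a adj I := by
  rw [← sum_IX a hW, ← sum_toN fun X => ((1 / 2 : ℝ) ^ κ) ^ nu n a adj (IX a W X)]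
  refine sum_congr rfl fun S _ => ?_
  unfold FW
  rw [← pow_mul, one_div, inv_pow, Real.rpow_neg (by norm_num)]
  congr 1
  rw [← Real.rpow_natCast]
  push_cast
  rfl

/-- `logZ` of `FW` and the number of independent sets -/
theorem logZ_FW (hW : W ⊆ range n) (hs : ∀ u v, adj u v = adj v u)
    (hbip : ∀ u v, adj u v = true → (u < a ↔ ¬ v < a)) :
    ((n : ℝ) - W.card) + Real.logb 2 (ind adj W) ≤ Bounds.logZ (FW n a adj κ W) ∧
      Bounds.logZ (FW n a adj κ W) ≤ ((n : ℝ) - W.card) + Real.logb 2 (ind adj W) +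
        n * (2 / 2 ^ κ) := by
  have hc : W.card ≤ n := by simpa using card_le_card hW
  have hi : (0 : ℝ) < ind adj W := by exact_mod_cast ind_pos (adj := adj) W
  set s := ∑ I ∈ W.powerset, ((1 / 2 : ℝ) ^ κ) ^ nu n a adj I with hsdef
  have h1 : (ind adj W : ℝ) ≤ s := ind_le_sum hW hs hbip κ
  have h2 : s ≤ ind adj W * (1 + (1 / 2 : ℝ) ^ κ) ^ W.card := sum_le_ind hW hs hbip κ
  have hs0 : 0 < s := lt_of_lt_of_le hi h1
  have e1 : Bounds.logZ (FW n a adj κ W) = ((n : ℝ) - W.card) + Real.logb 2 s := by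
    unfold Bounds.logZ
    rw [sum_FW hW, Real.logb_mul (by positivity) hs0.ne', Real.logb_pow,
      Real.logb_self_eq_one (by norm_num), mul_one, Nat.cast_sub hc]
  have hlog : Real.logb 2 s ≤ Real.logb 2 (ind adj W) + n * (2 / 2 ^ κ) := by
    have h3 : Real.logb 2 s ≤ Real.logb 2 (ind adj W * (1 + (1 / 2 : ℝ) ^ κ) ^ W.card) :=
      Real.logb_le_logb_of_le (by norm_num) hs0 h2
    refine h3.trans ?_
    rw [Real.logb_mul hi.ne' (by positivity), Real.logb_pow]
    have h4 : Real.logb 2 (1 + (1 / 2 : ℝ) ^ κ) ≤ 2 / 2 ^ κ := by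
      unfold Real.logb
      rw [div_le_iff₀ (Real.log_pos (by norm_num))]
      have h5 : Real.log (1 + (1 / 2 : ℝ) ^ κ) ≤ (1 / 2 : ℝ) ^ κ := by
        have := Real.log_le_sub_one_of_pos (show (0 : ℝ) < 1 + (1 / 2 : ℝ) ^ κ by positivity)
        linarith
      have h6 : (1 / 2 : ℝ) < Real.log 2 := by
        have := Real.log_two_gt_d9
        linarith
      have h7 : (1 / 2 : ℝ) ^ κ = 1 / 2 ^ κ := by rw [div_pow, one_pow]
      rw [h7] at h5 ⊢
      have h8 : (0 : ℝ) < 1 / 2 ^ κ := by positivity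
      calc Real.log (1 + 1 / 2 ^ κ) ≤ 1 / 2 ^ κ := h5
        _ = 2 * (1 / 2 ^ κ) * (1 / 2) := by ring
        _ ≤ 2 * (1 / 2 ^ κ) * Real.log 2 := mul_le_mul_of_nonneg_left h6.le (by positivity)
        _ = 2 / 2 ^ κ * Real.log 2 := by ring
    have h9 : (W.card : ℝ) * Real.logb 2 (1 + (1 / 2 : ℝ) ^ κ) ≤ n * (2 / 2 ^ κ) := by
      have h10 : (0 : ℝ) ≤ Real.logb 2 (1 + (1 / 2 : ℝ) ^ κ) :=
        Real.logb_nonneg (by norm_num) (by
          have : (0 : ℝ) < (1 / 2 : ℝ) ^ κ := by positivity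
          linarith)
      have hcr : (W.card : ℝ) ≤ n := by exact_mod_cast hc
      calc (W.card : ℝ) * Real.logb 2 (1 + (1 / 2 : ℝ) ^ κ)
          ≤ n * Real.logb 2 (1 + (1 / 2 : ℝ) ^ κ) := mul_le_mul_of_nonneg_right hcr h10
        _ ≤ n * (2 / 2 ^ κ) := mul_le_mul_of_nonneg_left h4 (Nat.cast_nonneg _)
    linarith
  have hlog' : Real.logb 2 (ind adj W) ≤ Real.logb 2 s :=
    Real.logb_le_logb_of_le (by norm_num) hi h1
  rw [e1]
  constructor <;> linarith

/-- the estimate: exact if `W` has no left vertex; `tot / den` is the mean of the random values -/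
def eW (n a : ℕ) (W : Finset ℕ) (tot : ℤ) (den : ℕ) : ℕ :=
  if (W.filter fun v => v < a) = ∅ then W.card else ((W.card : ℤ) - n + tot / den).toNat

theorem eW_leaf (tot : ℤ) (den : ℕ) (hW : ∀ v ∈ W, ¬ v < a)
    (hbip : ∀ u v, adj u v = true → (u < a ↔ ¬ v < a)) :
    ind adj W = 2 ^ eW n a W tot den := by
  have h1 : (W.filter fun v => v < a) = ∅ := by
    rw [filter_eq_empty_iff]
    exact fun v hv => hW v hv
  unfold eW
  rw [if_pos h1, ← card_powerset]
  unfold ind
  congr 1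
  rw [filter_eq_self]
  intro I hI u hu v hv
  by_contra hcon
  rw [Bool.not_eq_false] at hcon
  have h2 := (hbip u v hcon).2 (hW v (mem_powerset.1 hI hv))
  exact hW u (mem_powerset.1 hI hu) h2

/-- the error of the estimate -/
theorem eW_err (hW : W ⊆ range n) (hs : ∀ u v, adj u v = adj v u)
    (hbip : ∀ u v, adj u v = true → (u < a ↔ ¬ v < a)) {tot : ℤ} {den : ℕ} (hden : 0 < den)
    {δ : ℝ} (h : |(tot : ℝ) / den - Bounds.logZ (FW n a adj κ W)| ≤ δ) :
    |(eW n a W tot den : ℝ) - Real.logb 2 (ind adj W)| ≤ δ + n * (2 / 2 ^ κ) + 1 := by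
  have hδ : 0 ≤ δ := (abs_nonneg _).trans h
  have hx : (0 : ℝ) ≤ n * (2 / 2 ^ κ) := by positivity
  by_cases hleaf : (W.filter fun v => v < a) = ∅
  · rw [filter_eq_empty_iff] at hleaf
    have h1 := eW_leaf (n := n) (adj := adj) tot den (fun v hv => hleaf hv) hbip
    rw [h1]
    push_cast
    rw [Real.logb_pow, Real.logb_self_eq_one (by norm_num), mul_one, sub_self, abs_zero]
    linarith
  · unfold eW
    rw [if_neg hleaf]
    obtain ⟨g1, g2⟩ := logZ_FW (κ := κ) hW hs hbip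
    have hi : (0 : ℝ) ≤ Real.logb 2 (ind adj W) :=
      Real.logb_nonneg (by norm_num) (by exact_mod_cast ind_pos (adj := adj) W)
    have hd : (0 : ℝ) < den := by exact_mod_cast hden
    have hdz : (0 : ℤ) < den := by exact_mod_cast hden
    have f1 : ((tot / den : ℤ) : ℝ) ≤ (tot : ℝ) / den := by
      rw [le_div_iff₀ hd]
      exact_mod_cast Int.ediv_mul_le tot hdz.ne'
    have f2 : (tot : ℝ) / den < ((tot / den : ℤ) : ℝ) + 1 := by
      rw [div_lt_iff₀ hd]
      exact_mod_cast Int.lt_ediv_add_one_mul_self tot hdz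
    rw [abs_le] at h ⊢
    set z : ℤ := (W.card : ℤ) - n + tot / den with hz
    have hzr : (z : ℝ) = (W.card : ℝ) - n + ((tot / den : ℤ) : ℝ) := by
      rw [hz]
      push_cast
      ring
    have h3 : (z : ℝ) ≤ (z.toNat : ℝ) := by exact_mod_cast Int.self_le_toNat z
    have h4 : (z.toNat : ℝ) = z ∨ (z.toNat : ℝ) = 0 := by
      rcases le_or_gt 0 z with hz0 | hz0
      · left
        exact_mod_cast Int.toNat_of_nonneg hz0
      · right
        rw [Int.toNat_of_nonpos hz0.le]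
        simp
    constructor
    · linarith [h.1]
    · rcases h4 with h4 | h4
      · rw [h4]
        linarith [h.2]
      · rw [h4]
        linarith

end

end Pool.Agent.Lib.SubBisX.Node
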