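import Pool.Agent.Lib.SubBisX.TabPolyC
import Pool.Agent.Lib.SubBisX.TabBridge
import Pool.Agent.Lib.SubBisX.Seed
import Pool.Agent.Lib.SubBisX.Node

/-!
The estimator computed from random bits in polynomial time.
-/

namespace Pool.Agent.Lib.SubBisX.Tab

open Finset Pool.Agent.Lib.PolyTime Pool.Agent.Lib.Pa7c826 Pool.Agent.Lib.Pa7c826t
open Pool.Agent.Lib.SubBisX.Reg Pool.Agent.Lib.SubBisX.Core Pool.Agent.Lib.SubBisX.Seed
open Pool.Agent.Lib.SubBisX.Node

/-- The digits of the `k`-th copy. -/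
def Rk (μ n T k : ℕ) (s : ℕ → Bool) (j : ℕ) : ℕ :=
  bv μ fun i => s ((k * (n * (n + 1) ^ T) + j) * μ + i)

namespace TabSeedAux

theorem el_eq {m n : ℕ} [NeZero m] (R : ℕ → ℕ) (d : ℕ → Fin m) (h : ∀ i, R i = d i) :
    ∀ r o, el m n R r o = decX m n r fun i => d (o + i)
  | 0, o => by
    apply Fin.ext
    show R o % m = (d (o + 0) : ℕ)
    rw [h o, Nat.mod_eq_of_lt (d o).2, Nat.add_zero]
  | r + 1, o => by
    have ih := el_eq (n := n) R d h r
    show (el m n R r o, fun x : Fin n => el m n R r (o + ((x : ℕ) + 1) * (n + 1) ^ r)) =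
      (decX m n r (fun i => d (o + i)), fun x : Fin n => decX m n r fun i =>
        d (o + ((x + 1) * (n + 1) ^ r + i)))
    rw [ih o]
    congr 1
    funext x
    rw [ih]
    congr 1
    funext i
    congr 1
    ring

theorem world_eq {m n T : ℕ} [NeZero m] (R : ℕ → ℕ) (d : ℕ → Fin m) (h : ∀ i, R i = d i) :
    world m n R T = decW m n T d := by
  funext v
  exact el_eq R d h T _

theorem world_Rk {μ n T K : ℕ} (s : ℕ → Bool) (k : Fin K) :
    world (2 ^ μ) n (Rk μ n T k s) T = decS μ n T K s k :=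
  world_eq _ _ fun _ => rfl

end TabSeedAux

open TabSeedAux

theorem val_Rk {μ n T K : ℕ} (c M : ℕ) (G : Finset ℕ → ℕ) (s : ℕ → Bool) (k : Fin K) :
    (posV n (2 ^ μ) c M T G (Rk μ n T k s) : ℤ) - negV n (2 ^ μ) c M T G (Rk μ n T k s) =
      Val c M (GF G) T (decS μ n T K s k) := by
  rw [← world_Rk s k]
  exact val_eq (fun i => bv_lt _ _) c M T G

theorem GF_Gn (w : List Bool) (κ : ℕ) (W : Finset ℕ) :
    (GF (Gn w κ W) : Finset (Fin (nOf w)) → ℤ) =
      FW (nOf w) (aOf w) (adjOf w) κ W := by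
  funext S
  unfold GF Gn FW
  push_cast
  rfl

section poly

variable {α : Type*} {D : α → Prop} {ctx : List (α → List Bool)}

namespace TabSeedAux

open TabAux Pool.Agent.Lib.P8e91ed.PT

/-- The digits of a copy in polynomial time. -/
theorem poly_Rk {n μ T k : α → ℕ} {r : α → List Bool} (hr : PolyC D ctx r)
    (hn : PolyN D ctx n) (hμ : PolyN D ctx μ) (hm : PolyN D ctx (fun a => 2 ^ μ a))
    (hN : PolyN D ctx (fun a => (n a + 1) ^ T a)) (hk : PolyN D ctx k) :
    PolyArr D ctx (fun a => 2 ^ μ a) (fun a => n a * (n a + 1) ^ T a)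
      (fun a => Rk (μ a) (n a) (T a) (k a) fun i => (r a).getD i false) := by
  refine PolyArr.mk hm (hn.mul hN) ?_ (fun a _ i _ => (bv_lt _ _).le)
  set L : α → ℕ := fun a => n a * (n a + 1) ^ T a with hL
  have r1 := up (n := L) hr
  have n1 := upN (n := L) hn
  have μ1 := upN (n := L) hμ
  have m1 := upN (n := L) hm
  have N1 := upN (n := L) hN
  have k1 := upN (n := L) hk
  have j1 := last (D := D) (ctx := ctx) (n := L)
  have key : PolyN (fun p : α × ℕ => D p.1 ∧ p.2 < L p.1) (PolyTime.lift ctx ++ [fun p => un p.2])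
      (fun p => ∑ i ∈ range (μ p.1), if (r p.1).getD
        ((k p.1 * (n p.1 * (n p.1 + 1) ^ T p.1) + p.2) * μ p.1 + i) false then 2 ^ i else 0) := by
    refine nSum (f := fun (p : α × ℕ) i => if (r p.1).getD
      ((k p.1 * (n p.1 * (n p.1 + 1) ^ T p.1) + p.2) * μ p.1 + i) false then 2 ^ i else 0) μ1 ?_
    have r2 := up (n := fun p : α × ℕ => μ p.1) r1
    have n2 := upN (n := fun p : α × ℕ => μ p.1) n1
    have μ2 := upN (n := fun p : α × ℕ => μ p.1) μ1
    have m2 := upN (n := fun p : α × ℕ => μ p.1) m1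
    have N2 := upN (n := fun p : α × ℕ => μ p.1) N1
    have k2 := upN (n := fun p : α × ℕ => μ p.1) k1
    have j2 := upN (n := fun p : α × ℕ => μ p.1) j1
    have i2 := last (D := fun p : α × ℕ => D p.1 ∧ p.2 < L p.1)
      (ctx := PolyTime.lift ctx ++ [fun p => un p.2]) (n := fun p : α × ℕ => μ p.1)
    have hb := PolyB.getD r2 ((((k2.mul (n2.mul N2)).add j2).mul μ2).add i2)
    have hp := powz (N := fun q : (α × ℕ) × ℕ => 2 ^ μ q.1.1) (PolyN.const 2) i2 m2
      (fun q hq => Nat.pow_le_pow_right (by omega) hq.2.le)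
    exact itez hb (PolyC.mono hp fun _ h => h.1) (PolyN.const 0)
  exact key

variable {w : α → List Bool} {W : α → Finset ℕ} {μ c M T κ K den : α → ℕ} {r : α → List Bool}

theorem poly_totP (hw : PolyC D ctx w) (hW : PolyS D ctx (fun x => nOf (w x)) W)
    (hμ : PolyN D ctx μ) (hm : PolyN D ctx (fun a => 2 ^ μ a)) (hc : PolyN D ctx c)
    (hM : PolyN D ctx M) (hT : PolyN D ctx T) (hκ : PolyN D ctx κ) (hK : PolyN D ctx K)
    (hN : PolyN D ctx (fun x => (nOf (w x) + 1) ^ T x)) (hr : PolyC D ctx r) :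
    PolyN D ctx (fun a => ∑ k ∈ range (K a), posV (nOf (w a)) (2 ^ μ a) (c a) (M a) (T a)
      (Gn (w a) (κ a) (W a)) (Rk (μ a) (nOf (w a)) (T a) k fun i => (r a).getD i false)) := by
  refine nSum (f := fun a k => posV (nOf (w a)) (2 ^ μ a) (c a) (M a) (T a)
      (Gn (w a) (κ a) (W a)) (Rk (μ a) (nOf (w a)) (T a) k fun i => (r a).getD i false)) hK ?_
  have w1 := up (n := K) hw
  exact poly_posV w1 (hW.up (m := K)) (upN (n := K) hm) (upN (n := K) hc) (upN (n := K) hM)
    (upN (n := K) hT) (upN (n := K) hκ) (upN (n := K) hN)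
    (poly_Rk (up (n := K) hr) (poly_nOf w1) (upN (n := K) hμ) (upN (n := K) hm)
      (upN (n := K) hN) (last (D := D) (ctx := ctx) (n := K)))

theorem poly_totN (hw : PolyC D ctx w) (hW : PolyS D ctx (fun x => nOf (w x)) W)
    (hμ : PolyN D ctx μ) (hm : PolyN D ctx (fun a => 2 ^ μ a)) (hc : PolyN D ctx c)
    (hM : PolyN D ctx M) (hT : PolyN D ctx T) (hκ : PolyN D ctx κ) (hK : PolyN D ctx K)
    (hN : PolyN D ctx (fun x => (nOf (w x) + 1) ^ T x)) (hr : PolyC D ctx r) :
    PolyN D ctx (fun a => ∑ k ∈ range (K a), negV (nOf (w a)) (2 ^ μ a) (c a) (M a) (T a)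
      (Gn (w a) (κ a) (W a)) (Rk (μ a) (nOf (w a)) (T a) k fun i => (r a).getD i false)) := by
  refine nSum (f := fun a k => negV (nOf (w a)) (2 ^ μ a) (c a) (M a) (T a)
      (Gn (w a) (κ a) (W a)) (Rk (μ a) (nOf (w a)) (T a) k fun i => (r a).getD i false)) hK ?_
  have w1 := up (n := K) hw
  exact poly_negV w1 (hW.up (m := K)) (upN (n := K) hm) (upN (n := K) hc) (upN (n := K) hM)
    (upN (n := K) hT) (upN (n := K) hκ) (upN (n := K) hN)
    (poly_Rk (up (n := K) hr) (poly_nOf w1) (upN (n := K) hμ) (upN (n := K) hm)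
      (upN (n := K) hN) (last (D := D) (ctx := ctx) (n := K)))

/-- The sum over the copies. -/
theorem tot_eq (w : List Bool) (W : Finset ℕ) (μ c M T κ K : ℕ) (s : ℕ → Bool) :
    (∑ k : Fin K, Val c M (FW (nOf w) (aOf w) (adjOf w) κ W) T (decS μ (nOf w) T K s k)) =
      ((∑ k ∈ range K, posV (nOf w) (2 ^ μ) c M T (Gn w κ W) (Rk μ (nOf w) T k s) : ℕ) : ℤ) -
      ((∑ k ∈ range K, negV (nOf w) (2 ^ μ) c M T (Gn w κ W) (Rk μ (nOf w) T k s) : ℕ) : ℤ) := by
  push_cast
  rw [← sum_sub_distrib, ← Fin.sum_univ_eq_sum_range (fun k =>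
    (posV (nOf w) (2 ^ μ) c M T (Gn w κ W) (Rk μ (nOf w) T k s) : ℤ) -
      negV (nOf w) (2 ^ μ) c M T (Gn w κ W) (Rk μ (nOf w) T k s)) K]
  refine sum_congr rfl fun k _ => ?_
  rw [val_Rk, GF_Gn]

theorem eW_nat {n a : ℕ} {W : Finset ℕ} (hW : W ⊆ range n) (P N den : ℕ) :
    eW n a W ((P : ℤ) - N) den = if (W.filter fun v => v < a).card = 0 then W.card else
      if N ≤ P then (W.card + (P - N) / den) - n else 0 := by
  have hc : W.card ≤ n := by simpa using card_le_card hW
  unfold eW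
  by_cases h : (W.filter fun v => v < a) = ∅
  · rw [if_pos h, if_pos (by rw [h, card_empty])]
  · rw [if_neg h, if_neg (by rw [card_eq_zero]; exact h)]
    split_ifs with h1
    · obtain ⟨d, rfl⟩ := Nat.exists_eq_add_of_le h1
      have e1 : (((N + d : ℕ) : ℤ) - N) / (den : ℤ) = ((d / den : ℕ) : ℤ) := by
        push_cast
        rw [add_sub_cancel_left]
      rw [e1, Nat.add_sub_cancel_left]
      omega
    · have e2 : (((P : ℕ) : ℤ) - N) / (den : ℤ) ≤ 0 := by
        rcases Nat.eq_zero_or_pos den with h0 | h0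
        · rw [h0, Nat.cast_zero, Int.ediv_zero]
        · exact Int.ediv_nonpos_of_nonpos_of_neg (by omega) (by exact_mod_cast h0)
      omega

end TabSeedAux

open TabSeedAux TabAux

/-- The estimate of the logarithm of the number of independent subsets of `W`, computed from the
random bits `r` in polynomial time. -/
theorem poly_eW {w : α → List Bool} {W : α → Finset ℕ} {μ c M T κ K den : α → ℕ}
    {r : α → List Bool} (hw : PolyC D ctx w) (hW : PolyS D ctx (fun x => nOf (w x)) W)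
    (hμ : PolyN D ctx μ) (hm : PolyN D ctx (fun a => 2 ^ μ a)) (hc : PolyN D ctx c)
    (hM : PolyN D ctx M) (hT : PolyN D ctx T) (hκ : PolyN D ctx κ) (hK : PolyN D ctx K)
    (hden : PolyN D ctx den)
    (hN : PolyN D ctx (fun x => (nOf (w x) + 1) ^ T x)) (hr : PolyC D ctx r) :
    PolyN D ctx (fun a => eW (nOf (w a)) (aOf (w a)) (W a)
      (∑ k : Fin (K a), Val (c a) (M a) (FW (nOf (w a)) (aOf (w a)) (adjOf (w a)) (κ a) (W a))
        (T a) (decS (μ a) (nOf (w a)) (T a) (K a) (fun i => (r a).getD i false) k))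
      (den a)) := by
  have hn := poly_nOf hw
  have ha := poly_aOf hw
  have P := poly_totP hw hW hμ hm hc hM hT hκ hK hN hr
  have N := poly_totN hw hW hμ hm hc hM hT hκ hK hN hr
  have C := PolyS.card hn hW
  have A1 := upN (n := fun x => nOf (w x)) ha
  have L1 := last (D := D) (ctx := ctx) (n := fun x => nOf (w x))
  have F := PolyS.card hn (PolyS.filter (φ := fun p : α × ℕ => decide (p.2 < aOf (w p.1))) hn hW
    (PolyB.lt L1 A1))
  have B1 := PolyB.natEq F (PolyN.const 0)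
  have B2 := PolyB.le N P
  have E := PolyN.sub (C.add (divz (PolyN.sub P N) hden)) hn
  refine (itez B1 (PolyC.mono C fun _ h => h.1) (itez (PolyC.mono B2 fun _ h => h.1)
    (PolyC.mono E fun _ h => h.1.1) (PolyN.const 0))).congr (fun a haD => ?_)
  rw [tot_eq, eW_nat (hW.2 a haD)]
  simp only [decide_eq_true_eq]

end poly

end Pool.Agent.Lib.SubBisX.Tab
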