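import Pool.Agent.Lib.SubBisX.AccTabVal
import Pool.Agent.Lib.SubBisX.AccTabBridge
import Pool.Agent.Lib.SubBisX.TabSeed

/-!
The estimator of the accelerated method computed from random bits in polynomial time.
-/

namespace Pool.Agent.Lib.SubBisX.AccTab

open Finset Pool.Agent.Lib.PolyTime Pool.Agent.Lib.Pa7c826 Pool.Agent.Lib.Pa7c826t
open Pool.Agent.Lib.SubBisX.Tab Pool.Agent.Lib.SubBisX.Reg Pool.Agent.Lib.SubBisX.Core
open Pool.Agent.Lib.SubBisX.Acc Pool.Agent.Lib.SubBisX.Seed Pool.Agent.Lib.SubBisX.Node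

universe u

variable {α : Type u} {Dm : α → Prop} {ctx : List (α → List Bool)}

/-- The value of a copy. -/
noncomputable def VA {m n s N : ℕ} (c M : ℕ) (F : Finset (Fin n) → ℤ) (T : ℕ)
    (b : Smp m n s N T) : ℤ :=
  Phi c M F (Acc.dig T (wd b)) (xo (M : ℤ) (gr c F) T (wd b))

theorem VA_dec {μ ν n s T K : ℕ} (c M : ℕ) (G : Finset ℕ → ℕ) (b : ℕ → Bool) (k : Fin K) :
    (posA n (2 ^ μ) s c M T G (DkA μ ν n s T k b) (ZkA μ ν n s T k b) : ℤ) -
        negA n (2 ^ μ) s c M T G (DkA μ ν n s T k b) (ZkA μ ν n s T k b) =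
      VA c M (GF G) T (decSA μ ν n s T K b k) :=
  valA_eq c M T G fun j => rdp μ ν fun i => b ((k * (n * (s * n + 1) ^ T) + j) * (μ + ν) + i)

namespace SeedAuxA

open TabAux TabSeedAux Pool.Agent.Lib.P8e91ed.PT

/-- The digits and the noise of a copy in polynomial time. -/
theorem poly_rdA {n s μ ν o T k : α → ℕ} {r : α → List Bool} (hr : PolyC Dm ctx r)
    (hn : PolyN Dm ctx n) (hs : PolyN Dm ctx s) (hμ : PolyN Dm ctx μ) (hν : PolyN Dm ctx ν)
    (ho : PolyN Dm ctx o) (hm : PolyN Dm ctx (fun a => 2 ^ μ a))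
    (hC : PolyN Dm ctx (fun a => (s a * n a + 1) ^ T a)) (hk : PolyN Dm ctx k) :
    PolyArr Dm ctx (fun a => 2 ^ μ a) (fun a => n a * (s a * n a + 1) ^ T a)
      (fun a j => bv (μ a) fun i => (r a).getD
        ((k a * (n a * (s a * n a + 1) ^ T a) + j) * ν a + (o a + i)) false) := by
  refine PolyArr.mk hm (hn.mul hC) ?_ (fun a _ i _ => (bv_lt _ _).le)
  set L : α → ℕ := fun a => n a * (s a * n a + 1) ^ T a with hL
  have r1 := up (n := L) hr
  have l1 := upN (n := L) (hn.mul hC)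
  have μ1 := upN (n := L) hμ
  have ν1 := upN (n := L) hν
  have o1 := upN (n := L) ho
  have m1 := upN (n := L) hm
  have k1 := upN (n := L) hk
  have j1 := last (D := Dm) (ctx := ctx) (n := L)
  have key : PolyN (fun p : α × ℕ => Dm p.1 ∧ p.2 < L p.1) (PolyTime.lift ctx ++ [fun p => un p.2])
      (fun p => ∑ i ∈ range (μ p.1), if (r p.1).getD
        ((k p.1 * (n p.1 * (s p.1 * n p.1 + 1) ^ T p.1) + p.2) * ν p.1 + (o p.1 + i)) false
          then 2 ^ i else 0) := by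
    refine nSum (f := fun (p : α × ℕ) i => if (r p.1).getD
      ((k p.1 * (n p.1 * (s p.1 * n p.1 + 1) ^ T p.1) + p.2) * ν p.1 + (o p.1 + i)) false
        then 2 ^ i else 0) μ1 ?_
    have r2 := up (n := fun p : α × ℕ => μ p.1) r1
    have l2 := upN (n := fun p : α × ℕ => μ p.1) l1
    have ν2 := upN (n := fun p : α × ℕ => μ p.1) ν1
    have o2 := upN (n := fun p : α × ℕ => μ p.1) o1
    have m2 := upN (n := fun p : α × ℕ => μ p.1) m1
    have k2 := upN (n := fun p : α × ℕ => μ p.1) k1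
    have j2 := upN (n := fun p : α × ℕ => μ p.1) j1
    have i2 := last (D := fun p : α × ℕ => Dm p.1 ∧ p.2 < L p.1)
      (ctx := PolyTime.lift ctx ++ [fun p => un p.2]) (n := fun p : α × ℕ => μ p.1)
    have hb := PolyB.getD r2 ((((k2.mul l2).add j2).mul ν2).add (o2.add i2))
    have hp := powz (N := fun q : (α × ℕ) × ℕ => 2 ^ μ q.1.1) (PolyN.const 2) i2 m2
      (fun q hq => Nat.pow_le_pow_right (by omega) hq.2.le)
    exact itez hb (PolyC.mono hp fun _ h => h.1) (PolyN.const 0)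
  exact key

variable {w : α → List Bool} {W : α → Finset ℕ} {μ ν s c M T κ K k den : α → ℕ} {r : α → List Bool}

theorem poly_Dk (hw : PolyC Dm ctx w) (hμ : PolyN Dm ctx μ) (hm : PolyN Dm ctx (fun a => 2 ^ μ a))
    (hν : PolyN Dm ctx ν) (hs : PolyN Dm ctx s) (hk : PolyN Dm ctx k)
    (hC : PolyN Dm ctx (fun x => (s x * nOf (w x) + 1) ^ T x)) (hr : PolyC Dm ctx r) :
    PolyArr Dm ctx (fun a => 2 ^ μ a) (fun a => nOf (w a) * (s a * nOf (w a) + 1) ^ T a)
      (fun a => DkA (μ a) (ν a) (nOf (w a)) (s a) (T a) (k a) fun i => (r a).getD i false) := by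
  refine (poly_rdA (ν := fun a => μ a + ν a) (o := fun _ => 0) hr (poly_nOf hw) hs hμ
    (hμ.add hν) (PolyN.const 0) hm hC hk).congr (fun a _ i _ => ?_)
  unfold DkA
  simp only [Nat.zero_add]

theorem poly_Zk (hw : PolyC Dm ctx w) (hμ : PolyN Dm ctx μ)
    (hN : PolyN Dm ctx (fun a => 2 ^ ν a))
    (hν : PolyN Dm ctx ν) (hs : PolyN Dm ctx s) (hk : PolyN Dm ctx k)
    (hC : PolyN Dm ctx (fun x => (s x * nOf (w x) + 1) ^ T x)) (hr : PolyC Dm ctx r) :
    PolyArr Dm ctx (fun a => 2 ^ ν a) (fun a => nOf (w a) * (s a * nOf (w a) + 1) ^ T a)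
      (fun a => ZkA (μ a) (ν a) (nOf (w a)) (s a) (T a) (k a) fun i => (r a).getD i false) :=
  (poly_rdA (μ := ν) (ν := fun a => μ a + ν a) (o := μ) hr (poly_nOf hw) hs hν
    (hμ.add hν) hμ hN hC hk).congr (fun _ _ _ _ => rfl)

theorem poly_totA (hw : PolyC Dm ctx w) (hW : PolyS Dm ctx (fun x => nOf (w x)) W)
    (hμ : PolyN Dm ctx μ) (hm : PolyN Dm ctx (fun a => 2 ^ μ a)) (hν : PolyN Dm ctx ν)
    (hN : PolyN Dm ctx (fun a => 2 ^ ν a)) (hs : PolyN Dm ctx s) (hc : PolyN Dm ctx c)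
    (hM : PolyN Dm ctx M) (hT : PolyN Dm ctx T) (hκ : PolyN Dm ctx κ) (hK : PolyN Dm ctx K)
    (hC : PolyN Dm ctx (fun x => (s x * nOf (w x) + 1) ^ T x)) (hr : PolyC Dm ctx r) :
    PolyN Dm ctx (fun a => ∑ k ∈ range (K a), posA (nOf (w a)) (2 ^ μ a) (s a) (c a) (M a) (T a)
      (Gn (w a) (κ a) (W a))
      (DkA (μ a) (ν a) (nOf (w a)) (s a) (T a) k fun i => (r a).getD i false)
      (ZkA (μ a) (ν a) (nOf (w a)) (s a) (T a) k fun i => (r a).getD i false)) ∧
    PolyN Dm ctx (fun a => ∑ k ∈ range (K a), negA (nOf (w a)) (2 ^ μ a) (s a) (c a) (M a) (T a)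
      (Gn (w a) (κ a) (W a))
      (DkA (μ a) (ν a) (nOf (w a)) (s a) (T a) k fun i => (r a).getD i false)
      (ZkA (μ a) (ν a) (nOf (w a)) (s a) (T a) k fun i => (r a).getD i false)) := by
  have w1 := up (n := K) hw
  have k1 := last (D := Dm) (ctx := ctx) (n := K)
  have μ1 := upN (n := K) hμ
  have m1 := upN (n := K) hm
  have ν1 := upN (n := K) hν
  have N1 := upN (n := K) hN
  have s1 := upN (n := K) hs
  have C1 := upN (n := K) hC
  have r1 := up (n := K) hr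
  have D1 := poly_Dk w1 μ1 m1 ν1 s1 k1 C1 r1
  have Z1 := poly_Zk w1 μ1 N1 ν1 s1 k1 C1 r1
  constructor
  · exact nSum hK (poly_posA w1 (hW.up (m := K)) m1 s1 N1 (upN (n := K) hc) (upN (n := K) hM)
      (upN (n := K) hT) (upN (n := K) hκ) C1 D1 Z1)
  · exact nSum hK (poly_negA w1 (hW.up (m := K)) m1 s1 N1 (upN (n := K) hc) (upN (n := K) hM)
      (upN (n := K) hT) (upN (n := K) hκ) C1 D1 Z1)

/-- The sum over the copies. -/
theorem totA_eq (w : List Bool) (W : Finset ℕ) (μ ν s c M T κ K : ℕ) (b : ℕ → Bool) :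
    (∑ k : Fin K, VA c M (FW (nOf w) (aOf w) (adjOf w) κ W) T
      (decSA μ ν (nOf w) s T K b k)) =
      ((∑ k ∈ range K, posA (nOf w) (2 ^ μ) s c M T (Gn w κ W) (DkA μ ν (nOf w) s T k b)
        (ZkA μ ν (nOf w) s T k b) : ℕ) : ℤ) -
      ((∑ k ∈ range K, negA (nOf w) (2 ^ μ) s c M T (Gn w κ W) (DkA μ ν (nOf w) s T k b)
        (ZkA μ ν (nOf w) s T k b) : ℕ) : ℤ) := by
  push_cast
  rw [← sum_sub_distrib, ← Fin.sum_univ_eq_sum_range (fun k =>
    (posA (nOf w) (2 ^ μ) s c M T (Gn w κ W) (DkA μ ν (nOf w) s T k b)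
        (ZkA μ ν (nOf w) s T k b) : ℤ) -
      negA (nOf w) (2 ^ μ) s c M T (Gn w κ W) (DkA μ ν (nOf w) s T k b)
        (ZkA μ ν (nOf w) s T k b)) K]
  refine sum_congr rfl fun k _ => ?_
  rw [VA_dec, GF_Gn]

end SeedAuxA

open SeedAuxA TabAux TabSeedAux

/-- The estimate of the logarithm of the number of independent subsets of `W`, computed from the
random bits `r` in polynomial time. -/
theorem poly_eWA {w : α → List Bool} {W : α → Finset ℕ} {μ ν s c M T κ K den : α → ℕ}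
    {r : α → List Bool} (hw : PolyC Dm ctx w) (hW : PolyS Dm ctx (fun x => nOf (w x)) W)
    (hμ : PolyN Dm ctx μ) (hm : PolyN Dm ctx (fun a => 2 ^ μ a)) (hν : PolyN Dm ctx ν)
    (hN : PolyN Dm ctx (fun a => 2 ^ ν a)) (hs : PolyN Dm ctx s) (hc : PolyN Dm ctx c)
    (hM : PolyN Dm ctx M) (hT : PolyN Dm ctx T) (hκ : PolyN Dm ctx κ) (hK : PolyN Dm ctx K)
    (hden : PolyN Dm ctx den)
    (hC : PolyN Dm ctx (fun x => (s x * nOf (w x) + 1) ^ T x)) (hr : PolyC Dm ctx r) :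
    PolyN Dm ctx (fun a => eW (nOf (w a)) (aOf (w a)) (W a)
      (∑ k : Fin (K a), VA (c a) (M a) (FW (nOf (w a)) (aOf (w a)) (adjOf (w a)) (κ a) (W a))
        (T a) (decSA (μ a) (ν a) (nOf (w a)) (s a) (T a) (K a) (fun i => (r a).getD i false) k))
      (den a)) := by
  have hn := poly_nOf hw
  have ha := poly_aOf hw
  obtain ⟨P, N⟩ := poly_totA hw hW hμ hm hν hN hs hc hM hT hκ hK hC hr
  have C := PolyS.card hn hW
  have A1 := upN (n := fun x => nOf (w x)) ha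
  have L1 := last (D := Dm) (ctx := ctx) (n := fun x => nOf (w x))
  have F := PolyS.card hn (PolyS.filter (φ := fun p : α × ℕ => decide (p.2 < aOf (w p.1))) hn hW
    (PolyB.lt L1 A1))
  have B1 := PolyB.natEq F (PolyN.const 0)
  have B2 := PolyB.le N P
  have E := PolyN.sub (C.add (divz (PolyN.sub P N) hden)) hn
  refine (itez B1 (PolyC.mono C fun _ h => h.1) (itez (PolyC.mono B2 fun _ h => h.1)
    (PolyC.mono E fun _ h => h.1.1) (PolyN.const 0))).congr (fun a haD => ?_)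
  rw [totA_eq, eW_nat (hW.2 a haD)]
  simp only [decide_eq_true_eq]

end Pool.Agent.Lib.SubBisX.AccTab
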