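import Pool.Agent.Lib.SubBisX.TabPolyB

/-!
A general tree machine: nodes of level `r` are the numbers `X < C ^ (T - r)`, the children of the node
`X` of level `r + 1` are the nodes `X * C + k`, `k < C`, of level `r`, the state of a node consists of
`L` numbers at most `B`, and the state of a node is computed from the states of its children.
-/

namespace Pool.Agent.Lib.SubBisX.Tree

open Finset Pool.Agent.Lib.PolyTime Pool.Agent.Lib.Pa7c826 Pool.Agent.Lib.Pa7c826t
open Pool.Agent.Lib.SubBisX.Tab Pool.Agent.Lib.SubBisX.Tab.TabAux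

universe u

variable {α : Type u} {D : α → Prop} {ctx : List (α → List Bool)}

/-- The table of the states of the nodes of level `r`. -/
def ttab (C T L : ℕ) (f : ℕ → ℕ → ℕ → ℕ) (r I : ℕ) : ℕ :=
  if I / L < C ^ (T - r) then f r (I / L) (I % L) else 0

theorem ttab_le {C T L B : ℕ} {f : ℕ → ℕ → ℕ → ℕ} (hb : ∀ r X i, f r X i ≤ B) (r I : ℕ) :
    ttab C T L f r I ≤ B := by
  unfold ttab
  split_ifs
  · exact hb _ _ _
  · exact Nat.zero_le _

theorem ttab_at {C T L : ℕ} {f : ℕ → ℕ → ℕ → ℕ} {r X i : ℕ} (hX : X < C ^ (T - r)) (hi : i < L) :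
    ttab C T L f r (X * L + i) = f r X i := by
  have h1 : (X * L + i) / L = X := by
    rw [mul_comm, Nat.mul_add_div (by omega), Nat.div_eq_of_lt hi, Nat.add_zero]
  have h2 : (X * L + i) % L = i := by
    rw [mul_comm, Nat.mul_add_mod, Nat.mod_eq_of_lt hi]
  unfold ttab
  rw [h1, h2, if_pos hX]

/-- The index of the entry `i` of the child `k` of the node `X` of level `r + 1`. -/
theorem child_lt {C T L r X k i : ℕ} (hr : r < T) (hX : X < C ^ (T - (r + 1))) (hk : k < C)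
    (hi : i < L) : (X * C + k) * L + i < C ^ T * L := by
  have h1 : X * C + k < C ^ (T - r) := by
    have e : T - r = (T - (r + 1)) + 1 := by omega
    rw [e, pow_succ]
    calc X * C + k < X * C + C := by omega
      _ = (X + 1) * C := by ring
      _ ≤ C ^ (T - (r + 1)) * C := Nat.mul_le_mul_right _ hX
  have h2 : C ^ (T - r) ≤ C ^ T := Nat.pow_le_pow_right (by omega) (by omega)
  calc (X * C + k) * L + i < (X * C + k) * L + L := by omega
    _ = (X * C + k + 1) * L := by ring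
    _ ≤ C ^ T * L := Nat.mul_le_mul_right _ (by omega)

theorem child_node {C T r X k : ℕ} (hr : r < T) (hX : X < C ^ (T - (r + 1))) (hk : k < C) :
    X * C + k < C ^ (T - r) := by
  have e : T - r = (T - (r + 1)) + 1 := by omega
  rw [e, pow_succ]
  calc X * C + k < X * C + C := by omega
    _ = (X + 1) * C := by ring
    _ ≤ C ^ (T - (r + 1)) * C := Nat.mul_le_mul_right _ hX

/-- The step of a tree recursion, in an arbitrary context that lifts the data. -/
def TStep (D : α → Prop) (ctx : List (α → List Bool)) (C T L B : α → ℕ)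
    (f : α → ℕ → ℕ → ℕ → ℕ) : Prop :=
  ∀ (β : Type u) (D' : β → Prop) (ctx' : List (β → List Bool)) (π : β → α) (r X i : β → ℕ)
    (F : β → ℕ → ℕ),
    (∀ b, D' b → D (π b)) → (∀ b, D' b → r b < T (π b)) →
    (∀ b, D' b → X b < C (π b) ^ (T (π b) - (r b + 1))) → (∀ b, D' b → i b < L (π b)) →
    (∀ t : α → List Bool, PolyC D ctx t → PolyC D' ctx' (fun b => t (π b))) →
    PolyN D' ctx' r → PolyN D' ctx' X → PolyN D' ctx' i →
    PolyArr D' ctx' (fun b => B (π b)) (fun b => C (π b) ^ T (π b) * L (π b)) F →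
    (∀ b, D' b → ∀ Y < C (π b) ^ (T (π b) - r b), ∀ k < L (π b),
      F b (Y * L (π b) + k) = f (π b) (r b) Y k) →
    PolyN D' ctx' (fun b => f (π b) (r b + 1) (X b) (i b))

theorem poly_ttab {C T L B r : α → ℕ} {f : α → ℕ → ℕ → ℕ → ℕ} (hC : PolyN D ctx C)
    (hT : PolyN D ctx T) (hL : PolyN D ctx L) (hB : PolyN D ctx B)
    (hN : PolyN D ctx (fun a => C a ^ T a)) (hb : ∀ a r X i, f a r X i ≤ B a)
    (h0 : PolyArr D ctx B (fun a => C a ^ T a * L a)
      (fun a => ttab (C a) (T a) (L a) (f a) 0))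
    (hstep : TStep D ctx C T L B f) (hC1 : ∀ a, D a → 1 ≤ C a)
    (hr : PolyN D ctx r) (hrT : ∀ a, D a → r a ≤ T a) :
    PolyArr D ctx B (fun a => C a ^ T a * L a)
      (fun a => ttab (C a) (T a) (L a) (f a) (r a)) := by
  have hl : PolyN D ctx (fun a => C a ^ T a * L a) := hN.mul hL
  refine polyArr_rec (fun a r => ttab (C a) (T a) (L a) (f a) r) hB hl hr h0 ?_
  set st : α × ℕ → List Bool := fun p => arr (B p.1) (C p.1 ^ T p.1 * L p.1)
    (ttab (C p.1) (T p.1) (L p.1) (f p.1) p.2) with hst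
  have U : ∀ {t : α → List Bool}, PolyC D ctx t →
      PolyC (fun p : α × ℕ => D p.1 ∧ p.2 < r p.1)
        (PolyTime.lift ctx ++ [fun p => un p.2, st]) (fun p => t p.1) := fun h => up2 h
  have F1 : PolyArr (fun p : α × ℕ => D p.1 ∧ p.2 < r p.1)
      (PolyTime.lift ctx ++ [fun p => un p.2, st]) (fun p => B p.1)
      (fun p => C p.1 ^ T p.1 * L p.1)
      (fun p => ttab (C p.1) (T p.1) (L p.1) (f p.1) p.2) :=
    ⟨PolyC.var (by simp [hst]), fun p _ i _ => ttab_le (hb p.1) _ _⟩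
  have C1 : PolyN _ _ (fun p : α × ℕ => C p.1) := U hC
  have T1 : PolyN _ _ (fun p : α × ℕ => T p.1) := U hT
  have L1 : PolyN _ _ (fun p : α × ℕ => L p.1) := U hL
  have B1 : PolyN _ _ (fun p : α × ℕ => B p.1) := U hB
  have N1 : PolyN _ _ (fun p : α × ℕ => C p.1 ^ T p.1) := U hN
  have l1 : PolyN _ _ (fun p : α × ℕ => C p.1 ^ T p.1 * L p.1) := U hl
  have r1 : PolyN (fun p : α × ℕ => D p.1 ∧ p.2 < r p.1)
      (PolyTime.lift ctx ++ [fun p => un p.2, st]) (fun p => p.2) := PolyC.var (by simp)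
  refine PolyArr.mk B1 l1 ?_ (fun p _ i _ => ttab_le (hb p.1) _ _)
  set len : α × ℕ → ℕ := fun p => C p.1 ^ T p.1 * L p.1 with hlen
  have C2 := upN (n := len) C1
  have T2 := upN (n := len) T1
  have L2 := upN (n := len) L1
  have N2 := upN (n := len) N1
  have r2 := upN (n := len) r1
  have F2 := F1.up (k := len)
  have I2 := last (D := fun p : α × ℕ => D p.1 ∧ p.2 < r p.1)
    (ctx := PolyTime.lift ctx ++ [fun p => un p.2, st]) (n := len)
  have X2 := divz I2 L2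
  have i2 := modz I2 L2
  have hφ := PolyB.lt X2 (powz (N := fun q : (α × ℕ) × ℕ => C q.1.1 ^ T q.1.1) C2
    (PolyN.sub T2 r2.succ) N2 (fun q hq => Nat.pow_le_pow_right (hC1 _ hq.1.1) (Nat.sub_le _ _)))
  refine (itez hφ (hstep ((α × ℕ) × ℕ) _ _ (fun q => q.1.1) (fun q => q.1.2)
    (fun q => q.2 / L q.1.1) (fun q => q.2 % L q.1.1)
    (fun q => ttab (C q.1.1) (T q.1.1) (L q.1.1) (f q.1.1) q.1.2) ?_ ?_ ?_ ?_ ?_
    (PolyC.mono r2 fun _ h => h.1) (PolyC.mono X2 fun _ h => h.1)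
    (PolyC.mono i2 fun _ h => h.1) (F2.mono fun _ h => h.1) ?_) (PolyN.const 0)).congr ?_
  · rintro ⟨⟨a, r'⟩, I⟩ ⟨⟨⟨h1, _⟩, _⟩, _⟩
    exact h1
  · rintro ⟨⟨a, r'⟩, I⟩ ⟨⟨⟨h1, h2⟩, _⟩, _⟩
    exact lt_of_lt_of_le h2 (hrT a h1)
  · rintro ⟨⟨a, r'⟩, I⟩ ⟨⟨⟨h1, h2⟩, h3⟩, h4⟩
    exact of_decide_eq_true h4
  · rintro ⟨⟨a, r'⟩, I⟩ ⟨⟨⟨h1, h2⟩, h3⟩, h4⟩
    refine Nat.mod_lt _ ?_
    rcases Nat.eq_zero_or_pos (L a) with h5 | h5
    · simp only [hlen] at h3
      rw [h5, Nat.mul_zero] at h3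
      exact absurd h3 (Nat.not_lt_zero _)
    · exact h5
  · intro t ht
    exact PolyC.mono (up (n := len) (U ht)) fun _ h => h.1
  · rintro ⟨⟨a, r'⟩, I⟩ _ Y hY k hk
    exact ttab_at hY hk
  · rintro ⟨⟨a, r'⟩, I⟩ ⟨⟨h1, h2⟩, h3⟩
    show (if decide (I / L a < C a ^ (T a - (r' + 1))) = true then
      f a (r' + 1) (I / L a) (I % L a) else 0) = ttab (C a) (T a) (L a) (f a) (r' + 1) I
    unfold ttab
    simp only [decide_eq_true_eq]

/-- The entry `i` of the state of the node `X` of level `r`. -/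
theorem poly_tree {C T L B r X i : α → ℕ} {f : α → ℕ → ℕ → ℕ → ℕ} (hC : PolyN D ctx C)
    (hT : PolyN D ctx T) (hL : PolyN D ctx L) (hB : PolyN D ctx B)
    (hN : PolyN D ctx (fun a => C a ^ T a)) (hb : ∀ a r X i, f a r X i ≤ B a)
    (h0 : ∀ a X i, f a 0 X i = 0) (hstep : TStep D ctx C T L B f)
    (hC1 : ∀ a, D a → 1 ≤ C a) (hr : PolyN D ctx r) (hX : PolyN D ctx X) (hi : PolyN D ctx i)
    (hrT : ∀ a, D a → r a ≤ T a) (hXN : ∀ a, D a → X a < C a ^ (T a - r a))
    (hiL : ∀ a, D a → i a < L a) :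
    PolyN D ctx (fun a => f a (r a) (X a) (i a)) := by
  have hl : PolyN D ctx (fun a => C a ^ T a * L a) := hN.mul hL
  have h0' : PolyArr D ctx B (fun a => C a ^ T a * L a)
      (fun a => ttab (C a) (T a) (L a) (f a) 0) := by
    refine (PolyArr.mk (f := fun _ _ => 0) hB hl (PolyN.const 0)
      (fun _ _ _ _ => Nat.zero_le _)).congr (fun a _ i _ => ?_)
    show 0 = ttab (C a) (T a) (L a) (f a) 0 i
    unfold ttab
    split_ifs
    · exact (h0 _ _ _).symm
    · rfl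
  refine (PolyArr.get (poly_ttab hC hT hL hB hN hb h0' hstep hC1 hr hrT) hB
    ((hX.mul hL).add hi) (fun a ha => ?_)).congr (fun a ha => ttab_at (hXN a ha) (hiL a ha))
  have h2 : C a ^ (T a - r a) ≤ C a ^ T a :=
    Nat.pow_le_pow_right (hC1 a ha) (Nat.sub_le _ _)
  have h3 := hiL a ha
  calc X a * L a + i a < X a * L a + L a := by omega
    _ = (X a + 1) * L a := by ring
    _ ≤ C a ^ T a * L a := Nat.mul_le_mul_right _ (lt_of_lt_of_le (hXN a ha) h2)

end Pool.Agent.Lib.SubBisX.Tree
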