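import Pool.Agent.Lib.SubBisX.AccTabOff
import Pool.Agent.Lib.SubBisX.TreePoly

/-!
The table of the states of the accelerated method in polynomial time.
-/

namespace Pool.Agent.Lib.SubBisX.AccTab

open Finset Pool.Agent.Lib.PolyTime Pool.Agent.Lib.Pa7c826 Pool.Agent.Lib.Pa7c826t
open Pool.Agent.Lib.SubBisX.Tab Pool.Agent.Lib.SubBisX.Tab.TabAux Pool.Agent.Lib.SubBisX.Tree

universe u

variable {α : Type u} {Dm : α → Prop} {ctx : List (α → List Bool)}

namespace StepAux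

theorem poly_wt {r : α → ℕ} (hr : PolyN Dm ctx r) : PolyN Dm ctx (fun a => Acc.wt (r a)) :=
  divz (hr.mul hr.succ) (PolyN.const 2)

theorem wt_mono {r r' : ℕ} (h : r ≤ r') : Acc.wt r ≤ Acc.wt r' :=
  Nat.div_le_div_right (Nat.mul_le_mul h (by omega))

theorem wt_pos (r : ℕ) : 0 < Acc.wt (r + 1) := by
  rw [Acc.wt_succ]
  omega

/-- The sum of the gradients. -/
theorem poly_gsum {w : α → List Bool} {W : α → Finset ℕ} {s c κ u v : α → ℕ}
    {y : α → ℕ → ℕ → ℕ} (hw : PolyC Dm ctx w) (hW : PolyS Dm ctx (fun x => nOf (w x)) W)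
    (hs : PolyN Dm ctx s) (hc : PolyN Dm ctx c) (hκ : PolyN Dm ctx κ)
    (hu : PolyN Dm ctx u) (hv : PolyN Dm ctx v)
    (hyv : PolyN (fun p : α × ℕ => Dm p.1 ∧ p.2 < s p.1) (PolyTime.lift ctx ++ [fun p => un p.2])
      (fun p => y p.1 p.2 (v p.1)))
    (hy : PolyN (fun q : (α × ℕ) × ℕ => (Dm q.1.1 ∧ q.1.2 < s q.1.1) ∧ q.2 < nOf (w q.1.1))
      (PolyTime.lift (PolyTime.lift ctx ++ [fun p => un p.2]) ++ [fun q => un q.2])
      (fun q => y q.1.1 q.1.2 q.2)) :
    PolyN Dm ctx (fun a => ∑ i ∈ range (s a), (Nat.log 2 (u a ^ c a) +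
      c a * Gn (w a) (κ a) (W a) (upoS (nOf (w a)) (y a i) (v a)))) ∧
    PolyN Dm ctx (fun a => ∑ i ∈ range (s a), (Nat.log 2 (u a ^ c a) +
      c a * Gn (w a) (κ a) (W a) (upS (nOf (w a)) (y a i) (v a)))) := by
  have w1 := up (n := s) hw
  have W1 := hW.up (m := s)
  have c1 := upN (n := s) hc
  have κ1 := upN (n := s) hκ
  have u1 := upN (n := s) hu
  have v1 := upN (n := s) hv
  constructor
  · exact P8e91ed.PT.nSum hs ((poly_logpow u1 c1).add (c1.mul
      (poly_Gn w1 κ1 W1 (poly_upoS (poly_nOf w1) v1 hyv hy))))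
  · exact P8e91ed.PT.nSum hs ((poly_logpow u1 c1).add (c1.mul
      (poly_Gn w1 κ1 W1 (poly_upS (poly_nOf w1) v1 hyv hy))))

theorem poly_newZ {w : α → List Bool} {W : α → Finset ℕ} {m s c M κ t z0 u v : α → ℕ}
    {y : α → ℕ → ℕ → ℕ} (hw : PolyC Dm ctx w) (hW : PolyS Dm ctx (fun x => nOf (w x)) W)
    (hm : PolyN Dm ctx m) (hs : PolyN Dm ctx s) (hc : PolyN Dm ctx c) (hM : PolyN Dm ctx M)
    (hκ : PolyN Dm ctx κ) (ht : PolyN Dm ctx t) (hz0 : PolyN Dm ctx z0)
    (hu : PolyN Dm ctx u) (hv : PolyN Dm ctx v)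
    (hyv : PolyN (fun p : α × ℕ => Dm p.1 ∧ p.2 < s p.1) (PolyTime.lift ctx ++ [fun p => un p.2])
      (fun p => y p.1 p.2 (v p.1)))
    (hy : PolyN (fun q : (α × ℕ) × ℕ => (Dm q.1.1 ∧ q.1.2 < s q.1.1) ∧ q.2 < nOf (w q.1.1))
      (PolyTime.lift (PolyTime.lift ctx ++ [fun p => un p.2]) ++ [fun q => un q.2])
      (fun q => y q.1.1 q.1.2 q.2)) :
    PolyN Dm ctx (fun a => newZ (nOf (w a)) (m a) (s a) (c a) (M a) (t a)
      (Gn (w a) (κ a) (W a)) (z0 a) (u a) (y a) (v a)) := by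
  have A := hz0.add (ht.mul (poly_gsum hw hW hs hc hκ (PolyN.sub hm hu) hv hyv hy).1)
  have B := ht.mul (poly_gsum hw hW hs hc hκ hu.succ hv hyv hy).2
  have C := PolyN.sub A B
  refine (itez (PolyB.le hM C) (PolyC.mono hM fun _ h => h.1)
    (PolyC.mono C fun _ h => h.1)).congr (fun a _ => ?_)
  unfold newZ
  simp only [decide_eq_true_eq]
  split_ifs with h
  · exact (min_eq_left h).symm
  · exact (min_eq_right (not_le.1 h).le).symm

theorem newZ_congr {n m s c M t : ℕ} {G : Finset ℕ → ℕ} {z0 u v : ℕ} {y y' : ℕ → ℕ → ℕ}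
    (hv : v < n) (h : ∀ i < s, ∀ x < n, y i x = y' i x) :
    newZ n m s c M t G z0 u y v = newZ n m s c M t G z0 u y' v := by
  have e1 : ∀ i < s, upoS n (y i) v = upoS n (y' i) v := by
    intro i hi
    unfold upoS
    refine Finset.filter_congr fun x hx => ?_
    simp only [h i hi x (Finset.mem_range.1 hx), h i hi v hv]
  have e2 : ∀ i < s, upS n (y i) v = upS n (y' i) v := by
    intro i hi
    unfold upS
    refine Finset.filter_congr fun x hx => ?_
    simp only [h i hi x (Finset.mem_range.1 hx), h i hi v hv]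
  have s1 : ∑ i ∈ range s, (Nat.log 2 ((m - u) ^ c) + c * G (upoS n (y i) v)) =
      ∑ i ∈ range s, (Nat.log 2 ((m - u) ^ c) + c * G (upoS n (y' i) v)) :=
    Finset.sum_congr rfl fun i hi => by rw [e1 i (Finset.mem_range.1 hi)]
  have s2 : ∑ i ∈ range s, (Nat.log 2 ((u + 1) ^ c) + c * G (upS n (y i) v)) =
      ∑ i ∈ range s, (Nat.log 2 ((u + 1) ^ c) + c * G (upS n (y' i) v)) :=
    Finset.sum_congr rfl fun i hi => by rw [e2 i (Finset.mem_range.1 hi)]
  unfold newZ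
  rw [s1, s2]

theorem stN_bd (n m s c M T : ℕ) (G : Finset ℕ → ℕ) (D Z : ℕ → ℕ) (r X v : ℕ) :
    (stN n m s c M T G D Z r X v).1 ≤ M ∧ (stN n m s c M T G D Z r X v).2 ≤ Acc.wt r * M := by
  induction r generalizing X with
  | zero => exact ⟨Nat.zero_le _, Nat.zero_le _⟩
  | succ r ih =>
    have h1 : (stN n m s c M T G D Z (r + 1) X v).1 ≤ M := min_le_left _ _
    refine ⟨h1, ?_⟩
    rw [Acc.wt_succ, add_mul]
    exact Nat.add_le_add (ih _).2 (Nat.mul_le_mul_left _ h1)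

theorem stT_le (n m s c M T : ℕ) (G : Finset ℕ → ℕ) (D Z : ℕ → ℕ) (r X i : ℕ) :
    stT n m s c M T G D Z r X i ≤ (Acc.wt T + 1) * M := by
  unfold stT
  split_ifs with h1 h2
  · refine (stN_bd n m s c M T G D Z r X i).1.trans ?_
    rw [add_mul, one_mul]
    exact Nat.le_add_left _ _
  · refine (stN_bd n m s c M T G D Z r X (i - n)).2.trans ?_
    exact Nat.mul_le_mul_right _ ((wt_mono h1).trans (Nat.le_succ _))
  · exact Nat.zero_le _

theorem stT_fst {n m s c M T : ℕ} {G : Finset ℕ → ℕ} {D Z : ℕ → ℕ} {r X x : ℕ} (h : r ≤ T)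
    (hx : x < n) : stT n m s c M T G D Z r X x = (stN n m s c M T G D Z r X x).1 := by
  unfold stT
  rw [if_pos h, if_pos hx]

theorem stT_snd {n m s c M T : ℕ} {G : Finset ℕ → ℕ} {D Z : ℕ → ℕ} {r X x : ℕ} (h : r ≤ T) :
    stT n m s c M T G D Z r X (n + x) = (stN n m s c M T G D Z r X x).2 := by
  unfold stT
  rw [if_pos h, if_neg (by omega), Nat.add_sub_cancel_left]

/-- The new `z` from a table of the level below. -/
def cellA (n m s c M T : ℕ) (G : Finset ℕ → ℕ) (D Z F : ℕ → ℕ) (r X v : ℕ) : ℕ :=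
  newZ n m s c M (r + 1) G (F (X * (s * n + 1) * (2 * n) + v))
    (D (offA n s (T - (r + 1)) (r + 1) X v)) (fun i x =>
      (F ((X * (s * n + 1) + (1 + v * s + i)) * (2 * n) + (n + x)) +
        (r + 1) * F ((X * (s * n + 1) + (1 + v * s + i)) * (2 * n) + x)) / Acc.wt (r + 1) +
          Z (offA n s (T - (r + 1)) (r + 1) X v + (1 + i * n + x) * (s * n + 1) ^ r)) v

theorem kid_lt {n s v i : ℕ} (hv : v < n) (hi : i < s) : 1 + v * s + i < s * n + 1 := by
  have h : (v + 1) * s ≤ n * s := Nat.mul_le_mul_right _ hv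
  have h1 : (v + 1) * s = v * s + s := by ring
  have h2 : n * s = s * n := Nat.mul_comm _ _
  omega

theorem stT_succ {n m s c M T : ℕ} {G : Finset ℕ → ℕ} {D Z F : ℕ → ℕ} {r X i : ℕ}
    (hr : r < T) (hX : X < (s * n + 1) ^ (T - (r + 1))) (hi : i < 2 * n)
    (hF : ∀ Y < (s * n + 1) ^ (T - r), ∀ k < 2 * n,
      F (Y * (2 * n) + k) = stT n m s c M T G D Z r Y k) :
    stT n m s c M T G D Z (r + 1) X i =
      if i < n then cellA n m s c M T G D Z F r X i
      else F (X * (s * n + 1) * (2 * n) + i) + (r + 1) * cellA n m s c M T G D Z F r X (i - n) := by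
  have h0 : X * (s * n + 1) < (s * n + 1) ^ (T - r) := by
    have := Tree.child_node (k := 0) hr hX (Nat.succ_pos _)
    rwa [Nat.add_zero] at this
  have key : ∀ v < n, cellA n m s c M T G D Z F r X v =
      (stN n m s c M T G D Z (r + 1) X v).1 := by
    intro v hv
    unfold cellA
    rw [hF _ h0 v (by omega), stT_fst hr.le hv]
    refine newZ_congr hv fun i hi x hx => ?_
    have h1 := Tree.child_node hr hX (kid_lt hv hi)
    rw [hF _ h1 (n + x) (by omega), hF _ h1 x (by omega), stT_fst hr.le hx, stT_snd hr.le]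
  unfold stT
  rw [if_pos (show r + 1 ≤ T from hr)]
  split_ifs with h
  · exact (key i h).symm
  · rw [key (i - n) (by omega), hF _ h0 i hi]
    have e : i = n + (i - n) := by omega
    conv_rhs => rw [e, stT_snd hr.le]
    simp only [Nat.add_sub_cancel_left]
    rfl

/-- The hypotheses on the parameters. -/
structure HA (Dm : α → Prop) (ctx : List (α → List Bool)) (w : α → List Bool)
    (W : α → Finset ℕ) (m s c M T κ N : α → ℕ) (D Z : α → ℕ → ℕ) : Prop where
  hw : PolyC Dm ctx w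
  hW : PolyS Dm ctx (fun x => nOf (w x)) W
  hm : PolyN Dm ctx m
  hs : PolyN Dm ctx s
  hN : PolyN Dm ctx N
  hc : PolyN Dm ctx c
  hM : PolyN Dm ctx M
  hT : PolyN Dm ctx T
  hκ : PolyN Dm ctx κ
  hC : PolyN Dm ctx (fun x => (s x * nOf (w x) + 1) ^ T x)
  hD : PolyArr Dm ctx m (fun x => nOf (w x) * (s x * nOf (w x) + 1) ^ T x) D
  hZ : PolyArr Dm ctx N (fun x => nOf (w x) * (s x * nOf (w x) + 1) ^ T x) Z

variable {w : α → List Bool} {W : α → Finset ℕ} {m s c M T κ N : α → ℕ} {D Z : α → ℕ → ℕ}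

theorem HA.lft (h : HA Dm ctx w W m s c M T κ N D Z) {β : Type u} {D' : β → Prop}
    {ctx' : List (β → List Bool)} (π : β → α) (hπ : ∀ b, D' b → Dm (π b))
    (lf : ∀ t : α → List Bool, PolyC Dm ctx t → PolyC D' ctx' (fun b => t (π b))) :
    HA D' ctx' (fun b => w (π b)) (fun b => W (π b)) (fun b => m (π b)) (fun b => s (π b))
      (fun b => c (π b)) (fun b => M (π b)) (fun b => T (π b)) (fun b => κ (π b))
      (fun b => N (π b)) (fun b => D (π b)) (fun b => Z (π b)) :=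
  ⟨lf _ h.hw, ⟨lf _ h.hW.1, fun b hb => h.hW.2 _ (hπ b hb)⟩, lf _ h.hm, lf _ h.hs, lf _ h.hN,
    lf _ h.hc, lf _ h.hM, lf _ h.hT, lf _ h.hκ, lf _ h.hC,
    ⟨lf _ h.hD.1, fun b hb => h.hD.2 _ (hπ b hb)⟩,
    ⟨lf _ h.hZ.1, fun b hb => h.hZ.2 _ (hπ b hb)⟩⟩

theorem zpos_lt {n s T r X v i x : ℕ} (hr : r < T) (hX : X < (s * n + 1) ^ (T - (r + 1)))
    (hv : v < n) (hi : i < s) (hx : x < n) :
    offA n s (T - (r + 1)) (r + 1) X v + (1 + i * n + x) * (s * n + 1) ^ r <
      n * (s * n + 1) ^ T := by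
  have h1 := offA_bound (n := n) (s := s) (T - (r + 1)) (r + 1) X v hv hX
  have e : r + 1 + (T - (r + 1)) = T := by omega
  rw [e] at h1
  have h2 : 1 + i * n + x < s * n + 1 := by
    have h : (i + 1) * n ≤ s * n := Nat.mul_le_mul_right _ hi
    have h1 : (i + 1) * n = i * n + n := by ring
    omega
  have h3 : (1 + i * n + x) * (s * n + 1) ^ r < (s * n + 1) * (s * n + 1) ^ r :=
    Nat.mul_lt_mul_of_pos_right h2 (Nat.pow_pos (Nat.succ_pos _))
  have h4 : (s * n + 1) * (s * n + 1) ^ r = (s * n + 1) ^ (r + 1) := by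
    rw [pow_succ, Nat.mul_comm]
  omega

theorem dpos_lt {n s T r X v : ℕ} (hr : r < T) (hX : X < (s * n + 1) ^ (T - (r + 1)))
    (hv : v < n) : offA n s (T - (r + 1)) (r + 1) X v < n * (s * n + 1) ^ T := by
  have h1 := offA_bound (n := n) (s := s) (T - (r + 1)) (r + 1) X v hv hX
  have e : r + 1 + (T - (r + 1)) = T := by omega
  rw [e] at h1
  have h2 : 0 < (s * n + 1) ^ (r + 1) := Nat.pow_pos (Nat.succ_pos _)
  omega

theorem poly_cellA {r X v : α → ℕ} {F : α → ℕ → ℕ} (h : HA Dm ctx w W m s c M T κ N D Z)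
    (hr : PolyN Dm ctx r) (hX : PolyN Dm ctx X) (hv : PolyN Dm ctx v)
    (hF : PolyArr Dm ctx (fun a => (Acc.wt (T a) + 1) * M a)
      (fun a => (s a * nOf (w a) + 1) ^ T a * (2 * nOf (w a))) F)
    (hrT : ∀ a, Dm a → r a < T a)
    (hXn : ∀ a, Dm a → X a < (s a * nOf (w a) + 1) ^ (T a - (r a + 1)))
    (hvn : ∀ a, Dm a → v a < nOf (w a)) :
    PolyN Dm ctx (fun a => cellA (nOf (w a)) (m a) (s a) (c a) (M a) (T a)
      (Gn (w a) (κ a) (W a)) (D a) (Z a) (F a) (r a) (X a) (v a)) := by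
  have hn := poly_nOf h.hw
  have hB : PolyN Dm ctx (fun a => (Acc.wt (T a) + 1) * M a) := (poly_wt h.hT).succ.mul h.hM
  have hCC : PolyN Dm ctx (fun a => s a * nOf (w a) + 1) := (h.hs.mul hn).succ
  have hL : PolyN Dm ctx (fun a => 2 * nOf (w a)) := (PolyN.const 2).mul hn
  have hoff : PolyN Dm ctx (fun a => offA (nOf (w a)) (s a) (T a - (r a + 1)) (r a + 1) (X a)
      (v a)) :=
    poly_offA hn h.hs (PolyN.sub h.hT hr.succ) hr.succ hX hv (h.hC.congr (fun a ha => by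
      have := hrT a ha
      congr 1
      omega))
  have hu := PolyArr.get h.hD h.hm hoff (fun a ha => dpos_lt (hrT a ha) (hXn a ha) (hvn a ha))
  have hz0 := PolyArr.get hF hB (((hX.mul hCC).mul hL).add hv) (fun a ha => by
    have := Tree.child_lt (k := 0) (L := 2 * nOf (w a)) (i := v a) (hrT a ha) (hXn a ha)
      (Nat.succ_pos _) (by have := hvn a ha; omega)
    rwa [Nat.add_zero] at this)
  refine poly_newZ h.hw h.hW h.hm h.hs h.hc h.hM h.hκ hr.succ hz0 hu hv ?_ ?_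
  · have s1 := upN (n := s) h.hs
    have n1 := upN (n := s) hn
    have B1 := upN (n := s) hB
    have C1 := upN (n := s) hCC
    have L1 := upN (n := s) hL
    have X1 := upN (n := s) hX
    have v1 := upN (n := s) hv
    have r1 := upN (n := s) hr
    have o1 := upN (n := s) hoff
    have N1 := upN (n := s) h.hN
    have W1 := poly_wt r1.succ
    have P1 := powz (N := fun q : α × ℕ => (s q.1 * nOf (w q.1) + 1) ^ T q.1) C1 r1
      (upN (n := s) h.hC) (fun q hq => Nat.pow_le_pow_right (Nat.succ_pos _) (hrT _ hq.1).le)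
    have i1 := last (D := Dm) (ctx := ctx) (n := s)
    have F1 := hF.up (k := s)
    have Z1 := h.hZ.up (k := s)
    have k1 := ((PolyN.const 1).add (v1.mul s1)).add i1
    have f2 := PolyArr.get F1 B1 ((((X1.mul C1).add k1).mul L1).add (n1.add v1)) (fun p hp =>
      Tree.child_lt (L := 2 * nOf (w p.1)) (hrT _ hp.1) (hXn _ hp.1) (kid_lt (hvn _ hp.1) hp.2)
        (by have := hvn _ hp.1; omega))
    have f1 := PolyArr.get F1 B1 ((((X1.mul C1).add k1).mul L1).add v1) (fun p hp =>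
      Tree.child_lt (L := 2 * nOf (w p.1)) (hrT _ hp.1) (hXn _ hp.1) (kid_lt (hvn _ hp.1) hp.2)
        (by have := hvn _ hp.1; omega))
    have z1 := PolyArr.get Z1 N1 (o1.add ((((PolyN.const 1).add (i1.mul n1)).add v1).mul P1))
      (fun p hp => zpos_lt (hrT _ hp.1) (hXn _ hp.1) (hvn _ hp.1) hp.2 (hvn _ hp.1))
    exact (divz (f2.add (r1.succ.mul f1)) W1).add z1
  · have s1 := upN (n := fun p : α × ℕ => nOf (w p.1)) (upN (n := s) h.hs)
    have n1 := upN (n := fun p : α × ℕ => nOf (w p.1)) (upN (n := s) hn)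
    have B1 := upN (n := fun p : α × ℕ => nOf (w p.1)) (upN (n := s) hB)
    have C1 := upN (n := fun p : α × ℕ => nOf (w p.1)) (upN (n := s) hCC)
    have L1 := upN (n := fun p : α × ℕ => nOf (w p.1)) (upN (n := s) hL)
    have X1 := upN (n := fun p : α × ℕ => nOf (w p.1)) (upN (n := s) hX)
    have v1 := upN (n := fun p : α × ℕ => nOf (w p.1)) (upN (n := s) hv)
    have r1 := upN (n := fun p : α × ℕ => nOf (w p.1)) (upN (n := s) hr)
    have o1 := upN (n := fun p : α × ℕ => nOf (w p.1)) (upN (n := s) hoff)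
    have N1 := upN (n := fun p : α × ℕ => nOf (w p.1)) (upN (n := s) h.hN)
    have W1 := poly_wt r1.succ
    have P1 := powz (N := fun q : (α × ℕ) × ℕ => (s q.1.1 * nOf (w q.1.1) + 1) ^ T q.1.1) C1 r1
      (upN (n := fun p : α × ℕ => nOf (w p.1)) (upN (n := s) h.hC))
      (fun q hq => Nat.pow_le_pow_right (Nat.succ_pos _) (hrT _ hq.1.1).le)
    have i1 := upN (n := fun p : α × ℕ => nOf (w p.1)) (last (D := Dm) (ctx := ctx) (n := s))
    have x1 := last (D := fun p : α × ℕ => Dm p.1 ∧ p.2 < s p.1)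
      (ctx := PolyTime.lift ctx ++ [fun p => un p.2]) (n := fun p : α × ℕ => nOf (w p.1))
    have F1 := (hF.up (k := s)).up (k := fun p : α × ℕ => nOf (w p.1))
    have Z1 := (h.hZ.up (k := s)).up (k := fun p : α × ℕ => nOf (w p.1))
    have k1 := ((PolyN.const 1).add (v1.mul s1)).add i1
    have f2 := PolyArr.get F1 B1 ((((X1.mul C1).add k1).mul L1).add (n1.add x1)) (fun p hp =>
      Tree.child_lt (L := 2 * nOf (w p.1.1)) (hrT _ hp.1.1) (hXn _ hp.1.1)
        (kid_lt (hvn _ hp.1.1) hp.1.2) (by have := hp.2; omega))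
    have f1 := PolyArr.get F1 B1 ((((X1.mul C1).add k1).mul L1).add x1) (fun p hp =>
      Tree.child_lt (L := 2 * nOf (w p.1.1)) (hrT _ hp.1.1) (hXn _ hp.1.1)
        (kid_lt (hvn _ hp.1.1) hp.1.2) (by have := hp.2; omega))
    have z1 := PolyArr.get Z1 N1 (o1.add ((((PolyN.const 1).add (i1.mul n1)).add x1).mul P1))
      (fun p hp => zpos_lt (hrT _ hp.1.1) (hXn _ hp.1.1) (hvn _ hp.1.1) hp.1.2 hp.2)
    exact (divz (f2.add (r1.succ.mul f1)) W1).add z1

theorem step_st (h : HA Dm ctx w W m s c M T κ N D Z) :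
    TStep Dm ctx (fun a => s a * nOf (w a) + 1) T (fun a => 2 * nOf (w a))
      (fun a => (Acc.wt (T a) + 1) * M a)
      (fun a => stT (nOf (w a)) (m a) (s a) (c a) (M a) (T a) (Gn (w a) (κ a) (W a)) (D a)
        (Z a)) := by
  intro β D' ctx' π r X i F h1 h2 h3 h4 lf hr hX hi hF hFv
  have g := h.lft π h1 lf
  have hn := poly_nOf g.hw
  have hB : PolyN D' ctx' (fun b => (Acc.wt (T (π b)) + 1) * M (π b)) :=
    (poly_wt g.hT).succ.mul g.hM
  have hCC : PolyN D' ctx' (fun b => s (π b) * nOf (w (π b)) + 1) := (g.hs.mul hn).succ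
  have hL : PolyN D' ctx' (fun b => 2 * nOf (w (π b))) := (PolyN.const 2).mul hn
  have hφ := PolyB.lt hi hn
  have e0 := PolyArr.get hF hB (((hX.mul hCC).mul hL).add hi) (fun b hb => by
    have := Tree.child_lt (k := 0) (L := 2 * nOf (w (π b))) (i := i b) (h2 b hb) (h3 b hb)
      (Nat.succ_pos _) (h4 b hb)
    rwa [Nat.add_zero] at this)
  have g1 : HA (fun b => D' b ∧ decide (i b < nOf (w (π b))) = true) ctx' _ _ _ _ _ _ _ _ _ _ _ :=
    g.lft id (fun _ hb => hb.1) (fun _ ht => PolyC.mono ht fun _ h => h.1)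
  have g2 : HA (fun b => D' b ∧ decide (i b < nOf (w (π b))) = false) ctx' _ _ _ _ _ _ _ _ _ _ _ :=
    g.lft id (fun _ hb => hb.1) (fun _ ht => PolyC.mono ht fun _ h => h.1)
  have A := poly_cellA g1 (PolyC.mono hr fun _ h => h.1) (PolyC.mono hX fun _ h => h.1)
    (PolyC.mono hi fun _ h => h.1) (hF.mono fun _ h => h.1) (fun b hb => h2 b hb.1)
    (fun b hb => h3 b hb.1) (fun b hb => of_decide_eq_true hb.2)
  have Bc := poly_cellA g2 (PolyC.mono hr fun _ h => h.1) (PolyC.mono hX fun _ h => h.1)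
    (PolyC.mono (PolyN.sub hi hn) fun _ h => h.1) (hF.mono fun _ h => h.1)
    (fun b hb => h2 b hb.1) (fun b hb => h3 b hb.1) (fun b hb => by
      have e1 := of_decide_eq_false hb.2
      have e2 := h4 b hb.1
      simp only [id] at e1 e2 ⊢
      omega)
  have E0 : PolyN (fun b => D' b ∧ decide (i b < nOf (w (π b))) = false) ctx' _ :=
    PolyC.mono e0 fun _ h => h.1
  have R0 : PolyN (fun b => D' b ∧ decide (i b < nOf (w (π b))) = false) ctx'
      (fun b => r b + 1) := PolyC.mono hr.succ fun _ h => h.1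
  refine (itez hφ A (E0.add (R0.mul Bc))).congr (fun b hb => ?_)
  simp only [decide_eq_true_eq, id]
  exact (stT_succ (h2 b hb) (h3 b hb) (h4 b hb) (hFv b hb)).symm

end StepAux

open StepAux

/-- The averaged point. -/
theorem poly_xoN {w : α → List Bool} {W : α → Finset ℕ} {m s c M T κ N v : α → ℕ}
    {D Z : α → ℕ → ℕ} (hw : PolyC Dm ctx w) (hW : PolyS Dm ctx (fun x => nOf (w x)) W)
    (hm : PolyN Dm ctx m) (hs : PolyN Dm ctx s) (hN : PolyN Dm ctx N) (hc : PolyN Dm ctx c)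
    (hM : PolyN Dm ctx M) (hT : PolyN Dm ctx T) (hκ : PolyN Dm ctx κ)
    (hC : PolyN Dm ctx (fun x => (s x * nOf (w x) + 1) ^ T x))
    (hD : PolyArr Dm ctx m (fun x => nOf (w x) * (s x * nOf (w x) + 1) ^ T x) D)
    (hZ : PolyArr Dm ctx N (fun x => nOf (w x) * (s x * nOf (w x) + 1) ^ T x) Z)
    (hv : PolyN Dm ctx v) (hvn : ∀ a, Dm a → v a < nOf (w a)) :
    PolyN Dm ctx (fun a => xoN (nOf (w a)) (m a) (s a) (c a) (M a) (T a) (Gn (w a) (κ a) (W a))
      (D a) (Z a) (v a)) := by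
  have h : HA Dm ctx w W m s c M T κ N D Z := ⟨hw, hW, hm, hs, hN, hc, hM, hT, hκ, hC, hD, hZ⟩
  have hn := poly_nOf hw
  have P := poly_tree (i := fun a => nOf (w a) + v a) (hs.mul hn).succ hT ((PolyN.const 2).mul hn)
    ((poly_wt hT).succ.mul hM) hC
    (fun a r X i => stT_le (nOf (w a)) (m a) (s a) (c a) (M a) (T a) (Gn (w a) (κ a) (W a))
      (D a) (Z a) r X i) (fun a X i => by
        unfold stT
        split_ifs <;> rfl)
    (step_st h) (fun _ _ => Nat.succ_pos _) hT (PolyN.const 0) (hn.add hv) (fun _ _ => le_rfl)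
    (fun a _ => Nat.pow_pos (Nat.succ_pos _)) (fun a ha => by
      have := hvn a ha
      omega)
  refine (divz P (poly_wt hT)).congr (fun a ha => ?_)
  unfold xoN
  rw [stT_snd le_rfl]

end Pool.Agent.Lib.SubBisX.AccTab
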