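import Pool.Agent.Lib.SubBisX.AccTabDefs

/-!
Uniformly random bits give uniformly random worlds with noise (`unif_decSA`), by the calculus of
`Seed.Unif` (`prod`, `pow`, `comp`, `unif_rd`).
-/

open Finset
open scoped BigOperators

namespace Pool.Agent.Lib.SubBisX.AccTab

open Pool.Agent.Lib.SubBisX.Reg Pool.Agent.Lib.SubBisX.Acc
open Pool.Agent.Lib.SubBisX.Seed

section

variable {α β γ : Type} [Fintype α] [Fintype β] [Fintype γ]

theorem unif_equiv {L : ℕ} {dec : (ℕ → α) → β} (h : Unif L dec) (e : β ≃ γ) :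
    Unif L (fun s => e (dec s)) := by
  refine ⟨fun s s' hs => ?_, fun z F => ?_⟩
  · show e (dec s) = e (dec s')
    rw [h.1 s s' hs]
  · rw [h.2 z fun b => F (e b)]
    exact av_equiv e F

omit [Fintype γ] in
theorem unif_congr {L L' : ℕ} {dec dec' : (ℕ → α) → β} (h : Unif L dec) (e : L = L')
    (e' : ∀ s, dec s = dec' s) : Unif L' dec' := by
  have : dec = dec' := funext e'
  rw [← this, ← e]
  exact h

end

theorem decXN_succ (m n s N r : ℕ) (d : ℕ → Fin m × Fin N) :
    decXN m n s N (r + 1) d = (((decXN m n s N r d).1, fun (i : Fin s) (y : Fin n) =>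
      decXN m n s N r fun j => d ((1 + i * n + y) * (s * n + 1) ^ r + j)),
        (decXN m n s N r d).2) := rfl

/-- the regrouping of the components -/
def regroup (A B C : Type) : ((A × B) × C) ≃ ((A × C) × B) where
  toFun p := ((p.1.1, p.2), p.1.2)
  invFun p := ((p.1.1, p.2), p.1.2)
  left_inv _ := rfl
  right_inv _ := rfl

theorem unif_decXN (m n s N : ℕ) : ∀ r, Unif ((s * n + 1) ^ r) (decXN m n s N r)
  | 0 => unif_one
  | r + 1 => by
    have ih := unif_decXN m n s N r
    have h1 := unif_equiv (ih.prod ((ih.pow n).pow s))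
      (regroup (XA m n s N r) (Fin N) (Fin s → Fin n → XA m n s N r × Fin N))
    refine unif_congr h1 (by ring) fun d => ?_
    rw [decXN_succ]
    have e1 : (fun (i : Fin s) (y : Fin n) => decXN m n s N r fun j =>
        d ((s * n + 1) ^ r + (i * (n * (s * n + 1) ^ r) + (y * (s * n + 1) ^ r + j)))) =
        fun (i : Fin s) (y : Fin n) =>
          decXN m n s N r fun j => d ((1 + i * n + y) * (s * n + 1) ^ r + j) := by
      funext i y
      congr 1
      funext j
      congr 1
      ring
    show (((decXN m n s N r d).1, fun (i : Fin s) (y : Fin n) => decXN m n s N r fun j =>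
      d ((s * n + 1) ^ r + (i * (n * (s * n + 1) ^ r) + (y * (s * n + 1) ^ r + j)))),
        (decXN m n s N r d).2) = _
    rw [e1]

theorem unif_decWN (m n s N r : ℕ) : Unif (n * (s * n + 1) ^ r) (decWN m n s N r) :=
  (unif_decXN m n s N r).pow n

theorem unif_rdp (μ ν : ℕ) : Unif (μ + ν) (rdp μ ν) := (unif_rd μ).prod (unif_rd ν)

theorem unif_decSA (μ ν n s r K : ℕ) : Unif (nbitsA μ ν n s r K) (decSA μ ν n s r K) :=
  (unif_rdp μ ν).comp ((unif_decWN (2 ^ μ) n s (2 ^ ν) r).pow K)

end Pool.Agent.Lib.SubBisX.AccTab
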