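import Pool.Agent.Lib.SubBisX.TabPolyB

/-!
The positive and the negative part of the sum of the objectives in polynomial time.

PROOF. `n_sum`/`nSum` of P8e91ed/PolyBin over `r < T`, `v < n`, `i < M`, with `poly_YN` (world `0`),
`poly_logpow`, `PolyArr.get` for the digits (`v * (n + 1) ^ T < n * (n + 1) ^ T`), and `poly_nu` for
the level sets (`PolyS.filter`); `Gn` as in TabPolyB.
-/

namespace Pool.Agent.Lib.SubBisX.Tab

open Finset Pool.Agent.Lib.PolyTime Pool.Agent.Lib.Pa7c826 Pool.Agent.Lib.Pa7c826t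

variable {α : Type*} {D : α → Prop} {ctx : List (α → List Bool)}

namespace TabPolyCAux

open Pool.Agent.Lib.P8e91ed.PT

variable {w : α → List Bool} {W S : α → Finset ℕ} {m c M T κ r v k : α → ℕ} {R : α → ℕ → ℕ}

theorem poly_IX (hw : PolyC D ctx w) (hW : PolyS D ctx (fun x => nOf (w x)) W)
    (hS : PolyS D ctx (fun x => nOf (w x)) S) :
    PolyS D ctx (fun x => nOf (w x)) (fun a => IX (aOf (w a)) (W a) (S a)) := by
  have hn := poly_nOf hw
  have A : PolyN (fun p : α × ℕ => D p.1 ∧ p.2 < nOf (w p.1))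
      (PolyTime.lift ctx ++ [fun p => un p.2]) (fun p => aOf (w p.1)) :=
    upN (n := fun x => nOf (w x)) (poly_aOf hw)
  have L := last (D := D) (ctx := ctx) (n := fun x => nOf (w x))
  have B := PolyB.lt L A
  have C := (PolyS.up (m := fun x => nOf (w x)) hS).mem L
  refine (PolyS.filter (φ := fun p : α × ℕ => if decide (p.2 < aOf (w p.1)) then
    decide (p.2 ∈ S p.1) else !decide (p.2 ∈ S p.1)) hn hW
    (PolyB.ite B (PolyC.mono C fun _ h => h.1) (PolyC.mono C.not fun _ h => h.1))).congr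
    (fun a _ => ?_)
  unfold IX
  ext x
  simp only [mem_filter]
  by_cases hx : x < aOf (w a)
  · simp [hx]
  · simp [hx]

/-- The hypotheses on the parameters. -/
structure Hy (D : α → Prop) (ctx : List (α → List Bool)) (w : α → List Bool) (W : α → Finset ℕ)
    (m c M T κ : α → ℕ) (R : α → ℕ → ℕ) : Prop where
  hw : PolyC D ctx w
  hW : PolyS D ctx (fun x => nOf (w x)) W
  hm : PolyN D ctx m
  hc : PolyN D ctx c
  hM : PolyN D ctx M
  hT : PolyN D ctx T
  hκ : PolyN D ctx κ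
  hN : PolyN D ctx (fun x => (nOf (w x) + 1) ^ T x)
  hR : PolyArr D ctx m (fun x => nOf (w x) * (nOf (w x) + 1) ^ T x) R

theorem Hy.up (h : Hy D ctx w W m c M T κ R) :
    Hy (Dx D k) (cx ctx) (fun p => w p.1) (fun p => W p.1) (fun p => m p.1) (fun p => c p.1)
      (fun p => M p.1) (fun p => T p.1) (fun p => κ p.1) (fun p => R p.1) :=
  ⟨cU h.hw, PolyS.up h.hW, nU h.hm, nU h.hc, nU h.hM, nU h.hT, nU h.hκ, nU h.hN, h.hR.up⟩

theorem Hy.yn (h : Hy D ctx w W m c M T κ R) (hr : PolyN D ctx r) (hv : PolyN D ctx v)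
    (hrT : ∀ a, D a → r a < T a) (hvn : ∀ a, D a → v a < nOf (w a)) :
    PolyN D ctx (fun a => YN (nOf (w a)) (m a) (c a) (M a) (T a) (Gn (w a) (κ a) (W a)) (R a)
      (r a) 0 (v a)) :=
  poly_YN h.hw h.hW h.hm h.hc h.hM h.hT h.hκ h.hN h.hR hr (PolyN.const 0) hv
    (fun a ha => (hrT a ha).le) (fun _ _ => Nat.pow_pos (Nat.succ_pos _)) hvn

theorem Hy.dig (h : Hy D ctx w W m c M T κ R) (hv : PolyN D ctx v)
    (hvn : ∀ a, D a → v a < nOf (w a)) :
    PolyN D ctx (fun a => R a (v a * (nOf (w a) + 1) ^ T a)) :=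
  h.hR.get h.hm (hv.mul h.hN) fun a ha =>
    Nat.mul_lt_mul_of_pos_right (hvn a ha) (Nat.pow_pos (Nat.succ_pos _))

theorem Hy.gn (h : Hy D ctx w W m c M T κ R) (hS : PolyS D ctx (fun x => nOf (w x)) S) :
    PolyN D ctx (fun a => Gn (w a) (κ a) (W a) (S a)) :=
  h.hκ.mul (poly_nu h.hw (poly_IX h.hw h.hW hS))

/-- The level sets. -/
theorem Hy.lev (h : Hy D ctx w W m c M T κ R) (hr : PolyN D ctx r) (hk : PolyN D ctx k)
    (hrT : ∀ a, D a → r a < T a) :
    PolyS D ctx (fun x => nOf (w x)) (fun a => (range (nOf (w a))).filter fun x =>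
      k a < YN (nOf (w a)) (m a) (c a) (M a) (T a) (Gn (w a) (κ a) (W a)) (R a) (r a) 0 x) := by
  have hn := poly_nOf h.hw
  have Y := (h.up (k := fun x => nOf (w x))).yn (r := fun p => r p.1) (v := fun p => p.2)
    (nU hr) nL (fun p hp => hrT p.1 hp.1) (fun p hp => hp.2)
  refine (PolyS.filter hn (PolyS.range hn) (PolyB.lt (nU (n := fun x => nOf (w x)) hk) Y)).congr (fun a _ => ?_)
  ext x
  simp only [mem_filter, decide_eq_true_eq]

end TabPolyCAux

open TabPolyCAux Pool.Agent.Lib.P8e91ed.PT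

theorem poly_posV {w : α → List Bool} {W : α → Finset ℕ} {m c M T κ : α → ℕ}
    {R : α → ℕ → ℕ} (hw : PolyC D ctx w) (hW : PolyS D ctx (fun x => nOf (w x)) W)
    (hm : PolyN D ctx m) (hc : PolyN D ctx c) (hM : PolyN D ctx M) (hT : PolyN D ctx T)
    (hκ : PolyN D ctx κ) (hN : PolyN D ctx (fun x => (nOf (w x) + 1) ^ T x))
    (hR : PolyArr D ctx m (fun x => nOf (w x) * (nOf (w x) + 1) ^ T x) R) :
    PolyN D ctx (fun a => posV (nOf (w a)) (m a) (c a) (M a) (T a) (Gn (w a) (κ a) (W a))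
      (R a)) := by
  have h : Hy D ctx w W m c M T κ R := ⟨hw, hW, hm, hc, hM, hT, hκ, hN, hR⟩
  refine nSum hT ?_
  refine nSum (nU (poly_nOf hw)) ?_
  have h2 := (h.up (k := T)).up (k := fun p => nOf (w p.1))
  have V : PolyN (Dx (Dx D T) fun p => nOf (w p.1)) (cx (cx ctx)) (fun p => p.2) := nL
  have hr : PolyN (Dx (Dx D T) fun p => nOf (w p.1)) (cx (cx ctx)) (fun p => p.1.2) :=
    nU nL
  have Y := h2.yn hr V (fun p hp => hp.1.2) (fun p hp => hp.2)
  have Dg := h2.dig V (fun p hp => hp.2)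
  exact (poly_logpow (PolyN.sub h2.hm Dg) h2.hc).mul Y

theorem poly_negV {w : α → List Bool} {W : α → Finset ℕ} {m c M T κ : α → ℕ}
    {R : α → ℕ → ℕ} (hw : PolyC D ctx w) (hW : PolyS D ctx (fun x => nOf (w x)) W)
    (hm : PolyN D ctx m) (hc : PolyN D ctx c) (hM : PolyN D ctx M) (hT : PolyN D ctx T)
    (hκ : PolyN D ctx κ) (hN : PolyN D ctx (fun x => (nOf (w x) + 1) ^ T x))
    (hR : PolyArr D ctx m (fun x => nOf (w x) * (nOf (w x) + 1) ^ T x) R) :
    PolyN D ctx (fun a => negV (nOf (w a)) (m a) (c a) (M a) (T a) (Gn (w a) (κ a) (W a))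
      (R a)) := by
  have h : Hy D ctx w W m c M T κ R := ⟨hw, hW, hm, hc, hM, hT, hκ, hN, hR⟩
  refine nSum hT ?_
  refine PolyN.add (nSum (nU (poly_nOf hw)) ?_) ((nU hc).mul (nSum (nU hM) ?_))
  · have h2 := (h.up (k := T)).up (k := fun p => nOf (w p.1))
    have V : PolyN (Dx (Dx D T) fun p => nOf (w p.1)) (cx (cx ctx)) (fun p => p.2) := nL
    have hr : PolyN (Dx (Dx D T) fun p => nOf (w p.1)) (cx (cx ctx)) (fun p => p.1.2) :=
      nU nL
    have Y := h2.yn hr V (fun p hp => hp.1.2) (fun p hp => hp.2)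
    have Dg := h2.dig V (fun p hp => hp.2)
    exact (poly_logpow Dg.succ h2.hc).mul Y
  · have h2 := (h.up (k := T)).up (k := fun p => M p.1)
    have I : PolyN (Dx (Dx D T) fun p => M p.1) (cx (cx ctx)) (fun p => p.2) := nL
    have hr : PolyN (Dx (Dx D T) fun p => M p.1) (cx (cx ctx)) (fun p => p.1.2) :=
      nU nL
    exact h2.gn (h2.lev hr I (fun p hp => hp.1.2))

end Pool.Agent.Lib.SubBisX.Tab
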