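import Pool.Agent.Lib.SubBisX.AccTabStep
import Pool.Agent.Lib.SubBisX.TabPolyC

/-!
The value of the accelerated method in polynomial time.
-/

namespace Pool.Agent.Lib.SubBisX.AccTab

open Finset Pool.Agent.Lib.PolyTime Pool.Agent.Lib.Pa7c826 Pool.Agent.Lib.Pa7c826t
open Pool.Agent.Lib.SubBisX.Tab

universe u

variable {α : Type u} {Dm : α → Prop} {ctx : List (α → List Bool)}

namespace AccTabValAux

open Pool.Agent.Lib.P8e91ed.PT

variable {w : α → List Bool} {W S : α → Finset ℕ} {m s c M T κ N v k : α → ℕ}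
  {D Z : α → ℕ → ℕ}

/-- The hypotheses on the parameters. -/
structure HyA (Dm : α → Prop) (ctx : List (α → List Bool)) (w : α → List Bool)
    (W : α → Finset ℕ) (m s c M T κ N : α → ℕ) (D Z : α → ℕ → ℕ) : Prop where
  hw : PolyC Dm ctx w
  hW : PolyS Dm ctx (fun x => nOf (w x)) W
  hm : PolyN Dm ctx m
  hs : PolyN Dm ctx s
  hN : PolyN Dm ctx N
  hc : PolyN Dm ctx c
  hM : PolyN Dm ctx M
  hT : PolyN Dm ctx T
  hκ : PolyN Dm ctx κ
  hC : PolyN Dm ctx (fun x => (s x * nOf (w x) + 1) ^ T x)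
  hD : PolyArr Dm ctx m (fun x => nOf (w x) * (s x * nOf (w x) + 1) ^ T x) D
  hZ : PolyArr Dm ctx N (fun x => nOf (w x) * (s x * nOf (w x) + 1) ^ T x) Z

theorem HyA.up (h : HyA Dm ctx w W m s c M T κ N D Z) :
    HyA (Dx Dm k) (cx ctx) (fun p => w p.1) (fun p => W p.1) (fun p => m p.1) (fun p => s p.1)
      (fun p => c p.1) (fun p => M p.1) (fun p => T p.1) (fun p => κ p.1) (fun p => N p.1)
      (fun p => D p.1) (fun p => Z p.1) :=
  ⟨cU h.hw, PolyS.up h.hW, nU h.hm, nU h.hs, nU h.hN, nU h.hc, nU h.hM, nU h.hT, nU h.hκ,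
    nU h.hC, h.hD.up, h.hZ.up⟩

theorem HyA.xo (h : HyA Dm ctx w W m s c M T κ N D Z) (hv : PolyN Dm ctx v)
    (hvn : ∀ a, Dm a → v a < nOf (w a)) :
    PolyN Dm ctx (fun a => xoN (nOf (w a)) (m a) (s a) (c a) (M a) (T a) (Gn (w a) (κ a) (W a))
      (D a) (Z a) (v a)) :=
  poly_xoN h.hw h.hW h.hm h.hs h.hN h.hc h.hM h.hT h.hκ h.hC h.hD h.hZ hv hvn

theorem HyA.dig (h : HyA Dm ctx w W m s c M T κ N D Z) (hv : PolyN Dm ctx v)
    (hvn : ∀ a, Dm a → v a < nOf (w a)) :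
    PolyN Dm ctx (fun a => D a (v a * (s a * nOf (w a) + 1) ^ T a)) :=
  h.hD.get h.hm (hv.mul h.hC) fun a ha =>
    Nat.mul_lt_mul_of_pos_right (hvn a ha) (Nat.pow_pos (Nat.succ_pos _))

theorem HyA.gn (h : HyA Dm ctx w W m s c M T κ N D Z)
    (hS : PolyS Dm ctx (fun x => nOf (w x)) S) :
    PolyN Dm ctx (fun a => Gn (w a) (κ a) (W a) (S a)) :=
  h.hκ.mul (poly_nu h.hw (TabPolyCAux.poly_IX h.hw h.hW hS))

/-- The level sets. -/
theorem HyA.lev (h : HyA Dm ctx w W m s c M T κ N D Z) (hk : PolyN Dm ctx k) :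
    PolyS Dm ctx (fun x => nOf (w x)) (fun a => (range (nOf (w a))).filter fun x =>
      k a < xoN (nOf (w a)) (m a) (s a) (c a) (M a) (T a) (Gn (w a) (κ a) (W a)) (D a) (Z a)
        x) := by
  have hn := poly_nOf h.hw
  have Y := (h.up (k := fun x => nOf (w x))).xo (v := fun p => p.2) nL (fun p hp => hp.2)
  refine (PolyS.filter hn (PolyS.range hn)
    (PolyB.lt (nU (n := fun x => nOf (w x)) hk) Y)).congr (fun a _ => ?_)
  ext x
  simp only [mem_filter, decide_eq_true_eq]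

end AccTabValAux

open AccTabValAux Pool.Agent.Lib.P8e91ed.PT

theorem poly_posA {w : α → List Bool} {W : α → Finset ℕ} {m s c M T κ N : α → ℕ}
    {D Z : α → ℕ → ℕ} (hw : PolyC Dm ctx w) (hW : PolyS Dm ctx (fun x => nOf (w x)) W)
    (hm : PolyN Dm ctx m) (hs : PolyN Dm ctx s) (hN : PolyN Dm ctx N) (hc : PolyN Dm ctx c)
    (hM : PolyN Dm ctx M) (hT : PolyN Dm ctx T) (hκ : PolyN Dm ctx κ)
    (hC : PolyN Dm ctx (fun x => (s x * nOf (w x) + 1) ^ T x))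
    (hD : PolyArr Dm ctx m (fun x => nOf (w x) * (s x * nOf (w x) + 1) ^ T x) D)
    (hZ : PolyArr Dm ctx N (fun x => nOf (w x) * (s x * nOf (w x) + 1) ^ T x) Z) :
    PolyN Dm ctx (fun a => posA (nOf (w a)) (m a) (s a) (c a) (M a) (T a)
      (Gn (w a) (κ a) (W a)) (D a) (Z a)) := by
  have h : HyA Dm ctx w W m s c M T κ N D Z := ⟨hw, hW, hm, hs, hN, hc, hM, hT, hκ, hC, hD, hZ⟩
  refine nSum (poly_nOf hw) ?_
  have h2 := h.up (k := fun p => nOf (w p))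
  have V : PolyN (Dx Dm fun p => nOf (w p)) (cx ctx) (fun p => p.2) := nL
  have Y := h2.xo V (fun p hp => hp.2)
  have Dg := h2.dig V (fun p hp => hp.2)
  exact (poly_logpow (PolyN.sub h2.hm Dg) h2.hc).mul Y

theorem poly_negA {w : α → List Bool} {W : α → Finset ℕ} {m s c M T κ N : α → ℕ}
    {D Z : α → ℕ → ℕ} (hw : PolyC Dm ctx w) (hW : PolyS Dm ctx (fun x => nOf (w x)) W)
    (hm : PolyN Dm ctx m) (hs : PolyN Dm ctx s) (hN : PolyN Dm ctx N) (hc : PolyN Dm ctx c)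
    (hM : PolyN Dm ctx M) (hT : PolyN Dm ctx T) (hκ : PolyN Dm ctx κ)
    (hC : PolyN Dm ctx (fun x => (s x * nOf (w x) + 1) ^ T x))
    (hD : PolyArr Dm ctx m (fun x => nOf (w x) * (s x * nOf (w x) + 1) ^ T x) D)
    (hZ : PolyArr Dm ctx N (fun x => nOf (w x) * (s x * nOf (w x) + 1) ^ T x) Z) :
    PolyN Dm ctx (fun a => negA (nOf (w a)) (m a) (s a) (c a) (M a) (T a)
      (Gn (w a) (κ a) (W a)) (D a) (Z a)) := by
  have h : HyA Dm ctx w W m s c M T κ N D Z := ⟨hw, hW, hm, hs, hN, hc, hM, hT, hκ, hC, hD, hZ⟩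
  refine PolyN.add (nSum (poly_nOf hw) ?_) (hc.mul (nSum hM ?_))
  · have h2 := h.up (k := fun p => nOf (w p))
    have V : PolyN (Dx Dm fun p => nOf (w p)) (cx ctx) (fun p => p.2) := nL
    have Y := h2.xo V (fun p hp => hp.2)
    have Dg := h2.dig V (fun p hp => hp.2)
    exact (poly_logpow Dg.succ h2.hc).mul Y
  · have h2 := h.up (k := M)
    have I : PolyN (Dx Dm M) (cx ctx) (fun p => p.2) := nL
    exact h2.gn (h2.lev I)

end Pool.Agent.Lib.SubBisX.AccTab
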