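import Pool.Agent.Lib.SubBisX.AccWorld

/-!
# The accelerated stochastic ascent: abstract frame, one step, regret
-/

open scoped BigOperators

namespace Pool.Agent.Lib.SubBisX.Acc

open Reg

/-- An abstract frame for the accelerated stochastic ascent. -/
structure Fr (n m s N : ℕ) (M : ℤ) (g : Fin n → Fin m → (Fin n → ℤ) → ℤ) where
  /-- worlds -/
  W : ℕ → Type
  fin : ∀ r, Fintype (W r)
  ne : ∀ r, Nonempty (W r)
  /-- the world of the level below -/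
  low : ∀ r, W (r + 1) → W r
  /-- the digits -/
  dg : ∀ r, W r → Fin n → Fin m
  /-- the state -/
  z : ∀ r, W r → Fin n → ℤ
  /-- the weighted sum of the states -/
  S : ∀ r, W r → Fin n → ℤ
  /-- the sample gradients -/
  sgr : ∀ r, W (r + 1) → Fin n → Fin s → ℤ
  /-- the conditional mean gradient -/
  gb : ∀ r, Fin n → W r → ℝ
  /-- the legal comparison functions -/
  Leg : Fin n → ((Fin n → Fin m) → ℤ) → Prop
  dg_low : ∀ r w, dg (r + 1) w = dg r (low r w)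
  z_zero : ∀ w v, z 0 w v = 0
  S_zero : ∀ w v, S 0 w v = 0
  z_succ : ∀ r w v, z (r + 1) w v =
    clip M (z r (low r w) v + (r + 1 : ℕ) * ∑ i : Fin s, sgr r w v i)
  S_succ : ∀ r w v, S (r + 1) w v = S r (low r w) v + (r + 1 : ℕ) * z (r + 1) w v
  av_low : ∀ r (F : W r → ℝ), (av fun w : W (r + 1) => F (low r w)) = av F
  av_dg : ∀ r (F : (Fin n → Fin m) → ℝ), (av fun w : W r => F (dg r w)) = av F
  x1 : ∀ r v (zs : (Fin n → Fin m) → ℤ), Leg v zs →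
    (av fun w : W (r + 1) => ((z (r + 1) w v - zs (dg r (low r w)) : ℤ) : ℝ) *
      mg N g v (dg r (low r w) v) (qy r (z r (low r w), S r (low r w)))) =
    av fun w : W (r + 1) => ((z (r + 1) w v - zs (dg r (low r w)) : ℤ) : ℝ) * gb r v (low r w)
  x2 : ∀ r v (k : W r → ℝ),
    (av fun w : W (r + 1) => k (low r w) * ((∑ i : Fin s, ((sgr r w v i : ℤ) : ℝ)) / s)) =
      av fun a : W r => k a * gb r v a
  x3 : ∀ r v (D : ℝ), (∀ u, ∃ e : ℝ, ∀ y, |((g v u y : ℤ) : ℝ) - e| ≤ D) →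
    (av fun w : W (r + 1) => ((∑ i : Fin s, ((sgr r w v i : ℤ) : ℝ)) / s - gb r v (low r w)) ^ 2) ≤
      D ^ 2 / s

attribute [instance] Fr.fin Fr.ne

variable {n m s N : ℕ} {M : ℤ} {g : Fin n → Fin m → (Fin n → ℤ) → ℤ}

namespace Fr

variable (fr : Fr n m s N M g)

/-- the averaged point -/
def xf (r : ℕ) (w : fr.W r) : Fin n → ℤ := fun v => fr.S r w v / (wt r : ℤ)

/-- the query point -/
def yf (r : ℕ) (w : fr.W r) : Fin n → ℤ := qy r (fr.z r w, fr.S r w)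

theorem z_mem (hM : 0 ≤ M) (r : ℕ) (w : fr.W r) (v : Fin n) : 0 ≤ fr.z r w v ∧ fr.z r w v ≤ M := by
  cases r with
  | zero =>
    rw [fr.z_zero]
    exact ⟨le_rfl, hM⟩
  | succ r =>
    rw [fr.z_succ]
    exact clip_mem hM _

theorem S_mem (hM : 0 ≤ M) (r : ℕ) (w : fr.W r) (v : Fin n) :
    0 ≤ fr.S r w v ∧ fr.S r w v ≤ wt r * M := by
  induction r with
  | zero =>
    rw [fr.S_zero]
    exact ⟨le_rfl, mul_nonneg (Int.natCast_nonneg _) hM⟩
  | succ r ih =>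
    rw [fr.S_succ, wt_succ]
    obtain ⟨h1, h2⟩ := ih (fr.low r w)
    obtain ⟨h3, h4⟩ := fr.z_mem hM (r + 1) w v
    have h5 : (0 : ℤ) ≤ ((r + 1 : ℕ) : ℤ) := Int.natCast_nonneg _
    constructor
    · exact add_nonneg h1 (mul_nonneg h5 h3)
    · push_cast
      push_cast at h5
      nlinarith [mul_le_mul_of_nonneg_left h4 h5]

theorem yf_mem (hM : 0 ≤ M) (r : ℕ) (w : fr.W r) (v : Fin n) :
    0 ≤ fr.yf r w v ∧ fr.yf r w v ≤ M := by
  obtain ⟨h1, h2⟩ := fr.S_mem hM r w v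
  obtain ⟨h3, h4⟩ := fr.z_mem hM r w v
  have h5 : (0 : ℤ) ≤ ((r + 1 : ℕ) : ℤ) := Int.natCast_nonneg _
  have h6 : (0 : ℤ) < (wt (r + 1) : ℤ) := by exact_mod_cast wt_succ_pos r
  constructor
  · exact Int.ediv_nonneg (add_nonneg h1 (mul_nonneg h5 h3)) h6.le
  · refine Int.ediv_le_of_le_mul h6 ?_
    rw [wt_succ]
    push_cast
    push_cast at h5
    nlinarith [mul_le_mul_of_nonneg_left h4 h5]

theorem xf_mem (hM : 0 ≤ M) (r : ℕ) (w : fr.W r) (v : Fin n) :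
    0 ≤ fr.xf r w v ∧ fr.xf r w v ≤ M := by
  obtain ⟨h1, h2⟩ := fr.S_mem hM r w v
  rcases Nat.eq_zero_or_pos r with h0 | h0
  · subst h0
    unfold xf
    rw [fr.S_zero, Int.zero_ediv]
    exact ⟨le_rfl, hM⟩
  · have h6 : (0 : ℤ) < (wt r : ℤ) := by exact_mod_cast wt_pos h0
    constructor
    · exact Int.ediv_nonneg h1 h6.le
    · refine Int.ediv_le_of_le_mul h6 ?_
      rw [mul_comm]
      exact h2

end Fr

/-! ## Numbers -/

theorem num_round {A A₀ a : ℕ} (hA : A = A₀ + a) (hApos : 0 < A) {S z' : ℤ}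
    (hS : A₀ = 0 → S = 0) :
    |(A : ℝ) * (((S + a * z') / (A : ℤ) : ℤ) : ℝ) - A₀ * ((S / (A₀ : ℤ) : ℤ) : ℝ) - a * (z' : ℝ)| ≤
      A := by
  have hA' : (0 : ℤ) < (A : ℤ) := by exact_mod_cast hApos
  have h1 := Int.mul_ediv_add_emod (S + a * z') (A : ℤ)
  have h2 := Int.emod_nonneg (S + a * z') hA'.ne'
  have h3 := Int.emod_lt_of_pos (S + a * z') hA'
  have h4 := Int.mul_ediv_add_emod S (A₀ : ℤ)
  have h5 : 0 ≤ S % (A₀ : ℤ) ∧ S % (A₀ : ℤ) ≤ A₀ := by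
    rcases Nat.eq_zero_or_pos A₀ with h | h
    · rw [hS h, h]
      simp
    · have h' : (0 : ℤ) < (A₀ : ℤ) := by exact_mod_cast h
      exact ⟨Int.emod_nonneg _ h'.ne', (Int.emod_lt_of_pos _ h').le⟩
  have h6 : (A₀ : ℤ) ≤ A := by
    rw [hA]
    push_cast
    omega
  have h7 : |(A : ℤ) * ((S + a * z') / (A : ℤ)) - A₀ * (S / (A₀ : ℤ)) - a * z'| ≤ A := by
    rw [abs_le]
    constructor <;> omega
  have h8 : ((|(A : ℤ) * ((S + a * z') / (A : ℤ)) - A₀ * (S / (A₀ : ℤ)) - a * z'| : ℤ) : ℝ) ≤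
      ((A : ℤ) : ℝ) := by exact_mod_cast h7
  push_cast at h8
  exact h8

theorem num_diff {A a : ℕ} (hApos : 0 < A) {S z z' : ℤ} (ha : (a : ℝ) ^ 2 ≤ 2 * A) :
    (A : ℝ) * ((((S + a * z') / (A : ℤ) : ℤ) : ℝ) - (((S + a * z) / (A : ℤ) : ℤ) : ℝ)) ^ 2 ≤
      4 * ((z' : ℝ) - z) ^ 2 + 2 * A := by
  have hA' : (0 : ℤ) < (A : ℤ) := by exact_mod_cast hApos
  have h1 := Int.mul_ediv_add_emod (S + a * z') (A : ℤ)
  have h2 := Int.emod_nonneg (S + a * z') hA'.ne'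
  have h3 := Int.emod_lt_of_pos (S + a * z') hA'
  have h1' := Int.mul_ediv_add_emod (S + a * z) (A : ℤ)
  have h2' := Int.emod_nonneg (S + a * z) hA'.ne'
  have h3' := Int.emod_lt_of_pos (S + a * z) hA'
  have h7 : |(A : ℤ) * ((S + a * z') / (A : ℤ)) - A * ((S + a * z) / (A : ℤ)) -
      (a * z' - a * z)| ≤ A := by
    rw [abs_le]
    constructor <;> omega
  have h8 : ((|(A : ℤ) * ((S + a * z') / (A : ℤ)) - A * ((S + a * z) / (A : ℤ)) -
      (a * z' - a * z)| : ℤ) : ℝ) ≤ ((A : ℤ) : ℝ) := by exact_mod_cast h7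
  push_cast at h8
  set d : ℝ := (((S + a * z') / (A : ℤ) : ℤ) : ℝ) - (((S + a * z) / (A : ℤ) : ℤ) : ℝ) with hd
  set e : ℝ := (z' : ℝ) - z with he
  have h9 : |(A : ℝ) * d - a * e| ≤ A := by
    have e1 : (A : ℝ) * d - a * e = (A : ℝ) * (((S + a * z') / (A : ℤ) : ℤ) : ℝ) -
        A * (((S + a * z) / (A : ℤ) : ℤ) : ℝ) - (a * (z' : ℝ) - a * z) := by
      rw [hd, he]
      ring
    rw [e1]
    exact h8
  have hA0 : (0 : ℝ) < A := by exact_mod_cast hApos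
  have h10 : ((A : ℝ) * d - a * e) ^ 2 ≤ (A : ℝ) ^ 2 := by
    rw [← sq_abs]
    exact pow_le_pow_left₀ (abs_nonneg _) h9 2
  have h11 : (a : ℝ) ^ 2 * e ^ 2 ≤ 2 * A * e ^ 2 := mul_le_mul_of_nonneg_right ha (sq_nonneg _)
  have h12 : (A : ℝ) * (A * d ^ 2) ≤ A * (4 * e ^ 2 + 2 * A) := by
    nlinarith [sq_nonneg ((A : ℝ) * d - 2 * (a * e)), sq_nonneg ((A : ℝ) * d - a * e + a * e)]
  exact le_of_mul_le_mul_left h12 hA0

/-- the projection inequality -/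
theorem num_proj (hM : 0 ≤ M) {z t q : ℤ} (h0 : 0 ≤ q) (h1 : q ≤ M) :
    ((clip M (z + t) : ℝ) - z) ^ 2 + ((clip M (z + t) : ℝ) - q) ^ 2 - ((z : ℝ) - q) ^ 2 ≤
      2 * ((t : ℝ) * ((clip M (z + t) : ℝ) - q)) := by
  have h : 0 ≤ (clip M (z + t) - q) * (z + t - clip M (z + t)) := by
    unfold clip
    rcases le_total M (z + t) with h | h
    · rw [min_eq_left h, max_eq_right hM]
      exact mul_nonneg (by linarith) (by linarith)
    · rw [min_eq_right h]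
      rcases le_total 0 (z + t) with h' | h'
      · rw [max_eq_right h']
        simp
      · rw [max_eq_left h']
        exact mul_nonneg_of_nonpos_of_nonpos (by linarith) (by linarith)
  have h2 : (0 : ℝ) ≤ ((clip M (z + t) : ℝ) - q) * ((z : ℝ) + t - clip M (z + t)) := by
    exact_mod_cast h
  nlinarith

theorem wt_sq (r : ℕ) : ((r + 1 : ℕ) : ℝ) ^ 2 ≤ 2 * (wt (r + 1) : ℝ) := by
  have h : (r + 1) * (r + 1 + 1) = 2 * wt (r + 1) := by
    unfold wt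
    rw [Nat.mul_div_cancel']
    exact (Nat.even_mul_succ_self (r + 1)).two_dvd
  have h2 : (r + 1) ^ 2 ≤ 2 * wt (r + 1) := by
    rw [← h]
    nlinarith
  exact_mod_cast h2

theorem wt_zero_iff {r : ℕ} (h : wt r = 0) : r = 0 := by
  by_contra h0
  have := wt_pos (Nat.pos_of_ne_zero h0)
  omega

/-! ## One step -/

/-- the pointwise part of the step -/
theorem step_pt (fr : Fr n m s N M g) [NeZero s] (hM : 0 ≤ M)
    (Psi : (Fin n → Fin m) → (Fin n → ℤ) → ℝ) (psi : (Fin n → Fin m) → ℝ) {L G : ℝ}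
    (hcv : ∀ U y z, (∀ v, 0 ≤ y v ∧ y v ≤ M) → (∀ v, 0 ≤ z v ∧ z v ≤ M) →
      Psi U z ≤ Psi U y + ∑ v, mg N g v (U v) y * ((z v - y v : ℤ) : ℝ))
    (hsm : ∀ U y z, (∀ v, 0 ≤ y v ∧ y v ≤ M) → (∀ v, 0 ≤ z v ∧ z v ≤ M) →
      Psi U y + ∑ v, mg N g v (U v) y * ((z v - y v : ℤ) : ℝ) -
        L * ∑ v, ((z v - y v : ℤ) : ℝ) ^ 2 ≤ Psi U z)
    (zs : (Fin n → Fin m) → Fin n → ℤ)
    (hz : ∀ U y, (∀ v, 0 ≤ y v ∧ y v ≤ M) →
      psi U ≤ Psi U y + ∑ v, mg N g v (U v) y * ((zs U v - y v : ℤ) : ℝ))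
    (hL0 : 0 ≤ L) (hL : 16 * s * L ≤ 1) (hG : ∀ v u y, |mg N g v u y| ≤ G)
    (r : ℕ) (w : fr.W (r + 1)) :
    (wt r : ℝ) * Psi (fr.dg r (fr.low r w)) (fr.xf r (fr.low r w)) +
      (r + 1 : ℕ) * psi (fr.dg r (fr.low r w)) +
      ((r + 1 : ℕ) * ∑ v, ((fr.z (r + 1) w v - zs (fr.dg r (fr.low r w)) v : ℤ) : ℝ) *
          mg N g v (fr.dg r (fr.low r w) v) (qy r (fr.z r (fr.low r w), fr.S r (fr.low r w))) -
        (∑ v, ((fr.z (r + 1) w v - fr.z r (fr.low r w) v : ℤ) : ℝ) ^ 2) / (4 * s) -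
        wt (r + 1) * (n * (G + 1))) ≤
      (wt (r + 1) : ℝ) * Psi (fr.dg r (fr.low r w)) (fr.xf (r + 1) w) := by
  set U := fr.dg r (fr.low r w) with hU
  set y := fr.yf r (fr.low r w) with hy
  have hy' : qy r (fr.z r (fr.low r w), fr.S r (fr.low r w)) = y := rfl
  rw [hy']
  set x := fr.xf r (fr.low r w) with hx
  set x' := fr.xf (r + 1) w with hx'
  have hym := fr.yf_mem hM r (fr.low r w)
  have hxm := fr.xf_mem hM r (fr.low r w)
  have hxm' := fr.xf_mem hM (r + 1) w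
  have h1 := hsm U y x' hym hxm'
  have h2 := hcv U y x hym hxm
  have h3 := hz U y hym
  have hAr : (0 : ℝ) ≤ wt r := Nat.cast_nonneg _
  have ha : (0 : ℝ) ≤ ((r + 1 : ℕ) : ℝ) := Nat.cast_nonneg _
  have hA : (wt (r + 1) : ℝ) = wt r + ((r + 1 : ℕ) : ℝ) := by
    rw [wt_succ]
    push_cast
    ring
  have hApos : 0 < wt (r + 1) := wt_succ_pos r
  have hA0 : (0 : ℝ) < wt (r + 1) := by exact_mod_cast hApos
  have hs0 : (0 : ℝ) < s := by exact_mod_cast Nat.pos_of_ne_zero (NeZero.ne s)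
  -- the linear terms
  have h4 : ∀ v, (r + 1 : ℕ) * (((fr.z (r + 1) w v - zs U v : ℤ) : ℝ) * mg N g v (U v) y) -
      wt (r + 1) * G ≤ (wt (r + 1) : ℝ) * (mg N g v (U v) y * ((x' v - y v : ℤ) : ℝ)) -
        wt r * (mg N g v (U v) y * ((x v - y v : ℤ) : ℝ)) -
        (r + 1 : ℕ) * (mg N g v (U v) y * ((zs U v - y v : ℤ) : ℝ)) := by
    intro v
    have h5 := num_round (A := wt (r + 1)) (A₀ := wt r) (a := r + 1) (wt_succ r) hApos
      (S := fr.S r (fr.low r w) v) (z' := fr.z (r + 1) w v) (fun h => by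
        have h6 := wt_zero_iff h
        have h7 := fr.S_mem hM r (fr.low r w) v
        rw [h] at h7
        push_cast at h7
        rw [zero_mul] at h7
        exact le_antisymm h7.2 h7.1)
    have e1 : (fr.S r (fr.low r w) v + ((r + 1 : ℕ) : ℤ) * fr.z (r + 1) w v) /
        ((wt (r + 1) : ℕ) : ℤ) = x' v := by
      rw [hx', Fr.xf, fr.S_succ]
    have e2 : fr.S r (fr.low r w) v / ((wt r : ℕ) : ℤ) = x v := rfl
    rw [e1, e2] at h5
    set δ : ℝ := (wt (r + 1) : ℝ) * (x' v : ℝ) - wt r * (x v : ℝ) -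
      ((r + 1 : ℕ) : ℝ) * (fr.z (r + 1) w v : ℝ) with hδ
    have h6 : |mg N g v (U v) y * δ| ≤ G * wt (r + 1) := by
      rw [abs_mul]
      exact mul_le_mul (hG _ _ _) h5 (abs_nonneg _) ((abs_nonneg _).trans (hG v (U v) y))
    have h7 := (abs_le.1 h6).1
    have e3 : (wt (r + 1) : ℝ) * (mg N g v (U v) y * ((x' v - y v : ℤ) : ℝ)) -
        wt r * (mg N g v (U v) y * ((x v - y v : ℤ) : ℝ)) -
        (r + 1 : ℕ) * (mg N g v (U v) y * ((zs U v - y v : ℤ) : ℝ)) =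
        (r + 1 : ℕ) * (((fr.z (r + 1) w v - zs U v : ℤ) : ℝ) * mg N g v (U v) y) +
          mg N g v (U v) y * δ := by
      rw [hδ, hA]
      push_cast
      ring
    rw [e3]
    linarith
  -- the quadratic term
  have h8 : ∀ v, (wt (r + 1) : ℝ) * ((x' v - y v : ℤ) : ℝ) ^ 2 ≤
      4 * ((fr.z (r + 1) w v - fr.z r (fr.low r w) v : ℤ) : ℝ) ^ 2 + 2 * wt (r + 1) := by
    intro v
    have h9 := num_diff (A := wt (r + 1)) (a := r + 1) hApos
      (S := fr.S r (fr.low r w) v) (z := fr.z r (fr.low r w) v) (z' := fr.z (r + 1) w v) (wt_sq r)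
    have e1 : (fr.S r (fr.low r w) v + ((r + 1 : ℕ) : ℤ) * fr.z (r + 1) w v) /
        ((wt (r + 1) : ℕ) : ℤ) = x' v := by
      rw [hx', Fr.xf, fr.S_succ]
    have e2 : (fr.S r (fr.low r w) v + ((r + 1 : ℕ) : ℤ) * fr.z r (fr.low r w) v) /
        ((wt (r + 1) : ℕ) : ℤ) = y v := rfl
    rw [e1, e2] at h9
    push_cast
    exact h9
  have h10 : (∑ v, ((r + 1 : ℕ) * (((fr.z (r + 1) w v - zs U v : ℤ) : ℝ) * mg N g v (U v) y) -
      wt (r + 1) * G)) ≤ ∑ v, ((wt (r + 1) : ℝ) * (mg N g v (U v) y * ((x' v - y v : ℤ) : ℝ)) -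
        wt r * (mg N g v (U v) y * ((x v - y v : ℤ) : ℝ)) -
        (r + 1 : ℕ) * (mg N g v (U v) y * ((zs U v - y v : ℤ) : ℝ))) :=
    Finset.sum_le_sum fun v _ => h4 v
  have h11 : (∑ v, (wt (r + 1) : ℝ) * ((x' v - y v : ℤ) : ℝ) ^ 2) ≤
      ∑ v : Fin n, (4 * ((fr.z (r + 1) w v - fr.z r (fr.low r w) v : ℤ) : ℝ) ^ 2 +
        2 * wt (r + 1)) := Finset.sum_le_sum fun v _ => h8 v
  rw [Finset.sum_sub_distrib, Finset.sum_sub_distrib, Finset.sum_sub_distrib, ← Finset.mul_sum,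
    ← Finset.mul_sum, ← Finset.mul_sum, ← Finset.mul_sum, ← Finset.mul_sum, Finset.sum_const,
    Finset.card_univ, Fintype.card_fin, nsmul_eq_mul] at h10
  rw [← Finset.mul_sum, Finset.sum_add_distrib, ← Finset.mul_sum, Finset.sum_const,
    Finset.card_univ, Fintype.card_fin, nsmul_eq_mul] at h11
  set Q := ∑ v, ((fr.z (r + 1) w v - fr.z r (fr.low r w) v : ℤ) : ℝ) ^ 2 with hQ
  set q := ∑ v, ((x' v - y v : ℤ) : ℝ) ^ 2 with hq
  have hQ0 : 0 ≤ Q := Finset.sum_nonneg fun v _ => sq_nonneg _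
  have hn0 : (0 : ℝ) ≤ n := Nat.cast_nonneg _
  have h12 : (wt (r + 1) : ℝ) * (L * q) ≤ Q / (4 * s) + wt (r + 1) * n := by
    have h13 : L * ((wt (r + 1) : ℝ) * q) ≤ L * (4 * Q + n * (2 * wt (r + 1))) :=
      mul_le_mul_of_nonneg_left h11 hL0
    have hL2 : 4 * L ≤ 1 / (4 * s) := by
      rw [le_div_iff₀ (by positivity)]
      linarith
    have hL3 : 2 * L ≤ 1 := by
      have hs1 : (1 : ℝ) ≤ s := by exact_mod_cast Nat.one_le_iff_ne_zero.2 (NeZero.ne s)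
      nlinarith
    have h14 : 4 * L * Q ≤ 1 / (4 * s) * Q := mul_le_mul_of_nonneg_right hL2 hQ0
    have h15 : 2 * L * (n * wt (r + 1)) ≤ 1 * (n * wt (r + 1)) :=
      mul_le_mul_of_nonneg_right hL3 (by positivity)
    have e3 : Q / (4 * s) = 1 / (4 * s) * Q := by ring
    rw [e3]
    nlinarith
  have h16 : (wt (r + 1) : ℝ) * (Psi U y + ∑ v, mg N g v (U v) y * ((x' v - y v : ℤ) : ℝ) -
      L * q) ≤ wt (r + 1) * Psi U x' := mul_le_mul_of_nonneg_left h1 hA0.le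
  have h17 : (wt r : ℝ) * Psi U x ≤
      wt r * (Psi U y + ∑ v, mg N g v (U v) y * ((x v - y v : ℤ) : ℝ)) :=
    mul_le_mul_of_nonneg_left h2 hAr
  have h18 : ((r + 1 : ℕ) : ℝ) * psi U ≤
      ((r + 1 : ℕ) : ℝ) * (Psi U y + ∑ v, mg N g v (U v) y * ((zs U v - y v : ℤ) : ℝ)) :=
    mul_le_mul_of_nonneg_left h3 ha
  have h19 : (wt (r + 1) : ℝ) * Psi U y = wt r * Psi U y + ((r + 1 : ℕ) : ℝ) * Psi U y := by
    rw [hA]
    ring
  nlinarith

/-- one step -/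
theorem acc_step (fr : Fr n m s N M g) [NeZero s] (hM : 0 ≤ M)
    (Psi : (Fin n → Fin m) → (Fin n → ℤ) → ℝ) (psi : (Fin n → Fin m) → ℝ) {L G D : ℝ}
    (hcv : ∀ U y z, (∀ v, 0 ≤ y v ∧ y v ≤ M) → (∀ v, 0 ≤ z v ∧ z v ≤ M) →
      Psi U z ≤ Psi U y + ∑ v, mg N g v (U v) y * ((z v - y v : ℤ) : ℝ))
    (hsm : ∀ U y z, (∀ v, 0 ≤ y v ∧ y v ≤ M) → (∀ v, 0 ≤ z v ∧ z v ≤ M) →
      Psi U y + ∑ v, mg N g v (U v) y * ((z v - y v : ℤ) : ℝ) -
        L * ∑ v, ((z v - y v : ℤ) : ℝ) ^ 2 ≤ Psi U z)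
    (zs : (Fin n → Fin m) → Fin n → ℤ) (hz0 : ∀ U v, 0 ≤ zs U v) (hz1 : ∀ U v, zs U v ≤ M)
    (hleg : ∀ v, fr.Leg v fun U => zs U v)
    (hz : ∀ U y, (∀ v, 0 ≤ y v ∧ y v ≤ M) →
      psi U ≤ Psi U y + ∑ v, mg N g v (U v) y * ((zs U v - y v : ℤ) : ℝ))
    (hL0 : 0 ≤ L) (hL : 16 * s * L ≤ 1) (hG : ∀ v u y, |mg N g v u y| ≤ G)
    (hD : ∀ v u, ∃ e : ℝ, ∀ y, |((g v u y : ℤ) : ℝ) - e| ≤ D) (r : ℕ) :
    (wt r : ℝ) * (av fun w : fr.W r => Psi (fr.dg r w) (fr.xf r w)) +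
      (r + 1 : ℕ) * av psi +
      ((av fun w : fr.W (r + 1) => ∑ v, ((fr.z (r + 1) w v - zs (fr.dg (r + 1) w) v : ℤ) : ℝ) ^ 2) -
        av fun w : fr.W r => ∑ v, ((fr.z r w v - zs (fr.dg r w) v : ℤ) : ℝ) ^ 2) / (2 * s) -
      ((r + 1 : ℕ) : ℝ) ^ 2 * (n * D ^ 2) - wt (r + 1) * (n * (G + 1)) ≤
      (wt (r + 1) : ℝ) * av fun w : fr.W (r + 1) => Psi (fr.dg (r + 1) w) (fr.xf (r + 1) w) := by
  have hs0 : (0 : ℝ) < s := by exact_mod_cast Nat.pos_of_ne_zero (NeZero.ne s)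
  set a : ℝ := ((r + 1 : ℕ) : ℝ) with ha
  have ha0 : 0 ≤ a := Nat.cast_nonneg _
  -- notation
  set Z' : Fin n → fr.W (r + 1) → ℝ := fun v w => (fr.z (r + 1) w v : ℝ) with hZ'
  set Z : Fin n → fr.W r → ℝ := fun v w => (fr.z r w v : ℝ) with hZ
  set q : Fin n → fr.W r → ℝ := fun v w => (zs (fr.dg r w) v : ℝ) with hq
  set gh : Fin n → fr.W (r + 1) → ℝ := fun v w =>
    (∑ i : Fin s, ((fr.sgr r w v i : ℤ) : ℝ)) / s with hgh
  set gb : Fin n → fr.W r → ℝ := fun v w => fr.gb r v w with hgb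
  -- one coordinate
  have hcoord : ∀ v, ((av fun w : fr.W (r + 1) => (Z' v w - q v (fr.low r w)) ^ 2) -
      av fun w : fr.W r => (Z v w - q v w) ^ 2) / (2 * s) +
      (av fun w : fr.W (r + 1) => (Z' v w - Z v (fr.low r w)) ^ 2) / (4 * s) - a ^ 2 * D ^ 2 ≤
      a * av fun w : fr.W (r + 1) => (Z' v w - q v (fr.low r w)) * gb v (fr.low r w) := by
    intro v
    have p1 : ∀ w : fr.W (r + 1), ((Z' v w - q v (fr.low r w)) ^ 2 -
        (Z v (fr.low r w) - q v (fr.low r w)) ^ 2) * (1 / (2 * s)) +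
        (Z' v w - Z v (fr.low r w)) ^ 2 * (1 / (4 * s)) -
        s * a ^ 2 * (gh v w - gb v (fr.low r w)) ^ 2 +
        a * ((Z v (fr.low r w) - q v (fr.low r w)) * gb v (fr.low r w) -
          (Z v (fr.low r w) - q v (fr.low r w)) * gh v w) ≤
        a * ((Z' v w - q v (fr.low r w)) * gb v (fr.low r w)) := by
      intro w
      have h1 := num_proj hM (z := fr.z r (fr.low r w) v)
        (t := (r + 1 : ℕ) * ∑ i : Fin s, fr.sgr r w v i)
        (hz0 (fr.dg r (fr.low r w)) v) (hz1 (fr.dg r (fr.low r w)) v)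
      rw [← fr.z_succ r w v] at h1
      have e1 : ((((r + 1 : ℕ) : ℤ) * ∑ i : Fin s, fr.sgr r w v i : ℤ) : ℝ) = a * s * gh v w := by
        rw [hgh, ha]
        push_cast
        field_simp
      rw [e1] at h1
      have h1' : (Z' v w - Z v (fr.low r w)) ^ 2 + (Z' v w - q v (fr.low r w)) ^ 2 -
          (Z v (fr.low r w) - q v (fr.low r w)) ^ 2 ≤
          2 * (a * s * gh v w * (Z' v w - q v (fr.low r w))) := h1
      generalize Z' v w = z' at h1' ⊢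
      generalize Z v (fr.low r w) = z at h1' ⊢
      generalize q v (fr.low r w) = q' at h1' ⊢
      generalize gh v w = h at h1' ⊢
      generalize gb v (fr.low r w) = b at h1' ⊢
      clear_value a
      have h2 : ((z' - z) ^ 2 + (z' - q') ^ 2 - (z - q') ^ 2) * (1 / (2 * s)) ≤
          a * h * (z' - q') := by
        rw [mul_one_div, div_le_iff₀ (by positivity)]
        nlinarith
      have h3 : -(s * a ^ 2 * (h - b) ^ 2) - (z' - z) ^ 2 * (1 / (4 * s)) ≤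
          a * (b - h) * (z' - z) := by
        have h4 : 0 ≤ (2 * s * a * (h - b) - (z' - z)) ^ 2 * (1 / (4 * s)) := by positivity
        have h5 : (2 * s * a * (h - b) - (z' - z)) ^ 2 * (1 / (4 * s)) =
            s * a ^ 2 * (h - b) ^ 2 - a * (h - b) * (z' - z) + (z' - z) ^ 2 * (1 / (4 * s)) := by
          field_simp
          ring
        rw [h5] at h4
        nlinarith
      have h6 : (z' - z) ^ 2 * (1 / (2 * s)) = (z' - z) ^ 2 * (1 / (4 * s)) +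
          (z' - z) ^ 2 * (1 / (4 * s)) := by
        field_simp
        ring
      nlinarith
    have p2 := av_mono p1
    have x2a := fr.x2 r v fun w => Z v w - q v w
    have x2b : (av fun w : fr.W (r + 1) => (Z v (fr.low r w) - q v (fr.low r w)) *
        gb v (fr.low r w)) = av fun w => (Z v w - q v w) * gb v w :=
      fr.av_low r fun w => (Z v w - q v w) * gb v w
    have x2c : (av fun w : fr.W (r + 1) => (Z v (fr.low r w) - q v (fr.low r w)) ^ 2) =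
        av fun w => (Z v w - q v w) ^ 2 := fr.av_low r fun w => (Z v w - q v w) ^ 2
    have x3a := fr.x3 r v D (hD v)
    have e2 : (fun w : fr.W (r + 1) => ((Z' v w - q v (fr.low r w)) ^ 2 -
        (Z v (fr.low r w) - q v (fr.low r w)) ^ 2) * (1 / (2 * s)) +
        (Z' v w - Z v (fr.low r w)) ^ 2 * (1 / (4 * s)) -
        s * a ^ 2 * (gh v w - gb v (fr.low r w)) ^ 2 +
        a * ((Z v (fr.low r w) - q v (fr.low r w)) * gb v (fr.low r w) -
          (Z v (fr.low r w) - q v (fr.low r w)) * gh v w)) = fun w =>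
        ((((1 / (2 * s)) * ((Z' v w - q v (fr.low r w)) ^ 2 -
        (Z v (fr.low r w) - q v (fr.low r w)) ^ 2)) +
        (1 / (4 * s)) * (Z' v w - Z v (fr.low r w)) ^ 2) -
        (s * a ^ 2) * (gh v w - gb v (fr.low r w)) ^ 2) +
        a * ((Z v (fr.low r w) - q v (fr.low r w)) * gb v (fr.low r w) -
          (Z v (fr.low r w) - q v (fr.low r w)) * gh v w) := by
      funext w
      ring
    rw [e2, av_add, av_sub, av_add, av_smul, av_sub, av_smul, av_smul, av_smul, av_sub, x2b, x2c,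
      av_smul] at p2
    have x2a' : (av fun w : fr.W (r + 1) => (Z v (fr.low r w) - q v (fr.low r w)) * gh v w) =
        av fun w => (Z v w - q v w) * gb v w := x2a
    rw [x2a', sub_self, mul_zero, add_zero] at p2
    have x3b : s * a ^ 2 * (av fun w : fr.W (r + 1) => (gh v w - gb v (fr.low r w)) ^ 2) ≤
        a ^ 2 * D ^ 2 := by
      have h1 : s * a ^ 2 * (av fun w : fr.W (r + 1) => (gh v w - gb v (fr.low r w)) ^ 2) ≤
          s * a ^ 2 * (D ^ 2 / s) := mul_le_mul_of_nonneg_left x3a (by positivity)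
      refine h1.trans (le_of_eq ?_)
      field_simp
    have e3 : ∀ X : ℝ, X / (2 * s) = 1 / (2 * s) * X := fun X => by ring
    have e4 : ∀ X : ℝ, X / (4 * s) = 1 / (4 * s) * X := fun X => by ring
    rw [e3, e4]
    linarith
  -- the pointwise inequality, averaged
  have hpt := av_mono (step_pt fr hM Psi psi hcv hsm zs hz hL0 hL hG r)
  have e5 : (fun w : fr.W (r + 1) => (wt r : ℝ) * Psi (fr.dg r (fr.low r w)) (fr.xf r (fr.low r w)) +
      (r + 1 : ℕ) * psi (fr.dg r (fr.low r w)) +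
      ((r + 1 : ℕ) * ∑ v, ((fr.z (r + 1) w v - zs (fr.dg r (fr.low r w)) v : ℤ) : ℝ) *
          mg N g v (fr.dg r (fr.low r w) v) (qy r (fr.z r (fr.low r w), fr.S r (fr.low r w))) -
        (∑ v, ((fr.z (r + 1) w v - fr.z r (fr.low r w) v : ℤ) : ℝ) ^ 2) / (4 * s) -
        wt (r + 1) * (n * (G + 1)))) = fun w =>
      ((wt r : ℝ) * Psi (fr.dg r (fr.low r w)) (fr.xf r (fr.low r w)) +
      a * psi (fr.dg r (fr.low r w))) +
      ((a * (∑ v, ((fr.z (r + 1) w v - zs (fr.dg r (fr.low r w)) v : ℤ) : ℝ) *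
          mg N g v (fr.dg r (fr.low r w) v) (qy r (fr.z r (fr.low r w), fr.S r (fr.low r w)))) -
        (1 / (4 * s)) * (∑ v, (Z' v w - Z v (fr.low r w)) ^ 2)) -
        wt (r + 1) * (n * (G + 1))) := by
    funext w
    have e6 : (∑ v, ((fr.z (r + 1) w v - fr.z r (fr.low r w) v : ℤ) : ℝ) ^ 2) =
        ∑ v, (Z' v w - Z v (fr.low r w)) ^ 2 := by
      refine Finset.sum_congr rfl fun v _ => ?_
      rw [Int.cast_sub]
    rw [e6]
    ring
  rw [e5, av_add, av_add, av_smul, av_smul, av_sub, av_sub, av_smul, av_smul, av_const, av_sum,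
    av_sum, av_smul] at hpt
  have e7 : (av fun w : fr.W (r + 1) => Psi (fr.dg r (fr.low r w)) (fr.xf r (fr.low r w))) =
      av fun w : fr.W r => Psi (fr.dg r w) (fr.xf r w) :=
    fr.av_low r fun w => Psi (fr.dg r w) (fr.xf r w)
  have e8 : (av fun w : fr.W (r + 1) => psi (fr.dg r (fr.low r w))) = av psi := by
    rw [fr.av_low r fun w => psi (fr.dg r w)]
    exact fr.av_dg r psi
  have e9 : (∑ v, av fun w : fr.W (r + 1) =>
      ((fr.z (r + 1) w v - zs (fr.dg r (fr.low r w)) v : ℤ) : ℝ) *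
        mg N g v (fr.dg r (fr.low r w) v) (qy r (fr.z r (fr.low r w), fr.S r (fr.low r w)))) =
      ∑ v, av fun w : fr.W (r + 1) => (Z' v w - q v (fr.low r w)) * gb v (fr.low r w) := by
    refine Finset.sum_congr rfl fun v _ => ?_
    rw [fr.x1 r v (fun U => zs U v) (hleg v)]
    refine congrArg av (funext fun w => ?_)
    rw [Int.cast_sub]
  rw [e7, e8, e9] at hpt
  have hsum := Finset.sum_le_sum fun v (_ : v ∈ (Finset.univ : Finset (Fin n))) => hcoord v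
  rw [← Finset.mul_sum, Finset.sum_sub_distrib, Finset.sum_add_distrib, ← Finset.sum_div,
    ← Finset.sum_div, Finset.sum_sub_distrib, Finset.sum_const, Finset.card_univ,
    Fintype.card_fin, nsmul_eq_mul] at hsum
  have e10 : (av fun w : fr.W (r + 1) =>
      ∑ v, ((fr.z (r + 1) w v - zs (fr.dg (r + 1) w) v : ℤ) : ℝ) ^ 2) =
      ∑ v, av fun w : fr.W (r + 1) => (Z' v w - q v (fr.low r w)) ^ 2 := by
    rw [← av_sum]
    refine congrArg av (funext fun w => Finset.sum_congr rfl fun v _ => ?_)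
    rw [fr.dg_low, Int.cast_sub]
  have e11 : (av fun w : fr.W r => ∑ v, ((fr.z r w v - zs (fr.dg r w) v : ℤ) : ℝ) ^ 2) =
      ∑ v, av fun w : fr.W r => (Z v w - q v w) ^ 2 := by
    rw [← av_sum]
    refine congrArg av (funext fun w => Finset.sum_congr rfl fun v _ => ?_)
    rw [Int.cast_sub]
  have e12 : (av fun w : fr.W (r + 1) => Psi (fr.dg (r + 1) w) (fr.xf (r + 1) w)) =
      av fun w : fr.W (r + 1) => Psi (fr.dg r (fr.low r w)) (fr.xf (r + 1) w) := by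
    refine congrArg av (funext fun w => ?_)
    rw [fr.dg_low]
  have e13 : ∀ X : ℝ, X / (4 * s) = 1 / (4 * s) * X := fun X => by ring
  rw [e13] at hsum
  rw [e10, e11, e12]
  linarith

/-- **Regret of the accelerated method.** -/
theorem acc_regret (fr : Fr n m s N M g) [NeZero s] (hM : 0 ≤ M)
    (Psi : (Fin n → Fin m) → (Fin n → ℤ) → ℝ) (psi : (Fin n → Fin m) → ℝ) {L G D : ℝ}
    (hcv : ∀ U y z, (∀ v, 0 ≤ y v ∧ y v ≤ M) → (∀ v, 0 ≤ z v ∧ z v ≤ M) →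
      Psi U z ≤ Psi U y + ∑ v, mg N g v (U v) y * ((z v - y v : ℤ) : ℝ))
    (hsm : ∀ U y z, (∀ v, 0 ≤ y v ∧ y v ≤ M) → (∀ v, 0 ≤ z v ∧ z v ≤ M) →
      Psi U y + ∑ v, mg N g v (U v) y * ((z v - y v : ℤ) : ℝ) -
        L * ∑ v, ((z v - y v : ℤ) : ℝ) ^ 2 ≤ Psi U z)
    (zs : (Fin n → Fin m) → Fin n → ℤ) (hz0 : ∀ U v, 0 ≤ zs U v) (hz1 : ∀ U v, zs U v ≤ M)
    (hleg : ∀ v, fr.Leg v fun U => zs U v)
    (hz : ∀ U y, (∀ v, 0 ≤ y v ∧ y v ≤ M) →
      psi U ≤ Psi U y + ∑ v, mg N g v (U v) y * ((zs U v - y v : ℤ) : ℝ))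
    (hL0 : 0 ≤ L) (hL : 16 * s * L ≤ 1) (hG : ∀ v u y, |mg N g v u y| ≤ G)
    (hD : ∀ v u, ∃ e : ℝ, ∀ y, |((g v u y : ℤ) : ℝ) - e| ≤ D) (T : ℕ) :
    (wt T : ℝ) * av psi - n * (M : ℝ) ^ 2 / (2 * s) -
      (∑ a ∈ Finset.range T, ((a + 1 : ℕ) : ℝ) ^ 2) * (n * D ^ 2) -
      (∑ a ∈ Finset.range T, (wt (a + 1) : ℝ)) * (n * (G + 1)) ≤
      (wt T : ℝ) * av fun w : fr.W T => Psi (fr.dg T w) (fr.xf T w) := by
  have hs0 : (0 : ℝ) < s := by exact_mod_cast Nat.pos_of_ne_zero (NeZero.ne s)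
  have h : ∀ T : ℕ, (wt T : ℝ) * av psi - n * (M : ℝ) ^ 2 / (2 * s) +
      (av fun w : fr.W T => ∑ v, ((fr.z T w v - zs (fr.dg T w) v : ℤ) : ℝ) ^ 2) / (2 * s) -
      (∑ a ∈ Finset.range T, ((a + 1 : ℕ) : ℝ) ^ 2) * (n * D ^ 2) -
      (∑ a ∈ Finset.range T, (wt (a + 1) : ℝ)) * (n * (G + 1)) ≤
      (wt T : ℝ) * av fun w : fr.W T => Psi (fr.dg T w) (fr.xf T w) := by
    intro T
    induction T with
    | zero =>
      have h1 : (av fun w : fr.W 0 => ∑ v, ((fr.z 0 w v - zs (fr.dg 0 w) v : ℤ) : ℝ) ^ 2) ≤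
          n * (M : ℝ) ^ 2 := by
        refine (av_mono fun w => ?_).trans (le_of_eq (av_const ((n : ℝ) * (M : ℝ) ^ 2)))
        refine (Finset.sum_le_card_nsmul Finset.univ _ ((M : ℝ) ^ 2) fun v _ => ?_).trans
          (le_of_eq ?_)
        · have h1 : (fr.z 0 w v - zs (fr.dg 0 w) v) ^ 2 ≤ M ^ 2 := by
            rw [fr.z_zero, sq_le_sq, zero_sub, abs_neg, abs_of_nonneg (hz0 _ _),
              abs_of_nonneg hM]
            exact hz1 _ _
          exact_mod_cast h1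
        · rw [Finset.card_univ, Fintype.card_fin, nsmul_eq_mul]
      have h2 : wt 0 = 0 := rfl
      rw [h2, Finset.sum_range_zero, Finset.sum_range_zero]
      push_cast
      have h3 : (av fun w : fr.W 0 => ∑ v, ((fr.z 0 w v - zs (fr.dg 0 w) v : ℤ) : ℝ) ^ 2) /
          (2 * s) ≤ n * (M : ℝ) ^ 2 / (2 * s) := by
        gcongr
      push_cast at h3
      linarith
    | succ T ih =>
      have h1 := acc_step fr hM Psi psi hcv hsm zs hz0 hz1 hleg hz hL0 hL hG hD T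
      rw [Finset.sum_range_succ, Finset.sum_range_succ]
      have h2 : (wt (T + 1) : ℝ) = wt T + ((T + 1 : ℕ) : ℝ) := by
        rw [wt_succ]
        push_cast
        ring
      have h3 : (wt (T + 1) : ℝ) * av psi = wt T * av psi + ((T + 1 : ℕ) : ℝ) * av psi := by
        rw [h2]
        ring
      rw [h3, add_mul, add_mul]
      rw [sub_div] at h1
      linarith
  have h0 : 0 ≤ (av fun w : fr.W T => ∑ v, ((fr.z T w v - zs (fr.dg T w) v : ℤ) : ℝ) ^ 2) /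
      (2 * s) := by
    refine div_nonneg (av_nonneg fun w => Finset.sum_nonneg fun v _ => sq_nonneg _) (by positivity)
  have h1 := h T
  linarith

end Pool.Agent.Lib.SubBisX.Acc
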