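import Mathlib

/-!
Greedy vectors and the Lovász extension of a submodular function on subsets of `Fin n`, with integer
arguments.
-/

open scoped BigOperators

namespace Pool.Agent.Lib.SubBisX.FCS

open Finset

variable {n : ℕ}

/-- The elements before `v` in the order of decreasing `y`, ties in the natural order. -/
def bef (y : Fin n → ℤ) (v : Fin n) : Finset (Fin n) :=
  univ.filter fun w => y v < y w ∨ (y w = y v ∧ w < v)

/-- The greedy vector of `F` in the direction `y`. -/
def kv (F : Finset (Fin n) → ℤ) (y : Fin n → ℤ) (v : Fin n) : ℤ :=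
  F (insert v (bef y v)) - F (bef y v)

/-- The Lovász extension. -/
def fhat (F : Finset (Fin n) → ℤ) (y : Fin n → ℤ) : ℤ := ∑ v, kv F y v * y v

/-- Submodularity. -/
def Subm (F : Finset (Fin n) → ℤ) : Prop := ∀ S T, F (S ∪ T) + F (S ∩ T) ≤ F S + F T

theorem mem_bef {y : Fin n → ℤ} {v w : Fin n} :
    w ∈ bef y v ↔ y v < y w ∨ (y w = y v ∧ w < v) := by
  simp [bef]

theorem not_mem_bef (y : Fin n → ℤ) (v : Fin n) : v ∉ bef y v := by
  simp [mem_bef]

/-- A nonempty set has a last element. -/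
theorem exists_last (y : Fin n → ℤ) {S : Finset (Fin n)} (hS : S.Nonempty) :
    ∃ v ∈ S, ∀ w ∈ S, w ≠ v → w ∈ bef y v := by
  obtain ⟨v0, h0, hmin⟩ := exists_min_image S y hS
  have hne : (S.filter fun w => y w = y v0).Nonempty := ⟨v0, mem_filter.2 ⟨h0, rfl⟩⟩
  set v := (S.filter fun w => y w = y v0).max' hne with hv
  obtain ⟨h1, h2⟩ := mem_filter.1 (max'_mem (S.filter fun w => y w = y v0) hne)
  refine ⟨v, h1, fun w hw hwv => mem_bef.2 ?_⟩
  rcases lt_or_eq_of_le (hmin w hw) with h3 | h3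
  · left
    rw [h2]
    exact h3
  · right
    refine ⟨by rw [h2, h3], lt_of_le_of_ne ?_ hwv⟩
    exact le_max' _ w (mem_filter.2 ⟨hw, h3.symm⟩)

theorem sum_kv_le {F : Finset (Fin n) → ℤ} (hF : Subm F) (h0 : F ∅ = 0) (y : Fin n → ℤ) :
    ∀ (k : ℕ) (S : Finset (Fin n)), S.card = k → ∑ v ∈ S, kv F y v ≤ F S := by
  intro k
  induction k with
  | zero =>
    intro S hS
    rw [card_eq_zero.1 hS, sum_empty, h0]
  | succ k ih =>
    intro S hS
    obtain ⟨v, hv, hl⟩ := exists_last y (card_pos.1 (by omega : 0 < S.card))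
    have h1 := ih (S.erase v) (by rw [card_erase_of_mem hv]; omega)
    have h2 := hF S (bef y v)
    have h3 : S ∪ bef y v = insert v (bef y v) := by
      ext w
      simp only [mem_union, mem_insert]
      constructor
      · rintro (h | h)
        · by_cases hwv : w = v
          · exact Or.inl hwv
          · exact Or.inr (hl w h hwv)
        · exact Or.inr h
      · rintro (h | h)
        · exact Or.inl (h ▸ hv)
        · exact Or.inr h
    have h4 : S ∩ bef y v = S.erase v := by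
      ext w
      simp only [mem_inter, mem_erase]
      constructor
      · rintro ⟨ha, hb⟩
        refine ⟨fun h => ?_, ha⟩
        rw [h] at hb
        exact not_mem_bef y v hb
      · rintro ⟨ha, hb⟩
        exact ⟨hb, hl w hb ha⟩
    rw [h3, h4] at h2
    rw [← sum_erase_add S _ hv]
    unfold kv at *
    linarith

theorem sum_kv_eq {F : Finset (Fin n) → ℤ} (h0 : F ∅ = 0) (y : Fin n → ℤ) :
    ∀ (k : ℕ) (S : Finset (Fin n)), S.card = k → (∀ v ∈ S, bef y v ⊆ S) →
      ∑ v ∈ S, kv F y v = F S := by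
  intro k
  induction k with
  | zero =>
    intro S hS _
    rw [card_eq_zero.1 hS, sum_empty, h0]
  | succ k ih =>
    intro S hS hc
    obtain ⟨v, hv, hl⟩ := exists_last y (card_pos.1 (by omega : 0 < S.card))
    have h3 : S.erase v = bef y v := by
      ext w
      simp only [mem_erase]
      constructor
      · rintro ⟨ha, hb⟩
        exact hl w hb ha
      · intro h
        refine ⟨fun he => ?_, hc v hv h⟩
        rw [he] at h
        exact not_mem_bef y v h
    have h1 := ih (S.erase v) (by rw [card_erase_of_mem hv]; omega) (by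
      intro w hw x hx
      rw [h3] at hw ⊢
      rw [mem_bef] at hw hx ⊢
      rcases hw with hw | ⟨hw, hw'⟩ <;> rcases hx with hx | ⟨hx, hx'⟩
      · left; omega
      · left; omega
      · left; omega
      · right; exact ⟨by omega, lt_trans hx' hw'⟩)
    rw [← sum_erase_add S _ hv, h1]
    unfold kv
    rw [← h3, insert_erase hv]
    ring

/-- The number of levels below an integer. -/
theorem dec {x : ℤ} {N : ℕ} (h0 : 0 ≤ x) (h1 : x ≤ N) :
    ∑ i ∈ range N, (if (i : ℤ) < x then (1 : ℤ) else 0) = x := by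
  obtain ⟨k, rfl⟩ := Int.eq_ofNat_of_zero_le h0
  rw [← sum_filter, sum_const, nsmul_eq_mul, mul_one]
  have h2 : (range N).filter (fun i : ℕ => (i : ℤ) < (k : ℤ)) = range k := by
    ext i
    simp only [mem_filter, mem_range]
    omega
  rw [h2, card_range]

theorem sum_mul_dec (f z : Fin n → ℤ) {K N : ℕ} (h0 : ∀ v, 0 ≤ z v + K) (h1 : ∀ v, z v + K ≤ N) :
    ∑ v, f v * z v = -K * ∑ v, f v +
      ∑ i ∈ range N, ∑ v ∈ univ.filter (fun v => (i : ℤ) < z v + K), f v := by
  have h2 : ∀ v, f v * z v = -K * f v + ∑ i ∈ range N, (if (i : ℤ) < z v + K then f v else 0) := by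
    intro v
    have h3 : ∑ i ∈ range N, (if (i : ℤ) < z v + K then f v else 0) =
        f v * ∑ i ∈ range N, (if (i : ℤ) < z v + K then (1 : ℤ) else 0) := by
      rw [mul_sum]
      refine sum_congr rfl fun i _ => ?_
      split_ifs <;> simp
    rw [h3, dec (h0 v) (h1 v)]
    ring
  rw [sum_congr rfl fun v _ => h2 v, sum_add_distrib, ← mul_sum, sum_comm]
  congr 1
  refine sum_congr rfl fun i _ => ?_
  rw [sum_filter]

theorem exists_bound (z : Fin n → ℤ) : ∃ K N : ℕ, (∀ v, 0 ≤ z v + K) ∧ ∀ v, z v + K ≤ N := by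
  refine ⟨(∑ v, |z v|).toNat, (∑ v, |z v|).toNat + (∑ v, |z v|).toNat, fun v => ?_, fun v => ?_⟩
  · have h1 : |z v| ≤ ∑ v, |z v| :=
      single_le_sum (f := fun v => |z v|) (fun _ _ => abs_nonneg _) (mem_univ v)
    have h2 := neg_abs_le (z v)
    have h3 := Int.self_le_toNat (∑ v, |z v|)
    linarith
  · have h1 : |z v| ≤ ∑ v, |z v| :=
      single_le_sum (f := fun v => |z v|) (fun _ _ => abs_nonneg _) (mem_univ v)
    have h2 := le_abs_self (z v)
    have h3 := Int.self_le_toNat (∑ v, |z v|)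
    push_cast
    linarith

theorem level_closed (z : Fin n → ℤ) (t : ℤ) {v : Fin n}
    (hv : v ∈ univ.filter (fun v => t < z v)) : bef z v ⊆ univ.filter (fun v => t < z v) := by
  intro w hw
  simp only [mem_filter, mem_univ, true_and] at hv ⊢
  rcases mem_bef.1 hw with h | ⟨h, _⟩ <;> omega

/-- The Lovász extension as a sum over level sets. -/
theorem fhat_eq {F : Finset (Fin n) → ℤ} (h0 : F ∅ = 0) (z : Fin n → ℤ) {K N : ℕ}
    (hK : ∀ v, 0 ≤ z v + K) (hN : ∀ v, z v + K ≤ N) :
    fhat F z = -K * F univ + ∑ i ∈ range N, F (univ.filter fun v => (i : ℤ) < z v + K) := by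
  unfold fhat
  rw [sum_mul_dec (kv F z) z hK hN,
    sum_kv_eq h0 z _ univ rfl (fun v _ => subset_univ _)]
  congr 1
  refine sum_congr rfl fun i _ => ?_
  refine sum_kv_eq h0 z _ _ rfl fun v hv => ?_
  have h := level_closed z ((i : ℤ) - K) (v := v) (by
    simp only [mem_filter, mem_univ, true_and] at hv ⊢
    omega)
  intro w hw
  have := h hw
  simp only [mem_filter, mem_univ, true_and] at this ⊢
  omega

/-- The Lovász extension of a vector with values between `0` and `M`. -/
theorem fhat_levels {F : Finset (Fin n) → ℤ} (h0 : F ∅ = 0) (z : Fin n → ℤ) {M : ℕ}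
    (hz : ∀ v, 0 ≤ z v) (hM : ∀ v, z v ≤ M) :
    fhat F z = ∑ i ∈ range M, F (univ.filter fun v => (i : ℤ) < z v) := by
  rw [fhat_eq (K := 0) (N := M) h0 z (fun v => by simpa using hz v) (fun v => by simpa using hM v)]
  simp

/-- The greedy vector in the direction `y` lies in the base polytope. -/
theorem sum_kv_mul_le {F : Finset (Fin n) → ℤ} (hF : Subm F) (h0 : F ∅ = 0) (y z : Fin n → ℤ) :
    ∑ v, kv F y v * z v ≤ fhat F z := by
  obtain ⟨K, N, hK, hN⟩ := exists_bound z
  rw [sum_mul_dec (kv F y) z hK hN, fhat_eq h0 z hK hN,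
    sum_kv_eq h0 y _ univ rfl (fun v _ => subset_univ _)]
  have h : ∑ i ∈ range N, ∑ v ∈ univ.filter (fun v => (i : ℤ) < z v + K), kv F y v ≤
      ∑ i ∈ range N, F (univ.filter fun v => (i : ℤ) < z v + K) :=
    sum_le_sum fun i _ => sum_kv_le hF h0 y _ _ rfl
  linarith

/-- The objective. -/
def phi {m : ℕ} (F : Finset (Fin n) → ℤ) (e : Fin n → Fin m → ℤ) (c : ℤ) (U : Fin n → Fin m)
    (y : Fin n → ℤ) : ℤ := ∑ v, e v (U v) * y v - c * fhat F y

/-- The step. -/
def gr {m : ℕ} (F : Finset (Fin n) → ℤ) (e : Fin n → Fin m → ℤ) (c : ℤ) (v : Fin n) (u : Fin m)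
    (y : Fin n → ℤ) : ℤ := e v u - c * kv F y v

theorem gr_super {m : ℕ} {F : Finset (Fin n) → ℤ} (hF : Subm F) (h0 : F ∅ = 0)
    (e : Fin n → Fin m → ℤ) {c : ℤ} (hc : 0 ≤ c) (U : Fin n → Fin m) (y z : Fin n → ℤ) :
    ∑ v, gr F e c v (U v) y * (y v - z v) ≤ phi F e c U y - phi F e c U z := by
  have h1 := sum_kv_mul_le hF h0 y z
  have h2 : ∑ v, gr F e c v (U v) y * (y v - z v) =
      ∑ v, e v (U v) * y v - ∑ v, e v (U v) * z v -
        c * (fhat F y - ∑ v, kv F y v * z v) := by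
    unfold fhat
    rw [mul_sub, mul_sum, mul_sum, ← sum_sub_distrib, ← sum_sub_distrib, ← sum_sub_distrib]
    refine sum_congr rfl fun v _ => ?_
    unfold gr
    ring
  rw [h2]
  unfold phi
  nlinarith [mul_le_mul_of_nonneg_left h1 hc]

theorem kv_nonneg {F : Finset (Fin n) → ℤ} (hmono : ∀ S v, F S ≤ F (insert v S)) (y : Fin n → ℤ)
    (v : Fin n) : 0 ≤ kv F y v := by
  have := hmono (bef y v) v
  unfold kv
  omega

theorem kv_le {F : Finset (Fin n) → ℤ} {C : ℤ} (hC : ∀ S v, F (insert v S) ≤ F S + C)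
    (y : Fin n → ℤ) (v : Fin n) : kv F y v ≤ C := by
  have := hC (bef y v) v
  unfold kv
  omega

/-- The square of the step. -/
theorem gr_sq {m : ℕ} {F : Finset (Fin n) → ℤ} (e : Fin n → Fin m → ℤ) {c E C : ℤ} (hc : 0 ≤ c)
    (he : ∀ v u, |e v u| ≤ E) (hmono : ∀ S v, F S ≤ F (insert v S))
    (hC : ∀ S v, F (insert v S) ≤ F S + C) (U : Fin n → Fin m) (y : Fin n → ℤ) :
    ∑ v, gr F e c v (U v) y ^ 2 ≤ n * (E + c * C) ^ 2 := by
  have h1 : ∀ v, gr F e c v (U v) y ^ 2 ≤ (E + c * C) ^ 2 := by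
    intro v
    have h2 := kv_nonneg hmono y v
    have h3 := kv_le hC y v
    have h4 := abs_le.1 (he v (U v))
    have h5 : c * kv F y v ≤ c * C := mul_le_mul_of_nonneg_left h3 hc
    have h6 : 0 ≤ c * kv F y v := mul_nonneg hc h2
    refine sq_le_sq' ?_ ?_ <;> unfold gr <;> linarith [h4.1, h4.2, (abs_nonneg _).trans (he v (U v))]
  refine (sum_le_sum fun v _ => h1 v).trans ?_
  rw [sum_const, card_univ, Fintype.card_fin, nsmul_eq_mul]

end Pool.Agent.Lib.SubBisX.FCS
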