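import Pool.Agent.Lib.SubBisX.CoreDefs
import Pool.Agent.Lib.SubBisX.Bounds
import Pool.Agent.Lib.SubBisX.FCSup

/-!
The mean of `Val` is `T c M log₂ ∑ 2 ^ (-F)` up to a small error.
-/

namespace Pool.Agent.Lib.SubBisX.Core

open Finset Reg SubBis

variable {n : ℕ}

theorem CA.av_Val {m : ℕ} [NeZero m] (c M : ℕ) (F : Finset (Fin n) → ℤ) (T : ℕ) :
    (av fun w : Fin n → XW m n T => (Val c M F T w : ℝ)) =
      ∑ r ∈ range T, av fun w : Fin n → XW m n r =>
        (Phi c M F (dig r w) (Yit (M : ℤ) (gr c F) r w) : ℝ) := by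
  induction T with
  | zero =>
    rw [sum_range_zero]
    have h : (fun w : Fin n → XW m n 0 => (Val c M F 0 w : ℝ)) = fun _ => 0 := by
      funext w
      show ((0 : ℤ) : ℝ) = 0
      simp
    rw [h, av_const]
  | succ T ih =>
    rw [sum_range_succ, ← ih, ← av_low T fun w => (Val c M F T w : ℝ),
      ← av_low T fun w => (Phi c M F (dig T w) (Yit (M : ℤ) (gr c F) T w) : ℝ), ← av_add]
    refine congrArg av (funext fun w => ?_)
    show ((Val c M F T (low w) + Phi c M F (dig T (low w)) (Yit (M : ℤ) (gr c F) T (low w)) : ℤ) :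
      ℝ) = _
    push_cast
    rfl

/-- the letters are fine enough -/
theorem CA.log_small {q : ℕ} (hq : 0 < q) :
    Real.logb 2 ((2 : ℝ) ^ (2 * Nat.size q + 3) + 1) / 2 ^ (2 * Nat.size q + 3) ≤ 1 / q := by
  have h1 : (2 : ℝ) ^ (2 * Nat.size q + 3) + 1 ≤ 2 ^ (2 * Nat.size q + 4) := by
    have : (1 : ℝ) ≤ 2 ^ (2 * Nat.size q + 3) := one_le_pow₀ (by norm_num)
    rw [pow_succ (2 : ℝ) (2 * Nat.size q + 3)]
    linarith
  have h2 : Real.logb 2 ((2 : ℝ) ^ (2 * Nat.size q + 3) + 1) ≤ 2 * Nat.size q + 4 := by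
    have h := Real.logb_le_logb_of_le (b := 2) (by norm_num) (by positivity) h1
    refine h.trans (le_of_eq ?_)
    rw [Real.logb_pow, Real.logb_self_eq_one (by norm_num)]
    push_cast
    ring
  have h3 : Nat.size q ≤ q := Nat.size_le.2 q.lt_two_pow_self
  have h4 : q + 1 ≤ 2 ^ Nat.size q := Nat.lt_size_self q
  have h5 : (2 * Nat.size q + 4) * q ≤ 2 ^ (2 * Nat.size q + 3) := by
    calc (2 * Nat.size q + 4) * q ≤ (2 * q + 4) * q := by gcongr
      _ ≤ 8 * ((q + 1) * (q + 1)) := by nlinarith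
      _ ≤ 8 * (2 ^ Nat.size q * 2 ^ Nat.size q) := by gcongr
      _ = 2 ^ (2 * Nat.size q + 3) := by ring
  have h6 : ((2 * Nat.size q + 4 : ℕ) : ℝ) * q ≤ 2 ^ (2 * Nat.size q + 3) := by exact_mod_cast h5
  have hq' : (0 : ℝ) < q := by exact_mod_cast hq
  rw [div_le_div_iff₀ (by positivity) hq', one_mul]
  push_cast at h6
  refine le_trans ?_ h6
  gcongr

/-- the sum of the three estimates -/
theorem CA.core_abs {m : ℕ} [NeZero m] {c M T : ℕ} (hc : 0 < c) (hM : 0 < M) (hT : 0 < T)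
    (F : Finset (Fin n) → ℤ) {lZ e G2 : ℝ} (z : (Fin n → Fin m) → Fin n → ℤ)
    (hU : ∀ r, (av fun w : Fin n → XW m n r =>
      (Phi c M F (dig r w) (Yit (M : ℤ) (gr c F) r w) : ℝ)) ≤ M * (c * lZ + n))
    (hL : M * (c * lZ - n * (1 + c * e)) ≤ av fun U : Fin n → Fin m => (Phi c M F U (z U) : ℝ))
    (hR : 2 * ∑ r ∈ range T, ((av fun U : Fin n → Fin m => (Phi c M F U (z U) : ℝ)) -
      av fun w : Fin n → XW m n r => (Phi c M F (dig r w) (Yit (M : ℤ) (gr c F) r w) : ℝ)) ≤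
        n * (M : ℝ) ^ 2 + T * G2) :
    (av fun w : Fin n → XW m n T => (Val c M F T w : ℝ)) / (T * c * M) ≤ lZ + n / c ∧
      lZ - (n * (1 / c + e) + n * M / (2 * T * c) + G2 / (2 * c * M)) ≤
        (av fun w : Fin n → XW m n T => (Val c M F T w : ℝ)) / (T * c * M) := by
  have hc' : (0 : ℝ) < c := by exact_mod_cast hc
  have hM' : (0 : ℝ) < M := by exact_mod_cast hM
  have hT' : (0 : ℝ) < T := by exact_mod_cast hT
  rw [CA.av_Val]
  set a : ℕ → ℝ := fun r => av fun w : Fin n → XW m n r =>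
    (Phi c M F (dig r w) (Yit (M : ℤ) (gr c F) r w) : ℝ) with ha
  set b : ℝ := av fun U : Fin n → Fin m => (Phi c M F U (z U) : ℝ) with hb
  have h1 : ∑ r ∈ range T, a r ≤ T * (M * (c * lZ + n)) := by
    refine (sum_le_card_nsmul _ _ _ fun r _ => hU r).trans (le_of_eq ?_)
    rw [card_range, nsmul_eq_mul]
  have h2 : 2 * (T * b - ∑ r ∈ range T, a r) ≤ n * (M : ℝ) ^ 2 + T * G2 := by
    refine (le_of_eq ?_).trans hR
    rw [sum_sub_distrib, sum_const, card_range, nsmul_eq_mul]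
  constructor
  · rw [div_le_iff₀ (by positivity)]
    refine h1.trans (le_of_eq ?_)
    field_simp
  · rw [le_div_iff₀ (by positivity)]
    have h3 : (lZ - (n * (1 / c + e) + n * M / (2 * T * c) + G2 / (2 * c * M))) * (T * c * M) =
        T * (M * (c * lZ - n * (1 + c * e))) - (n * (M : ℝ) ^ 2 + T * G2) / 2 := by
      field_simp
      ring
    rw [h3]
    nlinarith [mul_le_mul_of_nonneg_left hL hT'.le]

/-! ### the step and the greedy vector -/

theorem CA.Upo_eq (y : Fin n → ℤ) (v : Fin n) : Upo y v = FCS.bef y v := rfl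

theorem CA.Up_eq (y : Fin n → ℤ) (v : Fin n) : Up y v = insert v (FCS.bef y v) := by
  ext w
  rw [mem_insert, FCS.mem_bef, Up, mem_filter]
  constructor
  · rintro ⟨_, h | ⟨h, h'⟩⟩
    · exact Or.inr (Or.inl h)
    · rcases lt_or_eq_of_le h' with h'' | h''
      · exact Or.inr (Or.inr ⟨h, h''⟩)
      · exact Or.inl h''
  · rintro (h | h | ⟨h, h'⟩)
    · exact ⟨mem_univ w, Or.inr ⟨by rw [h], le_of_eq h⟩⟩
    · exact ⟨mem_univ w, Or.inl h⟩
    · exact ⟨mem_univ w, Or.inr ⟨h, h'.le⟩⟩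

theorem CA.gr_eq {m : ℕ} (c : ℕ) (F : Finset (Fin n) → ℤ) :
    (gr c F : Fin n → Fin m → (Fin n → ℤ) → ℤ) = FCS.gr F (fun _ u => ee m c u) c := by
  funext v u y
  unfold gr FCS.gr FCS.kv
  rw [CA.Up_eq, CA.Upo_eq]

theorem CA.Phi_eq {m : ℕ} (c M : ℕ) {F : Finset (Fin n) → ℤ} (h0 : F ∅ = 0) (U : Fin n → Fin m)
    {y : Fin n → ℤ} (hy0 : ∀ v, 0 ≤ y v) (hy1 : ∀ v, y v ≤ M) :
    Phi c M F U y = FCS.phi F (fun _ u => ee m c u) c U y := by
  unfold Phi FCS.phi
  rw [FCS.fhat_levels h0 y hy0 hy1, ← Bounds.Fhat_eq_nat]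
  rfl

theorem CA.Yit_nonneg {m : ℕ} {M : ℤ} (g : Fin n → Fin m → (Fin n → ℤ) → ℤ) (r : ℕ)
    (w : Fin n → XW m n r) (v : Fin n) : 0 ≤ Yit M g r w v := by
  cases r with
  | zero => exact le_rfl
  | succ r => exact le_max_left _ _

theorem CA.Yit_le {m : ℕ} {M : ℤ} (hM : 0 ≤ M) (g : Fin n → Fin m → (Fin n → ℤ) → ℤ) (r : ℕ)
    (w : Fin n → XW m n r) (v : Fin n) : Yit M g r w v ≤ M := by
  cases r with
  | zero => exact hM
  | succ r => exact max_le hM (min_le_left _ _)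

theorem CA.av_base {m : ℕ} [NeZero m] (r : ℕ) (f : Fin m → ℝ) :
    (av fun x : XW m n r => f (base m n r x)) = av f := by
  induction r with
  | zero => rfl
  | succ r ih =>
    rw [← ih]
    exact av_fst (Ω' := Fin n → XW m n r) fun x => f (base m n r x)

/-- **Core.** The mean of `Val`. -/
theorem core {mu c M T kap : ℕ} (hc : 0 < c) (hM : 0 < M) (hT : 0 < T)
    {F : Finset (Fin n) → ℤ} (h0 : F ∅ = 0) (hF : FCS.Subm F)
    (hk : ∀ S v, |F (insert v S) - F S| ≤ kap) :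
    (av fun w : Fin n → XW (2 ^ mu) n T => (Val c M F T w : ℝ)) / (T * c * M) ≤
        Bounds.logZ F + n / c ∧
      Bounds.logZ F - (n * (1 / c + Real.logb 2 ((2 : ℝ) ^ mu + 1) / 2 ^ mu) +
        n * M / (2 * T * c) + n * (c * mu + c * kap) ^ 2 / (2 * c * M)) ≤
        (av fun w : Fin n → XW (2 ^ mu) n T => (Val c M F T w : ℝ)) / (T * c * M) := by
  obtain ⟨z, hz, hz0, hz1, hzL⟩ := Bounds.lower_int (m := 2 ^ mu) (n := n) c M F
  have hM0 : (0 : ℤ) ≤ (M : ℤ) := Int.natCast_nonneg M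
  refine CA.core_abs hc hM hT F z (fun r => ?_) ?_ ?_
  · have h := Bounds.upper_int c M (base (2 ^ mu) n r) (fun f => CA.av_base r f) F
      (fun w => Yit (M : ℤ) (gr c F) r w) (fun w v => CA.Yit_nonneg _ r w v)
      (fun w v => CA.Yit_le hM0 _ r w v) (fun v => Yit_upto r v)
    refine (le_of_eq (congrArg av (funext fun w => ?_))).trans h
    unfold Phi
    rw [Bounds.Fhat_eq_nat]
    rfl
  · have h1 : (fun U : Fin n → Fin (2 ^ mu) => (Phi c M F U (z U) : ℝ)) = fun U =>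
        ((∑ v, ee (2 ^ mu) c (U v) * z U v - c * Bounds.Fhat F M (z U) : ℤ) : ℝ) := by
      funext U
      unfold Phi
      rw [Bounds.Fhat_eq_nat]
    rw [h1]
    refine le_trans (le_of_eq ?_) hzL
    push_cast
    ring
  · have hgr := regret (m := 2 ^ mu) (n := n) (M := (M : ℤ)) (g := gr c F) hM0
      (FCS.phi F (fun _ u => ee (2 ^ mu) c u) c)
      (fun U y z _ _ => by
        rw [CA.gr_eq]
        exact FCS.gr_super hF h0 _ (Int.natCast_nonneg c) U y z)
      ((n : ℝ) * (c * mu + c * kap) ^ 2)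
      (fun U y => by
        have h1 : ∀ v, gr c F v (U v) y ^ 2 ≤ ((c * mu + c * kap : ℕ) : ℤ) ^ 2 := by
          intro v
          rw [← sq_abs (gr c F v (U v) y)]
          refine pow_le_pow_left₀ (abs_nonneg _) ?_ 2
          unfold gr
          refine (abs_sub _ _).trans ?_
          rw [abs_mul, abs_of_nonneg (Int.natCast_nonneg c)]
          have h2 := abs_ee_le (c := c) (U v).2
          have h3 : |F (Up y v) - F (Upo y v)| ≤ kap := by
            rw [CA.Up_eq, CA.Upo_eq]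
            exact hk _ _
          have h4 := mul_le_mul_of_nonneg_left h3 (Int.natCast_nonneg c)
          push_cast
          linarith
        have h2 : ∑ v, gr c F v (U v) y ^ 2 ≤ n * ((c * mu + c * kap : ℕ) : ℤ) ^ 2 := by
          refine (sum_le_card_nsmul _ _ _ fun v _ => h1 v).trans ?_
          rw [card_univ, Fintype.card_fin, nsmul_eq_mul]
        exact_mod_cast h2)
      z hz0 hz1 hz T
    refine le_trans (le_of_eq ?_) hgr
    have h1 : (fun U : Fin n → Fin (2 ^ mu) => (Phi c M F U (z U) : ℝ)) = fun U =>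
        (FCS.phi F (fun _ u => ee (2 ^ mu) c u) c U (z U) : ℝ) := by
      funext U
      rw [CA.Phi_eq c M h0 U (hz0 U) (hz1 U)]
    have h2 : ∀ r, (fun w : Fin n → XW (2 ^ mu) n r =>
        (Phi c M F (dig r w) (Yit (M : ℤ) (gr c F) r w) : ℝ)) = fun w =>
        (FCS.phi F (fun _ u => ee (2 ^ mu) c u) c (dig r w) (Yit (M : ℤ) (gr c F) r w) : ℝ) := by
      intro r
      funext w
      rw [CA.Phi_eq c M h0 _ (fun v => CA.Yit_nonneg _ r w v) (fun v => CA.Yit_le hM0 _ r w v)]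
    simp only [h1, h2]

/-! ### range -/

theorem CA.abs_F_le {F : Finset (Fin n) → ℤ} {kap : ℕ} (h0 : F ∅ = 0)
    (hk : ∀ S v, |F (insert v S) - F S| ≤ kap) (S : Finset (Fin n)) : |F S| ≤ n * kap := by
  classical
  have h : ∀ S : Finset (Fin n), |F S| ≤ S.card * kap := by
    intro S
    induction S using Finset.induction_on with
    | empty => simp [h0]
    | insert v S hv ih =>
      have h1 := hk S v
      have h2 : F (insert v S) = (F (insert v S) - F S) + F S := by ring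
      rw [h2, card_insert_of_notMem hv]
      refine (abs_add_le _ _).trans ?_
      push_cast
      linarith
  refine (h S).trans ?_
  have h1 : S.card ≤ n := (card_le_univ S).trans (le_of_eq (Fintype.card_fin n))
  have h2 : (S.card : ℤ) ≤ n := by exact_mod_cast h1
  exact mul_le_mul_of_nonneg_right h2 (Int.natCast_nonneg kap)

theorem CA.abs_Phi_le {mu c M kap : ℕ} {F : Finset (Fin n) → ℤ} (h0 : F ∅ = 0)
    (hk : ∀ S v, |F (insert v S) - F S| ≤ kap) (U : Fin n → Fin (2 ^ mu)) {y : Fin n → ℤ}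
    (hy0 : ∀ v, 0 ≤ y v) (hy1 : ∀ v, y v ≤ M) :
    |Phi c M F U y| ≤ c * M * (n * (mu + kap)) := by
  unfold Phi
  refine (abs_sub _ _).trans ?_
  have h1 : |∑ v, ee (2 ^ mu) c (U v) * y v| ≤ n * ((c * mu) * M) := by
    refine (abs_sum_le_sum_abs _ _).trans ?_
    refine (sum_le_card_nsmul _ _ ((c * mu : ℤ) * M) fun v _ => ?_).trans (le_of_eq ?_)
    · rw [abs_mul, abs_of_nonneg (hy0 v)]
      exact mul_le_mul (abs_ee_le (U v).2) (hy1 v) (hy0 v) (by positivity)
    · rw [card_univ, Fintype.card_fin, nsmul_eq_mul]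
  have h2 : |(c : ℤ) * ∑ i ∈ Icc 1 M, F (univ.filter fun w => (i : ℤ) ≤ y w)| ≤
      c * (M * (n * kap)) := by
    rw [abs_mul, abs_of_nonneg (Int.natCast_nonneg c)]
    refine mul_le_mul_of_nonneg_left ?_ (Int.natCast_nonneg c)
    refine (abs_sum_le_sum_abs _ _).trans ?_
    refine (sum_le_card_nsmul _ _ ((n : ℤ) * kap) fun i _ => CA.abs_F_le h0 hk _).trans (le_of_eq ?_)
    rw [Nat.card_Icc, nsmul_eq_mul, Nat.add_sub_cancel]
  linarith

/-- The range of `Val`. -/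
theorem abs_Val_le {mu c M kap : ℕ} {F : Finset (Fin n) → ℤ} (h0 : F ∅ = 0)
    (hk : ∀ S v, |F (insert v S) - F S| ≤ kap) (T : ℕ) (w : Fin n → XW (2 ^ mu) n T) :
    |Val c M F T w| ≤ T * c * M * (n * (mu + kap)) := by
  induction T with
  | zero =>
    show |(0 : ℤ)| ≤ _
    simp
  | succ T ih =>
    show |Val c M F T (low w) + Phi c M F (dig T (low w)) (Yit (M : ℤ) (gr c F) T (low w))| ≤ _
    refine (abs_add_le _ _).trans ?_
    have h1 := ih (low w)
    have h2 := CA.abs_Phi_le (c := c) (M := M) h0 hk (dig T (low w))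
      (y := Yit (M : ℤ) (gr c F) T (low w)) (fun v => CA.Yit_nonneg _ T (low w) v)
      (fun v => CA.Yit_le (Int.natCast_nonneg M) _ T (low w) v)
    push_cast
    linarith

/-! ### parameters -/

/-- bits of a letter -/
def muQ (q : ℕ) : ℕ := 2 * Nat.size q + 3

/-- weight of the matching number -/
def kapQ (q : ℕ) : ℕ := Nat.size q + 1

/-- `q (mu + kap) ^ 2` -/
def KQ (q : ℕ) : ℕ := q * (muQ q + kapQ q) ^ 2

/-- number of levels of the iterates, with `c = q` -/
def MQ (q : ℕ) : ℕ := q * KQ q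

/-- number of iterations -/
def TQ (q : ℕ) : ℕ := q * KQ q

theorem KQ_pos {q : ℕ} (hq : 0 < q) : 0 < KQ q := by
  unfold KQ muQ
  positivity

theorem MQ_pos {q : ℕ} (hq : 0 < q) : 0 < MQ q := Nat.mul_pos hq (KQ_pos hq)

theorem TQ_pos {q : ℕ} (hq : 0 < q) : 0 < TQ q := Nat.mul_pos hq (KQ_pos hq)

/-- **Core**, with the parameters. -/
theorem coreQ {q : ℕ} (hq : 0 < q) {F : Finset (Fin n) → ℤ} (h0 : F ∅ = 0) (hF : FCS.Subm F)
    (hk : ∀ S v, |F (insert v S) - F S| ≤ kapQ q) :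
    |(av fun w : Fin n → XW (2 ^ muQ q) n (TQ q) => (Val q (MQ q) F (TQ q) w : ℝ)) /
        (TQ q * q * MQ q) - Bounds.logZ F| ≤ 3 * n / q := by
  obtain ⟨h1, h2⟩ := core (mu := muQ q) (n := n) hq (MQ_pos hq) (TQ_pos hq) h0 hF hk
  have hq' : (0 : ℝ) < q := by exact_mod_cast hq
  have hK : (0 : ℝ) < KQ q := by exact_mod_cast KQ_pos hq
  have hn : (0 : ℝ) ≤ n := Nat.cast_nonneg n
  have h3 := CA.log_small hq
  have e1 : (n : ℝ) * MQ q / (2 * TQ q * q) = n / q / 2 := by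
    unfold MQ TQ
    push_cast
    field_simp
  have e2 : (n : ℝ) * (q * muQ q + q * kapQ q) ^ 2 / (2 * q * MQ q) = n / q / 2 := by
    have h5 : (0 : ℝ) < muQ q + kapQ q := by
      unfold muQ
      positivity
    unfold MQ KQ
    push_cast
    field_simp
  have e3 : (n : ℝ) * (1 / q + Real.logb 2 ((2 : ℝ) ^ muQ q + 1) / 2 ^ muQ q) ≤ 2 * (n / q) := by
    have h4 : Real.logb 2 ((2 : ℝ) ^ muQ q + 1) / 2 ^ muQ q ≤ 1 / q := h3
    have h5 := mul_le_mul_of_nonneg_left h4 hn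
    rw [mul_add]
    have h6 : (n : ℝ) * (1 / q) = n / q := by ring
    linarith
  have e4 : (0 : ℝ) ≤ n / q := by positivity
  have e5 : (3 : ℝ) * n / q = 3 * (n / q) := by ring
  rw [e1, e2] at h2
  rw [e5, abs_le]
  constructor <;> linarith

end Pool.Agent.Lib.SubBisX.Core
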