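import Pool.Agent.Lib.SubBisX.AccDefs
import Pool.Agent.Lib.SubBisX.Core
import Pool.Agent.Lib.SubBisY.Smooth

/-!
# The smoothed objective of a submodular function

`Psi c N F U y` is the objective with the Lovász extension averaged over a uniform noise in
`{0, …, N - 1} ^ n`.  It is concave and smooth, with gradient `mg N (gr c F)`.
-/

open scoped BigOperators

namespace Pool.Agent.Lib.SubBisX.AccI

open Finset SubBis SubBisY Pool.Agent.Lib.SubBisX.Reg Pool.Agent.Lib.SubBisX.Core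
  Pool.Agent.Lib.SubBisX.Acc

variable {n m : ℕ} {F : Finset (Fin n) → ℤ}

/-- The averaged Lovász extension. -/
noncomputable def fN (N : ℕ) (F : Finset (Fin n) → ℤ) (y : Fin n → ℤ) : ℝ :=
  av fun ξ : Fin n → Fin N => (FCS.fhat F (pert y ξ) : ℝ)

/-- The smoothed objective. -/
noncomputable def Psi (c N : ℕ) (F : Finset (Fin n) → ℤ) (U : Fin n → Fin m) (y : Fin n → ℤ) : ℝ :=
  ((∑ v, ee m c (U v) * y v : ℤ) : ℝ) - c * fN N F y

theorem inc_eq_kv (F : Finset (Fin n) → ℤ) (y : Fin n → ℤ) (v : Fin n) :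
    inc F y v = FCS.kv F y v := by
  unfold inc FCS.kv
  rw [CA.Up_eq, CA.Upo_eq]

/-- The subgradient inequality of the Lovász extension. -/
theorem fhat_sub (hF : FCS.Subm F) (h0 : F ∅ = 0) (y z : Fin n → ℤ) :
    FCS.fhat F y + ∑ v, inc F y v * (z v - y v) ≤ FCS.fhat F z := by
  have h1 := FCS.sum_kv_mul_le hF h0 y z
  have h2 : FCS.fhat F y + ∑ v, inc F y v * (z v - y v) = ∑ v, FCS.kv F y v * z v := by
    unfold FCS.fhat
    rw [← sum_add_distrib]
    refine sum_congr rfl fun v _ => ?_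
    rw [inc_eq_kv]
    ring
  rw [h2]
  exact h1

/-- The subgradient inequality of the averaged extension. -/
theorem fN_sub (hF : FCS.Subm F) (h0 : F ∅ = 0) (N : ℕ) (y z : Fin n → ℤ) :
    fN N F y + ∑ v, Gs N F y v * ((z v - y v : ℤ) : ℝ) ≤ fN N F z := by
  have h1 : (∑ v, Gs N F y v * ((z v - y v : ℤ) : ℝ)) =
      av fun ξ : Fin n → Fin N => ∑ v, (inc F (pert y ξ) v : ℝ) * ((z v - y v : ℤ) : ℝ) := by
    rw [av_sum]
    refine sum_congr rfl fun v _ => ?_
    unfold Gs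
    rw [mul_comm, ← av_smul]
    exact congrArg av (funext fun ξ => mul_comm _ _)
  rw [h1]
  unfold fN
  rw [← av_add]
  refine av_mono fun ξ => ?_
  have h2 := fhat_sub hF h0 (pert y ξ) (pert z ξ)
  have h3 : ∑ v, inc F (pert y ξ) v * (pert z ξ v - pert y ξ v) =
      ∑ v, inc F (pert y ξ) v * (z v - y v) := by
    refine sum_congr rfl fun v _ => ?_
    unfold pert
    ring
  rw [h3] at h2
  have h4 : ((FCS.fhat F (pert y ξ) + ∑ v, inc F (pert y ξ) v * (z v - y v) : ℤ) : ℝ) ≤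
      (FCS.fhat F (pert z ξ) : ℝ) := by exact_mod_cast h2
  rw [Int.cast_add, Int.cast_sum] at h4
  simp only [Int.cast_mul] at h4
  exact h4

/-- The averaged extension is smooth. -/
theorem fN_smooth (hF : FCS.Subm F) (h0 : F ∅ = 0) {kap N : ℕ} [NeZero N]
    (hk : ∀ S v, |F (insert v S) - F S| ≤ kap) (y z : Fin n → ℤ) :
    fN N F z ≤ fN N F y + ∑ v, Gs N F y v * ((z v - y v : ℤ) : ℝ) +
      5 * kap / N * ∑ v, ((z v - y v : ℤ) : ℝ) ^ 2 := by
  have h1 := fN_sub hF h0 N z y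
  have h2 := Gs_lip (K := N) h0 hF hk y z
  have h3 : ∑ v, Gs N F z v * ((y v - z v : ℤ) : ℝ) =
      -(∑ v, (Gs N F z v - Gs N F y v) * ((z v - y v : ℤ) : ℝ)) -
        ∑ v, Gs N F y v * ((z v - y v : ℤ) : ℝ) := by
    rw [← sum_neg_distrib, ← sum_sub_distrib]
    refine sum_congr rfl fun v _ => ?_
    push_cast
    ring
  rw [h3] at h1
  linarith

/-- The mean gradient. -/
theorem mg_eq (c : ℕ) {N : ℕ} [NeZero N] (F : Finset (Fin n) → ℤ) (v : Fin n) (u : Fin m)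
    (y : Fin n → ℤ) : mg N (gr c F) v u y = (ee m c u : ℝ) - c * Gs N F y v := by
  have h1 : (av fun _ : Fin n → Fin N => (ee m c u : ℝ)) = (ee m c u : ℝ) := av_const _
  unfold mg Gs
  rw [← h1, ← av_smul, ← av_sub]
  refine congrArg av (funext fun ξ => ?_)
  show ((ee m c u - c * (F (Up (pert y ξ) v) - F (Upo (pert y ξ) v)) : ℤ) : ℝ) =
    (ee m c u : ℝ) - c * ((F (Up (pert y ξ) v) - F (Upo (pert y ξ) v) : ℤ) : ℝ)
  push_cast
  ring

theorem sum_mg (c : ℕ) {N : ℕ} [NeZero N] (F : Finset (Fin n) → ℤ) (U : Fin n → Fin m)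
    (y z : Fin n → ℤ) :
    ∑ v, mg N (gr c F) v (U v) y * ((z v - y v : ℤ) : ℝ) =
      ((∑ v, ee m c (U v) * z v : ℤ) : ℝ) - ((∑ v, ee m c (U v) * y v : ℤ) : ℝ) -
        c * ∑ v, Gs N F y v * ((z v - y v : ℤ) : ℝ) := by
  rw [mul_sum, Int.cast_sum, Int.cast_sum, ← sum_sub_distrib, ← sum_sub_distrib]
  refine sum_congr rfl fun v _ => ?_
  rw [mg_eq]
  push_cast
  ring

/-- Concavity of the smoothed objective. -/
theorem hcv (hF : FCS.Subm F) (h0 : F ∅ = 0) (c : ℕ) {N : ℕ} [NeZero N] (U : Fin n → Fin m)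
    (y z : Fin n → ℤ) :
    Psi c N F U z ≤ Psi c N F U y + ∑ v, mg N (gr c F) v (U v) y * ((z v - y v : ℤ) : ℝ) := by
  rw [sum_mg]
  have h1 := mul_le_mul_of_nonneg_left (fN_sub hF h0 N y z) (Nat.cast_nonneg (α := ℝ) c)
  unfold Psi
  rw [mul_add] at h1
  linarith

/-- Smoothness of the smoothed objective. -/
theorem hsm (hF : FCS.Subm F) (h0 : F ∅ = 0) {c kap N : ℕ} [NeZero N]
    (hk : ∀ S v, |F (insert v S) - F S| ≤ kap) (U : Fin n → Fin m) (y z : Fin n → ℤ) :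
    Psi c N F U y + ∑ v, mg N (gr c F) v (U v) y * ((z v - y v : ℤ) : ℝ) -
      5 * c * kap / N * ∑ v, ((z v - y v : ℤ) : ℝ) ^ 2 ≤ Psi c N F U z := by
  rw [sum_mg]
  have h1 := mul_le_mul_of_nonneg_left (fN_smooth (N := N) hF h0 hk y z)
    (Nat.cast_nonneg (α := ℝ) c)
  have h2 : (c : ℝ) * (fN N F y + ∑ v, Gs N F y v * ((z v - y v : ℤ) : ℝ) +
      5 * kap / N * ∑ v, ((z v - y v : ℤ) : ℝ) ^ 2) =
      c * fN N F y + c * ∑ v, Gs N F y v * ((z v - y v : ℤ) : ℝ) +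
        5 * c * kap / N * ∑ v, ((z v - y v : ℤ) : ℝ) ^ 2 := by ring
  rw [h2] at h1
  unfold Psi
  linarith

/-- The step deviates from its linear part by at most `c kap`. -/
theorem hD {c kap : ℕ} (hk : ∀ S v, |F (insert v S) - F S| ≤ kap) (v : Fin n) (u : Fin m) :
    ∃ e : ℤ, ∀ y, |gr c F v u y - e| ≤ c * kap := by
  refine ⟨ee m c u, fun y => ?_⟩
  have h1 : gr c F v u y - ee m c u = -(c * inc F y v) := by
    unfold gr inc
    ring
  rw [h1, abs_neg, abs_mul, abs_of_nonneg (Int.natCast_nonneg c)]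
  exact mul_le_mul_of_nonneg_left (abs_inc hk y v) (Int.natCast_nonneg c)

/-- The step is bounded. -/
theorem hG {mu c kap : ℕ} (hk : ∀ S v, |F (insert v S) - F S| ≤ kap) (v : Fin n)
    (u : Fin (2 ^ mu)) (y : Fin n → ℤ) : |gr c F v u y| ≤ c * mu + c * kap := by
  have h1 : gr c F v u y = ee (2 ^ mu) c u - c * inc F y v := by
    unfold gr inc
    ring
  rw [h1]
  refine (abs_sub _ _).trans ?_
  rw [abs_mul, abs_of_nonneg (Int.natCast_nonneg c)]
  have h2 := abs_ee_le (c := c) u.2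
  have h3 := mul_le_mul_of_nonneg_left (abs_inc hk y v) (Int.natCast_nonneg c)
  linarith

/-- The noise changes the Lovász extension little. -/
theorem abs_fhat_pert (hF : FCS.Subm F) (h0 : F ∅ = 0) {kap N : ℕ}
    (hk : ∀ S v, |F (insert v S) - F S| ≤ kap) (y : Fin n → ℤ) (ξ : Fin n → Fin N) :
    |FCS.fhat F (pert y ξ) - FCS.fhat F y| ≤ kap * (n * N) := by
  have hs : ∀ x : Fin n → ℤ, |∑ v, inc F x v * (pert y ξ v - y v)| ≤ kap * (n * N) := by
    intro x
    refine (abs_sum_le_sum_abs _ _).trans ?_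
    refine (sum_le_card_nsmul _ _ ((kap : ℤ) * N) fun v _ => ?_).trans (le_of_eq ?_)
    · rw [abs_mul]
      have h1 : pert y ξ v - y v = ((ξ v : ℕ) : ℤ) := by
        unfold pert
        ring
      rw [h1, abs_of_nonneg (Int.natCast_nonneg _)]
      refine mul_le_mul (abs_inc hk x v) ?_ (Int.natCast_nonneg _) (Int.natCast_nonneg _)
      exact_mod_cast (ξ v).2.le
    · rw [card_univ, Fintype.card_fin, nsmul_eq_mul]
      ring
  have h1 := fhat_sub hF h0 y (pert y ξ)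
  have h2 := fhat_sub hF h0 (pert y ξ) y
  have h3 : ∑ v, inc F (pert y ξ) v * (y v - pert y ξ v) =
      -∑ v, inc F (pert y ξ) v * (pert y ξ v - y v) := by
    rw [← sum_neg_distrib]
    exact sum_congr rfl fun v _ => by ring
  have h4 := abs_le.1 (hs y)
  have h5 := abs_le.1 (hs (pert y ξ))
  rw [h3] at h2
  rw [abs_le]
  constructor <;> linarith

/-- The smoothed objective is close to the objective. -/
theorem abs_Psi_sub (hF : FCS.Subm F) (h0 : F ∅ = 0) {c kap N M : ℕ} [NeZero N]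
    (hk : ∀ S v, |F (insert v S) - F S| ≤ kap) (U : Fin n → Fin m) {y : Fin n → ℤ}
    (hy0 : ∀ v, 0 ≤ y v) (hy1 : ∀ v, y v ≤ M) :
    |Psi c N F U y - Phi c M F U y| ≤ c * (kap * (n * N)) := by
  rw [CA.Phi_eq c M h0 U hy0 hy1]
  have h1 : Psi c N F U y - (FCS.phi F (fun _ u => ee m c u) c U y : ℝ) =
      -(c * av fun ξ : Fin n → Fin N =>
        ((FCS.fhat F (pert y ξ) - FCS.fhat F y : ℤ) : ℝ)) := by
    unfold Psi fN FCS.phi
    have h2 : (av fun _ : Fin n → Fin N => (FCS.fhat F y : ℝ)) = (FCS.fhat F y : ℝ) := av_const _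
    have h3 : (av fun ξ : Fin n → Fin N => ((FCS.fhat F (pert y ξ) - FCS.fhat F y : ℤ) : ℝ)) =
        (av fun ξ : Fin n → Fin N => (FCS.fhat F (pert y ξ) : ℝ)) - (FCS.fhat F y : ℝ) := by
      rw [← h2, ← av_sub]
      exact congrArg av (funext fun ξ => by push_cast; rfl)
    rw [h3]
    push_cast
    ring
  rw [h1, abs_neg, abs_mul, abs_of_nonneg (Nat.cast_nonneg (α := ℝ) c)]
  refine mul_le_mul_of_nonneg_left ?_ (Nat.cast_nonneg c)
  have h4 : (av fun _ : Fin n → Fin N => (kap * (n * N) : ℝ)) = kap * (n * N) := av_const _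
  have h5 : (av fun _ : Fin n → Fin N => (-(kap * (n * N)) : ℝ)) = -(kap * (n * N)) := av_const _
  have h6 : ∀ ξ : Fin n → Fin N, -(kap * (n * N) : ℝ) ≤
      ((FCS.fhat F (pert y ξ) - FCS.fhat F y : ℤ) : ℝ) ∧
      ((FCS.fhat F (pert y ξ) - FCS.fhat F y : ℤ) : ℝ) ≤ kap * (n * N) := by
    intro ξ
    have h7 := abs_le.1 (abs_fhat_pert hF h0 hk y ξ)
    constructor
    · exact_mod_cast h7.1
    · exact_mod_cast h7.2
  rw [abs_le]
  constructor
  · rw [← h5]
    exact av_mono fun ξ => (h6 ξ).1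
  · rw [← h4]
    exact av_mono fun ξ => (h6 ξ).2

end Pool.Agent.Lib.SubBisX.AccI
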