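import Pool.Agent.Lib.SubBisX.AccFrame

/-!
# The accelerated stochastic ascent: the nested worlds are a frame
-/

open scoped BigOperators

namespace Pool.Agent.Lib.SubBisX.Acc

open Reg

variable {n m s N : ℕ} {M : ℤ} {g : Fin n → Fin m → (Fin n → ℤ) → ℤ}

/-- The average over a sample of a function of its world. -/
theorem av_wd [NeZero m] [NeZero N] (r : ℕ) (F : (Fin n → XA m n s N r) → ℝ) :
    (av fun b : Smp m n s N r => F (wd b)) = av F := by
  rw [av_one r fun c _ => F c]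
  refine congrArg av (funext fun c => ?_)
  exact av_const _

theorem av_gh_mul [NeZero m] [NeZero N] [NeZero s] (r : ℕ) (v : Fin n)
    (k : (Fin n → XA m n s N r) → ℝ) :
    (av fun w : Fin n → XA m n s N (r + 1) => k (low w) * gh M g r v (low w) (smp w v)) =
      av fun a => k a * gb M g r v a := by
  rw [av_smp r v fun a b => k a * gh M g r v a b]
  refine congrArg av (funext fun a => ?_)
  rw [av_smul, av_gh]

/-- The nested worlds. -/
noncomputable def frX (m n s N : ℕ) [NeZero m] [NeZero N] [NeZero s] (M : ℤ)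
    (g : Fin n → Fin m → (Fin n → ℤ) → ℤ) : Fr n m s N M g where
  W r := Fin n → XA m n s N r
  fin r := inferInstance
  ne r := inferInstance
  low r w := low w
  dg r w := dig r w
  z r w := (St M g r w).1
  S r w := (St M g r w).2
  sgr r w v i := sg g (St M g r) v (low w) (smp w v i)
  gb r v a := gb M g r v a
  Leg v h := Upto v h
  dg_low r w := rfl
  z_zero w v := rfl
  S_zero w v := rfl
  z_succ r w v := rfl
  S_succ r w v := rfl
  av_low r F := av_low r F
  av_dg r F := av_dig r F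
  x1 r v zs hzs := by
    have h1 : ∀ b : Fin s → Smp m n s N r, Upto v fun a : Fin n → XA m n s N r =>
        ((clip M ((St M g r a).1 v + (r + 1 : ℕ) * ∑ i : Fin s, sg g (St M g r) v a (b i)) -
          zs (dig r a) : ℤ) : ℝ) := by
      intro b a a' haa
      have h2 := (St_upto (M := M) (g := g) r v a a' haa).1
      have h3 : zs (dig r a) = zs (dig r a') := dig_upto r v hzs a a' haa
      have h5 : ∀ c : Fin n → XA m n s N r, splice v a c = splice v a' c := by
        intro c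
        funext x
        by_cases hx : x ≤ v
        · rw [splice_le hx, splice_le hx, haa x hx]
        · rw [splice_gt hx, splice_gt hx]
      have h6 : ∀ i, sg g (St M g r) v a (b i) = sg g (St M g r) v a' (b i) := by
        intro i
        unfold sg
        rw [h5, haa v le_rfl]
      show ((clip M ((St M g r a).1 v + (r + 1 : ℕ) * ∑ i : Fin s, sg g (St M g r) v a (b i)) -
          zs (dig r a) : ℤ) : ℝ) = ((clip M ((St M g r a').1 v +
          (r + 1 : ℕ) * ∑ i : Fin s, sg g (St M g r) v a' (b i)) - zs (dig r a') : ℤ) : ℝ)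
      rw [h2, h3, Finset.sum_congr rfl fun i _ => h6 i]
    have h4 := cross (M := M) (g := g) r v (fun (a : Fin n → XA m n s N r)
      (b : Fin s → Smp m n s N r) =>
        ((clip M ((St M g r a).1 v + (r + 1 : ℕ) * ∑ i : Fin s, sg g (St M g r) v a (b i)) -
          zs (dig r a) : ℤ) : ℝ)) h1
    have h5 := av_smp (m := m) (n := n) (s := s) (N := N) r v fun a b =>
      ((clip M ((St M g r a).1 v + (r + 1 : ℕ) * ∑ i : Fin s, sg g (St M g r) v a (b i)) -
          zs (dig r a) : ℤ) : ℝ) * mg N g v (dig r a v) (qy r (St M g r a))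
    have h6 := av_smp (m := m) (n := n) (s := s) (N := N) r v fun a b =>
      ((clip M ((St M g r a).1 v + (r + 1 : ℕ) * ∑ i : Fin s, sg g (St M g r) v a (b i)) -
          zs (dig r a) : ℤ) : ℝ) * gb M g r v a
    exact h5.trans (h4.trans h6.symm)
  x2 r v k := av_gh_mul r v k
  x3 r v D hD := by
    have h1 := av_smp (m := m) (n := n) (s := s) (N := N) r v fun a b =>
      (gh M g r v a b - gb M g r v a) ^ 2
    refine (le_of_eq h1).trans ?_
    refine (av_mono fun a => ?_).trans (le_of_eq (av_const (D ^ 2 / s)))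
    obtain ⟨e, he⟩ := hD (base m n s N r (a v))
    exact var_gh r v a e D he

/-- **Regret of the accelerated method on the nested worlds.** -/
theorem acc_regretX [NeZero m] [NeZero N] [NeZero s] (hM : 0 ≤ M)
    (Psi : (Fin n → Fin m) → (Fin n → ℤ) → ℝ) (psi : (Fin n → Fin m) → ℝ) {L G D : ℝ}
    (hcv : ∀ U y z, (∀ v, 0 ≤ y v ∧ y v ≤ M) → (∀ v, 0 ≤ z v ∧ z v ≤ M) →
      Psi U z ≤ Psi U y + ∑ v, mg N g v (U v) y * ((z v - y v : ℤ) : ℝ))
    (hsm : ∀ U y z, (∀ v, 0 ≤ y v ∧ y v ≤ M) → (∀ v, 0 ≤ z v ∧ z v ≤ M) →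
      Psi U y + ∑ v, mg N g v (U v) y * ((z v - y v : ℤ) : ℝ) -
        L * ∑ v, ((z v - y v : ℤ) : ℝ) ^ 2 ≤ Psi U z)
    (zs : (Fin n → Fin m) → Fin n → ℤ) (hz0 : ∀ U v, 0 ≤ zs U v) (hz1 : ∀ U v, zs U v ≤ M)
    (hleg : ∀ v, Upto v fun U => zs U v)
    (hz : ∀ U y, (∀ v, 0 ≤ y v ∧ y v ≤ M) →
      psi U ≤ Psi U y + ∑ v, mg N g v (U v) y * ((zs U v - y v : ℤ) : ℝ))
    (hL0 : 0 ≤ L) (hL : 16 * s * L ≤ 1) (hG : ∀ v u y, |mg N g v u y| ≤ G)
    (hD : ∀ v u, ∃ e : ℝ, ∀ y, |((g v u y : ℤ) : ℝ) - e| ≤ D) (T : ℕ) :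
    (wt T : ℝ) * av psi - n * (M : ℝ) ^ 2 / (2 * s) -
      (∑ a ∈ Finset.range T, ((a + 1 : ℕ) : ℝ) ^ 2) * (n * D ^ 2) -
      (∑ a ∈ Finset.range T, (wt (a + 1) : ℝ)) * (n * (G + 1)) ≤
      (wt T : ℝ) * av fun w : Fin n → XA m n s N T => Psi (dig T w) (xo M g T w) :=
  acc_regret (frX m n s N M g) hM Psi psi hcv hsm zs hz0 hz1 hleg hz hL0 hL hG hD T

end Pool.Agent.Lib.SubBisX.Acc
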