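import Pool.Agent.Lib.SubBisX.Regret
import Pool.Agent.Lib.SubBis.Ent

/-!
The objective and the step of the stochastic supergradient method for a set function `F` on the
subsets of `Fin n` (applied to submodular functions with bounded marginals).
-/

namespace Pool.Agent.Lib.SubBisX.Core

open Finset Reg SubBis

variable {n : ℕ}

/-- the elements before and including `v` in the order of decreasing `y` -/
def Up (y : Fin n → ℤ) (v : Fin n) : Finset (Fin n) :=
  univ.filter fun w => y v < y w ∨ (y w = y v ∧ w ≤ v)

/-- the elements before `v` in the order of decreasing `y` -/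
def Upo (y : Fin n → ℤ) (v : Fin n) : Finset (Fin n) :=
  univ.filter fun w => y v < y w ∨ (y w = y v ∧ w < v)

/-- the step at `v`, with digit `u` -/
def gr {m : ℕ} (c : ℕ) (F : Finset (Fin n) → ℤ) (v : Fin n) (u : Fin m) (y : Fin n → ℤ) : ℤ :=
  ee m c u - c * (F (Up y v) - F (Upo y v))

/-- the objective (`M` times a Lovász extension) -/
def Phi {m : ℕ} (c M : ℕ) (F : Finset (Fin n) → ℤ) (U : Fin n → Fin m) (y : Fin n → ℤ) : ℤ :=
  ∑ v, ee m c (U v) * y v - c * ∑ i ∈ Icc 1 M, F (univ.filter fun w => (i : ℤ) ≤ y w)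

/-- the sum of the objective over the first `T` iterates -/
def Val {m : ℕ} (c M : ℕ) (F : Finset (Fin n) → ℤ) : ∀ T, (Fin n → XW m n T) → ℤ
  | 0, _ => 0
  | r + 1, w => Val c M F r (low w) +
      Phi c M F (dig r (low w)) (Yit (M : ℤ) (gr c F) r (low w))

end Pool.Agent.Lib.SubBisX.Core
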