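import Pool.Agent.Lib.SubBisX.AccDefs
import Pool.Agent.Lib.SubBisX.CoreDefs

/-!
The output of the accelerated method: the objective at the last averaged point.
-/

namespace Pool.Agent.Lib.SubBisX.Acc

open Finset Reg SubBis Pool.Agent.Lib.SubBisX.Core

variable {m n s N : ℕ}

/-- the objective at the averaged point after `T` steps -/
def AVal (c M : ℕ) (F : Finset (Fin n) → ℤ) (T : ℕ) (w : Fin n → XA m n s N T) : ℤ :=
  Phi c M F (dig T w) (xo (M : ℤ) (gr c F) T w)

end Pool.Agent.Lib.SubBisX.Acc
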