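import Pool.Agent.Lib.SubBisX.AccNum
import Pool.Agent.Lib.SubBisX.AccVal
import Pool.Agent.Lib.SubBisX.AccInst
import Pool.Agent.Lib.SubBisX.AccInstX

/-!
The mean and the range of the output `AVal` of the accelerated method.
-/

namespace Pool.Agent.Lib.SubBisX.Acc

open Finset Reg SubBis Pool.Agent.Lib.SubBisX.Core

variable {n : ℕ}

theorem av_base {m s N : ℕ} [NeZero m] [NeZero N] (r : ℕ) (f : Fin m → ℝ) :
    (av fun x : XA m n s N r => f (base m n s N r x)) = av f := by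
  induction r with
  | zero => rfl
  | succ r ih =>
    rw [← ih]
    exact av_fst (Ω' := Fin s → Fin n → XA m n s N r × Fin N) fun x => f (base m n s N r x)

/-- The range of the output. -/
theorem range_AVal {q : ℕ} {F : Finset (Fin n) → ℤ} (h0 : F ∅ = 0)
    (hk : ∀ S v, |F (insert v S) - F S| ≤ ParA.kap q) {s N T : ℕ}
    (w : Fin n → XA (2 ^ ParA.mu q) n s N T) :
    |AVal q (ParA.MM q) F T w| ≤ q * ParA.MM q * (n * (3 * q.size + 5)) := by
  have hM0 : (0 : ℤ) ≤ (ParA.MM q : ℤ) := Int.natCast_nonneg _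
  have h1 := CA.abs_Phi_le (mu := ParA.mu q) (c := q) (M := ParA.MM q) h0 hk (dig T w)
    (fun v => (xo_mem (g := gr q F) hM0 T w v).1) (fun v => (xo_mem (g := gr q F) hM0 T w v).2)
  refine h1.trans ?_
  refine mul_le_mul_of_nonneg_left (mul_le_mul_of_nonneg_left ?_ (Int.natCast_nonneg n))
    (by positivity)
  unfold ParA.mu ParA.kap
  push_cast
  linarith

/-- **The core of the accelerated method**: the mean of the output is the logarithm of the partition
function up to `6 n / q`. -/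
theorem acorePar {q : ℕ} (hq : 1 ≤ q) {F : Finset (Fin n) → ℤ} (h0 : F ∅ = 0) (hF : FCS.Subm F)
    (hk : ∀ S v, |F (insert v S) - F S| ≤ ParA.kap q) :
    |(av fun w : Fin n → XA (2 ^ ParA.mu q) n (ParA.ss q) (ParA.NN q) (ParA.TT q) =>
        (AVal q (ParA.MM q) F (ParA.TT q) w : ℝ)) / (q * ParA.MM q) - Bounds.logZ F| ≤
      6 * n / q := by
  have : NeZero (ParA.ss q) := ⟨(ParA.ss_pos q).ne'⟩
  have : NeZero (ParA.NN q) := ⟨(Nat.pow_pos (by norm_num)).ne'⟩
  obtain ⟨z, hz, hz0, hz1, hzL⟩ := Bounds.lower_int (m := 2 ^ ParA.mu q) (n := n) q (ParA.MM q) F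
  have hM0 : (0 : ℤ) ≤ (ParA.MM q : ℤ) := Int.natCast_nonneg _
  have hMp : 0 < ParA.MM q := Nat.pow_pos (by norm_num)
  have hTp : 0 < ParA.TT q := Nat.mul_pos (by norm_num) (ParA.ss_pos q)
  refine acore_budget hq rfl ?_
  have hphi : ∀ (U : Fin n → Fin (2 ^ ParA.mu q)) (y : Fin n → ℤ),
      ((∑ v, ee (2 ^ ParA.mu q) q (U v) * y v - q * Bounds.Fhat F (ParA.MM q) y : ℤ) : ℝ) =
        (Phi q (ParA.MM q) F U y : ℝ) := by
    intro U y
    unfold Phi
    rw [Bounds.Fhat_eq_nat]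
  have hreg : (wt (ParA.TT q) : ℝ) * (av fun U : Fin n → Fin (2 ^ ParA.mu q) =>
      AccI.Psi q (ParA.NN q) F U (z U)) - n * (ParA.MM q : ℝ) ^ 2 / (2 * ParA.ss q) -
      (∑ a ∈ range (ParA.TT q), ((a : ℝ) + 1) ^ 2) * n * ((q : ℝ) * ParA.kap q) ^ 2 -
      (∑ a ∈ range (ParA.TT q), (wt (a + 1) : ℝ)) * n *
        (((q : ℝ) * ParA.mu q + q * ParA.kap q) + 1) ≤
      wt (ParA.TT q) * av fun w : Fin n → XA (2 ^ ParA.mu q) n (ParA.ss q) (ParA.NN q) (ParA.TT q) =>
        AccI.Psi q (ParA.NN q) F (dig (ParA.TT q) w) (xo (ParA.MM q : ℤ) (gr q F) (ParA.TT q) w) := by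
    have hss : (0 : ℝ) < ParA.ss q := by exact_mod_cast ParA.ss_pos q
    have hNN : (ParA.NN q : ℝ) = 128 * (ParA.ss q : ℝ) ^ 2 := by
      rw [ParA.NN_eq]; push_cast; ring
    have hqk : (q : ℝ) * ParA.kap q ≤ ParA.ss q := by exact_mod_cast (ParA.lt_ss q).le
    have h := acc_regretX (n := n) (s := ParA.ss q) (N := ParA.NN q) (g := gr q F) hM0
      (fun U y => AccI.Psi q (ParA.NN q) F U y) (fun U => AccI.Psi q (ParA.NN q) F U (z U))
      (L := 5 * q * ParA.kap q / ParA.NN q) (G := (q : ℝ) * ParA.mu q + q * ParA.kap q)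
      (D := (q : ℝ) * ParA.kap q)
      (fun U y z _ _ => AccI.hcv hF h0 q U y z) (fun U y z _ _ => AccI.hsm hF h0 hk U y z)
      z hz0 hz1 hz (fun U y _ => AccI.hcv hF h0 q U y (z U)) (by positivity) ?_ ?_ ?_ (ParA.TT q)
    · refine le_trans (le_of_eq ?_) h
      have e1 : ∑ a ∈ range (ParA.TT q), ((a + 1 : ℕ) : ℝ) ^ 2 =
          ∑ a ∈ range (ParA.TT q), ((a : ℝ) + 1) ^ 2 :=
        sum_congr rfl fun a _ => by push_cast; rfl
      rw [e1]
      push_cast
      ring
    · rw [hNN]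
      have e1 : 16 * (ParA.ss q : ℝ) * (5 * q * ParA.kap q / (128 * (ParA.ss q : ℝ) ^ 2)) =
          80 * (q * ParA.kap q) / (128 * ParA.ss q) := by
        field_simp
        ring
      rw [e1, div_le_one (by positivity)]
      linarith
    · intro v u y
      unfold mg
      rw [abs_le]
      constructor
      · rw [← av_const (Ω := Fin n → Fin (ParA.NN q)) (-((q : ℝ) * ParA.mu q + q * ParA.kap q))]
        refine av_mono fun ξ => ?_
        have h1 := (abs_le.1 (AccI.hG (mu := ParA.mu q) (c := q) hk v u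
          fun x => y x + (((ξ x : ℕ) : ℤ)))).1
        exact_mod_cast h1
      · rw [← av_const (Ω := Fin n → Fin (ParA.NN q)) ((q : ℝ) * ParA.mu q + q * ParA.kap q)]
        refine av_mono fun ξ => ?_
        have h1 := (abs_le.1 (AccI.hG (mu := ParA.mu q) (c := q) hk v u
          fun x => y x + (((ξ x : ℕ) : ℤ)))).2
        exact_mod_cast h1
    · intro v u
      obtain ⟨e, he⟩ := AccI.hD (c := q) hk v u
      refine ⟨e, fun y => ?_⟩
      have h1 := he y
      exact_mod_cast h1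
  have hmain := acore_num (n := n) (c := q) (M := ParA.MM q) (T := ParA.TT q) (s := ParA.ss q)
    (lZ := Bounds.logZ F) (AX := av fun w : Fin n → XA (2 ^ ParA.mu q) n (ParA.ss q) (ParA.NN q)
      (ParA.TT q) => (AVal q (ParA.MM q) F (ParA.TT q) w : ℝ))
    (dl := q * (ParA.kap q * (n * ParA.NN q)))
    (el := 1 + q * (Real.logb 2 ((2 : ℝ) ^ ParA.mu q + 1) / 2 ^ ParA.mu q))
    hq hMp hTp (ParA.ss_pos q) (by positivity) hreg ?_ ?_ ?_
  · refine ⟨hmain.1, le_trans (le_of_eq ?_) hmain.2⟩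
    ring
  · have h := Bounds.upper_int q (ParA.MM q)
      (base (2 ^ ParA.mu q) n (ParA.ss q) (ParA.NN q) (ParA.TT q)) (fun f => av_base _ f) F
      (fun w => xo (ParA.MM q : ℤ) (gr q F) (ParA.TT q) w)
      (fun w v => (xo_mem hM0 _ w v).1) (fun w v => (xo_mem hM0 _ w v).2)
      (fun v => xo_upto _ v)
    refine (le_of_eq (congrArg av (funext fun w => ?_))).trans h
    exact (hphi (dig (ParA.TT q) w) _).symm
  · rw [← av_sub]
    rw [abs_le]
    constructor
    · rw [← av_const (Ω := Fin n → XA (2 ^ ParA.mu q) n (ParA.ss q) (ParA.NN q) (ParA.TT q))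
        (-((q : ℝ) * (ParA.kap q * (n * ParA.NN q))))]
      refine av_mono fun w => ?_
      exact (abs_le.1 (AccI.abs_Psi_sub (M := ParA.MM q) hF h0 hk (dig (ParA.TT q) w)
        (fun v => (xo_mem (g := gr q F) hM0 _ w v).1)
        (fun v => (xo_mem (g := gr q F) hM0 _ w v).2))).1
    · rw [← av_const (Ω := Fin n → XA (2 ^ ParA.mu q) n (ParA.ss q) (ParA.NN q) (ParA.TT q))
        ((q : ℝ) * (ParA.kap q * (n * ParA.NN q)))]
      refine av_mono fun w => ?_
      exact (abs_le.1 (AccI.abs_Psi_sub (M := ParA.MM q) hF h0 hk (dig (ParA.TT q) w)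
        (fun v => (xo_mem (g := gr q F) hM0 _ w v).1)
        (fun v => (xo_mem (g := gr q F) hM0 _ w v).2))).2
  · have h1 : (av fun U : Fin n → Fin (2 ^ ParA.mu q) => (Phi q (ParA.MM q) F U (z U) : ℝ)) ≤
        (av fun U : Fin n → Fin (2 ^ ParA.mu q) => AccI.Psi q (ParA.NN q) F U (z U)) +
          (q : ℝ) * (ParA.kap q * (n * ParA.NN q)) := by
      rw [← av_const (Ω := Fin n → Fin (2 ^ ParA.mu q))
        ((q : ℝ) * (ParA.kap q * (n * ParA.NN q))), ← av_add]
      refine av_mono fun U => ?_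
      have := (abs_le.1 (AccI.abs_Psi_sub (c := q) (N := ParA.NN q) (M := ParA.MM q) hF h0 hk U
        (fun v => hz0 U v) (fun v => hz1 U v))).1
      linarith
    refine le_trans ?_ h1
    refine le_trans (le_of_eq ?_) (hzL.trans (le_of_eq (congrArg av (funext fun U => hphi U _))))
    push_cast
    ring

end Pool.Agent.Lib.SubBisX.Acc
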