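import Pool.Agent.Lib.SubBisX.AccInst

/-!
# The comparison inequality with two sets

The linearised objective at any point, tested with the indicator of a set `S`, is bounded from below
by the value of another set `S'` up to the symmetric difference.
-/

open scoped BigOperators

namespace Pool.Agent.Lib.SubBisX.AccI

open Finset SubBis SubBisY Pool.Agent.Lib.SubBisX.Reg Pool.Agent.Lib.SubBisX.Core
  Pool.Agent.Lib.SubBisX.Acc

variable {n m : ℕ} {F : Finset (Fin n) → ℤ}

/-- A greedy vector tested with a set. -/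
theorem sum_inc_le_set (hF : FCS.Subm F) (h0 : F ∅ = 0) {kap : ℕ}
    (hk : ∀ S v, |F (insert v S) - F S| ≤ kap) (x : Fin n → ℤ) (S S' : Finset (Fin n)) :
    ∑ v ∈ S, inc F x v ≤ F S' + kap * (symmDiff S S').card := by
  have h1 : ∑ v ∈ S', inc F x v ≤ F S' := by
    have h := FCS.sum_kv_le hF h0 x _ S' rfl
    simpa only [inc_eq_kv] using h
  have h2 : ∑ v ∈ S, inc F x v = ∑ v ∈ S', inc F x v + ∑ v ∈ S \ S', inc F x v -
      ∑ v ∈ S' \ S, inc F x v := by
    have a1 := sum_inter_add_sum_sdiff S S' (fun v => inc F x v)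
    have a2 := sum_inter_add_sum_sdiff S' S (fun v => inc F x v)
    rw [inter_comm] at a2
    linarith
  have h3 : ∀ R : Finset (Fin n), |∑ v ∈ R, inc F x v| ≤ kap * R.card := by
    intro R
    refine (abs_sum_le_sum_abs _ _).trans ?_
    refine (sum_le_card_nsmul _ _ (kap : ℤ) fun v _ => abs_inc hk x v).trans (le_of_eq ?_)
    rw [nsmul_eq_mul]
    ring
  have h4 : (symmDiff S S').card = (S \ S').card + (S' \ S).card := by
    rw [symmDiff_def, sup_eq_union, card_union_of_disjoint]
    exact disjoint_sdiff_sdiff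
  have h5 := abs_le.1 (h3 (S \ S'))
  have h6 := abs_le.1 (h3 (S' \ S))
  rw [h2, h4]
  push_cast
  have h7 : (kap : ℤ) * ((S \ S').card + (S' \ S).card) =
      kap * (S \ S').card + kap * (S' \ S).card := by ring
  rw [h7]
  linarith [h5.2, h6.1]

/-- The comparison with a set `S` in terms of a set `S'`. -/
theorem hzB (hF : FCS.Subm F) (h0 : F ∅ = 0) {kap N : ℕ} [NeZero N]
    (hk : ∀ S v, |F (insert v S) - F S| ≤ kap) (c M : ℕ) (U : Fin n → Fin m) (y : Fin n → ℤ)
    (S S' : Finset (Fin n)) :
    ((∑ v, ee m c (U v) * (if v ∈ S then (M : ℤ) else 0) : ℤ) : ℝ) -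
        c * (M * (F S' + kap * (symmDiff S S').card) + kap * (n * N)) ≤
      Psi c N F U y +
        ∑ v, mg N (gr c F) v (U v) y * (((if v ∈ S then (M : ℤ) else 0) - y v : ℤ) : ℝ) := by
  classical
  rw [sum_mg]
  have h1 : fN N F y + ∑ v, Gs N F y v * (((if v ∈ S then (M : ℤ) else 0) - y v : ℤ) : ℝ) ≤
      M * (F S' + kap * (symmDiff S S').card) + kap * (n * N) := by
    have e1 : (∑ v, Gs N F y v * (((if v ∈ S then (M : ℤ) else 0) - y v : ℤ) : ℝ)) =
        av fun ξ : Fin n → Fin N =>
          ∑ v, (inc F (pert y ξ) v : ℝ) * (((if v ∈ S then (M : ℤ) else 0) - y v : ℤ) : ℝ) := by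
      rw [av_sum]
      refine sum_congr rfl fun v _ => ?_
      unfold Gs
      rw [mul_comm, ← av_smul]
      exact congrArg av (funext fun ξ => mul_comm _ _)
    rw [e1]
    unfold fN
    rw [← av_add]
    have e2 : (av fun _ : Fin n → Fin N =>
        (M * (F S' + kap * (symmDiff S S').card) + kap * (n * N) : ℝ)) =
        M * (F S' + kap * (symmDiff S S').card) + kap * (n * N) := av_const _
    rw [← e2]
    refine av_mono fun ξ => ?_
    have e3 : FCS.fhat F (pert y ξ) +
        ∑ v, inc F (pert y ξ) v * ((if v ∈ S then (M : ℤ) else 0) - y v) =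
        M * ∑ v ∈ S, inc F (pert y ξ) v + ∑ v, inc F (pert y ξ) v * (pert y ξ v - y v) := by
      unfold FCS.fhat
      have e4 : M * ∑ v ∈ S, inc F (pert y ξ) v =
          ∑ v, inc F (pert y ξ) v * (if v ∈ S then (M : ℤ) else 0) := by
        rw [mul_sum, ← sum_subset (subset_univ S)
          (f := fun v => inc F (pert y ξ) v * (if v ∈ S then (M : ℤ) else 0))]
        · refine sum_congr rfl fun v hv => ?_
          rw [if_pos hv]
          ring
        · intro v _ hv
          rw [if_neg hv, mul_zero]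
      rw [e4, ← sum_add_distrib, ← sum_add_distrib]
      refine sum_congr rfl fun v _ => ?_
      rw [inc_eq_kv]
      ring
    have e5 := sum_inc_le_set hF h0 hk (pert y ξ) S S'
    have e6 : ∑ v, inc F (pert y ξ) v * (pert y ξ v - y v) ≤ kap * (n * N) := by
      refine (sum_le_card_nsmul _ _ ((kap : ℤ) * N) fun v _ => ?_).trans (le_of_eq ?_)
      · have h1 : pert y ξ v - y v = ((ξ v : ℕ) : ℤ) := by
          unfold pert
          ring
        rw [h1]
        refine (mul_le_mul_of_nonneg_right ((le_abs_self _).trans (abs_inc hk (pert y ξ) v))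
          (Int.natCast_nonneg _)).trans ?_
        refine mul_le_mul_of_nonneg_left ?_ (Int.natCast_nonneg _)
        exact_mod_cast (ξ v).2.le
      · rw [card_univ, Fintype.card_fin, nsmul_eq_mul]
        ring
    have e7 : FCS.fhat F (pert y ξ) +
        ∑ v, inc F (pert y ξ) v * ((if v ∈ S then (M : ℤ) else 0) - y v) ≤
        M * (F S' + kap * (symmDiff S S').card) + kap * (n * N) := by
      rw [e3]
      have := mul_le_mul_of_nonneg_left e5 (Int.natCast_nonneg M)
      linarith
    have e8 : ((FCS.fhat F (pert y ξ) +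
        ∑ v, inc F (pert y ξ) v * ((if v ∈ S then (M : ℤ) else 0) - y v) : ℤ) : ℝ) ≤
        ((M * (F S' + kap * (symmDiff S S').card) + kap * (n * N) : ℤ) : ℝ) := by
      exact_mod_cast e7
    refine le_trans (le_of_eq ?_) (e8.trans (le_of_eq ?_))
    · rw [Int.cast_add, Int.cast_sum]
      simp only [Int.cast_mul]
    · push_cast
      ring
  have h2 := mul_le_mul_of_nonneg_left h1 (Nat.cast_nonneg (α := ℝ) c)
  unfold Psi
  rw [mul_add] at h2
  linarith

end Pool.Agent.Lib.SubBisX.AccI
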