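import Pool.Agent.Lib.Pa7c826.Fptas
import Pool.Agent.Lib.P8e91ed.PolyBin

/-!
The number of independent sets of graphs with a bounded number of vertices.
-/

namespace Pool.Agent.Lib.SubBisX

open Finset Pool.Agent.Lib.PolyTime Pool.Agent.Lib.Pa7c826

variable {α : Type} {D : α → Prop} {ctx : List (α → List Bool)} {w : α → List Bool}

/-- all subsets are tried -/
theorem ind_eq_count (n : ℕ) (adj : ℕ → ℕ → Bool) :
    ind adj (range n) =
      ((range (2 ^ n)).filter fun τ => indB n adj (sel (range n) τ) = true).card := by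
  have h := sum_sel (range n) fun T => if indB n adj T = true then 1 else 0
  rw [card_range] at h
  rw [card_filter, h, ind, card_filter]
  refine sum_congr rfl fun T hT => ?_
  have h1 := indB_iff (adj := adj) (mem_powerset.1 hT)
  by_cases h2 : indB n adj T = true
  · rw [if_pos (h1.1 h2), if_pos h2]
  · rw [if_neg fun h3 => h2 (h1.2 h3), if_neg h2]

theorem poly_brute {N : ℕ} (hw : PolyC D ctx w) (hb : ∀ x, D x → nOf (w x) ≤ N) :
    PolyN D ctx (fun x => ind (adjOf (w x)) (range (nOf (w x)))) := by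
  have h2 : PolyN D ctx (fun x => 2 ^ nOf (w x)) := by
    refine Pool.Agent.Lib.P8e91ed.PT.n_pow (PolyN.const 2) (poly_nOf hw)
      ((Pool.Agent.Lib.P8e91ed.PT.Bdd.ofN (PolyN.const (2 ^ N))).le fun x hx => ?_)
    exact Nat.pow_le_pow_right (by norm_num) (hb x hx)
  have hS : PolyS D ctx (fun x => nOf (w x)) (fun x => range (nOf (w x))) :=
    PolyS.range (poly_nOf hw)
  have W := up (n := fun x => 2 ^ nOf (w x)) hw
  have SS := hS.up (m := fun x => 2 ^ nOf (w x))
  have L := last (D := D) (ctx := ctx) (n := fun x => 2 ^ nOf (w x))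
  refine (PolyN.count (φ := fun p : α × ℕ => indB (nOf (w p.1)) (adjOf (w p.1))
    (sel (range (nOf (w p.1))) p.2)) h2 (poly_indB W (poly_sel W SS L))).congr fun x _ => ?_
  rw [ind_eq_count]

end Pool.Agent.Lib.SubBisX
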