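import Pool.Agent.Lib.SubBisX.ShpPoly

/-!
A better approximation of the logarithm of the number of independent sets is as hard as an
approximation of the number.
-/

namespace Pool.Agent.Lib.SubBisX

open Pool.Agent.Lib.Pa7c826 Pool.Agent.Lib.PolyTime Pool.Agent.Lib.P8e91ed.PT

/-- `c (n) (t)` is computed in polynomial time from `(G, 1^t)`, `n` the number of vertices. -/
def PolyPar (c : ℕ → ℕ → ℕ) : Prop :=
  PolyN (fun x : BGraph × ℕ => 1 ≤ x.2) [fun x => inCode x.1 x.2]
    (fun x => c (x.1.a + x.1.b) x.2)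

/-- **Approximating the logarithm is enough.** -/
theorem fpras_of_rscheme {e : ℕ → ℕ → ℝ} (c τ : ℕ → ℕ → ℕ) (hc : PolyPar c) (hτ : PolyPar τ)
    (h8 : ∀ n t, 1 ≤ t → 8 * t ≤ c n t) (h1 : ∀ n t, 1 ≤ t → 1 ≤ τ n t)
    (he : ∀ n t, 1 ≤ t → e (c n t * n) (τ n t) ≤ (c n t : ℝ) / (8 * t)) (h : RScheme e) :
    HasFPRAS (fun _ => True) := by
  obtain ⟨m', f', hf', hgood⟩ := h
  let red : BGraph → ℕ → BGraph := fun G t => copies (c (G.a + G.b) t) G
  let tt : BGraph → ℕ → ℕ := fun G t => τ (G.a + G.b) t
  have hred : PolyC (fun x : BGraph × ℕ => 1 ≤ x.2) [fun x => inCode x.1 x.2]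
      (fun x => inCode (red x.1 x.2) (tt x.1 x.2)) :=
    poly_copies (G := fun x : BGraph × ℕ => x.1) (s := fun x => x.2) (PolyC.var (by simp)) hc hτ
  obtain ⟨pr, hpr⟩ := hred.length_le
  let M' : BGraph → ℕ → ℕ := fun G t => m'.eval (inCode (red G t) (tt G t)).length
  let m : Polynomial ℕ := m'.comp pr
  have hM : ∀ G t, 1 ≤ t → M' G t ≤ m.eval (inCode G t).length := by
    intro G t ht
    have h3 := hpr (G, t) ht
    simp only [vals_cons, vals_nil, total_cons, total_nil, Nat.add_zero] at h3
    simp only [M', m, Polynomial.eval_comp]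
    exact eval_mono _ h3
  let f : BGraph → ℕ → List Bool → List Bool := fun G t r =>
    outS (c (G.a + G.b) t) t (expo (f' (red G t) (tt G t) (r.take (M' G t))))
  refine ⟨m, f, ?_, ?_⟩
  · -- the machine
    let D : BGraph × ℕ × List Bool → Prop := fun x =>
      True ∧ 1 ≤ x.2.1 ∧ x.2.2.length = m.eval (inCode x.1 x.2.1).length
    let enc : BGraph × ℕ × List Bool → List Bool := fun x => inCode x.1 x.2.1 ++ x.2.2
    have hw : PolyC D [enc] enc := PolyC.var (by simp)
    have hlen : PolyN D [enc] (fun x => (inCode x.1 x.2.1).length) :=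
      (((poly_tOf hw).add ((poly_aOf hw).add ((poly_bOf hw).add
        ((poly_aOf hw).mul (poly_bOf hw))))).add (PolyN.const 3)).congr (fun x _ =>
          lenOf_append x.1 x.2.1 x.2.2)
    have hpre : PolyC D [enc] (fun x => inCode x.1 x.2.1) :=
      (PolyC.take hw hlen).congr (fun x _ => List.take_left)
    have hsuf : PolyC D [enc] (fun x => x.2.2) :=
      (PolyC.drop hw hlen).congr (fun x _ => List.drop_left)
    have hsub : ∀ {t : BGraph × ℕ → List Bool},
        PolyC (fun x : BGraph × ℕ => 1 ≤ x.2) [fun x => inCode x.1 x.2] t →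
        PolyC D [enc] (fun x => t (x.1, x.2.1)) := by
      intro t ht
      have h3 := ht.reindex (β := BGraph × ℕ × List Bool) (D' := D) (fun x => (x.1, x.2.1))
        (fun x hx => hx.2.1)
      refine h3.comp ?_
      intro g hg
      simp only [List.map_cons, List.map_nil, List.mem_singleton] at hg
      subst hg
      exact hpre
    have hred' : PolyC D [enc] (fun x => inCode (red x.1 x.2.1) (tt x.1 x.2.1)) := hsub hred
    have hc' : PolyN D [enc] (fun x => c (x.1.a + x.1.b) x.2.1) := hsub hc
    have ht' : PolyN D [enc] (fun x => x.2.1) := poly_s hpre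
    have hM' : PolyN D [enc] (fun x => M' x.1 x.2.1) :=
      PolyN.polyEval (PolyN.length hred') m'
    have hin : PolyC D [enc] (fun x => inCode (red x.1 x.2.1) (tt x.1 x.2.1) ++
        x.2.2.take (M' x.1 x.2.1)) := hred'.append (PolyC.take hsuf hM')
    have hcall : PolyC D [enc] (fun x => f' (red x.1 x.2.1) (tt x.1 x.2.1)
        (x.2.2.take (M' x.1 x.2.1))) := by
      refine PolyC.applyTM2 hf' _ _ hin ?_
      rintro ⟨G, t, r⟩ ⟨_, ht, hr⟩
      refine ⟨⟨(red G t, tt G t, r.take (M' G t)), h1 _ _ ht, ?_⟩, rfl, rfl⟩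
      show (r.take (M' G t)).length = M' G t
      have hr' : r.length = m.eval (inCode G t).length := hr
      rw [List.length_take, hr', min_eq_left (hM G t ht)]
    have hout : PolyC D [enc] (fun x => f x.1 x.2.1 x.2.2) :=
      poly_outS hc' ht' (poly_expo hcall)
    exact PolyC.toTM2 enc (fun x => f x.1 x.2.1 x.2.2) id hout
  · intro G t _ ht
    obtain ⟨j, hj⟩ := Nat.exists_eq_add_of_le (hM G t ht)
    rw [hj]
    have h3 := hgood (red G t) (tt G t) (h1 _ _ ht)
    set E : ℝ := e ((red G t).a + (red G t).b) (tt G t) with hE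
    have hE' : E ≤ (c (G.a + G.b) t : ℝ) / (8 * t) := by
      have e1 : (red G t).a + (red G t).b = c (G.a + G.b) t * (G.a + G.b) := by
        show c (G.a + G.b) t * G.a + c (G.a + G.b) t * G.b = _
        ring
      rw [hE, e1]
      exact he _ _ ht
    have h4 : Nat.card {r : Fin (M' G t + j) → Bool //
        LogGood (red G t) E (f' (red G t) (tt G t) ((List.ofFn r).take (M' G t)))} ≤
        Nat.card {r : Fin (M' G t + j) → Bool // Good G t (f G t (List.ofFn r))} := by
      refine Nat.card_le_card_of_injective (fun r => ⟨r.1, ?_⟩) ?_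
      · exact good_outS ht (h8 _ _ ht) hE' r.2
      · intro r r' hrr
        simp only [Subtype.mk.injEq] at hrr
        exact Subtype.ext hrr
    rw [card_prefix (M' G t) j (fun s => LogGood (red G t) E (f' (red G t) (tt G t) s))] at h4
    have h5 : 3 * 2 ^ M' G t ≤ 4 * Nat.card {r : Fin (M' G t) → Bool //
        LogGood (red G t) E (f' (red G t) (tt G t) (List.ofFn r))} := h3
    calc 3 * 2 ^ (M' G t + j) = (3 * 2 ^ M' G t) * 2 ^ j := by rw [pow_add]; ring
      _ ≤ (4 * Nat.card {r : Fin (M' G t) → Bool //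
        LogGood (red G t) E (f' (red G t) (tt G t) (List.ofFn r))}) * 2 ^ j :=
          Nat.mul_le_mul_right _ h5
      _ = 4 * (Nat.card {r : Fin (M' G t) → Bool //
        LogGood (red G t) E (f' (red G t) (tt G t) (List.ofFn r))} * 2 ^ j) := by ring
      _ ≤ _ := Nat.mul_le_mul_left _ h4

/-! ### The converse -/

theorem numIndep_empty (G : BGraph) (h : G.a + G.b = 0) : numIndep G.graph = 1 := by
  have ha : G.a = 0 := by omega
  have hb : G.b = 0 := by omega
  have : IsEmpty (Fin G.a ⊕ Fin G.b) := by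
    rw [ha, hb]
    infer_instance
  unfold numIndep
  rw [Nat.card_eq_one_iff_unique]
  refine ⟨⟨?_⟩, ⟨⟨∅, by simp [SimpleGraph.IsIndepSet]⟩⟩⟩
  rintro ⟨A, _⟩ ⟨B, _⟩
  simp only [Subtype.mk.injEq]
  exact Subsingleton.elim A B

/-- the string that denotes 1 -/
theorem logGood_one (G : BGraph) (h : G.a + G.b = 0) (x : ℝ) (hx : 0 ≤ x) :
    LogGood G x [false, true] := by
  refine ⟨by simp [outVal, binVal], ?_⟩
  rw [numIndep_empty G h]
  simpa [outVal, binVal] using hx

/-- **Approximating the number is enough.** -/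
theorem rscheme_of_fpras {e : ℕ → ℕ → ℝ} (τ : ℕ → ℕ → ℕ) (hτ : PolyPar τ)
    (h1 : ∀ n t, 1 ≤ t → 2 ≤ τ n t)
    (he : ∀ n t, 1 ≤ t → 1 ≤ n → 4 / (τ n t : ℝ) ≤ e n t)
    (he0 : ∀ t, 1 ≤ t → 0 ≤ e 0 t) (h : HasFPRAS (fun _ => True)) : RScheme e := by
  obtain ⟨m', f', hf', hgood⟩ := h
  let tt : BGraph → ℕ → ℕ := fun G t => τ (G.a + G.b) t
  have hred : PolyC (fun x : BGraph × ℕ => 1 ≤ x.2) [fun x => inCode x.1 x.2]
      (fun x => inCode x.1 (tt x.1 x.2)) := by
    have hw : PolyC (fun x : BGraph × ℕ => 1 ≤ x.2) [fun x => inCode x.1 x.2]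
      (fun x => inCode x.1 x.2) := PolyC.var (by simp)
    have ha := poly_a hw
    have hb := poly_b hw
    have h2 := poly_inCode (F := fun x => x.1.F) ha hb hτ (by
      have W1 := up (n := fun x : BGraph × ℕ => x.1.a) hw
      have I1 := last (D := fun x : BGraph × ℕ => 1 ≤ x.2)
        (ctx := [fun x : BGraph × ℕ => inCode x.1 x.2]) (n := fun x => x.1.a)
      let n2 : (BGraph × ℕ) × ℕ → ℕ := fun p => p.1.1.b
      have W2 := up (n := n2) W1
      have I2 := upN (n := n2) I1
      have J2 := last (D := fun p : (BGraph × ℕ) × ℕ => 1 ≤ p.1.2 ∧ p.2 < p.1.1.a)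
        (ctx := PolyTime.lift [fun x : BGraph × ℕ => inCode x.1 x.2] ++
          [fun p : (BGraph × ℕ) × ℕ => un p.2]) (n := n2)
      exact poly_F W2 I2 J2)
    refine h2.congr (fun x _ => ?_)
    congr 1
    unfold mkGraph
    obtain ⟨⟨a, b, E⟩, t⟩ := x
    simp only [BGraph.mk.injEq, heq_eq_eq, true_and]
    funext i j
    exact BGraph.F_eq ⟨a, b, E⟩ i j
  obtain ⟨pr, hpr⟩ := hred.length_le
  let M' : BGraph → ℕ → ℕ := fun G t => m'.eval (inCode G (tt G t)).length
  let m : Polynomial ℕ := m'.comp pr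
  have hM : ∀ G t, 1 ≤ t → M' G t ≤ m.eval (inCode G t).length := by
    intro G t ht
    have h3 := hpr (G, t) ht
    simp only [vals_cons, vals_nil, total_cons, total_nil, Nat.add_zero] at h3
    simp only [M', m, Polynomial.eval_comp]
    exact eval_mono _ h3
  let f : BGraph → ℕ → List Bool → List Bool := fun G t r =>
    if decide (G.a + G.b = 0) then [false, true] else f' G (tt G t) (r.take (M' G t))
  refine ⟨m, f, ?_, ?_⟩
  · -- the machine
    let D : BGraph × ℕ × List Bool → Prop := fun x =>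
      1 ≤ x.2.1 ∧ x.2.2.length = m.eval (inCode x.1 x.2.1).length
    let enc : BGraph × ℕ × List Bool → List Bool := fun x => inCode x.1 x.2.1 ++ x.2.2
    have hw : PolyC D [enc] enc := PolyC.var (by simp)
    have hlen : PolyN D [enc] (fun x => (inCode x.1 x.2.1).length) :=
      (((poly_tOf hw).add ((poly_aOf hw).add ((poly_bOf hw).add
        ((poly_aOf hw).mul (poly_bOf hw))))).add (PolyN.const 3)).congr (fun x _ =>
          lenOf_append x.1 x.2.1 x.2.2)
    have hpre : PolyC D [enc] (fun x => inCode x.1 x.2.1) :=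
      (PolyC.take hw hlen).congr (fun x _ => List.take_left)
    have hsuf : PolyC D [enc] (fun x => x.2.2) :=
      (PolyC.drop hw hlen).congr (fun x _ => List.drop_left)
    have hsub : ∀ {t : BGraph × ℕ → List Bool},
        PolyC (fun x : BGraph × ℕ => 1 ≤ x.2) [fun x => inCode x.1 x.2] t →
        PolyC D [enc] (fun x => t (x.1, x.2.1)) := by
      intro t ht
      have h3 := ht.reindex (β := BGraph × ℕ × List Bool) (D' := D) (fun x => (x.1, x.2.1))
        (fun x hx => hx.1)
      refine h3.comp ?_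
      intro g hg
      simp only [List.map_cons, List.map_nil, List.mem_singleton] at hg
      subst hg
      exact hpre
    have hred' : PolyC D [enc] (fun x => inCode x.1 (tt x.1 x.2.1)) := hsub hred
    have ha' := poly_a hpre
    have hb' := poly_b hpre
    have hM' : PolyN D [enc] (fun x => M' x.1 x.2.1) :=
      PolyN.polyEval (PolyN.length hred') m'
    have hin : PolyC D [enc] (fun x => inCode x.1 (tt x.1 x.2.1) ++
        x.2.2.take (M' x.1 x.2.1)) := hred'.append (PolyC.take hsuf hM')
    have hcall : PolyC D [enc] (fun x => f' x.1 (tt x.1 x.2.1)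
        (x.2.2.take (M' x.1 x.2.1))) := by
      refine PolyC.applyTM2 hf' _ _ hin ?_
      rintro ⟨G, t, r⟩ ⟨ht, hr⟩
      refine ⟨⟨(G, tt G t, r.take (M' G t)), trivial, ?_, ?_⟩, rfl, rfl⟩
      · show 1 ≤ τ _ _
        have := h1 (G.a + G.b) t ht
        omega
      · show (r.take (M' G t)).length = M' G t
        have hr' : r.length = m.eval (inCode G t).length := hr
        rw [List.length_take, hr', min_eq_left (hM G t ht)]
    have hout : PolyC D [enc] (fun x => f x.1 x.2.1 x.2.2) :=
      PolyC.ite (PolyB.natEq (ha'.add hb') (PolyN.const 0))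
        (PolyC.mono (PolyC.const [false, true]) fun _ h => h.1)
        (PolyC.mono hcall fun _ h => h.1)
    exact PolyC.toTM2 enc (fun x => f x.1 x.2.1 x.2.2) id hout
  · intro G t ht
    obtain ⟨j, hj⟩ := Nat.exists_eq_add_of_le (hM G t ht)
    rw [hj]
    have h3 := hgood G (tt G t) trivial (by
      have := h1 (G.a + G.b) t ht
      show 1 ≤ τ _ _
      omega)
    have h4 : Nat.card {r : Fin (M' G t + j) → Bool //
        Good G (tt G t) (f' G (tt G t) ((List.ofFn r).take (M' G t)))} ≤
        Nat.card {r : Fin (M' G t + j) → Bool //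
          LogGood G (e (G.a + G.b) t) (f G t (List.ofFn r))} := by
      refine Nat.card_le_card_of_injective (fun r => ⟨r.1, ?_⟩) ?_
      · by_cases h0 : G.a + G.b = 0
        · have e1 : f G t (List.ofFn r.1) = [false, true] := by
            simp only [f]
            rw [if_pos (by simpa using h0)]
          rw [e1, h0]
          exact logGood_one G h0 _ (he0 t ht)
        · have e1 : f G t (List.ofFn r.1) =
              f' G (tt G t) ((List.ofFn r.1).take (M' G t)) := by
            simp only [f]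
            rw [if_neg (by simpa using h0)]
          rw [e1]
          have h5 := logGood_of_good (h1 _ _ ht) r.2
          exact ⟨h5.1, h5.2.trans (he _ _ ht (by omega))⟩
      · intro r r' hrr
        simp only [Subtype.mk.injEq] at hrr
        exact Subtype.ext hrr
    rw [card_prefix (M' G t) j (fun s => Good G (tt G t) (f' G (tt G t) s))] at h4
    have h5 : 3 * 2 ^ M' G t ≤ 4 * Nat.card {r : Fin (M' G t) → Bool //
        Good G (tt G t) (f' G (tt G t) (List.ofFn r))} := h3
    calc 3 * 2 ^ (M' G t + j) = (3 * 2 ^ M' G t) * 2 ^ j := by rw [pow_add]; ring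
      _ ≤ (4 * Nat.card {r : Fin (M' G t) → Bool //
        Good G (tt G t) (f' G (tt G t) (List.ofFn r))}) * 2 ^ j :=
          Nat.mul_le_mul_right _ h5
      _ = 4 * (Nat.card {r : Fin (M' G t) → Bool //
        Good G (tt G t) (f' G (tt G t) (List.ofFn r))} * 2 ^ j) := by ring
      _ ≤ _ := Nat.mul_le_mul_left _ h4

/-! ### The equivalences -/

theorem polyPar_n : PolyPar (fun n _ => n) :=
  (poly_a (G := fun x : BGraph × ℕ => x.1) (s := fun x => x.2) (PolyC.var (by simp))).add
    (poly_b (G := fun x : BGraph × ℕ => x.1) (s := fun x => x.2) (PolyC.var (by simp)))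

theorem polyPar_t : PolyPar (fun _ t => t) := poly_s (G := fun x : BGraph × ℕ => x.1)
  (PolyC.var (by simp))

/-- Approximation of `i(G)` up to a factor `2 ^ (n / t)` in time polynomial in the length of
`(G, 1^t)` is as hard as approximation up to a factor `1 ± 1 / t`. -/
theorem fpras_iff_rscheme_div :
    HasFPRAS (fun _ => True) ↔ RScheme (fun n t => (n : ℝ) / t) := by
  constructor
  · refine rscheme_of_fpras (fun _ t => 4 * t) ((PolyN.const 4).mul polyPar_t)
      (fun _ t ht => by omega) (fun n t ht hn => ?_) (fun t ht => by simp)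
    have ht0 : (0 : ℝ) < t := by exact_mod_cast ht
    have hn0 : (1 : ℝ) ≤ n := by exact_mod_cast hn
    push_cast
    rw [div_le_div_iff₀ (by positivity) ht0]
    nlinarith
  · refine fpras_of_rscheme (fun _ t => 8 * t) (fun n t => 8 * t * n + 1)
      ((PolyN.const 8).mul polyPar_t)
      ((((PolyN.const 8).mul polyPar_t).mul polyPar_n).add (PolyN.const 1))
      (fun _ t _ => le_rfl) (fun _ _ _ => by omega) (fun n t ht => ?_)
    have ht0 : (0 : ℝ) < t := by exact_mod_cast ht
    push_cast
    rw [div_le_div_iff₀ (by positivity) (by positivity)]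
    have hn0 : (0 : ℝ) ≤ n := Nat.cast_nonneg n
    nlinarith

/-- For every `δ > 0`: approximation of `i(G)` up to a factor `2 ^ (n ^ (1 - δ))` in randomised
polynomial time is as hard as approximation up to a factor `1 ± 1 / t`. -/
theorem fpras_iff_rscheme_rpow (δ : ℝ) (hδ : 0 < δ) :
    HasFPRAS (fun _ => True) ↔ RScheme (fun n _ => (n : ℝ) ^ (1 - δ)) := by
  constructor
  · obtain ⟨K, hK⟩ := exists_nat_ge (δ - 1)
    refine rscheme_of_fpras (fun n _ => 4 * (n + 1) ^ K)
      ((PolyN.const 4).mul (PolyN.pow (polyPar_n.add (PolyN.const 1)) K)) (fun n t ht => ?_)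
      (fun n t ht hn => ?_) (fun t ht => Real.rpow_nonneg (by simp) _)
    · have : 1 ≤ (n + 1) ^ K := Nat.one_le_pow _ _ (by omega)
      omega
    · have hn0 : (1 : ℝ) ≤ n := by exact_mod_cast hn
      push_cast
      have h2 : (4 : ℝ) / (4 * (n + 1) ^ K) = 1 / (n + 1) ^ K := by
        field_simp
      rw [h2]
      calc (1 : ℝ) / (n + 1) ^ K ≤ 1 / (n : ℝ) ^ K :=
            one_div_le_one_div_of_le (by positivity) (pow_le_pow_left₀ (by linarith)
              (by linarith) K)
        _ = (n : ℝ) ^ (-(K : ℝ)) := by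
            rw [Real.rpow_neg (by linarith), Real.rpow_natCast, one_div]
        _ ≤ (n : ℝ) ^ (1 - δ) := Real.rpow_le_rpow_of_exponent_le hn0 (by linarith)
  · obtain ⟨k, hk⟩ := exists_nat_ge (1 / δ)
    have hk1 : 1 ≤ k := by
      rcases Nat.eq_zero_or_pos k with h0 | h0
      · rw [h0] at hk
        have : 0 < 1 / δ := by positivity
        simp only [Nat.cast_zero] at hk
        linarith
      · exact h0
    have hkr : (1 : ℝ) ≤ k := by exact_mod_cast hk1
    have hkδ : 1 / (k : ℝ) ≤ δ := by
      rw [div_le_iff₀ (by linarith)]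
      rw [div_le_iff₀ hδ] at hk
      linarith
    refine fpras_of_rscheme (fun n t => (8 * t * (n + 1)) ^ k) (fun _ _ => 1)
      (PolyN.pow (((PolyN.const 8).mul polyPar_t).mul (polyPar_n.add (PolyN.const 1))) k)
      (PolyN.const 1) (fun n t ht => ?_) (fun _ _ _ => le_rfl) (fun n t ht => ?_)
    · calc 8 * t ≤ 8 * t * (n + 1) := Nat.le_mul_of_pos_right _ (by omega)
        _ = (8 * t * (n + 1)) ^ 1 := (pow_one _).symm
        _ ≤ (8 * t * (n + 1)) ^ k := Nat.pow_le_pow_right (by positivity) hk1
    · have ht0 : (1 : ℝ) ≤ t := by exact_mod_cast ht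
      set s : ℝ := 8 * t * (n + 1) with hs
      have hn0 : (0 : ℝ) ≤ n := Nat.cast_nonneg n
      have hs8 : 8 * (t : ℝ) ≤ s := by rw [hs]; nlinarith
      have hs1 : 1 ≤ s := by linarith
      have hsk : s ≤ s ^ k := by
        calc s = s ^ 1 := (pow_one _).symm
          _ ≤ s ^ k := pow_le_pow_right₀ hs1 hk1
      have e0 : (((8 * t * (n + 1)) ^ k : ℕ) : ℝ) = s ^ k := by push_cast; rfl
      rw [Nat.cast_mul, e0]
      rcases Nat.eq_zero_or_pos n with h0 | h0
      · rw [h0, Nat.cast_zero, mul_zero]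
        calc (0 : ℝ) ^ (1 - δ) ≤ 1 := Real.zero_rpow_le_one _
          _ ≤ s ^ k / (8 * t) := by
            rw [le_div_iff₀ (by positivity)]
            linarith
      · have hn1 : (1 : ℝ) ≤ n := by exact_mod_cast h0
        have hX1 : 1 ≤ s ^ k * n := by nlinarith [one_le_pow₀ (n := k) hs1]
        have hX0 : 0 < s ^ k * n := by linarith
        have h5 : s ≤ (s ^ k * n) ^ (1 / (k : ℝ)) := by
          calc s = (s ^ k) ^ (1 / (k : ℝ)) := by
                rw [← Real.rpow_natCast, ← Real.rpow_mul (by linarith),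
                  mul_one_div_cancel (by linarith), Real.rpow_one]
            _ ≤ _ := Real.rpow_le_rpow (by positivity) (by nlinarith [one_le_pow₀ (n := k) hs1])
                (by positivity)
        calc (s ^ k * n) ^ (1 - δ) ≤ (s ^ k * n) ^ (1 - 1 / (k : ℝ)) :=
              Real.rpow_le_rpow_of_exponent_le hX1 (by linarith)
          _ = (s ^ k * n) / (s ^ k * n) ^ (1 / (k : ℝ)) := by
              rw [Real.rpow_sub hX0, Real.rpow_one]
          _ ≤ (s ^ k * n) / s := div_le_div_of_nonneg_left hX0.le (by linarith) h5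
          _ ≤ s ^ k / (8 * t) := by
              rw [div_le_div_iff₀ (by linarith) (by positivity)]
              have : (n : ℝ) * (8 * t) ≤ s := by rw [hs]; nlinarith
              calc s ^ k * n * (8 * t) = s ^ k * (n * (8 * t)) := by ring
                _ ≤ s ^ k * s := mul_le_mul_of_nonneg_left this (by positivity)

/-- The form with exponent `1 - 1 / k`. -/
theorem fpras_iff_rscheme_root (k : ℕ) (hk : 1 ≤ k) :
    HasFPRAS (fun _ => True) ↔ RScheme (fun n _ => (n : ℝ) ^ (1 - 1 / (k : ℝ))) :=
  fpras_iff_rscheme_rpow _ (by positivity)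

end Pool.Agent.Lib.SubBisX
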