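import Pool.Agent.Lib.SubBisX.IXDef
import Pool.Agent.Lib.Pa7c826t.Nu

/-!
The matching number of the induced subgraph on `IX a W X` is a submodular function of `X`, and
changes by at most one if an element is added to `X`.
-/

set_option autoImplicit false

namespace Pool.Agent.Lib.SubBisX

open Finset Pool.Agent.Lib.Pa7c826 Pool.Agent.Lib.Pa7c826t

theorem IX_sub {a : ℕ} {W X : Finset ℕ} : IX a W X ⊆ W := filter_subset _ _

/-- the matching number is monotone -/
theorem nu_le_nu {n a : ℕ} {adj : ℕ → ℕ → Bool} {S T : Finset ℕ} (hS : S ⊆ range n)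
    (hs : ∀ u v, adj u v = adj v u) (hbip : ∀ u v, adj u v = true → (u < a ↔ ¬ v < a))
    (hT : T ⊆ S) : nu n a adj T ≤ nu n a adj S := by
  classical
  obtain ⟨J, hJ, hc, hI⟩ := nu_indep hS hs hbip
  have h1 := indep_nu (J := J ∩ T) (hT.trans hS) hs hbip inter_subset_right
    fun u hu v hv => hI u (mem_inter.1 hu).1 v (mem_inter.1 hv).1
  have h2 : J.card ≤ (J ∩ T).card + (S \ T).card := by
    have h3 : J ⊆ (J ∩ T) ∪ (S \ T) := by
      intro x hx
      rw [mem_union, mem_inter, mem_sdiff]
      by_cases h : x ∈ T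
      · exact Or.inl ⟨hx, h⟩
      · exact Or.inr ⟨hJ hx, h⟩
    exact (card_le_card h3).trans (card_union_le _ _)
  have h3 := card_sdiff_add_card_eq_card hT
  omega

theorem IX_erase {a : ℕ} {W X : Finset ℕ} (v : ℕ) :
    (IX a W (insert v X)).erase v = (IX a W X).erase v := by
  ext u
  rw [mem_erase, mem_erase, mem_IX, mem_IX]
  refine and_congr_right fun h => ?_
  rw [mem_insert, or_iff_right h]

theorem nu_erase {n a : ℕ} {adj : ℕ → ℕ → Bool} {S : Finset ℕ} (hS : S ⊆ range n)
    (hs : ∀ u v, adj u v = adj v u) (hbip : ∀ u v, adj u v = true → (u < a ↔ ¬ v < a))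
    (v : ℕ) : nu n a adj (S.erase v) ≤ nu n a adj S ∧ nu n a adj S ≤ nu n a adj (S.erase v) + 1 := by
  refine ⟨nu_le_nu hS hs hbip (erase_subset v S), ?_⟩
  have h1 := nu_mono hS hs hbip (erase_subset v S)
  have h2 := pred_card_le_card_erase (s := S) (a := v)
  omega

/-- adding an element changes the matching number by at most one -/
theorem nu_IX_insert {n a : ℕ} {adj : ℕ → ℕ → Bool} {W X : Finset ℕ} (hW : W ⊆ range n)
    (hs : ∀ u v, adj u v = adj v u) (hbip : ∀ u v, adj u v = true → (u < a ↔ ¬ v < a))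
    (v : ℕ) : nu n a adj (IX a W (insert v X)) ≤ nu n a adj (IX a W X) + 1 ∧
      nu n a adj (IX a W X) ≤ nu n a adj (IX a W (insert v X)) + 1 := by
  have h1 := nu_erase (IX_sub.trans hW) hs hbip v (S := IX a W X)
  have h2 := nu_erase (IX_sub.trans hW) hs hbip v (S := IX a W (insert v X))
  rw [IX_erase] at h2
  omega

/-- submodularity -/
theorem nu_IX_sub {n a : ℕ} {adj : ℕ → ℕ → Bool} {W : Finset ℕ} (hW : W ⊆ range n)
    (hs : ∀ u v, adj u v = adj v u) (hbip : ∀ u v, adj u v = true → (u < a ↔ ¬ v < a))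
    (X X' : Finset ℕ) : nu n a adj (IX a W (X ∪ X')) + nu n a adj (IX a W (X ∩ X')) ≤
      nu n a adj (IX a W X) + nu n a adj (IX a W X') := by
  classical
  obtain ⟨J, hJ, hc, hI⟩ := nu_indep (IX_sub.trans hW) hs hbip (S := IX a W X)
  obtain ⟨J', hJ', hc', hI'⟩ := nu_indep (IX_sub.trans hW) hs hbip (S := IX a W X')
  set K := (J ∪ J').filter fun v => v < a ∨ (v ∈ J ∧ v ∈ J') with hK
  set K' := (J ∪ J').filter fun v => ¬ v < a ∨ (v ∈ J ∧ v ∈ J') with hK'
  have e1 : K.card + K'.card = J.card + J'.card := by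
    rw [← card_union_add_card_inter K K', ← card_union_add_card_inter J J']
    congr 2
    · ext v
      rw [mem_union, hK, hK', mem_filter, mem_filter]
      refine ⟨fun h => h.elim (fun h => h.1) fun h => h.1, fun h => ?_⟩
      by_cases h' : v < a
      · exact Or.inl ⟨h, Or.inl h'⟩
      · exact Or.inr ⟨h, Or.inl h'⟩
    · ext v
      rw [mem_inter, hK, hK', mem_filter, mem_filter, mem_inter]
      refine ⟨fun h => ?_, fun h => ⟨⟨mem_union_left _ h.1, Or.inr h⟩, mem_union_left _ h.1, Or.inr h⟩⟩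
      rcases h.1.2 with h1 | h1
      · rcases h.2.2 with h2 | h2
        · exact absurd h1 h2
        · exact h2
      · exact h1
  have e2 : (IX a W (X ∪ X')).card + (IX a W (X ∩ X')).card =
      (IX a W X).card + (IX a W X').card := by
    rw [← card_union_add_card_inter (IX a W (X ∪ X')) (IX a W (X ∩ X')),
      ← card_union_add_card_inter (IX a W X) (IX a W X')]
    congr 2
    · ext v
      rw [mem_union, mem_union, mem_IX, mem_IX, mem_IX, mem_IX, mem_union, mem_inter]
      split_ifs <;> tauto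
    · ext v
      rw [mem_inter, mem_inter, mem_IX, mem_IX, mem_IX, mem_IX, mem_union, mem_inter]
      split_ifs <;> tauto
  have s1 : K ⊆ IX a W (X ∪ X') := by
    intro v hv
    rw [hK, mem_filter, mem_union] at hv
    rw [mem_IX, mem_union]
    rcases hv.2 with h | h
    · rw [if_pos h]
      rcases hv.1 with h1 | h1
      · have h2 := mem_IX.1 (hJ h1)
        rw [if_pos h] at h2
        exact ⟨h2.1, Or.inl h2.2⟩
      · have h2 := mem_IX.1 (hJ' h1)
        rw [if_pos h] at h2
        exact ⟨h2.1, Or.inr h2.2⟩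
    · have h1 := mem_IX.1 (hJ h.1)
      have h2 := mem_IX.1 (hJ' h.2)
      split_ifs at h1 h2 ⊢ with h3
      · exact ⟨h1.1, Or.inl h1.2⟩
      · exact ⟨h1.1, fun h4 => h4.elim h1.2 h2.2⟩
  have s2 : K' ⊆ IX a W (X ∩ X') := by
    intro v hv
    rw [hK', mem_filter, mem_union] at hv
    rw [mem_IX, mem_inter]
    rcases hv.2 with h | h
    · rw [if_neg h]
      rcases hv.1 with h1 | h1
      · have h2 := mem_IX.1 (hJ h1)
        rw [if_neg h] at h2
        exact ⟨h2.1, fun h3 => h2.2 h3.1⟩
      · have h2 := mem_IX.1 (hJ' h1)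
        rw [if_neg h] at h2
        exact ⟨h2.1, fun h3 => h2.2 h3.2⟩
    · have h1 := mem_IX.1 (hJ h.1)
      have h2 := mem_IX.1 (hJ' h.2)
      split_ifs at h1 h2 ⊢ with h3
      · exact ⟨h1.1, h1.2, h2.2⟩
      · exact ⟨h1.1, fun h4 => h1.2 h4.1⟩
  have i1 : ∀ u ∈ K, ∀ v ∈ K, adj u v = false := by
    intro u hu v hv
    by_contra h
    rw [Bool.not_eq_false] at h
    rw [hK, mem_filter, mem_union] at hu hv
    have hb := hbip u v h
    by_cases hua : u < a
    · have hva : ¬ v < a := hb.1 hua
      have h2 := hv.2.resolve_left hva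
      rcases hu.1 with h1 | h1
      · rw [hI u h1 v h2.1] at h; exact absurd h (by simp)
      · rw [hI' u h1 v h2.2] at h; exact absurd h (by simp)
    · have h2 := hu.2.resolve_left hua
      rcases hv.1 with h1 | h1
      · rw [hI u h2.1 v h1] at h; exact absurd h (by simp)
      · rw [hI' u h2.2 v h1] at h; exact absurd h (by simp)
  have i2 : ∀ u ∈ K', ∀ v ∈ K', adj u v = false := by
    intro u hu v hv
    by_contra h
    rw [Bool.not_eq_false] at h
    rw [hK', mem_filter, mem_union] at hu hv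
    have hb := hbip u v h
    by_cases hua : u < a
    · have h2 := hu.2.resolve_left (not_not.2 hua)
      rcases hv.1 with h1 | h1
      · rw [hI u h2.1 v h1] at h; exact absurd h (by simp)
      · rw [hI' u h2.2 v h1] at h; exact absurd h (by simp)
    · have hva : v < a := by
        by_contra h3
        exact hua (hb.2 h3)
      have h2 := hv.2.resolve_left (not_not.2 hva)
      rcases hu.1 with h1 | h1
      · rw [hI u h1 v h2.1] at h; exact absurd h (by simp)
      · rw [hI' u h1 v h2.2] at h; exact absurd h (by simp)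
  have f1 := indep_nu (IX_sub.trans hW) hs hbip s1 i1
  have f2 := indep_nu (IX_sub.trans hW) hs hbip s2 i2
  omega

end Pool.Agent.Lib.SubBisX
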