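import Pool.Agent.Lib.SubBisX.Par

/-!
The parameters of the accelerated method.
-/

open Finset

namespace Pool.Agent.Lib.SubBisX.ParA

/-- weight of the penalty -/
def kap (q : ℕ) : ℕ := q.size + 1

/-- binary digits of the random numbers -/
def mu (q : ℕ) : ℕ := 2 * q.size + 3

/-- binary logarithm of the number of samples per step -/
def nu (q : ℕ) : ℕ := (q * (q.size + 1)).size

/-- number of samples per step -/
def ss (q : ℕ) : ℕ := 2 ^ nu q

/-- number of steps -/
def TT (q : ℕ) : ℕ := 12 * ss q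

/-- number of values of the noise -/
def NN (q : ℕ) : ℕ := 2 ^ (2 * nu q + 7)

/-- scale of the iterates (the unit `c` is `q`) -/
def MM (q : ℕ) : ℕ := 2 ^ (3 * nu q + 7)

/-- number of independent worlds -/
def KK (n q : ℕ) : ℕ := 8 * q ^ 2 * (3 * q.size + 5) ^ 2 * (n + 3)

/-- the size of the table -/
def tb (n q : ℕ) : ℕ := (n * ss q + 1) ^ TT q

/-- the quality for the number of vertices `n` and the precision `t` -/
def qq (n t : ℕ) : ℕ := ((range (t.size + 1)).filter fun i => 1 ≤ i ∧ tb n i ≤ t).card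

theorem ss_mono {i j : ℕ} (h : i ≤ j) : ss i ≤ ss j :=
  Nat.pow_le_pow_right (by norm_num) (Nat.size_le_size
    (Nat.mul_le_mul h (Nat.add_le_add_right (Nat.size_le_size h) 1)))

/-- the number of samples is at least `q * kap q` -/
theorem lt_ss (q : ℕ) : q * (q.size + 1) < ss q := Nat.lt_size_self _

/-- the number of samples is at most `2 * q * kap q` -/
theorem ss_le {q : ℕ} (hq : 1 ≤ q) : ss q ≤ 2 * (q * (q.size + 1)) := by
  have h1 : 0 < q * (q.size + 1) := Nat.mul_pos hq (by omega)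
  have h2 : 0 < nu q := Nat.size_pos.2 h1
  have h3 : 2 ^ (nu q - 1) ≤ q * (q.size + 1) := by
    have : nu q - 1 < (q * (q.size + 1)).size := by unfold nu at h2 ⊢; omega
    exact Nat.lt_size.1 this
  unfold ss
  have h4 : nu q = (nu q - 1) + 1 := by omega
  rw [h4, pow_succ]
  omega

theorem le_ss (i : ℕ) : i ≤ ss i := by
  have h1 := lt_ss i
  have h2 : i * 1 ≤ i * (i.size + 1) := Nat.mul_le_mul_left _ (by omega)
  omega

theorem ss_pos (q : ℕ) : 0 < ss q := Nat.pow_pos (by norm_num)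

theorem NN_eq (q : ℕ) : NN q = 128 * ss q ^ 2 := by
  unfold NN ss
  rw [pow_add, ← pow_mul, mul_comm (nu q) 2]
  norm_num
  ring

theorem MM_eq (q : ℕ) : MM q = 128 * ss q ^ 3 := by
  unfold MM ss
  rw [pow_add, ← pow_mul, mul_comm (nu q) 3]
  norm_num
  ring

theorem tb_mono {n i j : ℕ} (h : i ≤ j) : tb n i ≤ tb n j := by
  unfold tb TT
  have h1 := ss_mono h
  calc (n * ss i + 1) ^ (12 * ss i) ≤ (n * ss j + 1) ^ (12 * ss i) :=
        Nat.pow_le_pow_left (Nat.add_le_add_right (Nat.mul_le_mul_left _ h1) 1) _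
    _ ≤ (n * ss j + 1) ^ (12 * ss j) :=
        Nat.pow_le_pow_right (by omega) (Nat.mul_le_mul_left _ h1)

theorem lt_tb {n t : ℕ} (hn : 1 ≤ n) (ht : 1 ≤ t) : t < tb n t.size := by
  unfold tb TT
  have h1 : 1 ≤ t.size := Nat.size_pos.2 ht
  have h2 := ss_pos t.size
  have h3 : 1 ≤ n * ss t.size := Nat.mul_pos hn h2
  calc t < 2 ^ t.size := Nat.lt_size_self t
    _ ≤ (n * ss t.size + 1) ^ t.size := Nat.pow_le_pow_left (by omega) _
    _ ≤ (n * ss t.size + 1) ^ (12 * ss t.size) := Nat.pow_le_pow_right (by omega) (by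
        have := le_ss t.size
        omega)

theorem qq_eq {n t : ℕ} (hn : 1 ≤ n) (ht : 1 ≤ t) :
    ∃ q, qq n t = q ∧ (1 ≤ q → tb n q ≤ t) ∧ t < tb n (q + 1) := by
  classical
  have hbig : t < tb n t.size := lt_tb hn ht
  set P : ℕ → Prop := fun i => t < tb n i with hP
  have hex : ∃ i, P (i + 1) := ⟨t.size, lt_of_lt_of_le hbig (tb_mono (by omega))⟩
  set q := Nat.find hex with hq
  have h1 : P (q + 1) := Nat.find_spec hex
  have h2 : ∀ i, i < q → ¬ P (i + 1) := fun i hi => Nat.find_min hex hi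
  have h3 : q ≤ t.size := by
    apply Nat.find_min' hex
    exact lt_of_lt_of_le hbig (tb_mono (by omega))
  refine ⟨q, ?_, ?_, h1⟩
  · unfold qq
    have h4 : ((range (t.size + 1)).filter fun i => 1 ≤ i ∧ tb n i ≤ t) = Icc 1 q := by
      ext i
      simp only [mem_filter, mem_range, mem_Icc]
      constructor
      · rintro ⟨-, h5, h6⟩
        refine ⟨h5, ?_⟩
        by_contra h7
        have h8 : t < tb n i := lt_of_lt_of_le h1 (tb_mono (by omega))
        omega
      · rintro ⟨h5, h6⟩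
        refine ⟨by omega, h5, ?_⟩
        have h7 := h2 (i - 1) (by omega)
        rw [hP] at h7
        simp only [not_lt] at h7
        rwa [Nat.sub_add_cancel h5] at h7
    rw [h4, Nat.card_Icc, Nat.add_sub_cancel]
  · intro h4
    have h5 := h2 (q - 1) (by omega)
    rw [hP] at h5
    simp only [not_lt] at h5
    rwa [Nat.sub_add_cancel h4] at h5

/-- the promise gives a good quality -/
theorem par {n t : ℕ} (hn : 1 ≤ n) (ht : 1 ≤ t)
    (h : (2 : ℝ) ^ (700 * Real.sqrt n * Real.logb 2 (n + 1)) ≤ t) :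
    1 ≤ qq n t ∧ tb n (qq n t) ≤ t ∧ (400 : ℝ) * n ≤ qq n t * Real.logb 2 t ∧
      (400 : ℝ) ≤ Real.logb 2 t ∧ (n : ℝ) ≤ Real.logb 2 t ^ 2 := by
  obtain ⟨q, hq, hq1, hq2⟩ := qq_eq hn ht
  rw [hq]
  set L := Real.logb 2 ((n : ℝ) + 1) with hL
  set lam := Real.logb 2 (t : ℝ) with hlam
  set x := Real.sqrt n with hx
  have hn1 : (1 : ℝ) ≤ n := by exact_mod_cast hn
  have ht0 : (0 : ℝ) < t := by exact_mod_cast ht
  have hL1 : 1 ≤ L := by
    rw [hL, Real.le_logb_iff_rpow_le one_lt_two (by positivity), Real.rpow_one]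
    linarith
  have hx2 : x ^ 2 = n := Real.sq_sqrt (by positivity)
  have hx1 : 1 ≤ x := Real.one_le_sqrt.2 hn1
  have hlam1 : 700 * x * L ≤ lam := by
    rw [hlam, Real.le_logb_iff_rpow_le one_lt_two ht0]
    exact h
  have hxL : x ≤ x * L := le_mul_of_one_le_right (by linarith) hL1
  have hlam2 : 400 ≤ lam := by nlinarith
  have hnl : (n : ℝ) ≤ lam ^ 2 := by
    have h1 : x ≤ lam := by nlinarith
    rw [← hx2]
    exact pow_le_pow_left₀ (by linarith) h1 2
  have hTT : lam < TT (q + 1) * Real.logb 2 (n * ss (q + 1) + 1) := by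
    have h1 : (t : ℝ) < ((n : ℝ) * ss (q + 1) + 1) ^ TT (q + 1) := by
      have : t < (n * ss (q + 1) + 1) ^ TT (q + 1) := hq2
      exact_mod_cast this
    have h2 : lam < Real.logb 2 (((n : ℝ) * ss (q + 1) + 1) ^ TT (q + 1)) :=
      Real.logb_lt_logb one_lt_two ht0 h1
    rwa [Real.logb_pow] at h2
  have hq0 : 1 ≤ q := by
    by_contra h0
    have h0 : q = 0 := by omega
    rw [h0] at hTT
    have h2 : ss (0 + 1) = 4 := by decide
    have h1 : TT (0 + 1) = 48 := by decide
    rw [h1, h2] at hTT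
    push_cast at hTT
    have h3 : Real.logb 2 ((n : ℝ) * 4 + 1) ≤ 3 * L := by
      have h4 : (n : ℝ) * 4 + 1 ≤ ((n : ℝ) + 1) ^ 3 := by nlinarith [sq_nonneg ((n : ℝ) - 1)]
      refine (Real.logb_le_logb_of_le one_lt_two (by positivity) h4).trans (le_of_eq ?_)
      rw [Real.logb_pow, ← hL]
      norm_num
    linarith [mul_le_mul_of_nonneg_right hx1 (show (0 : ℝ) ≤ L by linarith)]
  refine ⟨hq0, hq1 hq0, ?_, hlam2, hnl⟩
  have hq1' : (1 : ℝ) ≤ q := by exact_mod_cast hq0
  rcases le_or_gt (2 * n) q with hc | hc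
  · have h1 : 2 * (n : ℝ) ≤ q := by exact_mod_cast hc
    have h2 : 2 * (n : ℝ) * 400 ≤ q * lam := mul_le_mul h1 hlam2 (by norm_num) (by positivity)
    linarith
  · have h1 : ((q + 1).size : ℝ) ≤ L + 2 := by
      have h2 : (q + 1).size ≤ n.size + 1 := by
        rw [Nat.size_le]
        have h3 := Nat.lt_size_self n
        rw [pow_succ]
        omega
      have h3 := Par.size_le_log n
      have h4 : ((q + 1).size : ℝ) ≤ (n.size + 1 : ℕ) := by exact_mod_cast h2
      push_cast at h4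
      linarith
    have h2 : (ss (q + 1) : ℝ) ≤ ((q : ℝ) + 1) * (8 * L) := by
      have h3 : (ss (q + 1) : ℝ) ≤ (2 * ((q + 1) * ((q + 1).size + 1)) : ℕ) := by
        exact_mod_cast ss_le (q := q + 1) (by omega)
      push_cast at h3
      have h4 : ((q : ℝ) + 1) * (((q + 1).size : ℝ) + 1) ≤ ((q : ℝ) + 1) * (4 * L) :=
        mul_le_mul_of_nonneg_left (by linarith) (by positivity)
      linarith
    have h3 : Real.logb 2 ((n : ℝ) * ss (q + 1) + 1) ≤ 5 * L := by
      have h4 : n * ss (q + 1) + 1 ≤ (n + 1) ^ 5 := by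
        have h5 : (q + 1).size ≤ q + 1 := Nat.size_le.2 (Nat.lt_two_pow_self)
        have h6 : ss (q + 1) ≤ 2 * ((2 * n) * (2 * n + 1)) :=
          (ss_le (by omega)).trans (Nat.mul_le_mul_left 2 (Nat.mul_le_mul (by omega) (by omega)))
        have h7 : n * ss (q + 1) ≤ n * (2 * ((2 * n) * (2 * n + 1))) := Nat.mul_le_mul_left _ h6
        have h8 : n * (2 * ((2 * n) * (2 * n + 1))) + 1 ≤ (n + 1) ^ 5 := by
          have h9 : n * (2 * ((2 * n) * (2 * n + 1))) = 8 * n ^ 3 + 4 * n ^ 2 := by ring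
          have h10 : (n + 1) ^ 5 =
            n ^ 5 + 5 * n ^ 4 + 10 * n ^ 3 + 10 * n ^ 2 + 5 * n + 1 := by ring
          rw [h9, h10]
          have := Nat.zero_le (n ^ 5)
          have := Nat.zero_le (n ^ 4)
          have := Nat.zero_le (n ^ 3)
          have := Nat.zero_le (n ^ 2)
          omega
        omega
      have h5 : (n : ℝ) * ss (q + 1) + 1 ≤ ((n : ℝ) + 1) ^ 5 := by exact_mod_cast h4
      refine (Real.logb_le_logb_of_le one_lt_two (by positivity) h5).trans (le_of_eq ?_)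
      rw [Real.logb_pow, ← hL]
      norm_num
    have h4 : lam < 480 * ((q : ℝ) + 1) * L ^ 2 := by
      have h5 : (TT (q + 1) : ℝ) ≤ 12 * (((q : ℝ) + 1) * (8 * L)) := by
        unfold TT
        push_cast
        linarith
      have h6 : (TT (q + 1) : ℝ) * Real.logb 2 ((n : ℝ) * ss (q + 1) + 1) ≤
          12 * (((q : ℝ) + 1) * (8 * L)) * (5 * L) := by
        refine mul_le_mul h5 h3 ?_ (by positivity)
        exact Real.logb_nonneg one_lt_two (by
          have : (0 : ℝ) ≤ (n : ℝ) * ss (q + 1) := by positivity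
          linarith)
      nlinarith
    -- now `(q + 1) lam > lam ^ 2 / (144 L ^ 2) ≥ 700 ^ 2 n / 480`
    have h5 : (700 * x * L) ^ 2 ≤ lam ^ 2 := pow_le_pow_left₀ (by positivity) hlam1 2
    have h6 : lam ^ 2 ≤ 480 * (((q : ℝ) + 1) * lam) * L ^ 2 := by
      have := mul_le_mul_of_nonneg_right h4.le (show (0 : ℝ) ≤ lam by linarith)
      calc lam ^ 2 = lam * lam := sq lam
        _ ≤ _ := this
        _ = _ := by ring
    have h7 : (700 * x * L) ^ 2 = 490000 * (n : ℝ) * L ^ 2 := by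
      rw [mul_pow, mul_pow, hx2]
      norm_num
    have h8 : 490000 * (n : ℝ) * L ^ 2 ≤ 480 * (((q : ℝ) + 1) * lam) * L ^ 2 := by
      rw [← h7]
      exact h5.trans h6
    have h9 : 490000 * (n : ℝ) ≤ 480 * (((q : ℝ) + 1) * lam) :=
      le_of_mul_le_mul_right h8 (by positivity)
    have h10 : lam ≤ q * lam := le_mul_of_one_le_left (by linarith) hq1'
    linarith

end Pool.Agent.Lib.SubBisX.ParA
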