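import Pool.Agent.Lib.SubBisX.ShpCopy
import Pool.Agent.Lib.SubBisX.LogDefs
import Pool.Agent.Lib.Pa7c826y.Mul
import Pool.Agent.Lib.P8e91ed.PolyBin

/-!
The root of a power, computed by a search, and the output string it gives.
-/

namespace Pool.Agent.Lib.SubBisX

open Pool.Agent.Lib.Pa7c826 Pool.Agent.Lib.PolyTime Finset

/-! ### The search -/

/-- The least `b` with `(1 + 2 ^ (-(τ + 2))) ^ (b c) ≥ 2 ^ e`. -/
def bst (c τ e : ℕ) : ℕ :=
  ((range (2 ^ (τ + 2) * e)).filter fun b =>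
    (2 ^ (τ + 2) + 1) ^ (b * c) < 2 ^ (e + (τ + 2) * (b * c))).card

/-- `1 + 2 ^ (-(τ + 2))` -/
noncomputable def vv (τ : ℕ) : ℝ := 1 + 1 / 2 ^ (τ + 2)

theorem vv_pos (τ : ℕ) : 0 < vv τ := by unfold vv; positivity

theorem one_lt_vv (τ : ℕ) : 1 < vv τ := by
  unfold vv
  have : (0 : ℝ) < 1 / 2 ^ (τ + 2) := by positivity
  linarith

theorem test_iff (c τ e b : ℕ) :
    (2 ^ (τ + 2) + 1) ^ (b * c) < 2 ^ (e + (τ + 2) * (b * c)) ↔
      vv τ ^ (b * c) < 2 ^ e := by
  have h1 : vv τ = ((2 : ℝ) ^ (τ + 2) + 1) / 2 ^ (τ + 2) := by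
    unfold vv
    field_simp
  rw [h1, div_pow, div_lt_iff₀ (by positivity), ← pow_mul, ← pow_add]
  constructor
  · intro h
    exact_mod_cast h
  · intro h
    exact_mod_cast h

theorem two_le_vv_pow (τ : ℕ) : 2 ≤ vv τ ^ (2 ^ (τ + 2)) := by
  have h := one_add_mul_le_pow (a := (1 : ℝ) / 2 ^ (τ + 2)) (by
    have : (0 : ℝ) < 1 / 2 ^ (τ + 2) := by positivity
    linarith) (2 ^ (τ + 2))
  have h2 : (((2 ^ (τ + 2) : ℕ) : ℝ)) * (1 / 2 ^ (τ + 2)) = 1 := by
    push_cast
    field_simp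
  rw [h2] at h
  unfold vv
  linarith

theorem vv_pow_big (c τ e : ℕ) (hc : 1 ≤ c) (b : ℕ) (hb : 2 ^ (τ + 2) * e ≤ b) :
    2 ^ e ≤ vv τ ^ (b * c) := by
  calc (2 : ℝ) ^ e ≤ (vv τ ^ (2 ^ (τ + 2))) ^ e := pow_le_pow_left₀ (by norm_num)
        (two_le_vv_pow τ) e
    _ = vv τ ^ (2 ^ (τ + 2) * e) := by rw [← pow_mul]
    _ ≤ vv τ ^ (b * c) := pow_le_pow_right₀ (one_lt_vv τ).le (hb.trans (Nat.le_mul_of_pos_right _ hc))

theorem bst_filter (c τ e : ℕ) (hc : 1 ≤ c) : ∃ B,
    ((range (2 ^ (τ + 2) * e)).filter fun b =>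
      (2 ^ (τ + 2) + 1) ^ (b * c) < 2 ^ (e + (τ + 2) * (b * c))) = range B ∧
    2 ^ e ≤ vv τ ^ (B * c) ∧ ∀ b < B, vv τ ^ (b * c) < 2 ^ e := by
  classical
  have hex : ∃ b, (2 : ℝ) ^ e ≤ vv τ ^ (b * c) := ⟨_, vv_pow_big c τ e hc _ le_rfl⟩
  refine ⟨Nat.find hex, ?_, Nat.find_spec hex, fun b hb => not_le.1 (Nat.find_min hex hb)⟩
  ext b
  rw [mem_filter, mem_range, mem_range, test_iff]
  constructor
  · rintro ⟨_, h⟩
    by_contra hcon
    push Not at hcon
    have h2 := Nat.find_spec hex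
    have h3 : vv τ ^ (Nat.find hex * c) ≤ vv τ ^ (b * c) :=
      pow_le_pow_right₀ (one_lt_vv τ).le (Nat.mul_le_mul_right _ hcon)
    linarith
  · intro h
    refine ⟨?_, not_le.1 (Nat.find_min hex h)⟩
    by_contra hcon
    push Not at hcon
    exact Nat.find_min hex h (vv_pow_big c τ e hc b hcon)

theorem bst_ge (c τ e : ℕ) (hc : 1 ≤ c) : (2 : ℝ) ^ ((e : ℝ) / c) ≤ vv τ ^ bst c τ e := by
  obtain ⟨B, h1, h2, _⟩ := bst_filter c τ e hc
  have hB : bst c τ e = B := by unfold bst; rw [h1, card_range]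
  rw [hB]
  have hc0 : (0 : ℝ) < c := by exact_mod_cast hc
  have h3 : ((2 : ℝ) ^ ((e : ℝ) / c)) ^ c ≤ (vv τ ^ B) ^ c := by
    rw [← Real.rpow_natCast, ← Real.rpow_mul (by norm_num), div_mul_cancel₀ _ hc0.ne',
      Real.rpow_natCast, ← pow_mul]
    exact h2
  exact le_of_pow_le_pow_left₀ (by omega) (pow_pos (vv_pos τ) _).le h3

theorem bst_le (c τ e : ℕ) (hc : 1 ≤ c) : vv τ ^ bst c τ e ≤ vv τ * (2 : ℝ) ^ ((e : ℝ) / c) := by
  obtain ⟨B, h1, _, h2⟩ := bst_filter c τ e hc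
  have hB : bst c τ e = B := by unfold bst; rw [h1, card_range]
  rw [hB]
  have hc0 : (0 : ℝ) < c := by exact_mod_cast hc
  rcases B with _ | B
  · rw [pow_zero]
    have h3 : (1 : ℝ) ≤ 2 ^ ((e : ℝ) / c) := Real.one_le_rpow (by norm_num) (by positivity)
    have h4 := one_lt_vv τ
    nlinarith
  · have h3 : (vv τ ^ B) ^ c ≤ ((2 : ℝ) ^ ((e : ℝ) / c)) ^ c := by
      rw [← Real.rpow_natCast (2 ^ ((e : ℝ) / c)), ← Real.rpow_mul (by norm_num),
        div_mul_cancel₀ _ hc0.ne', Real.rpow_natCast, ← pow_mul]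
      exact (h2 B (Nat.lt_succ_self B)).le
    have h4 := le_of_pow_le_pow_left₀ (by omega) (by positivity) h3
    rw [pow_succ, mul_comm]
    exact mul_le_mul_of_nonneg_left h4 (vv_pos τ).le

/-! ### The output string -/

/-- the exponent read off an output string -/
def expo (o : List Bool) : ℕ :=
  Nat.size (bval (afterTrue o)) - 1 - (o.takeWhile id).length

/-- the new output string -/
def outS (c t e : ℕ) : List Bool :=
  List.replicate ((Nat.size t + 2) * bst c (Nat.size t) e) true ++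
    false :: Nat.bits ((2 ^ (Nat.size t + 2) + 1) ^ bst c (Nat.size t) e)

theorem outVal_outS (c t e : ℕ) :
    ((outVal (outS c t e) : ℚ) : ℝ) = vv (Nat.size t) ^ bst c (Nat.size t) e := by
  unfold outS
  rw [outVal_replicate]
  simp only [outVal, binVal_eq_bval, P8e91ed.PT.bval_bits]
  have h1 : vv (Nat.size t) = ((2 : ℝ) ^ (Nat.size t + 2) + 1) / 2 ^ (Nat.size t + 2) := by
    unfold vv
    field_simp
  rw [h1, div_pow, ← pow_mul]
  push_cast
  rfl

theorem expo_bound (o : List Bool) (h0 : 0 < outVal o) (x : ℝ) (hx : 0 ≤ x) :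
    |(expo o : ℝ) - x| ≤ |Real.logb 2 (outVal o : ℝ) - x| + 1 := by
  set B := bval (afterTrue o) with hB
  set j := (o.takeWhile id).length with hj
  have hv : outVal o = (B : ℚ) / 2 ^ j := Pa7c826y.afterTrue_outVal o
  have hB0 : 0 < B := by
    rcases Nat.eq_zero_or_pos B with h | h
    · rw [hv, h] at h0; simp at h0
    · exact h
  have hs : 1 ≤ Nat.size B := Nat.size_pos.2 hB0
  have h1 : 2 ^ (Nat.size B - 1) ≤ B := by
    by_contra hcon
    push Not at hcon
    have := Nat.size_le.2 hcon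
    omega
  have h2 : B < 2 ^ (Nat.size B) := Nat.lt_size_self B
  have hlog : Real.logb 2 (outVal o : ℝ) = Real.logb 2 B - j := by
    rw [hv]
    push_cast
    rw [Real.logb_div (by exact_mod_cast hB0.ne') (by positivity), Real.logb_pow]
    simp
  have hBr : (0 : ℝ) < B := by exact_mod_cast hB0
  have h3 : ((Nat.size B - 1 : ℕ) : ℝ) ≤ Real.logb 2 B := by
    rw [Real.le_logb_iff_rpow_le (by norm_num) hBr, Real.rpow_natCast]
    exact_mod_cast h1
  have h4 : Real.logb 2 B < Nat.size B := by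
    rw [Real.logb_lt_iff_lt_rpow (by norm_num) hBr, Real.rpow_natCast]
    exact_mod_cast h2
  have h5 : ((Nat.size B - 1 : ℕ) : ℝ) = (Nat.size B : ℝ) - 1 := by
    rw [Nat.cast_sub hs]; simp
  rw [h5] at h3
  have h6 : ((expo o : ℕ) : ℝ) = max ((Nat.size B : ℝ) - 1 - j) 0 := by
    unfold expo
    rw [← hB, ← hj]
    rcases le_total j (Nat.size B - 1) with h | h
    · rw [Nat.cast_sub h, h5, max_eq_left]
      have : ((j : ℕ) : ℝ) ≤ ((Nat.size B - 1 : ℕ) : ℝ) := by exact_mod_cast h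
      rw [h5] at this
      linarith
    · rw [Nat.sub_eq_zero_of_le h, max_eq_right]
      · simp
      · have : ((Nat.size B - 1 : ℕ) : ℝ) ≤ ((j : ℕ) : ℝ) := by exact_mod_cast h
        rw [h5] at this
        linarith
  rw [h6, hlog]
  have h7 : |max ((Nat.size B : ℝ) - 1 - j) 0 - x| ≤ |(Nat.size B : ℝ) - 1 - j - x| := by
    have := abs_max_sub_max_le_abs ((Nat.size B : ℝ) - 1 - j) x 0
    rwa [max_eq_left hx] at this
  refine h7.trans ?_
  have h8 : |(Nat.size B : ℝ) - 1 - j - x| ≤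
      |(Nat.size B : ℝ) - 1 - j - (Real.logb 2 B - j)| + |Real.logb 2 B - j - x| :=
    abs_sub_le _ _ _
  have h9 : |(Nat.size B : ℝ) - 1 - j - (Real.logb 2 B - j)| ≤ 1 := by
    rw [abs_le]
    constructor <;> linarith
  linarith

theorem two_rpow_le (x : ℝ) (h0 : 0 ≤ x) (h1 : x ≤ 1) : (2 : ℝ) ^ x ≤ 1 + x := by
  have := rpow_one_add_le_one_add_mul_self (s := 1) (by norm_num) h0 h1
  norm_num at this
  linarith

theorem one_le_numInd (G : BGraph) : (1 : ℝ) ≤ numIndep G.graph := by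
  exact_mod_cast one_le_numIndep G

/-- From an approximate logarithm for `c` copies to an approximation of the number. -/
theorem good_outS {G : BGraph} {c t : ℕ} {x : ℝ} {o : List Bool} (ht : 1 ≤ t) (hc : 8 * t ≤ c)
    (hx : x ≤ c / (8 * t)) (h : LogGood (copies c G) x o) : Good G t (outS c t (expo o)) := by
  obtain ⟨h0, h1⟩ := h
  rw [numIndep_copies] at h1
  push_cast at h1
  rw [Real.logb_pow] at h1
  set N : ℝ := (numIndep G.graph : ℝ) with hN
  have hN1 : 1 ≤ N := one_le_numInd G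
  set L := Real.logb 2 N with hL
  have hL0 : 0 ≤ L := Real.logb_nonneg (by norm_num) hN1
  have hc1 : 1 ≤ c := by omega
  have hc0 : (0 : ℝ) < c := by exact_mod_cast hc1
  have ht0 : (1 : ℝ) ≤ t := by exact_mod_cast ht
  have hcr : (8 : ℝ) * t ≤ c := by exact_mod_cast hc
  have h2 := expo_bound o h0 (c * L) (by positivity)
  have h3 : |(expo o : ℝ) - c * L| ≤ c / (4 * t) := by
    have h4 : (1 : ℝ) ≤ c / (8 * t) := by
      rw [le_div_iff₀ (by positivity)]; linarith
    have h5 : (c : ℝ) / (4 * t) = c / (8 * t) + c / (8 * t) := by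
      field_simp; ring
    rw [h5]
    linarith
  have h4 : |(expo o : ℝ) / c - L| ≤ 1 / (4 * t) := by
    have e1 : (expo o : ℝ) / c - L = ((expo o : ℝ) - c * L) / c := by field_simp
    rw [e1, abs_div, abs_of_pos hc0, div_le_iff₀ hc0]
    calc _ ≤ (c : ℝ) / (4 * t) := h3
      _ = 1 / (4 * t) * c := by ring
  set s : ℝ := 1 / (4 * t) with hs
  have hs0 : 0 < s := by rw [hs]; positivity
  have hs1 : s ≤ 1 / 4 := by
    rw [hs]
    exact one_div_le_one_div_of_le (by norm_num) (by linarith)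
  have h2s := two_rpow_le s hs0.le (by linarith)
  have hNL : (2 : ℝ) ^ L = N := by
    rw [hL]; exact Real.rpow_logb (by norm_num) (by norm_num) (by linarith)
  obtain ⟨h5, h6⟩ := abs_le.1 h4
  have hup : (2 : ℝ) ^ ((expo o : ℝ) / c) ≤ N * (1 + s) := by
    calc (2 : ℝ) ^ ((expo o : ℝ) / c) ≤ 2 ^ (L + s) :=
          Real.rpow_le_rpow_of_exponent_le (by norm_num) (by linarith)
      _ = N * 2 ^ s := by rw [Real.rpow_add (by norm_num), hNL]
      _ ≤ N * (1 + s) := mul_le_mul_of_nonneg_left h2s (by linarith)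
  have hlow : N ≤ (2 : ℝ) ^ ((expo o : ℝ) / c) * (1 + s) := by
    calc N = 2 ^ L := hNL.symm
      _ ≤ 2 ^ ((expo o : ℝ) / c + s) :=
          Real.rpow_le_rpow_of_exponent_le (by norm_num) (by linarith)
      _ = (2 : ℝ) ^ ((expo o : ℝ) / c) * 2 ^ s := Real.rpow_add (by norm_num) _ _
      _ ≤ _ := mul_le_mul_of_nonneg_left h2s (by positivity)
  have hvv : vv (Nat.size t) ≤ 1 + s := by
    unfold vv
    have h7 : (t : ℝ) ≤ 2 ^ Nat.size t := by exact_mod_cast (Nat.lt_size_self t).le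
    have h8 : (1 : ℝ) / 2 ^ (Nat.size t + 2) ≤ s := by
      rw [hs]
      refine one_div_le_one_div_of_le (by positivity) ?_
      rw [pow_add]
      linarith
    linarith
  have hge := bst_ge c (Nat.size t) (expo o) hc1
  have hle := bst_le c (Nat.size t) (expo o) hc1
  rw [← outVal_outS] at hge hle
  set y : ℝ := ((outVal (outS c t (expo o)) : ℚ) : ℝ) with hy
  have hE : (0 : ℝ) < 2 ^ ((expo o : ℝ) / c) := by positivity
  have hy1 : y ≤ N * (1 + s) * (1 + s) := by
    calc y ≤ vv (Nat.size t) * 2 ^ ((expo o : ℝ) / c) := hle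
      _ ≤ (1 + s) * 2 ^ ((expo o : ℝ) / c) := mul_le_mul_of_nonneg_right hvv hE.le
      _ ≤ (1 + s) * (N * (1 + s)) := mul_le_mul_of_nonneg_left hup (by linarith)
      _ = _ := by ring
  have hy2 : N ≤ y * (1 + s) := hlow.trans (mul_le_mul_of_nonneg_right hge (by linarith))
  have hgoal : |y - N| ≤ N / t := by
    have h4s : (1 : ℝ) / t = 4 * s := by rw [hs]; field_simp
    have e2 : N / t = N * (4 * s) := by rw [← h4s]; ring
    rw [e2, abs_le]
    constructor
    · have hyN : y ≤ N * (1 + s) * (1 + s) := hy1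
      nlinarith
    · nlinarith
  unfold Good
  have : ((|outVal (outS c t (expo o)) - (numIndep G.graph : ℚ)| : ℚ) : ℝ) ≤
      (((numIndep G.graph : ℚ) / t : ℚ) : ℝ) := by
    push_cast
    exact hgoal
  exact_mod_cast this

/-! ### From a good approximation to the logarithm -/

theorem logGood_of_good {G : BGraph} {t : ℕ} {o : List Bool} (ht : 2 ≤ t) (h : Good G t o) :
    LogGood G (4 / t) o := by
  unfold Good at h
  have h1 : |((outVal o : ℚ) : ℝ) - (numIndep G.graph : ℝ)| ≤ (numIndep G.graph : ℝ) / t := by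
    have : ((|outVal o - (numIndep G.graph : ℚ)| : ℚ) : ℝ) ≤
        (((numIndep G.graph : ℚ) / t : ℚ) : ℝ) := by exact_mod_cast h
    push_cast at this
    exact this
  set N : ℝ := (numIndep G.graph : ℝ) with hN
  have hN1 : 1 ≤ N := one_le_numInd G
  set y : ℝ := ((outVal o : ℚ) : ℝ) with hy
  have ht0 : (2 : ℝ) ≤ t := by exact_mod_cast ht
  set s : ℝ := 1 / t with hs
  have hs0 : 0 < s := by rw [hs]; positivity
  have hs1 : s ≤ 1 / 2 := by
    rw [hs]; exact one_div_le_one_div_of_le (by norm_num) ht0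
  have e1 : N / t = N * s := by rw [hs]; ring
  rw [e1] at h1
  obtain ⟨h2, h3⟩ := abs_le.1 h1
  have hy0 : N * (1 - s) ≤ y := by linarith
  have hypos : 0 < y := lt_of_lt_of_le (mul_pos (by linarith) (by linarith)) hy0
  have hyle : y ≤ N * (1 + s) := by linarith
  refine ⟨by rw [hy] at hypos; exact_mod_cast hypos, ?_⟩
  rw [← Real.logb_div hypos.ne' (by linarith)]
  have hN0 : 0 < N := by linarith
  have hq0 : 0 < y / N := div_pos hypos hN0
  have hq1 : 1 - s ≤ y / N := by rw [le_div_iff₀ hN0]; linarith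
  have hq2 : y / N ≤ 1 + s := by rw [div_le_iff₀ hN0]; linarith
  have hl2 : (1 : ℝ) / 2 < Real.log 2 := by
    have := Real.log_two_gt_d9
    linarith
  have hlog2 : 0 < Real.log 2 := by linarith
  have hlo : -(2 * s) ≤ Real.log (y / N) := by
    have h4 := Real.one_sub_inv_le_log_of_pos hq0
    have h5 : (y / N)⁻¹ ≤ 1 + 2 * s := by
      rw [inv_le_comm₀ hq0 (by linarith)]
      refine le_trans ?_ hq1
      rw [inv_le_comm₀ (by linarith) (by linarith)]
      rw [inv_eq_one_div, div_le_iff₀ (by linarith)]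
      nlinarith
    linarith
  have hhi : Real.log (y / N) ≤ s := by
    have h4 := Real.log_le_sub_one_of_pos hq0
    linarith
  have e2 : (4 : ℝ) / t = 4 * s := by rw [hs]; ring
  rw [e2, Real.logb, abs_le]
  constructor
  · rw [le_div_iff₀ hlog2]
    nlinarith
  · rw [div_le_iff₀ hlog2]
    nlinarith

end Pool.Agent.Lib.SubBisX
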