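import Pool.Agent.Lib.SubBisX.ShpNum

/-!
The copies of a graph and the root of a number are computed in polynomial time.
-/

namespace Pool.Agent.Lib.SubBisX

open Pool.Agent.Lib.Pa7c826 Pool.Agent.Lib.PolyTime Pool.Agent.Lib.P8e91ed.PT

variable {α : Type*} {D : α → Prop} {ctx : List (α → List Bool)}

theorem poly_size {t : α → ℕ} (ht : PolyN D ctx t) : PolyN D ctx (fun a => Nat.size (t a)) :=
  (PolyN.length (bin_bits (bin_ofN ht))).congr (fun _ _ => Nat.size_eq_bits_len _)

theorem poly_two_pow {t : α → ℕ} (ht : PolyN D ctx t) :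
    PolyN D ctx (fun a => 2 ^ (Nat.size (t a) + 2)) := by
  refine n_pow (PolyN.const 2) ((poly_size ht).add (PolyN.const 2)) ?_
  have hB : Bdd D ctx (fun a => 8 * t a + 4) :=
    Bdd.ofN (((PolyN.const 8).mul ht).add (PolyN.const 4))
  refine Bdd.le hB (fun a _ => ?_)
  rcases Nat.eq_zero_or_pos (t a) with h0 | h0
  · rw [h0]; simp
  · have h1 : 2 ^ (Nat.size (t a) - 1) ≤ t a := by
      by_contra hcon
      push Not at hcon
      have h2 := Nat.size_le.2 hcon
      have h3 := Nat.size_pos.2 h0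
      omega
    have h3 := Nat.size_pos.2 h0
    have h4 : 2 ^ (Nat.size (t a) + 2) = 8 * 2 ^ (Nat.size (t a) - 1) := by
      rw [show Nat.size (t a) + 2 = (Nat.size (t a) - 1) + 3 by omega, pow_add]
      norm_num
      ring
    rw [h4]
    omega

theorem poly_bst {c t e : α → ℕ} (hc : PolyN D ctx c) (ht : PolyN D ctx t) (he : PolyN D ctx e) :
    PolyN D ctx (fun a => bst (c a) (Nat.size (t a)) (e a)) := by
  have hT := poly_two_pow ht
  have hs := (poly_size ht).add (PolyN.const 2)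
  have hn := hT.mul he
  have hP : PolyP (Dx D fun a => 2 ^ (Nat.size (t a) + 2) * e a) (cx ctx) (fun p =>
      (2 ^ (Nat.size (t p.1) + 2) + 1) ^ (p.2 * c p.1) <
        2 ^ (e p.1 + (Nat.size (t p.1) + 2) * (p.2 * c p.1))) := by
    have C1 := nU (n := fun a => 2 ^ (Nat.size (t a) + 2) * e a) hc
    have E1 := nU (n := fun a => 2 ^ (Nat.size (t a) + 2) * e a) he
    have T1 := nU (n := fun a => 2 ^ (Nat.size (t a) + 2) * e a) hT
    have S1 := nU (n := fun a => 2 ^ (Nat.size (t a) + 2) * e a) hs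
    have L1 := nL (D := D) (ctx := ctx) (n := fun a => 2 ^ (Nat.size (t a) + 2) * e a)
    have h1 := bin_pow (bin_ofN (T1.add (PolyN.const 1))) (L1.mul C1)
    have h2 := PolyBin.pow2 (E1.add (S1.mul (L1.mul C1)))
    exact (PolyP.binle h2 h1).not.congr (fun p _ => not_le)
  exact n_card (P := fun a b => (2 ^ (Nat.size (t a) + 2) + 1) ^ (b * c a) <
        2 ^ (e a + (Nat.size (t a) + 2) * (b * c a))) hn hP

theorem poly_expo {o : α → List Bool} (ho : PolyC D ctx o) : PolyN D ctx (fun a => expo (o a)) := by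
  have h1 := PolyC.afterTrue ho
  have h2 : PolyN D ctx (fun a => Nat.size (bval (afterTrue (o a)))) :=
    (PolyN.length (bin_bits ⟨_, h1, fun _ _ => rfl⟩)).congr (fun _ _ => Nat.size_eq_bits_len _)
  exact PolyN.sub (PolyN.sub h2 (PolyN.const 1)) (PolyN.length (PolyC.takeTrue ho))

theorem poly_outS {c t e : α → ℕ} (hc : PolyN D ctx c) (ht : PolyN D ctx t)
    (he : PolyN D ctx e) : PolyC D ctx (fun a => outS (c a) (t a) (e a)) := by
  have hb := poly_bst hc ht he
  have hT := poly_two_pow ht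
  have hs := (poly_size ht).add (PolyN.const 2)
  exact PolyC.append (hs.mul hb) (PolyC.cons false
    (bin_bits (bin_pow (bin_ofN (hT.add (PolyN.const 1))) hb)))

/-! ### The copies -/

theorem poly_copies {G : α → BGraph} {s c t : α → ℕ}
    (hw : PolyC D ctx (fun x => inCode (G x) (s x))) (hc : PolyN D ctx c) (ht : PolyN D ctx t) :
    PolyC D ctx (fun x => inCode (copies (c x) (G x)) (t x)) := by
  have ha := poly_a hw
  have hb := poly_b hw
  refine poly_inCode (hc.mul ha) (hc.mul hb) ht ?_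
  have A1 := upN (n := fun x => c x * (G x).a) ha
  have B1 := upN (n := fun x => c x * (G x).a) hb
  have W1 := up (n := fun x => c x * (G x).a) hw
  have I1 := last (D := D) (ctx := ctx) (n := fun x => c x * (G x).a)
  let n2 : α × ℕ → ℕ := fun p => c p.1 * (G p.1).b
  have A2 := upN (n := n2) A1
  have B2 := upN (n := n2) B1
  have W2 := up (n := n2) W1
  have I2 := upN (n := n2) I1
  have J2 := last (D := fun p : α × ℕ => D p.1 ∧ p.2 < c p.1 * (G p.1).a)
    (ctx := PolyTime.lift ctx ++ [fun p : α × ℕ => un p.2]) (n := n2)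
  have hapos : ∀ q : (α × ℕ) × ℕ, ((D q.1.1 ∧ q.1.2 < c q.1.1 * (G q.1.1).a) ∧ q.2 < n2 q.1) →
      0 < (G q.1.1).a := by
    rintro q ⟨⟨_, h⟩, _⟩
    rcases Nat.eq_zero_or_pos (G q.1.1).a with h0 | h0
    · rw [h0, Nat.mul_zero] at h; omega
    · exact h0
  have hbpos : ∀ q : (α × ℕ) × ℕ, ((D q.1.1 ∧ q.1.2 < c q.1.1 * (G q.1.1).a) ∧ q.2 < n2 q.1) →
      0 < (G q.1.1).b := by
    rintro q ⟨_, h⟩
    rcases Nat.eq_zero_or_pos (G q.1.1).b with h0 | h0
    · simp only [n2] at h
      rw [h0, Nat.mul_zero] at h; omega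
    · exact h0
  exact (PolyB.natEq (PolyN.div I2 A2 hapos) (PolyN.div J2 B2 hbpos)).and
    (poly_F W2 (PolyN.mod I2 A2 hapos) (PolyN.mod J2 B2 hbpos))

end Pool.Agent.Lib.SubBisX
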