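import Pool.Agent.Lib.SubBisX.System

/-!
General form of `System.lean`: estimates of the binary logarithms of the numbers of independent subsets
of all sets of vertices of a bipartite graph, from independent copies of any random value whose mean is
close to `logZ`, are good for seven eighths of the seeds; good estimates give a good system in the sense
of `P7sG.Good`.
-/

set_option autoImplicit false

open Finset
open scoped BigOperators

namespace Pool.Agent.Lib.SubBisX.Gen

open Pool.Agent.Lib.Pa7c826 Pool.Agent.Lib.Pa7c826t Node Sys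

/-- the estimates `e` are within `δ` of the logarithms, and exact without left vertices -/
def GoodE (n a : ℕ) (adj : ℕ → ℕ → Bool) (δ : ℝ) (e : Finset ℕ → ℕ) : Prop :=
  (∀ W ⊆ range n, |(e W : ℝ) - Real.logb 2 (ind adj W)| ≤ δ) ∧
    ∀ W : Finset ℕ, (∀ v ∈ W, ¬ v < a) → ind adj W = 2 ^ e W

/-- the estimates from the copies `s` of the random value `V` with the denominator `D` -/
def eG {Ω : Type*} (n a : ℕ) (V : Finset ℕ → Ω → ℤ) (D : ℕ) {K : ℕ} (s : Fin K → Ω)
    (W : Finset ℕ) : ℕ :=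
  eW n a W (∑ k, V W (s k)) (K * D)

variable {n a : ℕ} {adj : ℕ → ℕ → Bool}

open Classical in
/-- **Most seeds are good.** -/
theorem good_seedsE {Ω : Type*} [Fintype Ω] [Nonempty Ω] {V : Finset ℕ → Ω → ℤ} {D K κ : ℕ}
    (hD : 0 < D) (hK : 0 < K) (hs : ∀ u v, adj u v = adj v u)
    (hbip : ∀ u v, adj u v = true → (u < a ↔ ¬ v < a)) {δ₁ δ₂ B δ : ℝ} (hB : 0 < B)
    (hδ₂ : 0 < δ₂)
    (hcore : ∀ W ⊆ range n,
      |(Reg.av fun w => (V W w : ℝ)) / D - Bounds.logZ (FW n a adj κ W)| ≤ δ₁)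
    (hrange : ∀ W ⊆ range n, ∀ w, |(V W w : ℝ)| ≤ D * B)
    (hcond : 8 * B ^ 2 * (n + 3) ≤ K * δ₂ ^ 2)
    (hδ : δ₁ + δ₂ + n * (2 / 2 ^ κ) + 1 ≤ δ) (hn : 0 < n) :
    8 * (univ.filter fun s : Fin K → Ω => ¬ GoodE n a adj δ (eG n a V D s)).card ≤
      Fintype.card (Fin K → Ω) := by
  have hn0 : (0 : ℝ) < n := by exact_mod_cast hn
  have hD0 : (0 : ℝ) < D := by exact_mod_cast hD
  set f : Finset (Fin n) → Ω → ℝ := fun I w => (V (toN I) w : ℝ) / D with hf
  have hfB : ∀ I w, |f I w| ≤ B := by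
    intro I w
    rw [hf]
    simp only
    rw [abs_div, abs_of_pos hD0, div_le_iff₀ hD0]
    refine (hrange _ (toN_subset I) w).trans (le_of_eq (by ring))
  have hcond' : 8 * B ^ 2 * Real.log (16 * Fintype.card (Finset (Fin n))) ≤ K * δ₂ ^ 2 := by
    have h1 : Real.log (16 * Fintype.card (Finset (Fin n))) ≤ n + 3 := by
      rw [Fintype.card_finset, Fintype.card_fin]
      push_cast
      have e1 : (16 : ℝ) * 2 ^ n = 2 ^ (n + 4) := by ring
      rw [e1, Real.log_pow]
      have h2 := Real.log_two_lt_d9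
      push_cast
      nlinarith
    refine le_trans (mul_le_mul_of_nonneg_left h1 (by positivity)) hcond
  have hbad := SubBisX.seed_bad hB f hfB K hK hδ₂ hcond'
  refine le_trans (Nat.mul_le_mul_left 8 (card_le_card ?_)) hbad
  intro s hs1
  rw [mem_filter] at hs1 ⊢
  refine ⟨mem_univ _, ?_⟩
  by_contra hcon
  push Not at hcon
  apply hs1.2
  refine ⟨fun W hW => ?_, fun W hW => ?_⟩
  · set I : Finset (Fin n) := univ.filter fun v : Fin n => (v : ℕ) ∈ W with hI
    have hIW : toN I = W := by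
      ext v
      rw [mem_toN]
      constructor
      · rintro ⟨h, hv⟩
        exact (mem_filter.1 hv).2
      · intro hv
        exact ⟨mem_range.1 (hW hv), mem_filter.2 ⟨mem_univ _, hv⟩⟩
    have h1 := hcon I
    have e3 : ∀ w, f I w = (V W w : ℝ) / D := by
      intro w
      rw [← hIW]
    have h2 : |SubBisX.EX (f I) - Bounds.logZ (FW n a adj κ W)| ≤ δ₁ := by
      have h4 : SubBisX.EX (f I) = (Reg.av fun w => (V W w : ℝ)) / D := by
        unfold SubBisX.EX Reg.av
        rw [sum_congr rfl fun w _ => e3 w, ← sum_div]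
        ring
      rw [h4]
      exact hcore W hW
    have h5 : SubBisX.av (f I) s = ((∑ k, V W (s k) : ℤ) : ℝ) / ((K * D : ℕ) : ℝ) := by
      unfold SubBisX.av
      rw [sum_congr rfl fun k _ => e3 (s k), ← sum_div, div_div]
      push_cast
      rw [mul_comm]
    have h6 : |((∑ k, V W (s k) : ℤ) : ℝ) / ((K * D : ℕ) : ℝ) -
        Bounds.logZ (FW n a adj κ W)| ≤ δ₁ + δ₂ := by
      rw [← h5]
      have h7 := abs_sub_le (SubBisX.av (f I) s) (SubBisX.EX (f I))
        (Bounds.logZ (FW n a adj κ W))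
      linarith
    exact (eW_err hW hs hbip (Nat.mul_pos hK hD) h6).trans hδ
  · exact eW_leaf _ _ hW hbip

/-- **Good estimates give a good system.** -/
theorem good_systemE {e : Finset ℕ → ℕ} {δ : ℝ} (hs : ∀ u v, adj u v = adj v u)
    (hbip : ∀ u v, adj u v = true → (u < a ↔ ¬ v < a)) (hg : GoodE n a adj δ e) {dm : ℕ}
    (hdm : n + δ ≤ dm) :
    P7sG.Good (ch adj) (fun X => e X.2) (fun X => (ind adj X.2 : ℝ)) (ok n a) a dm
      ((2 : ℝ) ^ δ) := by
  have hl : ∀ u, adj u u = false := by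
    intro u
    by_contra h
    rw [Bool.not_eq_false] at h
    have := hbip u u h
    tauto
  have hpos : ∀ W : Finset ℕ, (0 : ℝ) < ind adj W := fun W => by
    exact_mod_cast ind_pos (adj := adj) W
  refine ⟨fun j X _ => hpos _, ?_, ?_, ?_, ?_, ?_, ?_⟩
  · rintro j ⟨i, W⟩ b hj ⟨h1, h2, h3⟩
    simp only at h1 h2 h3
    subst h1
    refine ⟨rfl, ?_, fun v hv => ?_⟩
    · unfold ch
      simp only
      split_ifs
      · exact (filter_subset _ _).trans ((erase_subset _ _).trans h2)
      · exact (erase_subset _ _).trans h2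
    · unfold ch
      simp only
      have h4 : v ∈ W.erase i ↔ i + 1 ≤ v := by
        rw [mem_erase, h3 v hv]
        omega
      split_ifs
      · rw [mem_filter, h4]
        refine ⟨fun h => h.1, fun h => ⟨h, ?_⟩⟩
        by_contra hcon
        rw [Bool.not_eq_false] at hcon
        exact (hbip i v hcon).1 hj hv
      · exact h4
  · rintro j ⟨i, W⟩ hj ⟨h1, h2, h3⟩
    simp only at h1 h2 h3
    subst h1
    have h4 := ind_erase hs hl ((h3 i hj).2 le_rfl)
    unfold ch
    simp only [Bool.false_eq_true, if_false, if_true]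
    exact_mod_cast h4
  · rintro j ⟨i, W⟩ ⟨h1, h2, h3⟩
    have h4 := abs_le.1 (hg.1 W h2)
    have h5 : Real.logb 2 (ind adj W) ≤ δ + e W := by linarith [h4.1]
    rw [Real.logb_le_iff_le_rpow (by norm_num) (hpos W),
      Real.rpow_add (by norm_num), Real.rpow_natCast] at h5
    exact h5
  · rintro j ⟨i, W⟩ ⟨h1, h2, h3⟩
    have h4 := abs_le.1 (hg.1 W h2)
    have h5 : (e W : ℝ) - δ ≤ Real.logb 2 (ind adj W) := by
      linarith [h4.2]
    rw [Real.le_logb_iff_rpow_le (by norm_num) (hpos W), Real.rpow_sub (by norm_num),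
      Real.rpow_natCast, div_le_iff₀ (by positivity)] at h5
    simp only
    linarith
  · rintro ⟨i, W⟩ ⟨h1, h2, h3⟩
    have h4 := hg.2 W (fun v hv hva => absurd ((h3 v hva).1 hv) (by omega))
    simp only
    rw [h4]
    push_cast
    rfl
  · rintro j ⟨i, W⟩ b hj ⟨h1, h2, h3⟩
    have h4 := abs_le.1 (hg.1 W h2)
    have h5 : Real.logb 2 (ind adj W) ≤ n := by
      rw [Real.logb_le_iff_le_rpow (by norm_num) (hpos W), Real.rpow_natCast]
      have h6 : ind adj W ≤ 2 ^ n := (ind_le_two_pow W).trans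
        (Nat.pow_le_pow_right (by norm_num) (by simpa using card_le_card h2))
      exact_mod_cast h6
    have h8 : (e W : ℝ) ≤ (dm : ℝ) := by
      linarith [h4.2]
    have h9 : e W ≤ dm := by exact_mod_cast h8
    simp only
    omega

/-- without vertices all estimates of the form `eW` are good -/
theorem goodE_zero (hbip : ∀ u v, adj u v = true → (u < a ↔ ¬ v < a)) {δ : ℝ} (hδ : 0 ≤ δ)
    {Ω : Type*} (V : Finset ℕ → Ω → ℤ) (D : ℕ) {K : ℕ} (s : Fin K → Ω) :
    GoodE 0 a adj δ (eG 0 a V D s) := by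
  refine ⟨fun W hW => ?_, fun W hW => eW_leaf _ _ hW hbip⟩
  rw [range_zero, subset_empty] at hW
  subst hW
  have h2 : eG 0 a V D s ∅ = 0 := by
    unfold eG eW
    rw [filter_empty, if_pos rfl, card_empty]
  rw [h2, ind_empty]
  simp only [Nat.cast_zero, Nat.cast_one, Real.logb_one, sub_self, abs_zero]
  exact hδ

end Pool.Agent.Lib.SubBisX.Gen
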