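import Pool.Agent.Lib.SubBisX.Regret

/-!
# The accelerated stochastic ascent on nested worlds: definitions

At level `r + 1` every vertex carries `s` fresh samples of a world of level `r`, each with a noise
vector with entries in `Fin N`.  The state is the pair `(z, S)`, `S` the weighted sum of the `z`'s
(weights `1, 2, 3, …`, total weight `wt r = r (r + 1) / 2`).
-/

open scoped BigOperators

namespace Pool.Agent.Lib.SubBisX.Acc

open Reg

/-- The randomness at one vertex of a world of level `r`. -/
def XA (m n s N : ℕ) : ℕ → Type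
  | 0 => Fin m
  | r + 1 => XA m n s N r × (Fin s → Fin n → XA m n s N r × Fin N)

instance fintypeXA (m n s N : ℕ) : ∀ r, Fintype (XA m n s N r)
  | 0 => inferInstanceAs (Fintype (Fin m))
  | r + 1 =>
    haveI := fintypeXA m n s N r
    inferInstanceAs (Fintype (XA m n s N r × (Fin s → Fin n → XA m n s N r × Fin N)))

instance nonemptyXA (m n s N : ℕ) [NeZero m] [NeZero N] : ∀ r, Nonempty (XA m n s N r)
  | 0 => inferInstanceAs (Nonempty (Fin m))
  | r + 1 =>
    haveI := nonemptyXA m n s N r
    inferInstanceAs (Nonempty (XA m n s N r × (Fin s → Fin n → XA m n s N r × Fin N)))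

/-- The digit used by the process itself. -/
def base (m n s N : ℕ) : ∀ r, XA m n s N r → Fin m
  | 0, x => x
  | r + 1, x => base m n s N r x.1

variable {m n s N : ℕ}

/-- The digits used by the process itself. -/
def dig (r : ℕ) (w : Fin n → XA m n s N r) : Fin n → Fin m := fun v => base m n s N r (w v)

/-- The world of the level below. -/
def low {r : ℕ} (w : Fin n → XA m n s N (r + 1)) : Fin n → XA m n s N r := fun v => (w v).1

/-- A sample: a world of level `r` with a noise vector. -/
abbrev Smp (m n s N r : ℕ) : Type := Fin n → XA m n s N r × Fin N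

/-- The samples at `v`. -/
def smp {r : ℕ} (w : Fin n → XA m n s N (r + 1)) (v : Fin n) : Fin s → Smp m n s N r := (w v).2

/-- The world of a sample. -/
def wd {r : ℕ} (b : Smp m n s N r) : Fin n → XA m n s N r := fun x => (b x).1

/-- The noise of a sample. -/
def nz {r : ℕ} (b : Smp m n s N r) : Fin n → ℤ := fun x => (((b x).2 : ℕ) : ℤ)

/-- The total weight of the first `r` steps. -/
def wt (r : ℕ) : ℕ := r * (r + 1) / 2

theorem wt_succ (r : ℕ) : wt (r + 1) = wt r + (r + 1) := by
  unfold wt
  have h : (r + 1) * (r + 1 + 1) = r * (r + 1) + 2 * (r + 1) := by ring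
  rw [h, Nat.add_mul_div_left _ _ (by norm_num)]

/-- The query point of step `r` from the state. -/
def qy (r : ℕ) (p : (Fin n → ℤ) × (Fin n → ℤ)) : Fin n → ℤ := fun v =>
  (p.2 v + (r + 1 : ℕ) * p.1 v) / (wt (r + 1) : ℤ)

/-- The sample gradient at `v`: base world `a`, sample `b`, state function `f` of level `r`. -/
def sg {r : ℕ} (g : Fin n → Fin m → (Fin n → ℤ) → ℤ)
    (f : (Fin n → XA m n s N r) → (Fin n → ℤ) × (Fin n → ℤ))
    (v : Fin n) (a : Fin n → XA m n s N r) (b : Smp m n s N r) : ℤ :=
  g v (base m n s N r (a v)) fun x => qy r (f (splice v a (wd b))) x + nz b x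

/-- The state `(z, S)` of the accelerated method. -/
def St (M : ℤ) (g : Fin n → Fin m → (Fin n → ℤ) → ℤ) :
    ∀ r, (Fin n → XA m n s N r) → (Fin n → ℤ) × (Fin n → ℤ)
  | 0, _ => (0, 0)
  | r + 1, w =>
    (fun v => clip M ((St M g r (low w)).1 v +
        (r + 1 : ℕ) * ∑ i : Fin s, sg g (St M g r) v (low w) (smp w v i)),
      fun v => (St M g r (low w)).2 v +
        (r + 1 : ℕ) * clip M ((St M g r (low w)).1 v +
          (r + 1 : ℕ) * ∑ i : Fin s, sg g (St M g r) v (low w) (smp w v i)))

/-- The averaged point after `r` steps. -/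
def xo (M : ℤ) (g : Fin n → Fin m → (Fin n → ℤ) → ℤ) (r : ℕ) (w : Fin n → XA m n s N r) :
    Fin n → ℤ := fun v => (St M g r w).2 v / (wt r : ℤ)

/-- The mean gradient at `v` over the noise. -/
noncomputable def mg (N : ℕ) (g : Fin n → Fin m → (Fin n → ℤ) → ℤ) (v : Fin n) (u : Fin m)
    (y : Fin n → ℤ) : ℝ :=
  av fun ζ : Fin n → Fin N => ((g v u fun x => y x + (((ζ x : ℕ) : ℤ)) : ℤ) : ℝ)

end Pool.Agent.Lib.SubBisX.Acc
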