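import Pool.Agent.Lib.SubBisX.GenSys
import Pool.Agent.Lib.SubBisX.Prob

/-!
General form of `Prob.lean`: the success probability over uniform random bits, the first bits of the
tape are the seed, the later ones the coins of the population.
-/

set_option autoImplicit false

open Finset
open scoped BigOperators

namespace Pool.Agent.Lib.SubBisX.Gen

open Pool.Agent.Lib.Pa7c826 Pool.Agent.Lib.Pa7c826t Node Sys P7sG Prob

variable {n a : ℕ} {adj : ℕ → ℕ → Bool} {S : Type} [Fintype S] [Nonempty S]

/-- the final size of the population for the estimates `e` and the coins read after `off` bits -/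
def cntE (n a : ℕ) (adj : ℕ → ℕ → Bool) (e : Finset ℕ → ℕ) (K cap dm off : ℕ) (l : List Bool) :
    ℕ :=
  (runC (ch adj) (fun X => e X.2) cap (coinT l off cap dm)
    (List.replicate K (0, range n)) a).length

open Classical in
/-- most tapes give good seeds -/
theorem bad_tapesE {L : ℕ} {dec : (ℕ → Bool) → S} (hdec : Seed.Unif L dec) {bad : S → Prop}
    (hbad : 8 * (univ.filter bad).card ≤ Fintype.card S) :
    8 * (univ.filter fun σ : Fin L → Bool => bad (dec (str (List.ofFn σ)))).card ≤
        Fintype.card (Fin L → Bool) := by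
  have h1 := hdec.2 false (fun s => if bad s then (1 : ℝ) else 0)
  have hc : (0 : ℝ) < Fintype.card S := by
    have : 0 < Fintype.card S := Fintype.card_pos
    exact_mod_cast this
  have hc' : (0 : ℝ) < Fintype.card (Fin L → Bool) := by
    have : 0 < Fintype.card (Fin L → Bool) := Fintype.card_pos
    exact_mod_cast this
  have e1 : Reg.av (fun s : S => if bad s then (1 : ℝ) else 0) =
      ((univ.filter bad).card : ℝ) / Fintype.card S := by
    unfold Reg.av
    rw [card_filter]
    push_cast
    rfl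
  have e2 : Reg.av (fun σ : Fin L → Bool => if bad (dec (Seed.ext false σ)) then (1 : ℝ) else 0) =
      ((univ.filter fun σ : Fin L → Bool => bad (dec (str (List.ofFn σ)))).card : ℝ) /
        Fintype.card (Fin L → Bool) := by
    unfold Reg.av
    rw [card_filter]
    push_cast
    simp only [str_ofFn]
  have h3 : (8 : ℝ) * ((univ.filter bad).card : ℝ) ≤ Fintype.card S := by exact_mod_cast hbad
  have h4 := e2.symm.trans (h1.trans e1)
  have h5 : (8 : ℝ) * (((univ.filter fun σ : Fin L → Bool =>
      bad (dec (str (List.ofFn σ)))).card : ℝ) / Fintype.card (Fin L → Bool)) ≤ 1 := by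
    rw [h4, ← mul_div_assoc, div_le_one hc]
    exact h3
  rw [← mul_div_assoc, div_le_one hc'] at h5
  exact_mod_cast h5

omit [Nonempty S] in
/-- the seed depends on the first bits only -/
theorem dec_append {L r : ℕ} {dec : (ℕ → Bool) → S} (hdec : Seed.Unif L dec)
    (σ : Fin L → Bool) (ρ : Fin r → Bool) :
    dec (str (List.ofFn (Fin.append σ ρ))) = dec (str (List.ofFn σ)) := by
  refine hdec.1 _ _ fun i hi => ?_
  rw [str_ofFn, str_ofFn, Seed.ext_lt _ _ hi, Seed.ext_lt _ _ (by omega : i < L + r)]
  exact Fin.append_left σ ρ ⟨i, hi⟩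

open Classical in
/-- **The success probability of the approximation scheme.** -/
theorem prob_SE {L : ℕ} {dec : (ℕ → Bool) → S} (hdec : Seed.Unif L dec) {e : S → Finset ℕ → ℕ}
    {δ : ℝ} (hbad : 8 * (univ.filter fun s => ¬ GoodE n a adj δ (e s)).card ≤ Fintype.card S)
    (ha : a ≤ n) (hs : ∀ u v, adj u v = adj v u)
    (hbip : ∀ u v, adj u v = true → (u < a ↔ ¬ v < a)) {K cap m dm : ℕ} {t : ℝ} (ht : 1 ≤ t)
    (hdm : n + δ ≤ dm)
    (hK0 : 0 < K) (hK : 8 * (a * ((2 : ℝ) ^ δ) ^ 2 * t ^ 2) ≤ K)
    (hcap : 2 * ((2 : ℝ) ^ δ) ^ 2 * K ≤ cap)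
    (hm : L + a * cap * 2 * dm ≤ m) :
    3 * 2 ^ m ≤ 4 * (univ.filter fun τ : Fin m → Bool =>
      |(cntE n a adj (e (dec (str (List.ofFn τ)))) K cap dm L (List.ofFn τ) : ℝ) *
          2 ^ e (dec (str (List.ofFn τ))) (range n) -
        K * ind adj (range n)| ≤ K * ind adj (range n) / t).card := by
  obtain ⟨r, rfl⟩ : ∃ r, m = L + r := ⟨m - L, by omega⟩
  refine split_tapes _ (fun σ => ¬ GoodE n a adj δ (e (dec (str (List.ofFn σ)))))
    (by
      have h := bad_tapesE (bad := fun s => ¬ GoodE n a adj δ (e s)) hdec (by convert hbad)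
      convert h) ?_
  intro σ hσ
  rw [not_not] at hσ
  have hsys := good_systemE hs hbip hσ hdm
  have h1 := av_tape hsys (cap := cap) (K := K) (root := (0, range n)) (ok_root ha) ht hcap hK0
    (m := r) 0 (by omega)
  have hK' : (0 : ℝ) < K := by exact_mod_cast hK0
  have e1 : ∀ ρ : Fin r → Bool,
      (|(cntE n a adj (e (dec (str (List.ofFn (Fin.append σ ρ))))) K cap dm L
          (List.ofFn (Fin.append σ ρ)) : ℝ) *
        2 ^ e (dec (str (List.ofFn (Fin.append σ ρ)))) (range n) -
        K * ind adj (range n)| ≤ K * ind adj (range n) / t) ↔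
      (|((runC (ch adj) (fun X => e (dec (str (List.ofFn σ))) X.2) cap
        (coinT (List.ofFn ρ) 0 cap dm) (List.replicate K (0, range n)) a).length : ℝ) *
          2 ^ e (dec (str (List.ofFn σ))) (range n) -
        K * ind adj (range n)| ≤ K * ind adj (range n) / t) := by
    intro ρ
    unfold cntE
    rw [dec_append hdec, coinT_append]
  have h2 : (univ.filter fun ρ : Fin r → Bool =>
      ¬ (|(cntE n a adj (e (dec (str (List.ofFn (Fin.append σ ρ))))) K cap dm L
          (List.ofFn (Fin.append σ ρ)) : ℝ) *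
        2 ^ e (dec (str (List.ofFn (Fin.append σ ρ)))) (range n) -
        K * ind adj (range n)| ≤ K * ind adj (range n) / t)) =
      univ.filter fun ρ : Fin r → Bool =>
      ¬ (|((runC (ch adj) (fun X => e (dec (str (List.ofFn σ))) X.2) cap
        (coinT (List.ofFn ρ) 0 cap dm) (List.replicate K (0, range n)) a).length : ℝ) *
          2 ^ e (dec (str (List.ofFn σ))) (range n) -
        K * ind adj (range n)| ≤ K * ind adj (range n) / t) :=
    filter_congr fun ρ _ => not_congr (e1 ρ)
  rw [h2]
  set P : (Fin r → Bool) → Prop := fun ρ =>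
    |((runC (ch adj) (fun X => e (dec (str (List.ofFn σ))) X.2) cap
        (coinT (List.ofFn ρ) 0 cap dm) (List.replicate K (0, range n)) a).length : ℝ) *
          2 ^ e (dec (str (List.ofFn σ))) (range n) -
        K * ind adj (range n)| ≤ K * ind adj (range n) / t with hP
  have h3 : 1 - a * ((2 : ℝ) ^ δ) ^ 2 * t ^ 2 / K ≤
      ((univ.filter P).card : ℝ) / Fintype.card (Fin r → Bool) := by
    refine h1.trans (le_of_eq ?_)
    unfold P7sG.av
    rw [card_filter]
    push_cast
    rfl
  have hcr : (0 : ℝ) < Fintype.card (Fin r → Bool) := by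
    have : 0 < Fintype.card (Fin r → Bool) := Fintype.card_pos
    exact_mod_cast this
  have h4 : a * ((2 : ℝ) ^ δ) ^ 2 * t ^ 2 / K ≤ 1 / 8 := by
    rw [div_le_iff₀ hK']
    linarith
  have h5 : (7 / 8 : ℝ) * Fintype.card (Fin r → Bool) ≤ (univ.filter P).card := by
    rw [le_div_iff₀ hcr] at h3
    refine le_trans (mul_le_mul_of_nonneg_right ?_ hcr.le) h3
    linarith
  have h6 : ((univ.filter P).card : ℝ) + (univ.filter fun ρ => ¬ P ρ).card =
      Fintype.card (Fin r → Bool) := by
    have := card_filter_add_card_filter_not (s := (univ : Finset (Fin r → Bool))) P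
    rw [card_univ] at this
    exact_mod_cast this
  have h7 : (8 : ℝ) * (univ.filter fun ρ => ¬ P ρ).card ≤ Fintype.card (Fin r → Bool) := by
    linarith
  have h8 : ((8 * (univ.filter fun ρ => ¬ P ρ).card : ℕ) : ℝ) ≤
      (Fintype.card (Fin r → Bool) : ℕ) := by
    rw [Nat.cast_mul]
    exact h7
  exact Nat.cast_le.1 h8

open Classical in
/-- **The success probability of the estimate of the logarithm.** -/
theorem prob_PE {L : ℕ} {dec : (ℕ → Bool) → S} (hdec : Seed.Unif L dec) {e : S → Finset ℕ → ℕ}
    {δ : ℝ} (hbad : 8 * (univ.filter fun s => ¬ GoodE n a adj δ (e s)).card ≤ Fintype.card S)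
    {m : ℕ} (hm : L ≤ m) :
    3 * 2 ^ m ≤ 4 * (univ.filter fun τ : Fin m → Bool =>
      |(e (dec (str (List.ofFn τ))) (range n) : ℝ) - Real.logb 2 (ind adj (range n))| ≤
        δ).card := by
  obtain ⟨r, rfl⟩ : ∃ r, m = L + r := ⟨m - L, by omega⟩
  refine split_tapes _ (fun σ => ¬ GoodE n a adj δ (e (dec (str (List.ofFn σ)))))
    (by
      have h := bad_tapesE (bad := fun s => ¬ GoodE n a adj δ (e s)) hdec (by convert hbad)
      convert h) ?_
  intro σ hσ
  rw [not_not] at hσ
  have h1 : (univ.filter fun ρ : Fin r → Bool =>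
      ¬ (|(e (dec (str (List.ofFn (Fin.append σ ρ)))) (range n) : ℝ) -
        Real.logb 2 (ind adj (range n))| ≤ δ)) = ∅ := by
    rw [filter_eq_empty_iff]
    intro ρ _
    rw [not_not, dec_append hdec]
    exact hσ.1 _ Subset.rfl
  rw [h1, card_empty]
  exact Nat.zero_le _

end Pool.Agent.Lib.SubBisX.Gen
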