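import Pool.Agent.Lib.SubBisX.AccSys
import Pool.Agent.Lib.SubBisX.AccSeed
import Pool.Agent.Lib.SubBisX.AccTabDefs
import Pool.Agent.Lib.SubBisX.GenProb

/-!
The accelerated method: the success probability over uniform random bits.
-/

set_option autoImplicit false

open Finset
open scoped BigOperators

namespace Pool.Agent.Lib.SubBisX.AccS

open Pool.Agent.Lib.Pa7c826 Pool.Agent.Lib.Pa7c826t Node Sys Gen SubBis Prob AccTab

/-- the number of bits of the seed -/
def off (n q : ℕ) : ℕ :=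
  nbitsA (ParA.mu q) (2 * ParA.nu q + 7) n (ParA.ss q) (ParA.TT q) (ParA.KK n q)

/-- the seed read off a stream of bits -/
def dec (n q : ℕ) (b : ℕ → Bool) : Seed n q :=
  decSA (ParA.mu q) (2 * ParA.nu q + 7) n (ParA.ss q) (ParA.TT q) (ParA.KK n q) b

/-- the seed read off the tape -/
def seedT (n q : ℕ) (l : List Bool) : Seed n q := dec n q (str l)

/-- the estimate of the tape -/
def esT (n a : ℕ) (adj : ℕ → ℕ → Bool) (q : ℕ) (l : List Bool) (W : Finset ℕ) : ℕ :=
  es n a adj q (seedT n q l) W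

/-- the final size of the population -/
def cntT (n a : ℕ) (adj : ℕ → ℕ → Bool) (q K cap : ℕ) (l : List Bool) : ℕ :=
  cntE n a adj (esT n a adj q l) K cap (9 * n + 1) (off n q) l

theorem unif_dec (n q : ℕ) : SubBisX.Seed.Unif (off n q) (dec n q) := unif_decSA _ _ _ _ _ _

variable {n a : ℕ} {adj : ℕ → ℕ → Bool} {q : ℕ}

open Classical in
/-- **The success probability of the approximation scheme.** -/
theorem prob_S
    (hq : 1 ≤ q) (ha : a ≤ n) (hs : ∀ u v, adj u v = adj v u)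
    (hbip : ∀ u v, adj u v = true → (u < a ↔ ¬ v < a)) {K cap m : ℕ} {t : ℝ} (ht : 1 ≤ t)
    (hK0 : 0 < K) (hK : 8 * (a * ((2 : ℝ) ^ ((8 : ℝ) * n / q + 1)) ^ 2 * t ^ 2) ≤ K)
    (hcap : 2 * ((2 : ℝ) ^ ((8 : ℝ) * n / q + 1)) ^ 2 * K ≤ cap)
    (hm : off n q + a * cap * 2 * (9 * n + 1) ≤ m) :
    3 * 2 ^ m ≤ 4 * (univ.filter fun τ : Fin m → Bool =>
      |(cntT n a adj q K cap (List.ofFn τ) : ℝ) * 2 ^ esT n a adj q (List.ofFn τ) (range n) -
        K * ind adj (range n)| ≤ K * ind adj (range n) / t).card := by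
  have hdm : (n : ℝ) + ((8 : ℝ) * n / q + 1) ≤ ((9 * n + 1 : ℕ) : ℝ) := by
    have h7 : (8 : ℝ) * n / q ≤ 8 * n := div_le_self (by positivity) (by exact_mod_cast hq)
    push_cast
    linarith
  exact prob_SE (unif_dec n q) (e := es n a adj q) (good_seeds hq hs hbip) ha hs hbip ht hdm
    hK0 hK hcap hm

open Classical in
/-- **The success probability of the estimate of the logarithm.** -/
theorem prob_P
    (hq : 1 ≤ q) (hs : ∀ u v, adj u v = adj v u)
    (hbip : ∀ u v, adj u v = true → (u < a ↔ ¬ v < a)) {m : ℕ} (hm : off n q ≤ m) :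
    3 * 2 ^ m ≤ 4 * (univ.filter fun τ : Fin m → Bool =>
      |(esT n a adj q (List.ofFn τ) (range n) : ℝ) - Real.logb 2 (ind adj (range n))| ≤
        8 * n / q + 1).card :=
  prob_PE (unif_dec n q) (e := es n a adj q) (good_seeds hq hs hbip) hm

end Pool.Agent.Lib.SubBisX.AccS
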