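import Pool.Agent.Lib.SubBisX.LogDefs
import Pool.Agent.Lib.Pa7c826m.Defs
import Pool.Agent.Lib.Pa7c826.Transfer

/-!
From approximation for small errors to approximation in a given time.

Proof. On input `1^s 0 inCode G t` and random bits `r` compute `inCode G (max s t)` and take from `r`
its first `m.eval (inCode G (max s t)).length` bits, then run the given machine: it is `Good` for
precision `max s t`, hence for precision `t` (`Good` with `1 / max s t ≤ 1 / t`). `max s t ≥ s ≥ τ`.
The length of `inCode G (max s t)` is at most the length of `padCode G s t`, so the polynomial `m`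
(monotone, `eval_mono`) may be kept. Counting: `RCount.lean` of Pa7c826n (only a prefix of the random
bits is used). Machine: as `machine` in Pa7c826n/RMach.lean (`PolyC.take`, `PolyC.applyTM2`).
-/

namespace Pool.Agent.Lib.SubBisX

open Pool.Agent.Lib.Pa7c826 Pool.Agent.Lib.PolyTime

theorem padCode_eq (G : BGraph) (s t : ℕ) : padCode G s t = un s ++ false :: inCode G t := rfl

theorem padCode_length (G : BGraph) (s t : ℕ) :
    (padCode G s t).length = s + 1 + (inCode G t).length := by
  rw [padCode_eq, List.length_append, un_length, List.length_cons]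
  omega

theorem inCode_max (G : BGraph) (s t : ℕ) :
    inCode G (max s t) = un (s + (t - s)) ++ false :: afterTrue (inCode G t) := by
  have h : max s t = s + (t - s) := by omega
  rw [h, inCode_eq, inCode_eq, afterTrue_un]

/-- the output for a smaller error is good -/
theorem Good.mono {G : BGraph} {t t' : ℕ} {o : List Bool} (ht : 1 ≤ t) (htt : t ≤ t')
    (h : Good G t' o) : Good G t o := by
  unfold Good at *
  refine h.trans ?_
  have h1 : (1 : ℚ) ≤ t := by exact_mod_cast ht
  have h2 : (t : ℚ) ≤ t' := by exact_mod_cast htt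
  exact div_le_div_of_nonneg_left (by positivity) (by linarith) h2

theorem hasRTime_of {τ : ℕ → ℝ}
    (h : Pa7c826m.HasRApx fun G t => τ (G.a + G.b) ≤ t) : HasRTime τ := by
  obtain ⟨m, f, hf, hgood⟩ := h
  let M : BGraph → ℕ → ℕ → ℕ := fun G s t => m.eval (inCode G (max s t)).length
  have hM : ∀ G s t, M G s t ≤ m.eval (padCode G s t).length := by
    intro G s t
    refine eval_mono _ ?_
    rw [padCode_length, inCode_length, inCode_length]
    omega
  have hτ : ∀ (G : BGraph) (s t : ℕ), τ (G.a + G.b) ≤ s → τ (G.a + G.b) ≤ (max s t : ℕ) := by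
    intro G s t hs
    refine hs.trans ?_
    exact_mod_cast le_max_left s t
  refine ⟨m, fun G s t r => f G (max s t) (r.take (M G s t)), ?_, ?_⟩
  · -- the machine
    let D : BGraph × ℕ × ℕ × List Bool → Prop := fun x =>
      τ (x.1.a + x.1.b) ≤ x.2.1 ∧ 1 ≤ x.2.2.1 ∧
        x.2.2.2.length = m.eval (padCode x.1 x.2.1 x.2.2.1).length
    let enc : BGraph × ℕ × ℕ × List Bool → List Bool := fun x =>
      padCode x.1 x.2.1 x.2.2.1 ++ x.2.2.2
    have hw : PolyC D [enc] enc := PolyC.var (by simp)
    have henc : ∀ x, enc x = un x.2.1 ++ false :: (inCode x.1 x.2.2.1 ++ x.2.2.2) := by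
      intro x
      show padCode x.1 x.2.1 x.2.2.1 ++ x.2.2.2 = _
      rw [padCode_eq, List.append_assoc, List.cons_append]
    have hs : PolyN D [enc] (fun x => x.2.1) :=
      (poly_tOf hw).congr (fun x _ => by rw [henc, tOf, takeWhile_un, un_length])
    have hv : PolyC D [enc] (fun x => inCode x.1 x.2.2.1 ++ x.2.2.2) :=
      hw.afterTrue.congr (fun x _ => by rw [henc, afterTrue_un])
    have ht : PolyN D [enc] (fun x => x.2.2.1) :=
      (poly_tOf hv).congr (fun x _ => tOf_append x.1 x.2.2.1 x.2.2.2)
    have hlen : PolyN D [enc] (fun x => (inCode x.1 x.2.2.1).length) :=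
      (((poly_tOf hv).add ((poly_aOf hv).add ((poly_bOf hv).add
        ((poly_aOf hv).mul (poly_bOf hv))))).add (PolyN.const 3)).congr (fun x _ =>
          lenOf_append x.1 x.2.2.1 x.2.2.2)
    have hpre : PolyC D [enc] (fun x => inCode x.1 x.2.2.1) :=
      (PolyC.take hv hlen).congr (fun x _ => List.take_left)
    have hsuf : PolyC D [enc] (fun x => x.2.2.2) :=
      (PolyC.drop hv hlen).congr (fun x _ => List.drop_left)
    have hcode : PolyC D [enc] (fun x => inCode x.1 (max x.2.1 x.2.2.1)) :=
      (PolyC.append (hs.add (PolyN.sub ht hs)) (PolyC.cons false hpre.afterTrue)).congr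
        (fun x _ => (inCode_max x.1 x.2.1 x.2.2.1).symm)
    have hM' : PolyN D [enc] (fun x => M x.1 x.2.1 x.2.2.1) :=
      PolyN.polyEval (PolyN.length hcode) m
    have hin : PolyC D [enc] (fun x => inCode x.1 (max x.2.1 x.2.2.1) ++
        x.2.2.2.take (M x.1 x.2.1 x.2.2.1)) := hcode.append (PolyC.take hsuf hM')
    have hcall : PolyC D [enc] (fun x => f x.1 (max x.2.1 x.2.2.1)
        (x.2.2.2.take (M x.1 x.2.1 x.2.2.1))) := by
      refine PolyC.applyTM2 hf _ _ hin ?_
      rintro ⟨G, s, t, r⟩ ⟨h1, h2, h3⟩
      refine ⟨⟨(G, max s t, r.take (M G s t)), hτ G s t h1, ?_, ?_⟩, rfl, rfl⟩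
      · have h2' : 1 ≤ t := h2
        show 1 ≤ max s t
        omega
      · show (r.take (M G s t)).length = M G s t
        have h3' : r.length = m.eval (padCode G s t).length := h3
        rw [List.length_take, h3', min_eq_left (hM G s t)]
    exact PolyC.toTM2 enc (fun x => f x.1 (max x.2.1 x.2.2.1)
      (x.2.2.2.take (M x.1 x.2.1 x.2.2.1))) id hcall
  · intro G s t hs ht
    obtain ⟨j, hj⟩ := Nat.exists_eq_add_of_le (hM G s t)
    rw [hj]
    have h3 := hgood G (max s t) (hτ G s t hs) (le_max_of_le_right ht)
    have h4 : Nat.card {r : Fin (M G s t + j) → Bool //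
        Good G (max s t) (f G (max s t) ((List.ofFn r).take (M G s t)))} ≤
        Nat.card {r : Fin (M G s t + j) → Bool //
          Good G t (f G (max s t) ((List.ofFn r).take (M G s t)))} := by
      refine Nat.card_le_card_of_injective (fun r => ⟨r.1, ?_⟩) ?_
      · exact Good.mono ht (le_max_right s t) r.2
      · intro r r' hrr
        simp only [Subtype.mk.injEq] at hrr
        exact Subtype.ext hrr
    rw [card_prefix (M G s t) j (fun l => Good G (max s t) (f G (max s t) l))] at h4
    have h5 : 3 * 2 ^ M G s t ≤ 4 * Nat.card {r : Fin (M G s t) → Bool //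
        Good G (max s t) (f G (max s t) (List.ofFn r))} := h3
    calc 3 * 2 ^ (M G s t + j) = (3 * 2 ^ M G s t) * 2 ^ j := by rw [pow_add]; ring
      _ ≤ (4 * Nat.card {r : Fin (M G s t) → Bool //
        Good G (max s t) (f G (max s t) (List.ofFn r))}) * 2 ^ j :=
          Nat.mul_le_mul_right _ h5
      _ = 4 * (Nat.card {r : Fin (M G s t) → Bool //
        Good G (max s t) (f G (max s t) (List.ofFn r))} * 2 ^ j) := by ring
      _ ≤ _ := Nat.mul_le_mul_left _ h4

end Pool.Agent.Lib.SubBisX
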