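import Pool.Agent.Lib.SubBisX.ParA
import Pool.Agent.Lib.SubBisX.ParPoly

/-!
The parameters of the accelerated method in polynomial time.
-/

namespace Pool.Agent.Lib.SubBisX.ParA

open Finset Pool.Agent.Lib.PolyTime Pool.Agent.Lib.Pa7c826 Pool.Agent.Lib.P8e91ed.PT

variable {α : Type*} {D : α → Prop} {ctx : List (α → List Bool)}

theorem poly_kap {q : α → ℕ} (hq : PolyN D ctx q) : PolyN D ctx (fun a => kap (q a)) :=
  (Par.poly_kap hq).congr (fun _ _ => rfl)

theorem poly_mu {q : α → ℕ} (hq : PolyN D ctx q) : PolyN D ctx (fun a => mu (q a)) :=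
  (Par.poly_mu hq).congr (fun _ _ => rfl)

theorem poly_two_mu {q : α → ℕ} (hq : PolyN D ctx q) : PolyN D ctx (fun a => 2 ^ mu (q a)) :=
  (Par.poly_two_mu hq).congr (fun _ _ => rfl)

theorem poly_qk {q : α → ℕ} (hq : PolyN D ctx q) :
    PolyN D ctx (fun a => q a * ((q a).size + 1)) := hq.mul (Par.poly_size hq).succ

theorem poly_nu {q : α → ℕ} (hq : PolyN D ctx q) : PolyN D ctx (fun a => nu (q a)) :=
  (Par.poly_size (poly_qk hq)).congr (fun _ _ => rfl)

theorem poly_ss {q : α → ℕ} (hq : PolyN D ctx q) : PolyN D ctx (fun a => ss (q a)) :=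
  (Par.poly_two_size (poly_qk hq)).congr (fun _ _ => rfl)

theorem poly_TT {q : α → ℕ} (hq : PolyN D ctx q) : PolyN D ctx (fun a => TT (q a)) :=
  ((PolyN.const 12).mul (poly_ss hq)).congr (fun _ _ => rfl)

/-- the number of bits of the noise -/
theorem poly_nn {q : α → ℕ} (hq : PolyN D ctx q) : PolyN D ctx (fun a => 2 * nu (q a) + 7) :=
  ((PolyN.const 2).mul (poly_nu hq)).add (PolyN.const 7)

theorem poly_two_nn {q : α → ℕ} (hq : PolyN D ctx q) :
    PolyN D ctx (fun a => 2 ^ (2 * nu (q a) + 7)) :=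
  ((PolyN.const 128).mul ((poly_ss hq).mul (poly_ss hq))).congr (fun a _ => by
    have h := NN_eq (q a)
    unfold NN at h
    rw [h]
    ring)

theorem poly_MM {q : α → ℕ} (hq : PolyN D ctx q) : PolyN D ctx (fun a => MM (q a)) :=
  ((PolyN.const 128).mul ((poly_ss hq).mul ((poly_ss hq).mul (poly_ss hq)))).congr (fun a _ => by
    rw [MM_eq]
    ring)

theorem poly_KK {n q : α → ℕ} (hn : PolyN D ctx n) (hq : PolyN D ctx q) :
    PolyN D ctx (fun a => KK (n a) (q a)) :=
  (Par.poly_KK hn hq).congr (fun _ _ => rfl)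

/-- the quality is computed in polynomial time from `n` and `t` in unary -/
theorem poly_qq {n t : α → ℕ} (hn : PolyN D ctx n) (ht : PolyN D ctx t) :
    PolyN D ctx (fun a => qq (n a) (t a)) := by
  have hs : PolyN D ctx (fun a => (t a).size + 1) := (Par.poly_size ht).succ
  have L := last (D := D) (ctx := ctx) (n := fun a => (t a).size + 1)
  have hT := poly_TT L
  have hS := poly_ss L
  have hn' := upN (n := fun a => (t a).size + 1) hn
  have ht' := upN (n := fun a => (t a).size + 1) ht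
  have h1 : PolyP (Dx D (fun a => (t a).size + 1)) (cx ctx)
      (fun p : α × ℕ => 1 ≤ p.2 ∧ tb (n p.1) p.2 ≤ t p.1) :=
    PolyP.and (PolyP.le (PolyN.const 1) L)
      (PolyP.binle (bin_pow (bin_ofN (hn'.mul hS).succ) hT) (bin_ofN ht'))
  exact (n_card (P := fun a i => 1 ≤ i ∧ tb (n a) i ≤ t a) hs h1).congr
    (fun a _ => by unfold qq; congr 1)

theorem tb_zero (n : ℕ) : tb n 0 = (n + 1) ^ 12 := by
  unfold tb TT
  have : ss 0 = 1 := by decide
  rw [this, mul_one]

/-- the table of the quality `qq n t` has at most `t + (n + 1) ^ 12` entries -/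
theorem tb_qq_le (n t : ℕ) : tb n (qq n t) ≤ t + (n + 1) ^ 12 := by
  rcases Nat.eq_zero_or_pos n with h | h
  · rw [h]
    unfold tb
    simp
  · rcases Nat.eq_zero_or_pos t with h1 | h1
    · have h2 : qq n t = 0 := by
        unfold qq
        rw [card_eq_zero, filter_eq_empty_iff]
        rintro i - ⟨-, h4⟩
        have : 0 < tb n i := Nat.pow_pos (by omega)
        omega
      rw [h2, tb_zero]
      omega
    · obtain ⟨q, hq, h2, -⟩ := qq_eq (t := t) h h1
      rw [hq]
      rcases Nat.eq_zero_or_pos q with h0 | h0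
      · rw [h0, tb_zero]
        omega
      · exact (h2 h0).trans (Nat.le_add_right _ _)

theorem poly_tb_qq {n t : α → ℕ} (hn : PolyN D ctx n) (ht : PolyN D ctx t) :
    PolyN D ctx (fun a => tb (n a) (qq (n a) (t a))) := by
  have hq := poly_qq hn ht
  refine n_pow (hn.mul (poly_ss hq)).succ (poly_TT hq) ?_
  exact (Bdd.ofN (ht.add (PolyN.pow hn.succ 12))).le (fun a _ => tb_qq_le (n a) (t a))

end Pool.Agent.Lib.SubBisX.ParA
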