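import Pool.Agent.Lib.P7sG.FinalS
import Pool.Agent.Lib.SubBisX.AccProb
import Pool.Agent.Lib.SubBisX.AccTabSeed
import Pool.Agent.Lib.SubBisX.ParAPoly
import Pool.Agent.Lib.SubBisX.PadTime

/-!
The number of independent sets of a bipartite graph with `n` vertices in time `2 ^ O(√n log n)`.
-/

set_option autoImplicit false

namespace Pool.Agent.Lib.SubBisX.AccF

open Finset Pool.Agent.Lib.PolyTime Pool.Agent.Lib.Pa7c826 Pool.Agent.Lib.Pa7c826t
open Pool.Agent.Lib.SubBisX Pool.Agent.Lib.P8e91ed.PT Pool.Agent.Lib.P7sG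

/-! ### Machines -/

section

variable {α : Type} {D : α → Prop} {ctx : List (α → List Bool)} {w : α → List Bool}

/-- The parameters of the estimate are computable. -/
structure QComp (D : α → Prop) (ctx : List (α → List Bool)) (w : α → List Bool)
    (q : α → ℕ) : Prop where
  qq : PolyN D ctx q
  N : PolyN D ctx (fun a => ParA.tb (nOf (w a)) (q a))

theorem QComp.tb {q : α → ℕ} (hq : QComp D ctx w q) :
    PolyN D ctx (fun x => (ParA.ss (q x) * nOf (w x) + 1) ^ ParA.TT (q x)) :=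
  hq.N.congr (fun x _ => by unfold ParA.tb; rw [mul_comm])

theorem poly_es (hw : PolyC D ctx w) {W : α → Finset ℕ} {q : α → ℕ}
    (hW : PolyS D ctx (fun x => nOf (w x)) W) (hq : QComp D ctx w q) {r : α → List Bool}
    (hr : PolyC D ctx r) :
    PolyN D ctx (fun x => AccS.esT (nOf (w x)) (aOf (w x)) (adjOf (w x)) (q x) (r x) (W x)) := by
  have hK := ParA.poly_KK (poly_nOf hw) hq.qq
  have h := AccTab.poly_eWA (μ := fun x => ParA.mu (q x)) (ν := fun x => 2 * ParA.nu (q x) + 7)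
    (s := fun x => ParA.ss (q x)) (c := q) (M := fun x => ParA.MM (q x))
    (T := fun x => ParA.TT (q x)) (κ := fun x => ParA.kap (q x))
    (K := fun x => ParA.KK (nOf (w x)) (q x))
    (den := fun x => ParA.KK (nOf (w x)) (q x) * (q x * ParA.MM (q x)))
    hw hW (ParA.poly_mu hq.qq) (ParA.poly_two_mu hq.qq) (ParA.poly_nn hq.qq)
    (ParA.poly_two_nn hq.qq) (ParA.poly_ss hq.qq) hq.qq (ParA.poly_MM hq.qq)
    (ParA.poly_TT hq.qq) (ParA.poly_kap hq.qq) hK (hK.mul (hq.qq.mul (ParA.poly_MM hq.qq)))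
    hq.tb hr
  exact h.congr (fun x _ => rfl)

theorem EComp_es (hw : PolyC D ctx w) {q : α → ℕ} (hq : QComp D ctx w q) {r : α → List Bool}
    (hr : PolyC D ctx r) :
    EComp D ctx (fun x => nOf (w x)) (fun x => aOf (w x)) (fun x X =>
      AccS.esT (nOf (w x)) (aOf (w x)) (adjOf (w x)) (q x) (r x) X.2) := by
  unfold EComp
  have lft : ∀ {t : α → List Bool}, PolyC D ctx t →
      PolyC (fun p : α × (ℕ × Finset ℕ) => D p.1 ∧ p.2.1 ≤ aOf (w p.1) ∧
        p.2.2 ⊆ range (nOf (w p.1)))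
        (PolyTime.lift ctx ++ [fun p => un p.2.1, fun p => msk (nOf (w p.1)) p.2.2])
        (fun p => t p.1) := fun h => (PolyC.lift h (fun p hp => hp.1)).weakenRight _
  exact poly_es (w := fun p : α × (ℕ × Finset ℕ) => w p.1)
    (W := fun p => p.2.2) (q := fun p => q p.1) (r := fun p => r p.1) (lft hw)
    ⟨PolyC.var (by simp), fun p hp => hp.2.2⟩ ⟨lft hq.qq, lft hq.N⟩ (lft hr)

theorem poly_esT (hw : PolyC D ctx w) {q : α → ℕ} (hq : QComp D ctx w q) {r : α → List Bool}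
    (hr : PolyC D ctx r) :
    PolyN D ctx (fun x => AccS.esT (nOf (w x)) (aOf (w x)) (adjOf (w x)) (q x) (r x)
      (range (nOf (w x)))) :=
  poly_es hw (PolyS.range (poly_nOf hw)) hq hr

theorem poly_off (hw : PolyC D ctx w) {q : α → ℕ} (hq : QComp D ctx w q) :
    PolyN D ctx (fun x => AccS.off (nOf (w x)) (q x)) :=
  (((ParA.poly_KK (poly_nOf hw) hq.qq).mul ((poly_nOf hw).mul hq.tb)).mul
    ((ParA.poly_mu hq.qq).add (ParA.poly_nn hq.qq))).congr (fun _ _ => rfl)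

theorem poly_cntT (hw : PolyC D ctx w) {q : α → ℕ} (hq : QComp D ctx w q) {r : α → List Bool}
    (hr : PolyC D ctx r) {K cap : α → ℕ} (hK : PolyN D ctx K) (hcap : PolyN D ctx cap)
    (hKc : ∀ a, D a → K a ≤ cap a) :
    PolyN D ctx (fun x => AccS.cntT (nOf (w x)) (aOf (w x)) (adjOf (w x)) (q x) (K x) (cap x)
      (r x)) := by
  have h := poly_count (n := fun x => nOf (w x)) (aN := fun x => aOf (w x)) (cap := cap)
    (dm := fun x => 9 * nOf (w x) + 1) (off := fun x => AccS.off (nOf (w x)) (q x)) (K := K)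
    (adj := fun x => adjOf (w x)) (tape := r)
    (e := fun x X => AccS.esT (nOf (w x)) (aOf (w x)) (adjOf (w x)) (q x) (r x) X.2)
    (poly_nOf hw) (poly_aOf hw) hcap (((PolyN.const 9).mul (poly_nOf hw)).succ) (poly_off hw hq)
    hK hr hKc (AComp_adjOf hw) (EComp_es hw hq hr)
  refine h.congr (fun x _ => ?_)
  unfold AccS.cntT Gen.cntE
  rw [ch_eq]

/-- The machine's answer. -/
noncomputable def ansS (n a : ℕ) (adj : ℕ → ℕ → Bool) (q t : ℕ) (l : List Bool) : List Bool :=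
  outN (kapS t) (AccS.esT n a adj q l (range n)) (AccS.cntT n a adj q (2 ^ kapS t) (capS t) l)

/-- the number of random bits needed -/
def needS (n a q t : ℕ) : ℕ := AccS.off n q + a * capS t * 2 * (9 * n + 1)

theorem poly_ansS (hw : PolyC D ctx w) {q t : α → ℕ} (hq : QComp D ctx w q)
    (ht : PolyN D ctx t) (h1 : ∀ a, D a → 1 ≤ t a) {r : α → List Bool} (hr : PolyC D ctx r) :
    PolyC D ctx (fun x => ansS (nOf (w x)) (aOf (w x)) (adjOf (w x)) (q x) (t x) (r x)) :=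
  poly_outN ((PolyN.const 4).mul (poly_lg ht)) (poly_esT hw hq hr)
    (poly_cntT hw hq hr (poly_K ht h1) (poly_cap ht h1) (fun a _ => two_pow_kap_le_cap (t a)))

theorem poly_needS (hw : PolyC D ctx w) {q t : α → ℕ} (hq : QComp D ctx w q)
    (ht : PolyN D ctx t) (h1 : ∀ a, D a → 1 ≤ t a) :
    PolyN D ctx (fun x => needS (nOf (w x)) (aOf (w x)) (q x) (t x)) :=
  (poly_off hw hq).add ((((poly_aOf hw).mul (poly_cap ht h1)).mul (PolyN.const 2)).mul
    (((PolyN.const 9).mul (poly_nOf hw)).succ))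

end

/-! ### Probability -/

theorem qq_zero {t : ℕ} (ht : 1 ≤ t) : 1 ≤ ParA.qq 0 t := by
  unfold ParA.qq
  rw [Nat.succ_le_iff, card_pos]
  refine ⟨1, ?_⟩
  rw [mem_filter, mem_range]
  have : 0 < t.size := Nat.size_pos.2 ht
  exact ⟨by omega, le_rfl, by unfold ParA.tb; simpa using ht⟩

theorem params {n a t q : ℕ} (ha : a ≤ n) (hq : 1 ≤ q) (ht : 1 ≤ t)
    (h : n = 0 ∨ (ParA.tb n q ≤ t ∧ (400 : ℝ) * n ≤ q * Real.logb 2 t ∧
      (400 : ℝ) ≤ Real.logb 2 t)) :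
    8 * (a * ((2 : ℝ) ^ ((8 : ℝ) * n / q + 1)) ^ 2 * (t : ℝ) ^ 2) ≤ ((2 ^ kapS t : ℕ) : ℝ) ∧
    2 * ((2 : ℝ) ^ ((8 : ℝ) * n / q + 1)) ^ 2 * ((2 ^ kapS t : ℕ) : ℝ) ≤ (capS t : ℝ) := by
  have hq0 : (0 : ℝ) < q := by exact_mod_cast hq
  have ht0 : (0 : ℝ) < t := by exact_mod_cast ht
  have hcap : (capS t : ℝ) = (2 ^ lg t : ℝ) * 8 * ((2 ^ kapS t : ℕ) : ℝ) := by
    unfold capS kapS
    push_cast
    rw [show 5 * lg t + 3 = lg t + 3 + 4 * lg t by ring, pow_add, pow_add]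
    norm_num
  have hlg : (t : ℝ) ≤ 2 ^ lg t := by exact_mod_cast (lt_two_pow_lg t).le
  have hlg1 : (1 : ℝ) ≤ 2 ^ lg t := one_le_pow₀ (by norm_num)
  have hK0 : (0 : ℝ) ≤ ((2 ^ kapS t : ℕ) : ℝ) := Nat.cast_nonneg _
  have hK4 : (t : ℝ) ^ 4 ≤ ((2 ^ kapS t : ℕ) : ℝ) := by
    unfold kapS
    push_cast
    rw [mul_comm 4, pow_mul]
    exact pow_le_pow_left₀ ht0.le hlg 4
  rcases h with h | ⟨h1, h2, h3⟩
  · subst h
    have ha0 : a = 0 := by omega
    subst ha0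
    constructor
    · simp only [Nat.cast_zero, zero_mul, mul_zero]
      exact hK0
    · rw [hcap]
      refine mul_le_mul_of_nonneg_right ?_ hK0
      simp only [Nat.cast_zero, mul_zero, zero_div, zero_add, Real.rpow_one]
      nlinarith
  · -- the power
    have e1 : ((2 : ℝ) ^ ((8 : ℝ) * n / q + 1)) ^ 2 = 4 * (2 : ℝ) ^ ((16 : ℝ) * n / q) := by
      rw [← Real.rpow_natCast, ← Real.rpow_mul (by norm_num)]
      have : ((8 : ℝ) * n / q + 1) * ((2 : ℕ) : ℝ) = 2 + (16 : ℝ) * n / q := by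
        push_cast
        ring
      rw [this, Real.rpow_add (by norm_num)]
      norm_num
    have h4 : (32 : ℝ) * (2 : ℝ) ^ ((16 : ℝ) * n / q) ≤ t := by
      have h5 : (16 : ℝ) * n / q ≤ Real.logb 2 t / 25 := by
        rw [div_le_iff₀ hq0]
        linarith
      have h6 : (32 : ℝ) * (2 : ℝ) ^ ((16 : ℝ) * n / q) = (2 : ℝ) ^ (5 + (16 : ℝ) * n / q) := by
        rw [Real.rpow_add (by norm_num)]
        norm_num
      rw [h6]
      calc (2 : ℝ) ^ (5 + (16 : ℝ) * n / q) ≤ 2 ^ Real.logb 2 t :=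
            Real.rpow_le_rpow_of_exponent_le (by norm_num) (by linarith)
        _ = t := Real.rpow_logb (by norm_num) (by norm_num) ht0
    have h5 : (0 : ℝ) ≤ (2 : ℝ) ^ ((16 : ℝ) * n / q) := by positivity
    have h6 : (a : ℝ) ≤ t := by
      have h7 : n + 1 ≤ ParA.tb n q := by
        unfold ParA.tb
        have h8 := ParA.ss_pos q
        have h9 : n * 1 ≤ n * ParA.ss q := Nat.mul_le_mul_left n h8
        refine le_trans (by omega : n + 1 ≤ n * ParA.ss q + 1) (Nat.le_self_pow ?_ _)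
        unfold ParA.TT
        omega
      exact_mod_cast (by omega : a ≤ t)
    rw [e1]
    constructor
    · refine le_trans ?_ hK4
      have h7 : (0 : ℝ) ≤ (a : ℝ) := Nat.cast_nonneg _
      calc 8 * ((a : ℝ) * (4 * (2 : ℝ) ^ ((16 : ℝ) * n / q)) * (t : ℝ) ^ 2) =
            (a : ℝ) * (32 * (2 : ℝ) ^ ((16 : ℝ) * n / q)) * (t : ℝ) ^ 2 := by ring
        _ ≤ (t : ℝ) * t * (t : ℝ) ^ 2 := by
            refine mul_le_mul_of_nonneg_right ?_ (by positivity)
            exact mul_le_mul h6 h4 (by positivity) ht0.le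
        _ = (t : ℝ) ^ 4 := by ring
    · rw [hcap]
      refine mul_le_mul_of_nonneg_right ?_ hK0
      nlinarith

/-- **The answer is good with probability three quarters.** -/
theorem goodS {G : BGraph} {t q : ℕ} (hq : 1 ≤ q) (ht : 1 ≤ t)
    (h : G.a + G.b = 0 ∨ (ParA.tb (G.a + G.b) q ≤ t ∧
      (400 : ℝ) * (G.a + G.b : ℕ) ≤ q * Real.logb 2 t ∧ (400 : ℝ) ≤ Real.logb 2 t))
    {m : ℕ} (hm : needS (G.a + G.b) G.a q t ≤ m) :
    3 * 2 ^ m ≤ 4 * Nat.card {r : Fin m → Bool // Pa7c826.Good G t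
      (ansS (G.a + G.b) G.a (adjOf (inCode G t)) q t (List.ofFn r))} := by
  classical
  have ha : G.a ≤ G.a + G.b := Nat.le_add_right _ _
  obtain ⟨h1, h2⟩ := params (n := G.a + G.b) (a := G.a) ha hq ht h
  have hbip := adjOf_hbip (inCode G t)
  rw [aOf_inCode] at hbip
  have ht1 : (1 : ℝ) ≤ t := by exact_mod_cast ht
  have ht0 : (0 : ℝ) < t := by linarith
  have key := AccS.prob_S (n := G.a + G.b) (a := G.a) (adj := adjOf (inCode G t)) (q := q)
    (K := 2 ^ kapS t) (cap := capS t) (m := m) (t := t) hq ha (adjOf_symm _) hbip ht1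
    (by positivity) h1 h2 hm
  refine key.trans (Nat.mul_le_mul_left 4 ?_)
  rw [Nat.card_eq_fintype_card, Fintype.card_subtype]
  refine card_le_card ?_
  intro r hr
  rw [mem_filter] at hr ⊢
  refine ⟨mem_univ _, ?_⟩
  have h3 := hr.2
  rw [ind_eq_numIndep] at h3
  unfold Pa7c826.Good ansS
  rw [outVal_outN]
  set c := AccS.cntT (G.a + G.b) G.a (adjOf (inCode G t)) q (2 ^ kapS t) (capS t) (List.ofFn r)
  set e := AccS.esT (G.a + G.b) G.a (adjOf (inCode G t)) q (List.ofFn r) (range (G.a + G.b))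
  set Z := numIndep G.graph
  have h4 : (|(c : ℝ) * 2 ^ e / 2 ^ kapS t - Z| : ℝ) ≤ Z / t := by
    have hK : (0 : ℝ) < 2 ^ kapS t := by positivity
    push_cast at h3
    have e1 : (c : ℝ) * 2 ^ e / 2 ^ kapS t - Z =
        ((c : ℝ) * 2 ^ e - 2 ^ kapS t * Z) / 2 ^ kapS t := by
      field_simp
    rw [e1, abs_div, abs_of_pos hK, div_le_iff₀ hK]
    refine h3.trans (le_of_eq ?_)
    ring
  have h5 : ((|(c : ℚ) * 2 ^ e / 2 ^ kapS t - Z| : ℚ) : ℝ) ≤ ((Z / t : ℚ) : ℝ) := by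
    push_cast
    exact h4
  exact_mod_cast h5

/-! ### The theorem -/

/-- The promise. -/
def PS (G : BGraph) (t : ℕ) : Prop :=
  (2 : ℝ) ^ (700 * Real.sqrt ((G.a + G.b : ℕ) : ℝ) *
    Real.logb 2 (((G.a + G.b : ℕ) : ℝ) + 1)) ≤ t

theorem promise {G : BGraph} {t : ℕ} (hP : PS G t) (ht : 1 ≤ t) :
    1 ≤ ParA.qq (G.a + G.b) t ∧
    (G.a + G.b = 0 ∨ (ParA.tb (G.a + G.b) (ParA.qq (G.a + G.b) t) ≤ t ∧
      (400 : ℝ) * (G.a + G.b : ℕ) ≤ ParA.qq (G.a + G.b) t * Real.logb 2 t ∧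
      (400 : ℝ) ≤ Real.logb 2 t)) := by
  rcases Nat.eq_zero_or_pos (G.a + G.b) with h0 | h0
  · rw [h0]
    exact ⟨qq_zero ht, Or.inl rfl⟩
  · obtain ⟨h1, h2, h3, h4, _⟩ := ParA.par h0 ht hP
    exact ⟨h1, Or.inr ⟨h2, h3, h4⟩⟩

theorem QComp_qq {α : Type} {D : α → Prop} {ctx : List (α → List Bool)} {w : α → List Bool}
    (hw : PolyC D ctx w) {t : α → ℕ} (ht : PolyN D ctx t) :
    QComp D ctx w (fun a => ParA.qq (nOf (w a)) (t a)) where
  qq := ParA.poly_qq (poly_nOf hw) ht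
  N := ParA.poly_tb_qq (poly_nOf hw) ht

/-- **Theorem.** -/
theorem hasRApx_PS : Pa7c826m.HasRApx PS := by
  refine hasRApx_of
    (need := fun G t => needS (G.a + G.b) G.a (ParA.qq (G.a + G.b) t) t)
    (out := fun G t r => ansS (G.a + G.b) G.a (adjOf (inCode G t)) (ParA.qq (G.a + G.b) t) t r)
    ?_ ?_ ?_
  · have hw : PolyC (fun x : BGraph × ℕ => PS x.1 x.2 ∧ 1 ≤ x.2) [fun x => inCode x.1 x.2]
        (fun x => inCode x.1 x.2) := PolyC.var (by simp)
    have ht : PolyN (fun x : BGraph × ℕ => PS x.1 x.2 ∧ 1 ≤ x.2) [fun x => inCode x.1 x.2]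
        (fun x => x.2) := (poly_tOf hw).congr (fun x _ => tOf_inCode x.1 x.2)
    refine (poly_needS hw (QComp_qq hw ht) ht (fun x hx => hx.2)).congr (fun x _ => ?_)
    simp only [nOf_inCode, aOf_inCode]
  · have hw : PolyC (fun x : BGraph × ℕ × List Bool => PS x.1 x.2.1 ∧ 1 ≤ x.2.1 ∧
        needS (x.1.a + x.1.b) x.1.a (ParA.qq (x.1.a + x.1.b) x.2.1) x.2.1 ≤ x.2.2.length)
        [fun x => inCode x.1 x.2.1, fun x => x.2.2] (fun x => inCode x.1 x.2.1) :=
      PolyC.var (by simp)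
    have hr : PolyC (fun x : BGraph × ℕ × List Bool => PS x.1 x.2.1 ∧ 1 ≤ x.2.1 ∧
        needS (x.1.a + x.1.b) x.1.a (ParA.qq (x.1.a + x.1.b) x.2.1) x.2.1 ≤ x.2.2.length)
        [fun x => inCode x.1 x.2.1, fun x => x.2.2] (fun x => x.2.2) :=
      PolyC.var (by simp)
    have ht : PolyN (fun x : BGraph × ℕ × List Bool => PS x.1 x.2.1 ∧ 1 ≤ x.2.1 ∧
        needS (x.1.a + x.1.b) x.1.a (ParA.qq (x.1.a + x.1.b) x.2.1) x.2.1 ≤ x.2.2.length)
        [fun x => inCode x.1 x.2.1, fun x => x.2.2] (fun x => x.2.1) :=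
      (poly_tOf hw).congr (fun x _ => tOf_inCode x.1 x.2.1)
    refine (poly_ansS hw (QComp_qq hw ht) ht (fun x hx => hx.2.1) hr).congr (fun x _ => ?_)
    simp only [nOf_inCode, aOf_inCode]
  · intro G t hP ht N hN
    obtain ⟨h1, h3⟩ := promise hP ht
    exact goodS h1 ht h3 hN

/-- **Theorem.** The number of independent sets of all bipartite graphs with `n` vertices up to a
factor `1 ± 1 / t` in randomised time polynomial in `2 ^ (√n log n)` and `t`. -/
theorem hasRTime_sqrt :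
    HasRTime fun n => (2 : ℝ) ^ (700 * Real.sqrt n * Real.logb 2 (n + 1)) := by
  refine hasRTime_of ?_
  exact hasRApx_PS

end Pool.Agent.Lib.SubBisX.AccF
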