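import Pool.Agent.Lib.SubBisX.ParA
import Pool.Agent.Lib.SubBisX.Core
import Pool.Agent.Lib.SubBisX.AccDefs

/-!
The error budget of the accelerated method: from the inequality of the ascent, the upper bound and
the comparison family to the error `6 n / q`.
-/

namespace Pool.Agent.Lib.SubBisX.Acc

open Finset

theorem wt_eq (r : ℕ) : (wt r : ℝ) = r * (r + 1) / 2 := by
  induction r with
  | zero => simp [wt]
  | succ r ih =>
    rw [wt_succ]
    push_cast
    rw [ih]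
    ring

theorem sum_sq_le (T : ℕ) : ∑ a ∈ range T, ((a : ℝ) + 1) ^ 2 ≤ (T : ℝ) * wt T := by
  induction T with
  | zero => simp
  | succ T ih =>
    rw [sum_range_succ]
    rw [wt_eq] at ih ⊢
    push_cast
    have hT : (0 : ℝ) ≤ T := Nat.cast_nonneg T
    nlinarith [mul_nonneg hT hT]

theorem sum_wt_le (T : ℕ) : ∑ a ∈ range T, (wt (a + 1) : ℝ) ≤ (T : ℝ) * wt T := by
  have h : (T : ℝ) * wt T = ∑ _a ∈ range T, (wt T : ℝ) := by
    rw [sum_const, card_range, nsmul_eq_mul]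
  rw [h]
  refine sum_le_sum fun a ha => ?_
  rw [mem_range] at ha
  rw [wt_eq, wt_eq]
  have h1 : ((a + 1 : ℕ) : ℝ) ≤ T := by exact_mod_cast ha
  have h2 : (0 : ℝ) ≤ ((a + 1 : ℕ) : ℝ) := Nat.cast_nonneg _
  nlinarith

/-- The sum of the estimates. `AX`: mean of the objective at the output, `AP`: mean of the smoothed
objective at the output, `zz`: the comparison value. -/
theorem acore_num {n c M T s : ℕ} (hc : 0 < c) (hM : 0 < M) (hT : 0 < T) (hs : 0 < s)
    {lZ AX AP zz D G dl el : ℝ} (hG : 0 ≤ G)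
    (hreg : wt T * zz - n * (M : ℝ) ^ 2 / (2 * s) - (∑ a ∈ range T, ((a : ℝ) + 1) ^ 2) * n * D ^ 2 -
      (∑ a ∈ range T, (wt (a + 1) : ℝ)) * n * (G + 1) ≤ wt T * AP)
    (hU : AX ≤ M * (c * lZ + n)) (hx : |AP - AX| ≤ dl) (hz : M * (c * lZ - n * el) ≤ zz + dl) :
    AX / (c * M) ≤ lZ + n / c ∧
      lZ - (n * el / c + 2 * dl / (c * M) + n * M / (c * s * T ^ 2) + n * T * D ^ 2 / (c * M) +
        n * T * (G + 1) / (c * M)) ≤ AX / (c * M) := by
  have hc' : (0 : ℝ) < c := by exact_mod_cast hc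
  have hM' : (0 : ℝ) < M := by exact_mod_cast hM
  have hT' : (0 : ℝ) < T := by exact_mod_cast hT
  have hs' : (0 : ℝ) < s := by exact_mod_cast hs
  have hn : (0 : ℝ) ≤ n := Nat.cast_nonneg n
  constructor
  · rw [div_le_iff₀ (by positivity)]
    refine hU.trans (le_of_eq ?_)
    field_simp
  · have hw : (T : ℝ) ^ 2 / 2 ≤ wt T := by
      rw [wt_eq]
      nlinarith
    have hw0 : (0 : ℝ) < wt T := lt_of_lt_of_le (by positivity) hw
    have h1 : (∑ a ∈ range T, ((a : ℝ) + 1) ^ 2) * n * D ^ 2 ≤ wt T * (n * T * D ^ 2) := by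
      have h2 := mul_le_mul_of_nonneg_right (sum_sq_le T) (show (0 : ℝ) ≤ n * D ^ 2 by positivity)
      linarith
    have h2 : (∑ a ∈ range T, (wt (a + 1) : ℝ)) * n * (G + 1) ≤ wt T * (n * T * (G + 1)) := by
      have h3 := mul_le_mul_of_nonneg_right (sum_wt_le T)
        (show (0 : ℝ) ≤ n * (G + 1) by positivity)
      linarith
    have h3 : n * (M : ℝ) ^ 2 / (2 * s) ≤ wt T * (n * (M : ℝ) ^ 2 / (s * T ^ 2)) := by
      have h4 := mul_le_mul_of_nonneg_right hw
        (show (0 : ℝ) ≤ n * (M : ℝ) ^ 2 / (s * T ^ 2) by positivity)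
      refine le_trans (le_of_eq ?_) h4
      field_simp
    have h4 : wt T * (zz - n * (M : ℝ) ^ 2 / (s * T ^ 2) - n * T * D ^ 2 - n * T * (G + 1)) ≤
        wt T * AP := by
      linarith
    have h5 : zz - n * (M : ℝ) ^ 2 / (s * T ^ 2) - n * T * D ^ 2 - n * T * (G + 1) ≤ AP :=
      le_of_mul_le_mul_left h4 hw0
    have h6 := (abs_le.1 hx).2
    rw [le_div_iff₀ (by positivity)]
    have h7 : (lZ - (n * el / c + 2 * dl / (c * M) + n * M / (c * s * T ^ 2) +
        n * T * D ^ 2 / (c * M) + n * T * (G + 1) / (c * M))) * (c * M) =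
        M * (c * lZ - n * el) - 2 * dl - n * (M : ℝ) ^ 2 / (s * T ^ 2) - n * T * D ^ 2 -
          n * T * (G + 1) := by
      field_simp
      ring
    rw [h7]
    linarith

/-- The error budget with the parameters of `ParA`. -/
theorem acore_budget {q : ℕ} (hq : 1 ≤ q) {n : ℕ} {lZ X e : ℝ}
    (he : e = Real.logb 2 ((2 : ℝ) ^ ParA.mu q + 1) / 2 ^ ParA.mu q)
    (h : X ≤ lZ + n / q ∧
      lZ - (n * (1 + q * e) / q + 2 * (q * (ParA.kap q * (n * ParA.NN q))) / (q * ParA.MM q) +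
        n * ParA.MM q / (q * ParA.ss q * ParA.TT q ^ 2) +
        n * ParA.TT q * (q * ParA.kap q) ^ 2 / (q * ParA.MM q) +
        n * ParA.TT q * ((q * ParA.mu q + q * ParA.kap q) + 1) / (q * ParA.MM q)) ≤ X) :
    |X - lZ| ≤ 6 * n / q := by
  obtain ⟨h1, h2⟩ := h
  have hq' : (1 : ℝ) ≤ q := by exact_mod_cast hq
  have hn : (0 : ℝ) ≤ n := Nat.cast_nonneg n
  have hs : (0 : ℝ) < ParA.ss q := by exact_mod_cast ParA.ss_pos q
  have hsz : (1 : ℝ) ≤ q.size := by exact_mod_cast Nat.size_pos.2 hq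
  have hsk : (q : ℝ) * (q.size + 1) ≤ ParA.ss q := by exact_mod_cast (ParA.lt_ss q).le
  have hM : (ParA.MM q : ℝ) = 128 * (ParA.ss q : ℝ) ^ 3 := by
    rw [ParA.MM_eq]; push_cast; ring
  have hN : (ParA.NN q : ℝ) = 128 * (ParA.ss q : ℝ) ^ 2 := by
    rw [ParA.NN_eq]; push_cast; ring
  have hT : (ParA.TT q : ℝ) = 12 * ParA.ss q := by
    unfold ParA.TT; push_cast; ring
  have hk : (ParA.kap q : ℝ) = q.size + 1 := by
    unfold ParA.kap; push_cast; ring
  have hmu : (ParA.mu q : ℝ) = 2 * q.size + 3 := by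
    unfold ParA.mu; push_cast; ring
  set S : ℝ := (ParA.ss q : ℝ) with hS
  set z : ℝ := (q.size : ℝ) with hz
  have hq0 : (0 : ℝ) < q := by linarith
  -- the five terms
  have t1 : (n : ℝ) * (1 + q * e) / q ≤ 2 * (n / q) := by
    have h3 : e ≤ 1 / q := by
      rw [he]
      exact Core.CA.log_small hq
    have h4 : (q : ℝ) * e ≤ 1 := by
      have := mul_le_mul_of_nonneg_left h3 hq0.le
      rwa [mul_one_div_cancel hq0.ne'] at this
    rw [div_le_iff₀ hq0]
    have h5 : 2 * ((n : ℝ) / q) * q = 2 * n := by field_simp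
    rw [h5]
    nlinarith
  have t2 : 2 * ((q : ℝ) * (ParA.kap q * (n * ParA.NN q))) / (q * ParA.MM q) ≤ 2 * (n / q) := by
    rw [hk, hN, hM, div_le_iff₀ (by positivity)]
    have h3 : 2 * ((n : ℝ) / q) * (q * (128 * S ^ 3)) = 256 * n * S ^ 3 := by
      field_simp
      ring
    rw [h3]
    have h4 := mul_le_mul_of_nonneg_left hsk (show (0 : ℝ) ≤ 256 * n * S ^ 2 by positivity)
    nlinarith
  have t3 : (n : ℝ) * ParA.MM q / (q * S * ParA.TT q ^ 2) ≤ (8 / 9) * (n / q) := by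
    rw [hM, hT]
    refine le_of_eq ?_
    field_simp
    ring
  have hS2 : ((q : ℝ) * (z + 1)) ^ 2 ≤ S ^ 2 := pow_le_pow_left₀ (by positivity) hsk 2
  have t4 : (n : ℝ) * ParA.TT q * (q * ParA.kap q) ^ 2 / (q * ParA.MM q) ≤ (12 / 128) * (n / q) := by
    rw [hk, hM, hT, div_le_iff₀ (by positivity)]
    have h3 : (12 / 128) * ((n : ℝ) / q) * (q * (128 * S ^ 3)) = 12 * n * S ^ 3 := by
      field_simp
    rw [h3]
    have h4 := mul_le_mul_of_nonneg_left hS2 (show (0 : ℝ) ≤ 12 * n * S by positivity)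
    nlinarith
  have t5 : (n : ℝ) * ParA.TT q * ((q * ParA.mu q + q * ParA.kap q) + 1) / (q * ParA.MM q) ≤
      (48 / 128) * (n / q) := by
    rw [hk, hM, hT, hmu, div_le_iff₀ (by positivity)]
    have h3 : (48 / 128) * ((n : ℝ) / q) * (q * (128 * S ^ 3)) = 48 * n * S ^ 3 := by
      field_simp
    rw [h3]
    have h4 : (q : ℝ) * (2 * z + 3) + q * (z + 1) + 1 ≤ 4 * (q * (z + 1)) * (q * (z + 1)) := by
      have h5 : (2 : ℝ) ≤ q * (z + 1) := by nlinarith
      have h6 : (q : ℝ) * (2 * z + 3) + q * (z + 1) + 1 ≤ 4 * (q * (z + 1)) + 1 := by nlinarith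
      nlinarith
    have h5 := mul_le_mul_of_nonneg_left (h4.trans (show
      4 * ((q : ℝ) * (z + 1)) * (q * (z + 1)) ≤ 4 * S ^ 2 by nlinarith))
      (show (0 : ℝ) ≤ n * (12 * S) by positivity)
    nlinarith
  have h0 : (0 : ℝ) ≤ n / q := by positivity
  have e5 : (6 : ℝ) * n / q = 6 * (n / q) := by ring
  rw [e5, abs_le]
  constructor <;> linarith

end Pool.Agent.Lib.SubBisX.Acc
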