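import Pool.Agent.Lib.SubBisX.GenSys
import Pool.Agent.Lib.SubBisX.AccCore

/-!
The accelerated method: for seven eighths of the seeds the estimates of all induced subgraphs are
good.
-/

set_option autoImplicit false

open Finset
open scoped BigOperators

namespace Pool.Agent.Lib.SubBisX.AccS

open Pool.Agent.Lib.Pa7c826 Pool.Agent.Lib.Pa7c826t Node Sys Gen SubBis Pool.Agent.Lib.SubBisX.Acc

/-- one copy: a world with a noise vector that is not used -/
abbrev Cp (n q : ℕ) : Type :=
  Smp (2 ^ ParA.mu q) n (ParA.ss q) (2 ^ (2 * ParA.nu q + 7)) (ParA.TT q)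

/-- a seed: `KK n q` independent copies -/
abbrev Seed (n q : ℕ) : Type := Fin (ParA.KK n q) → Cp n q

/-- the random value of a copy for the set `W` of vertices -/
def VV (n a : ℕ) (adj : ℕ → ℕ → Bool) (q : ℕ) (W : Finset ℕ) (b : Cp n q) : ℤ :=
  AVal q (ParA.MM q) (FW n a adj (ParA.kap q) W) (ParA.TT q) (wd b)

/-- the estimate of the binary logarithm of the number of independent subsets of `W` -/
def es (n a : ℕ) (adj : ℕ → ℕ → Bool) (q : ℕ) (s : Seed n q) (W : Finset ℕ) : ℕ :=
  eG n a (VV n a adj q) (q * ParA.MM q) s W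

theorem es_eq (n a : ℕ) (adj : ℕ → ℕ → Bool) (q : ℕ) (s : Seed n q) (W : Finset ℕ) :
    es n a adj q s W = eW n a W (∑ k, VV n a adj q W (s k)) (ParA.KK n q * (q * ParA.MM q)) := rfl

theorem MM_pos (q : ℕ) : 0 < ParA.MM q := by
  unfold ParA.MM
  positivity

open Classical in
/-- **Most seeds are good.** -/
theorem good_seeds {n a : ℕ} {adj : ℕ → ℕ → Bool} {q : ℕ}
    (hq : 1 ≤ q) (hs : ∀ u v, adj u v = adj v u)
    (hbip : ∀ u v, adj u v = true → (u < a ↔ ¬ v < a)) :
    8 * (univ.filter fun s : Seed n q => ¬ GoodE n a adj (8 * n / q + 1) (es n a adj q s)).card ≤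
      Fintype.card (Seed n q) := by
  have hq0 : (0 : ℝ) < q := by exact_mod_cast hq
  rcases Nat.eq_zero_or_pos n with hn | hn
  · subst hn
    have h1 : (univ.filter fun s : Seed 0 q =>
        ¬ GoodE 0 a adj (8 * (0 : ℕ) / q + 1) (es 0 a adj q s)) = ∅ := by
      rw [filter_eq_empty_iff]
      intro s _
      rw [not_not]
      exact goodE_zero hbip (by positivity) _ _ s
    rw [h1, card_empty]
    exact Nat.zero_le _
  · have hn0 : (0 : ℝ) < n := by exact_mod_cast hn
    have hM := MM_pos q
    refine good_seedsE (D := q * ParA.MM q) (K := ParA.KK n q) (κ := ParA.kap q)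
      (V := VV n a adj q) (δ₁ := 6 * n / q) (δ₂ := n / q) (B := n * (3 * q.size + 5))
      (Nat.mul_pos hq hM) ?_ hs hbip (by positivity) (div_pos hn0 hq0) ?_ ?_ ?_ ?_ hn
    · unfold ParA.KK
      positivity
    · intro W hW
      have h1 := acorePar hq (F := FW n a adj (ParA.kap q) W) (FW_empty hW hs hbip)
        (fun S S' => FW_sub hW hs hbip S S') (fun S v => FW_insert hW hs hbip v S)
      have h2 := av_wd (m := 2 ^ ParA.mu q) (n := n) (s := ParA.ss q)
        (N := 2 ^ (2 * ParA.nu q + 7)) (ParA.TT q)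
        fun w => (AVal q (ParA.MM q) (FW n a adj (ParA.kap q) W) (ParA.TT q) w : ℝ)
      have h3 : (Reg.av fun b : Cp n q => (VV n a adj q W b : ℝ)) =
          Reg.av fun w : Fin n → XA (2 ^ ParA.mu q) n (ParA.ss q) (2 ^ (2 * ParA.nu q + 7))
            (ParA.TT q) =>
              (AVal q (ParA.MM q) (FW n a adj (ParA.kap q) W) (ParA.TT q) w : ℝ) := h2
      rw [h3]
      push_cast
      exact h1
    · intro W hW b
      have h1 := range_AVal (F := FW n a adj (ParA.kap q) W)
        (FW_empty hW hs hbip) (fun S v => FW_insert hW hs hbip v S) (wd b)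
      have h2 : |(VV n a adj q W b : ℝ)| ≤
          ((q * ParA.MM q * (n * (3 * q.size + 5)) : ℤ) : ℝ) := by
        exact_mod_cast h1
      refine h2.trans (le_of_eq ?_)
      push_cast
      ring
    · unfold ParA.KK
      push_cast
      apply le_of_eq
      field_simp
    · have h9 : (n : ℝ) * (2 / 2 ^ ParA.kap q) ≤ n / q := by
        have h10 : (q : ℝ) ≤ 2 ^ q.size := by exact_mod_cast (Nat.lt_size_self q).le
        have h11 : (2 : ℝ) / 2 ^ ParA.kap q = 1 / 2 ^ q.size := by
          unfold ParA.kap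
          rw [pow_succ]
          field_simp
        rw [h11, mul_one_div]
        exact div_le_div_of_nonneg_left hn0.le hq0 h10
      have h12 : (8 : ℝ) * n / q = 6 * n / q + n / q + n / q := by ring
      linarith

end Pool.Agent.Lib.SubBisX.AccS
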