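import Pool.Agent.Lib.SubBisX.TabDefs
import Pool.Agent.Lib.Pa7c826t.AuctPoly
import Pool.Agent.Lib.P8e91ed.PolyBin

/-!
Tables computed by recursion, offsets, and logarithms of powers in polynomial time.

PROOF. `polyArr_rec`: as `PolyArr.iterate` in Pa7c826t/ArrPoly.lean (`PolyC.natRec`), the step may
use the index. `poly_off`: with `s = X % (n + 1)` etc. trace the row upwards: the row `ρ_0 = x`,
`ρ_{i+1} = if k_i = 0 ∨ ρ_i < k_i then ρ_i else k_i - 1`, `k_i = (X / (n + 1) ^ i) % (n + 1)`; then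
`off n j r X x = ρ_j * (n + 1) ^ (r + j) + ∑ i < j, (if k_i = 0 ∨ ρ_i < k_i then 0 else
(ρ_i + 1) * (n + 1) ^ (r + i))`. `bin_log`: `Nat.log 2 f = (Nat.bits f).length - 1`.
-/

namespace Pool.Agent.Lib.SubBisX.Tab

open Finset Pool.Agent.Lib.PolyTime Pool.Agent.Lib.Pa7c826 Pool.Agent.Lib.Pa7c826t

variable {α : Type*} {D : α → Prop} {ctx : List (α → List Bool)}

/-- A table computed by recursion. -/
theorem polyArr_rec {m n k : α → ℕ} (f : α → ℕ → ℕ → ℕ)
    (hm : PolyN D ctx m) (hn : PolyN D ctx n) (hk : PolyN D ctx k)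
    (h0 : PolyArr D ctx m n (fun a => f a 0))
    (hstep : PolyArr (fun p : α × ℕ => D p.1 ∧ p.2 < k p.1)
      (PolyTime.lift ctx ++ [fun p => un p.2,
        fun p => arr (m p.1) (n p.1) (f p.1 p.2)])
      (fun p => m p.1) (fun p => n p.1) (fun p => f p.1 (p.2 + 1))) :
    PolyArr D ctx m n (fun a => f a (k a)) := by
  obtain ⟨pn, hpn⟩ := PolyC.length_le (hn.mul hm)
  have hbd : ∀ a, D a → ∀ j ≤ k a, ∀ i < n a, f a j i ≤ m a := by
    intro a ha j hj i hi
    rcases j with _ | j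
    · exact h0.2 a ha i hi
    · exact hstep.2 (a, j) ⟨ha, by simpa using hj⟩ i hi
  refine ⟨PolyC.natRec (fun a j => arr (m a) (n a) (f a j)) hk
    (PolyC.congr h0.1 (fun a _ => rfl)) ?_ ⟨pn, fun a ha j hj => ?_⟩,
    fun a ha => hbd a ha _ le_rfl⟩
  · exact hstep.1
  · have h1 := hpn a ha
    rw [un_length] at h1
    rw [arr_length (hbd a ha j hj)]
    exact h1

/-- the step of the trace: the row `y` and the digit `k` of the world -/
def rstep (k y : ℕ) : ℕ := if k = 0 ∨ y < k then y else k - 1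

/-- the trace of the row upwards -/
def rho (n X x : ℕ) : ℕ → ℕ
  | 0 => x
  | i + 1 => rstep ((X / (n + 1) ^ i) % (n + 1)) (rho n X x i)

theorem rho_shift (n X x i : ℕ) :
    rho n (X / (n + 1)) (rstep (X % (n + 1)) x) i = rho n X x (i + 1) := by
  induction i with
  | zero => simp [rho]
  | succ i ih =>
    rw [rho, ih, Nat.div_div_eq_div_mul, ← pow_succ']
    rfl

theorem off_eq (n : ℕ) : ∀ (j r X x : ℕ), off n j r X x =
    rho n X x j * (n + 1) ^ (r + j) + ∑ i ∈ range j,
      (if (X / (n + 1) ^ i) % (n + 1) = 0 ∨ rho n X x i < (X / (n + 1) ^ i) % (n + 1) then 0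
        else (rho n X x i + 1) * (n + 1) ^ (r + i)) := by
  intro j
  induction j with
  | zero => intro r X x; simp [off, rho]
  | succ j ih =>
    intro r X x
    have e1 : ∀ x', x' = rstep (X % (n + 1)) x →
        off n j (r + 1) (X / (n + 1)) x' = rho n X x (j + 1) * (n + 1) ^ (r + (j + 1)) +
        ∑ i ∈ range j, (if (X / (n + 1) ^ (i + 1)) % (n + 1) = 0 ∨
          rho n X x (i + 1) < (X / (n + 1) ^ (i + 1)) % (n + 1) then 0
          else (rho n X x (i + 1) + 1) * (n + 1) ^ (r + (i + 1))) := by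
      rintro x' rfl
      rw [ih, rho_shift, add_right_comm r 1 j, add_assoc r j 1]
      congr 1
      refine sum_congr rfl (fun i _ => ?_)
      rw [rho_shift, Nat.div_div_eq_div_mul, ← pow_succ', add_right_comm r 1 i, add_assoc r i 1]
    rw [off, sum_range_succ']
    simp only [pow_zero, Nat.div_one, add_zero]
    have e0 : rho n X x 0 = x := rfl
    rw [e0]
    split_ifs with h
    · rw [e1 x (by unfold rstep; rw [if_pos h])]
      simp only [add_zero]
    · rw [e1 _ (by unfold rstep; rw [if_neg h]), add_assoc]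

theorem off_bound {n : ℕ} : ∀ (j r X x : ℕ), x < n → X < (n + 1) ^ j →
    off n j r X x + (n + 1) ^ r ≤ n * (n + 1) ^ (r + j) := by
  intro j
  induction j with
  | zero =>
    intro r X x hx _
    rw [off, add_zero]
    calc x * (n + 1) ^ r + (n + 1) ^ r = (x + 1) * (n + 1) ^ r := by ring
      _ ≤ n * (n + 1) ^ r := Nat.mul_le_mul_right _ hx
  | succ j ih =>
    intro r X x hx hX
    have hX' : X / (n + 1) < (n + 1) ^ j := by
      rw [Nat.div_lt_iff_lt_mul (by omega), ← pow_succ]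
      exact hX
    have hp : (n + 1) ^ r ≤ (n + 1) ^ (r + 1) := Nat.pow_le_pow_right (by omega) (by omega)
    have hm : X % (n + 1) < n + 1 := Nat.mod_lt _ (by omega)
    rw [off, show r + (j + 1) = r + 1 + j by ring]
    split_ifs with h
    · have h1 := ih (r + 1) (X / (n + 1)) x hx hX'
      omega
    · have h1 := ih (r + 1) (X / (n + 1)) (X % (n + 1) - 1) (by omega) hX'
      have h2 : (x + 1) * (n + 1) ^ r + (n + 1) ^ r ≤ (n + 1) ^ (r + 1) := by
        calc (x + 1) * (n + 1) ^ r + (n + 1) ^ r = (x + 2) * (n + 1) ^ r := by ring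
          _ ≤ (n + 1) * (n + 1) ^ r := Nat.mul_le_mul_right _ (by omega)
          _ = (n + 1) ^ (r + 1) := by ring
      omega

theorem off_lt {n : ℕ} : ∀ (j r X x : ℕ), x < n → X < (n + 1) ^ j →
    off n j r X x < n * (n + 1) ^ (r + j) := by
  intro j r X x hx hX
  have h1 := off_bound j r X x hx hX
  have h2 : 0 < (n + 1) ^ r := by positivity
  omega

theorem rho_le (n X x : ℕ) (i : ℕ) : rho n X x i ≤ x + n := by
  induction i with
  | zero => simp [rho]
  | succ i ih =>
    rw [rho]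
    unfold rstep
    have hm : (X / (n + 1) ^ i) % (n + 1) < n + 1 := Nat.mod_lt _ (by omega)
    split_ifs
    · exact ih
    · omega

theorem poly_rstep {k y : α → ℕ} (hk : PolyN D ctx k) (hy : PolyN D ctx y) :
    PolyN D ctx (fun a => rstep (k a) (y a)) := by
  refine (PolyN.ite ((PolyB.natEq hk (PolyN.const 0)).or (PolyB.lt hy hk)) hy
    (PolyN.sub hk (PolyN.const 1))).congr (fun a _ => ?_)
  unfold rstep
  simp only [Bool.or_eq_true, decide_eq_true_eq]

theorem poly_divPow {n X i : α → ℕ} (hn : PolyN D ctx n) (hX : PolyN D ctx X)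
    (hi : PolyN D ctx i) : PolyN D ctx (fun a => X a / (n a + 1) ^ i a) := by
  obtain ⟨B, hB⟩ := PolyC.length_le hX
  refine PolyC.natRec (fun a k => un (X a / (n a + 1) ^ k)) hi
    (PolyC.congr hX (fun a _ => by simp)) ?_ ⟨B, fun a ha k _ => ?_⟩
  · have h1 : PolyN (fun p : α × ℕ => D p.1 ∧ p.2 < i p.1)
        (PolyTime.lift ctx ++ [fun p => un p.2, fun p => un (X p.1 / (n p.1 + 1) ^ p.2)])
        (fun p => X p.1 / (n p.1 + 1) ^ p.2) := PolyC.var (by simp)
    have h2 : PolyN (fun p : α × ℕ => D p.1 ∧ p.2 < i p.1)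
        (PolyTime.lift ctx ++ [fun p => un p.2, fun p => un (X p.1 / (n p.1 + 1) ^ p.2)])
        (fun p => n p.1) := up2 hn
    refine (PolyN.div h1 h2.succ (fun _ _ => by omega)).congr (fun p _ => ?_)
    rw [Nat.div_div_eq_div_mul, ← pow_succ]
  · have h1 := hB a ha
    rw [un_length] at h1 ⊢
    exact (Nat.div_le_self _ _).trans h1

theorem poly_kdig {n X i : α → ℕ} (hn : PolyN D ctx n) (hX : PolyN D ctx X)
    (hi : PolyN D ctx i) : PolyN D ctx (fun a => (X a / (n a + 1) ^ i a) % (n a + 1)) :=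
  PolyN.mod (poly_divPow hn hX hi) hn.succ (fun _ _ => by omega)

theorem poly_rho {n X x i : α → ℕ} (hn : PolyN D ctx n) (hX : PolyN D ctx X)
    (hx : PolyN D ctx x) (hi : PolyN D ctx i) :
    PolyN D ctx (fun a => rho (n a) (X a) (x a) (i a)) := by
  obtain ⟨B, hB⟩ := PolyC.length_le (hx.add hn)
  refine PolyC.natRec (fun a k => un (rho (n a) (X a) (x a) k)) hi
    (PolyC.congr hx (fun a _ => rfl)) ?_ ⟨B, fun a ha k _ => ?_⟩
  · have h1 : PolyN (fun p : α × ℕ => D p.1 ∧ p.2 < i p.1)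
        (PolyTime.lift ctx ++ [fun p => un p.2, fun p => un (rho (n p.1) (X p.1) (x p.1) p.2)])
        (fun p => rho (n p.1) (X p.1) (x p.1) p.2) := PolyC.var (by simp)
    have h2 : PolyN (fun p : α × ℕ => D p.1 ∧ p.2 < i p.1)
        (PolyTime.lift ctx ++ [fun p => un p.2, fun p => un (rho (n p.1) (X p.1) (x p.1) p.2)])
        (fun p => p.2) := PolyC.var (by simp)
    exact poly_rstep (poly_kdig (up2 hn) (up2 hX) h2) h1
  · have h1 := hB a ha
    rw [un_length] at h1 ⊢
    exact (rho_le _ _ _ _).trans h1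

/-- Offsets. `N a` is the number of digits of a row. -/
theorem poly_off {n j r X x : α → ℕ} (hn : PolyN D ctx n) (hj : PolyN D ctx j)
    (hr : PolyN D ctx r) (hX : PolyN D ctx X) (hx : PolyN D ctx x)
    (hN : PolyN D ctx (fun a => (n a + 1) ^ (r a + j a))) :
    PolyN D ctx (fun a => off (n a) (j a) (r a) (X a) (x a)) := by
  have L := last (D := D) (ctx := ctx) (n := j)
  have N1 := upN (n := j) hn
  have X1 := upN (n := j) hX
  have x1 := upN (n := j) hx
  have j1 := upN (n := j) hj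
  have W1 := upN (n := j) hN
  have K1 := poly_kdig N1 X1 L
  have R1 := poly_rho N1 X1 x1 L
  have P1 := poly_divPow N1 W1 (PolyN.sub j1 L)
  have S1 := PolyN.ite ((PolyB.natEq K1 (PolyN.const 0)).or (PolyB.lt R1 K1)) (PolyN.const 0)
    (R1.succ.mul P1)
  have S2 := P8e91ed.PT.n_sum hj S1
  refine (((poly_rho hn hX hx hj).mul hN).add S2).congr (fun a _ => ?_)
  rw [off_eq]
  congr 1
  refine sum_congr rfl (fun i hi => ?_)
  rw [mem_range] at hi
  simp only [Bool.or_eq_true, decide_eq_true_eq]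
  have e : (n a + 1) ^ (r a + j a) / (n a + 1) ^ (j a - i) = (n a + 1) ^ (r a + i) := by
    rw [Nat.pow_div (by omega) (by omega)]
    congr 1
    omega
  rw [e]

theorem log_eq_bits (n : ℕ) : Nat.log 2 n = (Nat.bits n).length - 1 := by
  rw [Nat.size_eq_bits_len]
  rcases Nat.eq_zero_or_pos n with rfl | h
  · simp
  · have h1 : Nat.size n = Nat.log 2 n + 1 := by
      refine le_antisymm (Nat.size_le.2 (Nat.lt_pow_succ_log_self (by norm_num) n)) ?_
      exact Nat.lt_size.2 (Nat.pow_log_le_self 2 h.ne')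
    omega

theorem bin_log {f : α → ℕ} (hf : PolyBin D ctx f) : PolyN D ctx (fun a => Nat.log 2 (f a)) :=
  (PolyN.sub (PolyN.length (P8e91ed.PT.bin_bits hf)) (PolyN.const 1)).congr
    (fun _ _ => (log_eq_bits _).symm)

/-- `Nat.log 2 (f ^ c)` -/
theorem poly_logpow {f c : α → ℕ} (hf : PolyN D ctx f) (hc : PolyN D ctx c) :
    PolyN D ctx (fun a => Nat.log 2 (f a ^ c a)) :=
  bin_log (P8e91ed.PT.bin_pow (P8e91ed.PT.bin_ofN hf) hc)

end Pool.Agent.Lib.SubBisX.Tab
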