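import Pool.Agent.Lib.SubBisX.AccTabDefs
import Pool.Agent.Lib.SubBisX.TabPolyA

/-!
The offsets of the accelerated table machine: bound and polynomial time.

PROOF (as in TabPolyA.lean). With `C = s * n + 1`, `k_i = (X / C ^ i) % C`, `v_i = (k_i - 1) / s`, trace
the row upwards: `ρ_0 = x`, `ρ_{i+1} = if k_i = 0 ∨ ρ_i ≤ v_i then ρ_i else v_i`; then
`offA n s j r X x = ρ_j * C ^ (r + j) + ∑ i < j, (if k_i = 0 ∨ ρ_i ≤ v_i then 0 else
(1 + (k_i - 1) % s * n + ρ_i) * C ^ (r + i))`. Bound: `v_i < n` as `k_i ≤ s * n` (for `s = 0` all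
`k_i = 0`), and `(1 + (k_i - 1) % s * n + ρ_i) + 1 ≤ C` for `ρ_i < n`.
-/

namespace Pool.Agent.Lib.SubBisX.AccTab

open Finset Pool.Agent.Lib.PolyTime Pool.Agent.Lib.Pa7c826 Pool.Agent.Lib.Pa7c826t
open Pool.Agent.Lib.SubBisX.Tab

universe u

variable {α : Type u} {Dm : α → Prop} {ctx : List (α → List Bool)}

/-- the step of the trace: the row `y` and the digit `k` of the world -/
def astep (s k y : ℕ) : ℕ := if k = 0 ∨ y ≤ (k - 1) / s then y else (k - 1) / s

/-- the trace of the row upwards -/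
def arho (n s X x : ℕ) : ℕ → ℕ
  | 0 => x
  | i + 1 => astep s ((X / (s * n + 1) ^ i) % (s * n + 1)) (arho n s X x i)

theorem arho_shift (n s X x i : ℕ) :
    arho n s (X / (s * n + 1)) (astep s (X % (s * n + 1)) x) i = arho n s X x (i + 1) := by
  induction i with
  | zero => simp [arho]
  | succ i ih =>
    rw [arho, ih, Nat.div_div_eq_div_mul, ← pow_succ']
    rfl

theorem offA_eq (n s : ℕ) : ∀ (j r X x : ℕ), offA n s j r X x =
    arho n s X x j * (s * n + 1) ^ (r + j) + ∑ i ∈ range j,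
      (if (X / (s * n + 1) ^ i) % (s * n + 1) = 0 ∨
          arho n s X x i ≤ ((X / (s * n + 1) ^ i) % (s * n + 1) - 1) / s then 0
        else (1 + ((X / (s * n + 1) ^ i) % (s * n + 1) - 1) % s * n + arho n s X x i) *
          (s * n + 1) ^ (r + i)) := by
  intro j
  induction j with
  | zero => intro r X x; simp [offA, arho]
  | succ j ih =>
    intro r X x
    have e1 : ∀ x', x' = astep s (X % (s * n + 1)) x →
        offA n s j (r + 1) (X / (s * n + 1)) x' = arho n s X x (j + 1) * (s * n + 1) ^ (r + (j + 1)) +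
        ∑ i ∈ range j, (if (X / (s * n + 1) ^ (i + 1)) % (s * n + 1) = 0 ∨
          arho n s X x (i + 1) ≤ ((X / (s * n + 1) ^ (i + 1)) % (s * n + 1) - 1) / s then 0
          else (1 + ((X / (s * n + 1) ^ (i + 1)) % (s * n + 1) - 1) % s * n +
            arho n s X x (i + 1)) * (s * n + 1) ^ (r + (i + 1))) := by
      rintro x' rfl
      rw [ih, arho_shift, add_right_comm r 1 j, add_assoc r j 1]
      congr 1
      refine sum_congr rfl (fun i _ => ?_)
      rw [arho_shift, Nat.div_div_eq_div_mul, ← pow_succ', add_right_comm r 1 i, add_assoc r i 1]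
    rw [offA, sum_range_succ']
    simp only [pow_zero, Nat.div_one, add_zero]
    have e0 : arho n s X x 0 = x := rfl
    rw [e0]
    split_ifs with h
    · rw [e1 x (by unfold astep; rw [if_pos h])]
      simp only [add_zero]
    · rw [e1 _ (by unfold astep; rw [if_neg h]), add_assoc]

theorem div_lt_of_code {n s k : ℕ} (hk : k < s * n + 1) (h0 : k ≠ 0) :
    0 < s ∧ (k - 1) / s < n := by
  have hs : 0 < s := by
    rcases Nat.eq_zero_or_pos s with rfl | h
    · simp at hk; omega
    · exact h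
  refine ⟨hs, ?_⟩
  rw [Nat.div_lt_iff_lt_mul hs]
  have : s * n = n * s := Nat.mul_comm _ _
  omega

theorem offA_bound {n s : ℕ} : ∀ (j r X x : ℕ), x < n → X < (s * n + 1) ^ j →
    offA n s j r X x + (s * n + 1) ^ r ≤ n * (s * n + 1) ^ (r + j) := by
  intro j
  induction j with
  | zero =>
    intro r X x hx _
    rw [offA, add_zero]
    calc x * (s * n + 1) ^ r + (s * n + 1) ^ r = (x + 1) * (s * n + 1) ^ r := by ring
      _ ≤ n * (s * n + 1) ^ r := Nat.mul_le_mul_right _ hx
  | succ j ih =>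
    intro r X x hx hX
    have hX' : X / (s * n + 1) < (s * n + 1) ^ j := by
      rw [Nat.div_lt_iff_lt_mul (by omega), ← pow_succ]
      exact hX
    have hp : (s * n + 1) ^ r ≤ (s * n + 1) ^ (r + 1) := Nat.pow_le_pow_right (by omega) (by omega)
    have hm : X % (s * n + 1) < s * n + 1 := Nat.mod_lt _ (by omega)
    rw [offA, show r + (j + 1) = r + 1 + j by ring]
    split_ifs with h
    · have h1 := ih (r + 1) (X / (s * n + 1)) x hx hX'
      omega
    · push Not at h
      obtain ⟨hs, hv⟩ := div_lt_of_code hm h.1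
      have h1 := ih (r + 1) (X / (s * n + 1)) ((X % (s * n + 1) - 1) / s) hv hX'
      have h2 : (1 + (X % (s * n + 1) - 1) % s * n + x) * (s * n + 1) ^ r + (s * n + 1) ^ r ≤
          (s * n + 1) ^ (r + 1) := by
        have h3 : (X % (s * n + 1) - 1) % s * n + n ≤ s * n := by
          have h4 : (X % (s * n + 1) - 1) % s + 1 ≤ s := Nat.mod_lt _ hs
          calc (X % (s * n + 1) - 1) % s * n + n = ((X % (s * n + 1) - 1) % s + 1) * n := by ring
            _ ≤ s * n := Nat.mul_le_mul_right _ h4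
        calc (1 + (X % (s * n + 1) - 1) % s * n + x) * (s * n + 1) ^ r + (s * n + 1) ^ r
            = (1 + (X % (s * n + 1) - 1) % s * n + x + 1) * (s * n + 1) ^ r := by ring
          _ ≤ (s * n + 1) * (s * n + 1) ^ r := Nat.mul_le_mul_right _ (by omega)
          _ = (s * n + 1) ^ (r + 1) := by ring
      omega

theorem arho_le (n s X x : ℕ) (i : ℕ) : arho n s X x i ≤ x + s * n := by
  induction i with
  | zero => simp [arho]
  | succ i ih =>
    rw [arho]
    unfold astep
    have hm : (X / (s * n + 1) ^ i) % (s * n + 1) < s * n + 1 := Nat.mod_lt _ (by omega)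
    split_ifs
    · exact ih
    · have h1 := Nat.div_le_self ((X / (s * n + 1) ^ i) % (s * n + 1) - 1) s
      omega

/-- `(k - 1) / s`, where `s = 0` only if `k ≤ 1` -/
theorem poly_divs {s k : α → ℕ} (hs : PolyN Dm ctx s) (hk : PolyN Dm ctx k)
    (h0 : ∀ a, Dm a → s a = 0 → k a = 0) :
    PolyN Dm ctx (fun a => (k a - 1) / s a) := by
  have h1 : PolyN Dm ctx (fun a => if s a = 0 then 1 else s a) := by
    refine (PolyN.ite (PolyB.natEq hs (PolyN.const 0)) (PolyN.const 1) hs).congr (fun a _ => ?_)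
    simp only [decide_eq_true_eq]
  refine (PolyN.div (PolyN.sub hk (PolyN.const 1)) h1 (fun a _ => ?_)).congr (fun a ha => ?_)
  · split_ifs with h
    · exact one_pos
    · omega
  · split_ifs with h
    · rw [h0 a ha h, h]
    · rfl

theorem poly_mods {s k : α → ℕ} (hs : PolyN Dm ctx s) (hk : PolyN Dm ctx k)
    (h0 : ∀ a, Dm a → s a = 0 → k a = 0) :
    PolyN Dm ctx (fun a => (k a - 1) % s a) := by
  have h1 : PolyN Dm ctx (fun a => if s a = 0 then 1 else s a) := by
    refine (PolyN.ite (PolyB.natEq hs (PolyN.const 0)) (PolyN.const 1) hs).congr (fun a _ => ?_)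
    simp only [decide_eq_true_eq]
  refine (PolyN.mod (PolyN.sub hk (PolyN.const 1)) h1 (fun a _ => ?_)).congr (fun a ha => ?_)
  · split_ifs with h
    · exact one_pos
    · omega
  · split_ifs with h
    · rw [h0 a ha h, h]
    · rfl

theorem poly_astep {s k y : α → ℕ} (hs : PolyN Dm ctx s) (hk : PolyN Dm ctx k)
    (hy : PolyN Dm ctx y) (h0 : ∀ a, Dm a → s a = 0 → k a = 0) :
    PolyN Dm ctx (fun a => astep (s a) (k a) (y a)) := by
  have hd := poly_divs hs hk h0
  refine (PolyN.ite ((PolyB.natEq hk (PolyN.const 0)).or (PolyB.le hy hd)) hy hd).congr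
    (fun a _ => ?_)
  unfold astep
  simp only [Bool.or_eq_true, decide_eq_true_eq]

theorem poly_arho {n s X x i : α → ℕ} (hn : PolyN Dm ctx n) (hs : PolyN Dm ctx s)
    (hX : PolyN Dm ctx X) (hx : PolyN Dm ctx x) (hi : PolyN Dm ctx i) :
    PolyN Dm ctx (fun a => arho (n a) (s a) (X a) (x a) (i a)) := by
  obtain ⟨B, hB⟩ := PolyC.length_le (hx.add (hs.mul hn))
  refine PolyC.natRec (fun a k => un (arho (n a) (s a) (X a) (x a) k)) hi
    (PolyC.congr hx (fun a _ => rfl)) ?_ ⟨B, fun a ha k _ => ?_⟩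
  · have h1 : PolyN (fun p : α × ℕ => Dm p.1 ∧ p.2 < i p.1)
        (PolyTime.lift ctx ++
          [fun p => un p.2, fun p => un (arho (n p.1) (s p.1) (X p.1) (x p.1) p.2)])
        (fun p => arho (n p.1) (s p.1) (X p.1) (x p.1) p.2) := PolyC.var (by simp)
    have h2 : PolyN (fun p : α × ℕ => Dm p.1 ∧ p.2 < i p.1)
        (PolyTime.lift ctx ++
          [fun p => un p.2, fun p => un (arho (n p.1) (s p.1) (X p.1) (x p.1) p.2)])
        (fun p => p.2) := PolyC.var (by simp)
    refine poly_astep (up2 hs) (poly_kdig (PolyN.mul (up2 hs) (up2 hn)) (up2 hX) h2) h1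
      (fun p _ h0 => ?_)
    simp only [h0, Nat.zero_mul, zero_add, Nat.mod_one]
  · have h1 := hB a ha
    rw [un_length] at h1 ⊢
    exact (arho_le _ _ _ _ _).trans h1

/-- Offsets. -/
theorem poly_offA {n s j r X x : α → ℕ} (hn : PolyN Dm ctx n) (hs : PolyN Dm ctx s)
    (hj : PolyN Dm ctx j) (hr : PolyN Dm ctx r) (hX : PolyN Dm ctx X) (hx : PolyN Dm ctx x)
    (hN : PolyN Dm ctx (fun a => (s a * n a + 1) ^ (r a + j a))) :
    PolyN Dm ctx (fun a => offA (n a) (s a) (j a) (r a) (X a) (x a)) := by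
  have L := last (D := Dm) (ctx := ctx) (n := j)
  have N1 := upN (n := j) hn
  have s1 := upN (n := j) hs
  have X1 := upN (n := j) hX
  have x1 := upN (n := j) hx
  have j1 := upN (n := j) hj
  have W1 := upN (n := j) hN
  have K1 := poly_kdig (s1.mul N1) X1 L
  have R1 := poly_arho N1 s1 X1 x1 L
  have P1 := poly_divPow (s1.mul N1) W1 (PolyN.sub j1 L)
  have V1 := poly_divs s1 K1 (fun p _ h0 => by simp only [h0, Nat.zero_mul, zero_add, Nat.mod_one])
  have M1 := poly_mods s1 K1 (fun p _ h0 => by simp only [h0, Nat.zero_mul, zero_add, Nat.mod_one])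
  have S1 := PolyN.ite ((PolyB.natEq K1 (PolyN.const 0)).or (PolyB.le R1 V1)) (PolyN.const 0)
    ((((PolyN.const 1).add (M1.mul N1)).add R1).mul P1)
  have S2 := P8e91ed.PT.n_sum hj S1
  refine (((poly_arho hn hs hX hx hj).mul hN).add S2).congr (fun a _ => ?_)
  rw [offA_eq]
  congr 1
  refine sum_congr rfl (fun i hi => ?_)
  rw [mem_range] at hi
  simp only [Bool.or_eq_true, decide_eq_true_eq]
  have e : (s a * n a + 1) ^ (r a + j a) / (s a * n a + 1) ^ (j a - i) =
      (s a * n a + 1) ^ (r a + i) := by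
    rw [Nat.pow_div (by omega) (by omega)]
    congr 1
    omega
  rw [e]

end Pool.Agent.Lib.SubBisX.AccTab
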