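import Pool.Agent.Lib.SubBisX.AccDefs

/-!
# The accelerated stochastic ascent on nested worlds: adaptedness, swap identity, variance
-/

open scoped BigOperators

namespace Pool.Agent.Lib.SubBisX.Acc

open Reg

variable {m n s N : ℕ} {M : ℤ} {g : Fin n → Fin m → (Fin n → ℤ) → ℤ}

/-! ## Ranges -/

theorem clip_mem {M : ℤ} (hM : 0 ≤ M) (y : ℤ) : 0 ≤ clip M y ∧ clip M y ≤ M :=
  ⟨le_max_left _ _, max_le hM (min_le_left _ _)⟩

theorem wt_succ_pos (r : ℕ) : 0 < wt (r + 1) := by
  rw [wt_succ]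
  omega

theorem wt_pos {r : ℕ} (hr : 0 < r) : 0 < wt r := by
  obtain ⟨k, rfl⟩ := Nat.exists_eq_succ_of_ne_zero hr.ne'
  exact wt_succ_pos k

theorem St_succ_fst (r : ℕ) (w : Fin n → XA m n s N (r + 1)) (v : Fin n) :
    (St M g (r + 1) w).1 v = clip M ((St M g r (low w)).1 v +
      (r + 1 : ℕ) * ∑ i : Fin s, sg g (St M g r) v (low w) (smp w v i)) := rfl

theorem St_succ_snd (r : ℕ) (w : Fin n → XA m n s N (r + 1)) (v : Fin n) :
    (St M g (r + 1) w).2 v = (St M g r (low w)).2 v + (r + 1 : ℕ) * (St M g (r + 1) w).1 v := rfl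

theorem z_mem (hM : 0 ≤ M) (r : ℕ) (w : Fin n → XA m n s N r) (v : Fin n) :
    0 ≤ (St M g r w).1 v ∧ (St M g r w).1 v ≤ M := by
  cases r with
  | zero => exact ⟨le_rfl, hM⟩
  | succ r => exact clip_mem hM _

theorem S_mem (hM : 0 ≤ M) (r : ℕ) (w : Fin n → XA m n s N r) (v : Fin n) :
    0 ≤ (St M g r w).2 v ∧ (St M g r w).2 v ≤ wt r * M := by
  induction r with
  | zero =>
    refine ⟨le_rfl, ?_⟩
    show (0 : ℤ) ≤ wt 0 * M
    exact mul_nonneg (Int.natCast_nonneg _) hM
  | succ r ih =>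
    rw [St_succ_snd, wt_succ]
    obtain ⟨h1, h2⟩ := ih (low w)
    obtain ⟨h3, h4⟩ := z_mem (g := g) hM (r + 1) w v
    have h5 : (0 : ℤ) ≤ ((r + 1 : ℕ) : ℤ) := Int.natCast_nonneg _
    constructor
    · exact add_nonneg h1 (mul_nonneg h5 h3)
    · push_cast
      push_cast at h5
      nlinarith [mul_le_mul_of_nonneg_left h4 h5]

theorem qy_mem (hM : 0 ≤ M) (r : ℕ) (w : Fin n → XA m n s N r) (v : Fin n) :
    0 ≤ qy r (St M g r w) v ∧ qy r (St M g r w) v ≤ M := by
  obtain ⟨h1, h2⟩ := S_mem (g := g) hM r w v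
  obtain ⟨h3, h4⟩ := z_mem (g := g) hM r w v
  have h5 : (0 : ℤ) ≤ ((r + 1 : ℕ) : ℤ) := Int.natCast_nonneg _
  have h6 : (0 : ℤ) < (wt (r + 1) : ℤ) := by exact_mod_cast wt_succ_pos r
  constructor
  · exact Int.ediv_nonneg (add_nonneg h1 (mul_nonneg h5 h3)) h6.le
  · refine Int.ediv_le_of_le_mul h6 ?_
    rw [wt_succ]
    push_cast
    push_cast at h5
    nlinarith [mul_le_mul_of_nonneg_left h4 h5]

theorem xo_mem (hM : 0 ≤ M) (r : ℕ) (w : Fin n → XA m n s N r) (v : Fin n) :
    0 ≤ xo M g r w v ∧ xo M g r w v ≤ M := by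
  obtain ⟨h1, h2⟩ := S_mem (g := g) hM r w v
  rcases Nat.eq_zero_or_pos r with h0 | h0
  · subst h0
    show 0 ≤ (0 : ℤ) / ((wt 0 : ℕ) : ℤ) ∧ (0 : ℤ) / ((wt 0 : ℕ) : ℤ) ≤ M
    rw [Int.zero_ediv]
    exact ⟨le_rfl, hM⟩
  · have h6 : (0 : ℤ) < (wt r : ℤ) := by exact_mod_cast wt_pos h0
    constructor
    · exact Int.ediv_nonneg h1 h6.le
    · refine Int.ediv_le_of_le_mul h6 ?_
      rw [mul_comm]
      exact h2

/-! ## Adaptedness -/

theorem St_upto (r : ℕ) (v : Fin n) (a b : Fin n → XA m n s N r) (hab : ∀ x ≤ v, a x = b x) :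
    (St M g r a).1 v = (St M g r b).1 v ∧ (St M g r a).2 v = (St M g r b).2 v := by
  induction r generalizing v with
  | zero => exact ⟨rfl, rfl⟩
  | succ r ih =>
    have h1 : ∀ x ≤ v, low a x = low b x := fun x hx => congrArg Prod.fst (hab x hx)
    have h2 : smp a v = smp b v := congrArg Prod.snd (hab v le_rfl)
    obtain ⟨h3, h4⟩ := ih v (low a) (low b) h1
    have h5 : ∀ c : Fin n → XA m n s N r, splice v (low a) c = splice v (low b) c := by
      intro c
      funext x
      by_cases hx : x ≤ v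
      · rw [splice_le hx, splice_le hx, h1 x hx]
      · rw [splice_gt hx, splice_gt hx]
    have h6 : ∀ i, sg g (St M g r) v (low a) (smp a v i) = sg g (St M g r) v (low b) (smp b v i) := by
      intro i
      unfold sg
      rw [h5, h2, h1 v le_rfl]
    have h7 : (St M g (r + 1) a).1 v = (St M g (r + 1) b).1 v := by
      rw [St_succ_fst, St_succ_fst, h3, Finset.sum_congr rfl fun i _ => h6 i]
    exact ⟨h7, by rw [St_succ_snd, St_succ_snd, h4, h7]⟩

theorem z_upto (r : ℕ) (v : Fin n) : Upto v fun w : Fin n → XA m n s N r => (St M g r w).1 v :=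
  fun a b hab => (St_upto r v a b hab).1

theorem S_upto (r : ℕ) (v : Fin n) : Upto v fun w : Fin n → XA m n s N r => (St M g r w).2 v :=
  fun a b hab => (St_upto r v a b hab).2

theorem qy_upto (r : ℕ) (v : Fin n) :
    Upto v fun w : Fin n → XA m n s N r => qy r (St M g r w) v := by
  intro a b hab
  obtain ⟨h1, h2⟩ := St_upto (M := M) (g := g) r v a b hab
  show ((St M g r a).2 v + (r + 1 : ℕ) * (St M g r a).1 v) / (wt (r + 1) : ℤ) =
    ((St M g r b).2 v + (r + 1 : ℕ) * (St M g r b).1 v) / (wt (r + 1) : ℤ)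
  rw [h1, h2]

theorem xo_upto (r : ℕ) (v : Fin n) : Upto v fun w : Fin n → XA m n s N r => xo M g r w v := by
  intro a b hab
  obtain ⟨-, h2⟩ := St_upto (M := M) (g := g) r v a b hab
  show (St M g r a).2 v / (wt r : ℤ) = (St M g r b).2 v / (wt r : ℤ)
  rw [h2]

theorem dig_upto (r : ℕ) (v : Fin n) {α : Sort*} {h : (Fin n → Fin m) → α} (hh : Upto v h) :
    Upto v fun w : Fin n → XA m n s N r => h (dig r w) := fun _ _ hab =>
  hh _ _ fun x hx => congrArg (base m n s N r) (hab x hx)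

theorem dig_succ {r : ℕ} (w : Fin n → XA m n s N (r + 1)) : dig (r + 1) w = dig r (low w) := rfl

/-! ## Averages -/

theorem av_smp [NeZero m] [NeZero N] (r : ℕ) (v : Fin n)
    (F : (Fin n → XA m n s N r) → (Fin s → Smp m n s N r) → ℝ) :
    (av fun w : Fin n → XA m n s N (r + 1) => F (low w) (smp w v)) =
      av fun a => av fun b => F a b := by
  have h1 := av_equiv (Equiv.arrowProdEquivProdArrow (Fin n) (fun _ => XA m n s N r)
    (fun _ => Fin s → Smp m n s N r))
    (fun p : (Fin n → XA m n s N r) × (Fin n → (Fin s → Smp m n s N r)) => F p.1 (p.2 v))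
  rw [av_prod] at h1
  have h2 : (fun a => av fun b : Fin n → (Fin s → Smp m n s N r) => F a (b v)) =
      fun a => av fun b => F a b := funext fun a => av_coord v (F a)
  calc (av fun w : Fin n → XA m n s N (r + 1) => F (low w) (smp w v))
      = av fun a => av fun b : Fin n → (Fin s → Smp m n s N r) => F a (b v) := h1
    _ = _ := by rw [h2]

theorem av_low [NeZero m] [NeZero N] (r : ℕ) (F : (Fin n → XA m n s N r) → ℝ) :
    (av fun w : Fin n → XA m n s N (r + 1) => F (low w)) = av F := by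
  have h1 := av_equiv (Equiv.arrowProdEquivProdArrow (Fin n) (fun _ => XA m n s N r)
    (fun _ => Fin s → Smp m n s N r))
    (fun p : (Fin n → XA m n s N r) × (Fin n → (Fin s → Smp m n s N r)) => F p.1)
  rw [av_fst] at h1
  exact h1

theorem av_dig [NeZero m] [NeZero N] (r : ℕ) (F : (Fin n → Fin m) → ℝ) :
    (av fun w : Fin n → XA m n s N r => F (dig r w)) = av F := by
  induction r with
  | zero => rfl
  | succ r ih =>
    rw [← ih]
    exact av_low r fun w => F (dig r w)

/-- the average over a sample = the average over the world and the noise -/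
theorem av_one [NeZero m] [NeZero N] (r : ℕ)
    (F : (Fin n → XA m n s N r) → (Fin n → ℤ) → ℝ) :
    (av fun b : Smp m n s N r => F (wd b) (nz b)) =
      av fun c : Fin n → XA m n s N r => av fun ζ : Fin n → Fin N =>
        F c fun x => (((ζ x : ℕ) : ℤ)) := by
  have h1 := av_equiv (Equiv.arrowProdEquivProdArrow (Fin n) (fun _ => XA m n s N r)
    (fun _ => Fin N))
    (fun p : (Fin n → XA m n s N r) × (Fin n → Fin N) => F p.1 fun x => (((p.2 x : ℕ) : ℤ)))
  rw [av_prod] at h1
  exact h1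

/-! ## Conditional mean, sample mean, variance -/

/-- The conditional mean gradient. -/
noncomputable def gb (M : ℤ) (g : Fin n → Fin m → (Fin n → ℤ) → ℤ) (r : ℕ) (v : Fin n)
    (a : Fin n → XA m n s N r) : ℝ :=
  av fun c : Fin n → XA m n s N r =>
    mg N g v (base m n s N r (a v)) (qy r (St M g r (splice v a c)))

/-- The sample mean gradient. -/
noncomputable def gh (M : ℤ) (g : Fin n → Fin m → (Fin n → ℤ) → ℤ) (r : ℕ) (v : Fin n)
    (a : Fin n → XA m n s N r) (b : Fin s → Smp m n s N r) : ℝ :=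
  (∑ i : Fin s, ((sg g (St M g r) v a (b i) : ℤ) : ℝ)) / s

theorem cross [NeZero m] [NeZero N] (r : ℕ) (v : Fin n) {B : Type*} [Fintype B]
    (h : (Fin n → XA m n s N r) → B → ℝ) (hh : ∀ b, Upto v fun a => h a b) :
    (av fun a : Fin n → XA m n s N r => av fun b : B =>
      h a b * mg N g v (dig r a v) (qy r (St M g r a))) =
    av fun a : Fin n → XA m n s N r => av fun b : B => h a b * gb M g r v a := by
  rw [av_comm, av_comm (Ω := Fin n → XA m n s N r)]
  refine congrArg av (funext fun b => ?_)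
  have h1 := av_swap v (fun a => h a b)
    (fun a : Fin n → XA m n s N r => mg N g v (dig r a v) (qy r (St M g r a))) (hh b)
  rw [← h1]
  refine congrArg av (funext fun a => ?_)
  rw [av_smul]
  congr 1
  unfold gb
  refine congrArg av (funext fun c => ?_)
  have h2 : dig r (splice v a c) v = base m n s N r (a v) := by
    show base m n s N r (splice v a c v) = _
    rw [splice_le le_rfl]
  rw [h2]

theorem av_sg [NeZero m] [NeZero N] (r : ℕ) (v : Fin n) (a : Fin n → XA m n s N r) :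
    (av fun b : Smp m n s N r => ((sg g (St M g r) v a b : ℤ) : ℝ)) = gb M g r v a := by
  have h1 := av_one (m := m) (n := n) (s := s) (N := N) r fun c ζ =>
    ((g v (base m n s N r (a v)) (fun x => qy r (St M g r (splice v a c)) x + ζ x) : ℤ) : ℝ)
  exact h1

theorem av_gh [NeZero m] [NeZero N] [NeZero s] (r : ℕ) (v : Fin n) (a : Fin n → XA m n s N r) :
    (av fun b => gh M g r v a b) = gb M g r v a := by
  have hs : (s : ℝ) ≠ 0 := by exact_mod_cast NeZero.ne s
  have h1 : (av fun b : Fin s → Smp m n s N r =>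
      ∑ i : Fin s, ((sg g (St M g r) v a (b i) : ℤ) : ℝ)) = s * gb M g r v a := by
    rw [av_sum, Finset.sum_congr rfl fun i _ =>
      (av_coord i fun b : Smp m n s N r => ((sg g (St M g r) v a b : ℤ) : ℝ)),
      Finset.sum_const, av_sg, Finset.card_univ, Fintype.card_fin, nsmul_eq_mul]
  have h2 : (fun b : Fin s → Smp m n s N r => gh M g r v a b) = fun b =>
      (s : ℝ)⁻¹ * ∑ i : Fin s, ((sg g (St M g r) v a (b i) : ℤ) : ℝ) := by
    funext b
    unfold gh
    rw [div_eq_inv_mul]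
  rw [h2, av_smul, h1, ← mul_assoc, inv_mul_cancel₀ hs, one_mul]

/-- The average over a product of a product of functions of two coordinates. -/
theorem av_coord_two {Ω : Type*} [Fintype Ω] [Nonempty Ω] {i j : Fin s} (hij : i ≠ j)
    (f g : Ω → ℝ) : av (fun c : Fin s → Ω => f (c i) * g (c j)) = av f * av g := by
  classical
  have h := av_equiv (Equiv.funSplitAt i Ω)
    (fun p : Ω × ({k // k ≠ i} → Ω) => f p.1 * g (p.2 ⟨j, hij.symm⟩))
  rw [av_prod] at h
  have h2 : (fun a : Ω => av fun b : {k // k ≠ i} → Ω => f a * g (b ⟨j, hij.symm⟩)) =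
      fun a => av g * f a := by
    funext a
    rw [av_smul, mul_comm (av g)]
    congr 1
    have h3 := av_equiv (Equiv.funSplitAt (⟨j, hij.symm⟩ : {k // k ≠ i}) Ω)
      (fun p : Ω × ({l // l ≠ (⟨j, hij.symm⟩ : {k // k ≠ i})} → Ω) => g p.1)
    rw [av_fst] at h3
    exact h3
  rw [h2, av_smul, mul_comm] at h
  rw [← h]
  rfl

/-- The variance of a sample mean. -/
theorem av_var {Ω : Type*} [Fintype Ω] [Nonempty Ω] [NeZero s] (f : Ω → ℝ) (e D : ℝ)
    (hf : ∀ x, |f x - e| ≤ D) :
    (av fun b : Fin s → Ω => ((∑ i, f (b i)) / s - av f) ^ 2) ≤ D ^ 2 / s := by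
  classical
  have hs : (0 : ℝ) < s := by exact_mod_cast Nat.pos_of_ne_zero (NeZero.ne s)
  set μ := av f with hμ
  have h0 : av (fun x => f x - μ) = 0 := by
    rw [av_sub, av_const, ← hμ, sub_self]
  have h1 : ∀ b : Fin s → Ω, ((∑ i, f (b i)) / s - μ) ^ 2 =
      (s : ℝ)⁻¹ ^ 2 * ∑ i, ∑ j, (f (b i) - μ) * (f (b j) - μ) := by
    intro b
    have h2 : (∑ i, f (b i)) / s - μ = (s : ℝ)⁻¹ * ∑ i : Fin s, (f (b i) - μ) := by
      rw [Finset.sum_sub_distrib, Finset.sum_const, Finset.card_univ, Fintype.card_fin,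
        nsmul_eq_mul]
      field_simp
    rw [h2, mul_pow, ← Finset.sum_mul_sum, sq (∑ i : Fin s, (f (b i) - μ))]
  have h3 : ∀ i j : Fin s, (av fun b : Fin s → Ω => (f (b i) - μ) * (f (b j) - μ)) ≤
      if i = j then D ^ 2 else 0 := by
    intro i j
    by_cases hij : i = j
    · subst hij
      rw [if_pos rfl]
      have h4 : (av fun b : Fin s → Ω => (f (b i) - μ) * (f (b i) - μ)) =
          av fun x => (f x - μ) * (f x - μ) := av_coord i fun x => (f x - μ) * (f x - μ)
      rw [h4]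
      have h5 : (av fun x => (f x - μ) * (f x - μ)) =
          (av fun x => (f x - e) ^ 2) - (μ - e) ^ 2 := by
        have h6 : ∀ x, (f x - μ) * (f x - μ) =
            ((f x - e) ^ 2 - (μ - e) ^ 2) - 2 * (μ - e) * (f x - μ) := by
          intro x
          ring
        rw [funext h6, av_sub, av_smul, h0, mul_zero, sub_zero, av_sub, av_const]
      rw [h5]
      have h7 : (av fun x => (f x - e) ^ 2) ≤ D ^ 2 := by
        refine (av_mono fun x => ?_).trans (le_of_eq (av_const (D ^ 2)))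
        rw [← sq_abs]
        exact pow_le_pow_left₀ (abs_nonneg _) (hf x) 2
      nlinarith [sq_nonneg (μ - e)]
    · rw [if_neg hij]
      have h4 := av_coord_two hij (fun x => f x - μ) (fun x => f x - μ)
      rw [h0, mul_zero] at h4
      exact le_of_eq h4
  rw [funext h1, av_smul, av_sum]
  have h8 : ∀ i : Fin s, (av fun b : Fin s → Ω => ∑ j, (f (b i) - μ) * (f (b j) - μ)) ≤ D ^ 2 := by
    intro i
    rw [av_sum]
    refine (Finset.sum_le_sum fun j _ => h3 i j).trans ?_
    rw [Finset.sum_ite_eq, if_pos (Finset.mem_univ _)]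
  have h9 : (∑ i : Fin s, av fun b : Fin s → Ω => ∑ j, (f (b i) - μ) * (f (b j) - μ)) ≤
      s * D ^ 2 := by
    refine (Finset.sum_le_sum fun i _ => h8 i).trans ?_
    rw [Finset.sum_const, Finset.card_univ, Fintype.card_fin, nsmul_eq_mul]
  calc (s : ℝ)⁻¹ ^ 2 * ∑ i : Fin s, (av fun b : Fin s → Ω =>
        ∑ j, (f (b i) - μ) * (f (b j) - μ)) ≤ (s : ℝ)⁻¹ ^ 2 * (s * D ^ 2) :=
        mul_le_mul_of_nonneg_left h9 (by positivity)
    _ = D ^ 2 / s := by
      field_simp

theorem var_gh [NeZero m] [NeZero N] [NeZero s] (r : ℕ) (v : Fin n)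
    (a : Fin n → XA m n s N r) (e D : ℝ)
    (hD : ∀ y : Fin n → ℤ, |((g v (base m n s N r (a v)) y : ℤ) : ℝ) - e| ≤ D) :
    (av fun b => (gh M g r v a b - gb M g r v a) ^ 2) ≤ D ^ 2 / s := by
  have h1 := av_var (s := s) (fun b : Smp m n s N r => ((sg g (St M g r) v a b : ℤ) : ℝ)) e D
    fun b => hD _
  rw [av_sg] at h1
  exact h1

end Pool.Agent.Lib.SubBisX.Acc
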