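import Mathlib

/-!
An auction that computes the largest number of edges of a subgraph of a bipartite graph in which every
left vertex of a given set has degree at most `C` and every right vertex degree at most one.
-/

namespace Pool.Agent.Lib.SubBisX.Auc

open Finset

/-- The number of right vertices `u < b` owned by `v`. The owner `v` is coded by `v + 1`. -/
def dgo (b : ℕ) (own : ℕ → ℕ) (v : ℕ) : ℕ := ((range b).filter fun u => own u = v + 1).card

/-- `u` is the first neighbour of `v` of minimal price, and this price is at most `b`. -/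
def cand (b : ℕ) (E : ℕ → ℕ → Bool) (pr : ℕ → ℕ) (v u : ℕ) : Prop :=
  E v u = true ∧ pr u ≤ b ∧ ∀ u' < b, E v u' = true → pr u ≤ pr u' ∧ (u' < u → pr u < pr u')

instance (b : ℕ) (E : ℕ → ℕ → Bool) (pr : ℕ → ℕ) (v u : ℕ) : Decidable (cand b E pr v u) :=
  inferInstanceAs (Decidable (E v u = true ∧ pr u ≤ b ∧
    ∀ u' < b, E v u' = true → pr u ≤ pr u' ∧ (u' < u → pr u < pr u')))

/-- `v` is in `S`, owns fewer than `C` right vertices and has a neighbour of price at most `b`. -/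
def act (b C : ℕ) (E : ℕ → ℕ → Bool) (S : ℕ → Bool) (st : (ℕ → ℕ) × (ℕ → ℕ)) (v : ℕ) : Prop :=
  S v = true ∧ dgo b st.1 v < C ∧ ∃ u < b, cand b E st.2 v u

instance (b C : ℕ) (E : ℕ → ℕ → Bool) (S : ℕ → Bool) (st : (ℕ → ℕ) × (ℕ → ℕ)) (v : ℕ) :
    Decidable (act b C E S st v) :=
  inferInstanceAs (Decidable (S v = true ∧ dgo b st.1 v < C ∧ ∃ u < b, cand b E st.2 v u))

/-- The first active left vertex, `a` if there is none. -/
def fa (a b C : ℕ) (E : ℕ → ℕ → Bool) (S : ℕ → Bool) (st : (ℕ → ℕ) × (ℕ → ℕ)) : ℕ :=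
  ((range a).filter fun v => ∀ v' < v + 1, ¬ act b C E S st v').card

/-- `u` is the right vertex taken in the next step. -/
def tkn (a b C : ℕ) (E : ℕ → ℕ → Bool) (S : ℕ → Bool) (st : (ℕ → ℕ) × (ℕ → ℕ)) (u : ℕ) : Prop :=
  fa a b C E S st < a ∧ u < b ∧ cand b E st.2 (fa a b C E S st) u

instance (a b C : ℕ) (E : ℕ → ℕ → Bool) (S : ℕ → Bool) (st : (ℕ → ℕ) × (ℕ → ℕ)) (u : ℕ) :
    Decidable (tkn a b C E S st u) :=
  inferInstanceAs (Decidable (fa a b C E S st < a ∧ u < b ∧ cand b E st.2 (fa a b C E S st) u))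

/-- One step of the auction. -/
def astep (a b C : ℕ) (E : ℕ → ℕ → Bool) (S : ℕ → Bool) (st : (ℕ → ℕ) × (ℕ → ℕ)) :
    (ℕ → ℕ) × (ℕ → ℕ) :=
  (fun u => if tkn a b C E S st u then fa a b C E S st + 1 else st.1 u,
    fun u => if tkn a b C E S st u then st.2 u + 1 else st.2 u)

/-- The state after `k` steps. -/
def auc (a b C : ℕ) (E : ℕ → ℕ → Bool) (S : ℕ → Bool) : ℕ → (ℕ → ℕ) × (ℕ → ℕ)
  | 0 => (fun _ => 0, fun _ => 0)
  | k + 1 => astep a b C E S (auc a b C E S k)

/-- The result of the auction: the number of right vertices of positive price at the end. -/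
def aucVal (a b C : ℕ) (E : ℕ → ℕ → Bool) (S : ℕ → Bool) : ℕ :=
  ((range b).filter fun u => 0 < (auc a b C E S (b * (b + 1))).2 u).card

end Pool.Agent.Lib.SubBisX.Auc
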