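import Pool.Agent.Lib.SubBisX.CoreDefs

/-!
The greedy algorithm for a submodular set function: the step is a supergradient of the objective.
-/

open scoped BigOperators

namespace Pool.Agent.Lib.SubBisX.Core

open Finset Reg SubBis

variable {n : ℕ} {F : Finset (Fin n) → ℤ}

theorem not_mem_Upo (Y : Fin n → ℤ) (v : Fin n) : v ∉ Upo Y v := by
  intro h
  rcases (Finset.mem_filter.1 h).2 with h1 | h1
  · exact lt_irrefl _ h1
  · exact lt_irrefl _ h1.2

theorem Up_eq (Y : Fin n → ℤ) (v : Fin n) : Up Y v = insert v (Upo Y v) := by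
  ext w
  rw [Finset.mem_insert, Up, Upo, Finset.mem_filter, Finset.mem_filter]
  constructor
  · rintro ⟨_, h | ⟨h, h'⟩⟩
    · exact Or.inr ⟨Finset.mem_univ w, Or.inl h⟩
    · rcases h'.eq_or_lt with h1 | h1
      · exact Or.inl h1
      · exact Or.inr ⟨Finset.mem_univ w, Or.inr ⟨h, h1⟩⟩
  · rintro (rfl | ⟨_, h | ⟨h, h'⟩⟩)
    · exact ⟨Finset.mem_univ _, Or.inr ⟨rfl, le_rfl⟩⟩
    · exact ⟨Finset.mem_univ _, Or.inl h⟩
    · exact ⟨Finset.mem_univ _, Or.inr ⟨h, h'.le⟩⟩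

/-- The last element of a nonempty set. -/
theorem exists_last (Y : Fin n → ℤ) {S : Finset (Fin n)} (hS : S.Nonempty) :
    ∃ v ∈ S, ∀ w ∈ S, w ≠ v → w ∈ Upo Y v := by
  obtain ⟨v, hv, h⟩ := Finset.exists_max_image S (fun v => toLex (-Y v, v)) hS
  refine ⟨v, hv, fun w hw hwv => ?_⟩
  have h1 : toLex (-Y w, w) ≤ toLex (-Y v, v) := h w hw
  rw [Prod.Lex.toLex_le_toLex] at h1
  refine Finset.mem_filter.2 ⟨Finset.mem_univ w, ?_⟩
  rcases h1 with h1 | ⟨h1, h2⟩
  · left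
    simp only at h1
    linarith
  · right
    simp only at h1 h2
    exact ⟨by linarith, lt_of_le_of_ne h2 hwv⟩

/-- The increments of the greedy algorithm are below `F`. -/
theorem sum_inc_le (h0 : F ∅ = 0) (hF : ∀ S T, F (S ∪ T) + F (S ∩ T) ≤ F S + F T)
    (Y : Fin n → ℤ) (S : Finset (Fin n)) : ∑ v ∈ S, (F (Up Y v) - F (Upo Y v)) ≤ F S := by
  classical
  induction h : S.card generalizing S with
  | zero =>
    rw [Finset.card_eq_zero.1 h, Finset.sum_empty, h0]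
  | succ k ih =>
    have hne : S.Nonempty := Finset.card_pos.1 (by omega)
    obtain ⟨v, hv, hl⟩ := exists_last Y hne
    have h1 := ih (S.erase v) (by rw [Finset.card_erase_of_mem hv, h]; rfl)
    have h2 := hF S (Upo Y v)
    have h3 : S ∪ Upo Y v = insert v (Upo Y v) := by
      ext w
      rw [Finset.mem_union, Finset.mem_insert]
      constructor
      · rintro (h | h)
        · by_cases hw : w = v
          · exact Or.inl hw
          · exact Or.inr (hl w h hw)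
        · exact Or.inr h
      · rintro (h | h)
        · exact Or.inl (h ▸ hv)
        · exact Or.inr h
    have h4 : S ∩ Upo Y v = S.erase v := by
      ext w
      rw [Finset.mem_inter, Finset.mem_erase]
      constructor
      · rintro ⟨h5, h6⟩
        exact ⟨fun h7 => not_mem_Upo Y v (h7 ▸ h6), h5⟩
      · rintro ⟨h5, h6⟩
        exact ⟨h6, hl w h6 h5⟩
    rw [h3, h4, ← Up_eq] at h2
    rw [← Finset.add_sum_erase S _ hv]
    linarith

/-- Equality for the initial segments of the order of the greedy algorithm. -/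
theorem sum_inc_eq (h0 : F ∅ = 0) (Y : Fin n → ℤ) (S : Finset (Fin n))
    (hS : ∀ v ∈ S, Upo Y v ⊆ S) : ∑ v ∈ S, (F (Up Y v) - F (Upo Y v)) = F S := by
  classical
  induction h : S.card generalizing S with
  | zero =>
    rw [Finset.card_eq_zero.1 h, Finset.sum_empty, h0]
  | succ k ih =>
    have hne : S.Nonempty := Finset.card_pos.1 (by omega)
    obtain ⟨v, hv, hl⟩ := exists_last Y hne
    have h3 : S.erase v = Upo Y v := by
      ext w
      rw [Finset.mem_erase]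
      constructor
      · rintro ⟨h5, h6⟩
        exact hl w h6 h5
      · intro h5
        exact ⟨fun h7 => not_mem_Upo Y v (h7 ▸ h5), hS v hv h5⟩
    have h4 : ∀ w ∈ S.erase v, Upo Y w ⊆ S.erase v := by
      intro w hw x hx
      have hw' : w ∈ Upo Y v := h3 ▸ hw
      rw [h3]
      rw [Upo, Finset.mem_filter] at hw' hx ⊢
      refine ⟨Finset.mem_univ x, ?_⟩
      rcases hw'.2 with h5 | ⟨h5, h6⟩ <;> rcases hx.2 with h7 | ⟨h7, h8⟩
      · left; linarith
      · left; linarith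
      · left; linarith
      · right; exact ⟨by linarith, h8.trans h6⟩
    have h1 := ih (S.erase v) h4 (by rw [Finset.card_erase_of_mem hv, h]; rfl)
    rw [← Finset.add_sum_erase S _ hv, h1, h3, Up_eq, ← h3, Finset.insert_erase hv]
    ring

theorem sum_inc_univ (h0 : F ∅ = 0) (Y : Fin n → ℤ) :
    ∑ v, (F (Up Y v) - F (Upo Y v)) = F Finset.univ :=
  sum_inc_eq h0 Y Finset.univ fun _ _ => Finset.subset_univ _

theorem sum_Icc_ind {M : ℕ} {y : ℤ} (h0 : 0 ≤ y) (h1 : y ≤ M) :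
    ∑ i ∈ Finset.Icc 1 M, (if (i : ℤ) ≤ y then (1 : ℤ) else 0) = y := by
  obtain ⟨k, rfl⟩ := Int.eq_ofNat_of_zero_le h0
  have hk : k ≤ M := by exact_mod_cast h1
  rw [← Finset.sum_filter, Finset.sum_const, nsmul_eq_mul, mul_one]
  have h2 : (Finset.Icc 1 M).filter (fun i : ℕ => (i : ℤ) ≤ (k : ℤ)) = Finset.Icc 1 k := by
    ext i
    rw [Finset.mem_filter, Finset.mem_Icc, Finset.mem_Icc]
    constructor
    · rintro ⟨h3, h4⟩
      exact ⟨h3.1, by exact_mod_cast h4⟩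
    · rintro ⟨h3, h4⟩
      exact ⟨⟨h3, h4.trans hk⟩, by exact_mod_cast h4⟩
  rw [h2, Nat.card_Icc, Nat.add_sub_cancel]

/-- The threshold form of a linear functional. -/
theorem sum_mul_eq {M : ℕ} (t y : Fin n → ℤ) (hy : ∀ v, 0 ≤ y v ∧ y v ≤ M) :
    ∑ v, t v * y v = ∑ i ∈ Finset.Icc 1 M,
      ∑ v ∈ Finset.univ.filter (fun v => (i : ℤ) ≤ y v), t v := by
  have h1 : ∀ v, t v * y v = ∑ i ∈ Finset.Icc 1 M, (if (i : ℤ) ≤ y v then t v else 0) := by
    intro v
    conv_lhs => rw [← sum_Icc_ind (hy v).1 (hy v).2, Finset.mul_sum]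
    refine Finset.sum_congr rfl fun i _ => ?_
    split_ifs
    · rw [mul_one]
    · rw [mul_zero]
  rw [Finset.sum_congr rfl fun v _ => h1 v, Finset.sum_comm]
  exact Finset.sum_congr rfl fun i _ => (Finset.sum_filter _ _).symm

theorem sum_inc_self (h0 : F ∅ = 0) {M : ℕ} (y : Fin n → ℤ) (hy : ∀ v, 0 ≤ y v ∧ y v ≤ M) :
    ∑ v, (F (Up y v) - F (Upo y v)) * y v =
      ∑ i ∈ Finset.Icc 1 M, F (Finset.univ.filter fun w => (i : ℤ) ≤ y w) := by
  rw [sum_mul_eq _ y hy]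
  refine Finset.sum_congr rfl fun i _ => sum_inc_eq h0 y _ fun v hv w hw => ?_
  rw [Upo, Finset.mem_filter] at hw
  rw [Finset.mem_filter] at hv ⊢
  refine ⟨Finset.mem_univ w, ?_⟩
  rcases hw.2 with h | h
  · linarith [hv.2]
  · linarith [hv.2, h.1]

theorem sum_inc_other (h0 : F ∅ = 0) (hF : ∀ S T, F (S ∪ T) + F (S ∩ T) ≤ F S + F T) {M : ℕ}
    (y z : Fin n → ℤ) (hz : ∀ v, 0 ≤ z v ∧ z v ≤ M) :
    ∑ v, (F (Up y v) - F (Upo y v)) * z v ≤
      ∑ i ∈ Finset.Icc 1 M, F (Finset.univ.filter fun w => (i : ℤ) ≤ z w) := by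
  rw [sum_mul_eq _ z hz]
  exact Finset.sum_le_sum fun i _ => sum_inc_le h0 hF y _

theorem sum_gr_self (h0 : F ∅ = 0) {m M : ℕ} (c : ℕ) (U : Fin n → Fin m) (y : Fin n → ℤ)
    (hy : ∀ v, 0 ≤ y v ∧ y v ≤ M) :
    ∑ v, gr c F v (U v) y * y v = Phi c M F U y := by
  have h1 := sum_inc_self h0 y hy
  unfold Phi gr
  rw [← h1, Finset.mul_sum, ← Finset.sum_sub_distrib]
  exact Finset.sum_congr rfl fun v _ => by ring

theorem Phi_le_sum_gr (h0 : F ∅ = 0) (hF : ∀ S T, F (S ∪ T) + F (S ∩ T) ≤ F S + F T)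
    {m M : ℕ} (c : ℕ) (U : Fin n → Fin m) (y z : Fin n → ℤ) (hz : ∀ v, 0 ≤ z v ∧ z v ≤ M) :
    Phi c M F U z ≤ ∑ v, gr c F v (U v) y * z v := by
  have h1 := mul_le_mul_of_nonneg_left (sum_inc_other h0 hF y z hz) (Int.natCast_nonneg c)
  have h2 : ∑ v, gr c F v (U v) y * z v =
      ∑ v, ee m c (U v) * z v - c * ∑ v, (F (Up y v) - F (Upo y v)) * z v := by
    rw [Finset.mul_sum, ← Finset.sum_sub_distrib]
    refine Finset.sum_congr rfl fun v _ => ?_
    unfold gr
    ring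
  rw [h2]
  unfold Phi
  linarith

/-- The step is a supergradient of the objective. -/
theorem gr_super (h0 : F ∅ = 0) (hF : ∀ S T, F (S ∪ T) + F (S ∩ T) ≤ F S + F T) {m M : ℕ}
    (c : ℕ) (U : Fin n → Fin m) (y z : Fin n → ℤ)
    (hy : ∀ v, 0 ≤ y v ∧ y v ≤ M) (hz : ∀ v, 0 ≤ z v ∧ z v ≤ M) :
    ∑ v, gr c F v (U v) y * (y v - z v) ≤ Phi c M F U y - Phi c M F U z := by
  have h1 := sum_gr_self h0 c U y hy
  have h2 := Phi_le_sum_gr h0 hF c U y z hz
  have h3 : ∑ v, gr c F v (U v) y * (y v - z v) =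
      ∑ v, gr c F v (U v) y * y v - ∑ v, gr c F v (U v) y * z v := by
    rw [← Finset.sum_sub_distrib]
    exact Finset.sum_congr rfl fun v _ => by ring
  rw [h3, h1]
  linarith

/-- The increments of `F` at a step. -/
theorem abs_inc_le {kap : ℤ} (hk : ∀ S v, |F (insert v S) - F S| ≤ kap) (y : Fin n → ℤ)
    (v : Fin n) : |F (Up y v) - F (Upo y v)| ≤ kap := by
  rw [Up_eq]
  exact hk _ _

theorem abs_gr_le {kap E : ℤ} (hk : ∀ S v, |F (insert v S) - F S| ≤ kap) {m : ℕ} (c : ℕ)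
    (he : ∀ u : Fin m, |ee m c u| ≤ E) (v : Fin n) (u : Fin m) (y : Fin n → ℤ) :
    |gr c F v u y| ≤ E + c * kap := by
  have h1 := mul_le_mul_of_nonneg_left (abs_inc_le hk y v) (Int.natCast_nonneg c)
  have h3 : |(c : ℤ) * (F (Up y v) - F (Upo y v))| ≤ c * kap := by
    rw [abs_mul, abs_of_nonneg (Int.natCast_nonneg c)]
    exact h1
  exact (abs_sub _ _).trans (add_le_add (he u) h3)

/-- The square of the step. -/
theorem gr_sq {kap E : ℤ} (hk : ∀ S v, |F (insert v S) - F S| ≤ kap) {m : ℕ} (c : ℕ)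
    (he : ∀ u : Fin m, |ee m c u| ≤ E) (U : Fin n → Fin m) (y : Fin n → ℤ) :
    ∑ v, gr c F v (U v) y ^ 2 ≤ n * (E + c * kap) ^ 2 := by
  refine (Finset.sum_le_card_nsmul Finset.univ _ ((E + c * kap) ^ 2) fun v _ => ?_).trans
    (le_of_eq ?_)
  · rw [← sq_abs (gr c F v (U v) y)]
    exact pow_le_pow_left₀ (abs_nonneg _) (abs_gr_le hk c he v (U v) y) 2
  · rw [Finset.card_univ, Fintype.card_fin, nsmul_eq_mul]

/-- The average of the output is the sum of the averages of the objective. -/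
theorem av_Val {m : ℕ} [NeZero m] (c M : ℕ) (F : Finset (Fin n) → ℤ) (T : ℕ) :
    (av fun w : Fin n → XW m n T => (Val c M F T w : ℝ)) = ∑ r ∈ Finset.range T,
      av fun w : Fin n → XW m n r => (Phi c M F (dig r w) (Yit (M : ℤ) (gr c F) r w) : ℝ) := by
  induction T with
  | zero =>
    rw [Finset.sum_range_zero]
    refine (congrArg av (funext fun w => ?_)).trans
      (av_const (Ω := Fin n → XW m n 0) (0 : ℝ))
    show ((0 : ℤ) : ℝ) = 0
    exact Int.cast_zero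
  | succ T ih =>
    rw [Finset.sum_range_succ, ← ih]
    have h1 : (fun w : Fin n → XW m n (T + 1) => (Val c M F (T + 1) w : ℝ)) =
        fun w => (Val c M F T (low w) : ℝ) +
          (Phi c M F (dig T (low w)) (Yit (M : ℤ) (gr c F) T (low w)) : ℝ) := by
      funext w
      show ((Val c M F T (low w) +
        Phi c M F (dig T (low w)) (Yit (M : ℤ) (gr c F) T (low w)) : ℤ) : ℝ) = _
      exact Int.cast_add _ _
    rw [h1, av_add]
    exact congrArg₂ (· + ·) (av_low T fun w => (Val c M F T w : ℝ))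
      (av_low T fun w => (Phi c M F (dig T w) (Yit (M : ℤ) (gr c F) T w) : ℝ))

/-- The regret of the stochastic supergradient method for a submodular function. -/
theorem regret_Phi {m : ℕ} [NeZero m] (h0 : F ∅ = 0)
    (hF : ∀ S T, F (S ∪ T) + F (S ∩ T) ≤ F S + F T) {kap E : ℤ}
    (hk : ∀ S v, |F (insert v S) - F S| ≤ kap) (c M : ℕ) (he : ∀ u : Fin m, |ee m c u| ≤ E)
    (z : (Fin n → Fin m) → Fin n → ℤ) (hz0 : ∀ U v, 0 ≤ z U v) (hz1 : ∀ U v, z U v ≤ M)
    (hz : ∀ v, Upto v fun U => z U v) (T : ℕ) :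
    2 * ∑ r ∈ Finset.range T, ((av fun U : Fin n → Fin m => (Phi c M F U (z U) : ℝ)) -
      av fun w : Fin n → XW m n r => (Phi c M F (dig r w) (Yit (M : ℤ) (gr c F) r w) : ℝ)) ≤
        n * (M : ℝ) ^ 2 + T * (n * ((E + c * kap : ℤ) : ℝ) ^ 2) := by
  have h1 := regret (M := (M : ℤ)) (g := gr c F) (Int.natCast_nonneg M)
    (fun U y => Phi c M F U y) (fun U y z hy hz => gr_super h0 hF c U y z hy hz)
    (n * ((E + c * kap : ℤ) : ℝ) ^ 2) (fun U y => by exact_mod_cast gr_sq hk c he U y) z hz0 hz1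
    hz T
  rw [Int.cast_natCast] at h1
  exact h1

end Pool.Agent.Lib.SubBisX.Core
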