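import Pool.Agent.Lib.SubBisX.LogDefs
import Pool.Agent.Lib.SubBisX.SmallN
import Pool.Agent.Lib.SubBisX.System
import Pool.Agent.Lib.SubBisX.TabSeed
import Pool.Agent.Lib.Pa7c826.Transfer

/-!
For every `q` a randomised polynomial time algorithm approximates the number of independent sets of
all bipartite graphs up to a factor `2 ^ (n / q)`.
-/

namespace Pool.Agent.Lib.SubBisX.FinP

open Finset Pool.Agent.Lib.PolyTime Pool.Agent.Lib.Pa7c826 Pool.Agent.Lib.Pa7c826t Reg Seed

/-! ### averages and counting -/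

theorem unif_id {α : Type} [Fintype α] (d : ℕ) :
    Unif (α := α) d (fun s => fun i : Fin d => s i) := by
  have h := (unif_one (α := α)).pow d
  rw [mul_one] at h
  refine ⟨fun s s' hs => funext fun i => hs i i.2, fun z F => ?_⟩
  have h1 := h.2 z F
  rw [← h1]
  refine congrArg Reg.av (funext fun a => congrArg F (funext fun k => ?_))
  show ext z a k = ext z a (k * 1 + 0)
  rw [mul_one, add_zero]

/-- only a prefix of the random string is used -/
theorem av_prefix {α β : Type} [Fintype α] [Nonempty α] [Fintype β] {L L' : ℕ}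
    {dec : (ℕ → α) → β} (h : Unif L dec) (hL : L ≤ L') (z : α) (F : β → ℝ) :
    Reg.av (fun a : Fin L' → α => F (dec (ext z a))) = Reg.av F := by
  obtain ⟨d, rfl⟩ := Nat.exists_eq_add_of_le hL
  have h1 := (h.prod (unif_id (α := α) d)).2 z fun p => F p.1
  rw [av_fst F] at h1
  exact h1

theorem getD_ofFn {L : ℕ} (a : Fin L → Bool) (i : ℕ) :
    (List.ofFn a).getD i false = ext false a i := by
  unfold Seed.ext
  by_cases h : i < L
  · rw [dif_pos h, List.getD_eq_getElem _ _ (by simpa using h), List.getElem_ofFn]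
  · rw [dif_neg h, List.getD_eq_default]
    simpa using not_lt.1 h

open Classical in
theorem count_of_av {m : ℕ} {P Q : (Fin m → Bool) → Prop} (hPQ : ∀ r, P r → Q r)
    (h : 7 / 8 ≤ Reg.av fun r : Fin m → Bool => if P r then (1 : ℝ) else 0) :
    3 * 2 ^ m ≤ 4 * Nat.card {r : Fin m → Bool // Q r} := by
  have h1 : (Fintype.card (Fin m → Bool) : ℝ) = 2 ^ m := by simp
  unfold Reg.av at h
  rw [h1, le_div_iff₀ (by positivity), ← sum_filter, sum_const, nsmul_eq_mul, mul_one] at h
  have h2 : (univ.filter fun r : Fin m → Bool => P r).card ≤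
      (univ.filter fun r : Fin m → Bool => Q r).card :=
    card_le_card fun r hr => mem_filter.2 ⟨mem_univ r, hPQ r (mem_filter.1 hr).2⟩
  have h3 : Nat.card {r : Fin m → Bool // Q r} = (univ.filter fun r => Q r).card := by
    rw [Nat.card_eq_fintype_card, Fintype.card_subtype]
  rw [h3]
  have h4 : (3 : ℝ) * 2 ^ m ≤ 4 * ((univ.filter fun r : Fin m → Bool => Q r).card : ℝ) := by
    have h5 : ((univ.filter fun r : Fin m → Bool => P r).card : ℝ) ≤
        ((univ.filter fun r : Fin m → Bool => Q r).card : ℝ) := by exact_mod_cast h2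
    have h6 : (0 : ℝ) ≤ 2 ^ m := by positivity
    nlinarith
  exact_mod_cast h4

open Classical in
theorem av_good {n a : ℕ} {adj : ℕ → ℕ → Bool} {q : ℕ} (hq : 1 ≤ q)
    (hs : ∀ u v, adj u v = adj v u) (hbip : ∀ u v, adj u v = true → (u < a ↔ ¬ v < a)) :
    7 / 8 ≤ Reg.av fun s : Sys.Seed n q => if Sys.GoodSeed n a adj q s then (1 : ℝ) else 0 := by
  have h := Sys.good_seeds (n := n) (a := a) hq hs hbip
  have h0 : (0 : ℝ) < Fintype.card (Sys.Seed n q) := by exact_mod_cast Fintype.card_pos
  unfold Reg.av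
  rw [le_div_iff₀ h0, ← sum_filter, sum_const, nsmul_eq_mul, mul_one]
  have h1 : (univ.filter fun s : Sys.Seed n q => Sys.GoodSeed n a adj q s).card +
      (univ.filter fun s : Sys.Seed n q => ¬ Sys.GoodSeed n a adj q s).card =
      Fintype.card (Sys.Seed n q) := by
    rw [card_filter_add_card_filter_not]
    rfl
  have h2 : ((univ.filter fun s : Sys.Seed n q => Sys.GoodSeed n a adj q s).card : ℝ) +
      ((univ.filter fun s : Sys.Seed n q => ¬ Sys.GoodSeed n a adj q s).card : ℝ) =
      Fintype.card (Sys.Seed n q) := by exact_mod_cast h1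
  have h3 : 8 * ((univ.filter fun s : Sys.Seed n q => ¬ Sys.GoodSeed n a adj q s).card : ℝ) ≤
      Fintype.card (Sys.Seed n q) := by exact_mod_cast h
  linarith

/-! ### the algorithm -/

/-- the estimate of the logarithm -/
def est (Q : ℕ) (w r : List Bool) : ℕ :=
  Node.eW (nOf w) (aOf w) (range (nOf w))
    (∑ k : Fin (Par.KK (nOf w) Q), Core.Val Q (Par.MM Q)
      (Node.FW (nOf w) (aOf w) (adjOf w) (Par.kap Q) (range (nOf w))) (Par.TT Q)
      (decS (Par.mu Q) (nOf w) (Par.TT Q) (Par.KK (nOf w) Q) (fun i => r.getD i false) k))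
    (Sys.den (nOf w) Q)

/-- the output as a number -/
def val (q : ℕ) (w r : List Bool) : ℕ :=
  if decide (nOf w < 2 * q) then ind (adjOf w) (range (nOf w)) else 2 ^ est (10 * q) w r

section poly

variable {α : Type} {D : α → Prop} {ctx : List (α → List Bool)} {w r : α → List Bool}

theorem poly_KK (Q : ℕ) (hw : PolyC D ctx w) : PolyN D ctx (fun x => Par.KK (nOf (w x)) Q) :=
  (PolyN.const (8 * Q ^ 2 * (3 * Q.size + 5) ^ 2)).mul ((poly_nOf hw).add (PolyN.const 3))

theorem poly_est (Q : ℕ) (hw : PolyC D ctx w) (hr : PolyC D ctx r) :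
    PolyN D ctx (fun x => est Q (w x) (r x)) :=
  Tab.poly_eW (W := fun x => range (nOf (w x))) (μ := fun _ => Par.mu Q) (c := fun _ => Q)
    (M := fun _ => Par.MM Q) (T := fun _ => Par.TT Q) (κ := fun _ => Par.kap Q)
    (K := fun x => Par.KK (nOf (w x)) Q) (den := fun x => Sys.den (nOf (w x)) Q) hw
    (PolyS.range (poly_nOf hw)) (PolyN.const _) (PolyN.const _) (PolyN.const _) (PolyN.const _)
    (PolyN.const _) (PolyN.const _) (poly_KK Q hw) ((poly_KK Q hw).mul (PolyN.const _))
    (PolyN.pow (poly_nOf hw).succ (Par.TT Q)) hr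

theorem poly_val (q : ℕ) (hw : PolyC D ctx w) (hr : PolyC D ctx r) :
    PolyBin D ctx (fun x => val q (w x) (r x)) := by
  refine PolyBin.ite (PolyB.lt (poly_nOf hw) (PolyN.const (2 * q))) ?_ ?_
  · refine Pool.Agent.Lib.P8e91ed.PT.bin_ofN (poly_brute (N := 2 * q)
      (PolyC.mono hw fun _ h => h.1) fun x hx => ?_)
    have := hx.2
    rw [decide_eq_true_eq] at this
    omega
  · exact PolyBin.pow2 (PolyC.mono (poly_est (10 * q) hw hr) fun _ h => h.1)

end poly

/-- **Theorem.** -/
theorem rscheme_const {q : ℕ} (hq : 1 ≤ q) : RScheme fun n _ => (n : ℝ) / q := by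
  classical
  have hv : PolyC (fun x : BGraph × ℕ => 1 ≤ x.2) [fun x => inCode x.1 x.2]
      (fun x => inCode x.1 x.2) := PolyC.var (by simp)
  -- the number of random bits
  have hnb : PolyN (fun x : BGraph × ℕ => 1 ≤ x.2) [fun x => inCode x.1 x.2]
      (fun x => nbits (Par.mu (10 * q)) (nOf (inCode x.1 x.2)) (Par.TT (10 * q))
        (Par.KK (nOf (inCode x.1 x.2)) (10 * q))) :=
    (((poly_KK (10 * q) hv).mul ((poly_nOf hv).mul
      (PolyN.pow (poly_nOf hv).succ (Par.TT (10 * q))))).mul (PolyN.const _))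
  obtain ⟨m, hm⟩ := PolyC.length_le hnb
  have hb : ∀ (G : BGraph) (t : ℕ), 1 ≤ t →
      nbits (Par.mu (10 * q)) (nOf (inCode G t)) (Par.TT (10 * q))
        (Par.KK (nOf (inCode G t)) (10 * q)) ≤ m.eval (inCode G t).length := by
    intro G t ht
    have h3 := hm (G, t) ht
    simp only [vals_cons, vals_nil, total_cons, total_nil, Nat.add_zero, un_length] at h3
    exact h3
  let D : BGraph × ℕ × List Bool → Prop := fun x =>
    1 ≤ x.2.1 ∧ x.2.2.length = m.eval (inCode x.1 x.2.1).length
  let enc : BGraph × ℕ × List Bool → List Bool := fun x => inCode x.1 x.2.1 ++ x.2.2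
  have hw : PolyC D [enc] enc := PolyC.var (by simp)
  have hlen : PolyN D [enc] (fun x => (inCode x.1 x.2.1).length) :=
    (((poly_tOf hw).add ((poly_aOf hw).add ((poly_bOf hw).add
      ((poly_aOf hw).mul (poly_bOf hw))))).add (PolyN.const 3)).congr (fun x _ =>
        lenOf_append x.1 x.2.1 x.2.2)
  have hpre : PolyC D [enc] (fun x => inCode x.1 x.2.1) :=
    (PolyC.take hw hlen).congr (fun x _ => List.take_left)
  have hsuf : PolyC D [enc] (fun x => x.2.2) :=
    (PolyC.drop hw hlen).congr (fun x _ => List.drop_left)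
  obtain ⟨u, hu, hval⟩ := poly_val q hpre hsuf
  have hout : PolyC D [enc] (fun x => false :: u x) := PolyC.cons false hu
  refine ⟨m, fun G t r => false :: u (G, t, r),
    PolyC.toTM2 enc (fun x => false :: u x) id hout, fun G t ht => ?_⟩
  have hout' : ∀ r : Fin (m.eval (inCode G t).length) → Bool,
      outVal (false :: u (G, t, List.ofFn r)) = (val q (inCode G t) (List.ofFn r) : ℚ) := by
    intro r
    have h1 := hval (G, t, List.ofFn r) ⟨ht, List.length_ofFn⟩
    show ((binVal (u (G, t, List.ofFn r)) : ℕ) : ℚ) = _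
    rw [binVal_eq_bval, h1]
  have hn : nOf (inCode G t) = G.a + G.b := nOf_inCode G t
  have hq0 : (0 : ℝ) < q := by exact_mod_cast hq
  have hind : (ind (adjOf (inCode G t)) (range (nOf (inCode G t)))) = numIndep G.graph := by
    rw [hn]
    exact ind_eq_numIndep G t
  have hbip : ∀ u v, adjOf (inCode G t) u v = true →
      (u < aOf (inCode G t) ↔ ¬ v < aOf (inCode G t)) := by
    intro u v h
    rcases adjOf_bip h with h | h <;> omega
  rcases lt_or_ge (G.a + G.b) (2 * q) with h1 | h1
  · refine count_of_av (P := fun _ => True) (fun r _ => ?_) ?_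
    · have h2 : val q (inCode G t) (List.ofFn r) = numIndep G.graph := by
        unfold val
        rw [if_pos (by rw [hn]; exact decide_eq_true h1), hind]
      refine ⟨?_, ?_⟩
      · rw [hout' r, h2]
        have h3 : 0 < numIndep G.graph := by
          rw [← hind]
          exact card_pos.2 ⟨∅, by simp⟩
        exact_mod_cast h3
      · rw [hout' r, h2, Rat.cast_natCast, sub_self, abs_zero]
        positivity
    · refine le_trans ?_ (le_of_eq (Reg.av_const (1 : ℝ)).symm) |>.trans
        (Reg.av_mono fun _ => le_of_eq (if_pos trivial).symm)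
      norm_num
  · refine count_of_av (P := fun r => Sys.GoodSeed (nOf (inCode G t)) (aOf (inCode G t))
      (adjOf (inCode G t)) (10 * q) (decS (Par.mu (10 * q)) (nOf (inCode G t)) (Par.TT (10 * q))
        (Par.KK (nOf (inCode G t)) (10 * q)) (ext false r))) (fun r hr => ?_) ?_
    · have h2 : val q (inCode G t) (List.ofFn r) = 2 ^ est (10 * q) (inCode G t) (List.ofFn r) := by
        unfold val
        rw [if_neg (by rw [hn, decide_eq_true_eq]; omega)]
      have h3 := hr (range (nOf (inCode G t))) (Subset.refl _)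
      have h4 : Sys.es (nOf (inCode G t)) (aOf (inCode G t)) (adjOf (inCode G t)) (10 * q)
          (decS (Par.mu (10 * q)) (nOf (inCode G t)) (Par.TT (10 * q))
            (Par.KK (nOf (inCode G t)) (10 * q)) (ext false r)) (range (nOf (inCode G t))) =
          est (10 * q) (inCode G t) (List.ofFn r) := by
        unfold Sys.es Sys.tot est
        have h5 : (fun i => (List.ofFn r).getD i false) = ext false r :=
          funext fun i => getD_ofFn r i
        rw [h5]
      rw [h4, hind] at h3
      refine ⟨?_, ?_⟩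
      · rw [hout' r, h2]
        have : 0 < 2 ^ est (10 * q) (inCode G t) (List.ofFn r) := by positivity
        exact_mod_cast this
      · rw [hout' r, h2, Rat.cast_natCast]
        have h6 : Real.logb 2 ((2 ^ est (10 * q) (inCode G t) (List.ofFn r) : ℕ) : ℝ) =
            est (10 * q) (inCode G t) (List.ofFn r) := by
          push_cast
          rw [Real.logb_pow, Real.logb_self_eq_one (by norm_num), mul_one]
        rw [h6]
        refine h3.trans ?_
        rw [hn]
        have h7 : (2 : ℝ) * q ≤ (G.a + G.b : ℕ) := by exact_mod_cast h1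
        push_cast at h7 ⊢
        rw [le_div_iff₀ hq0]
        have h8 : (5 * ((G.a : ℝ) + G.b) / (10 * q) + 1) * q = ((G.a : ℝ) + G.b) / 2 + q := by
          field_simp
          ring
        rw [h8]
        linarith
    · have h2 := av_prefix (unif_decS (Par.mu (10 * q)) (nOf (inCode G t)) (Par.TT (10 * q))
        (Par.KK (nOf (inCode G t)) (10 * q))) (hb G t ht) false
        (fun s => if Sys.GoodSeed (nOf (inCode G t)) (aOf (inCode G t))
          (adjOf (inCode G t)) (10 * q) s then (1 : ℝ) else 0)
      rw [h2]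
      exact av_good (by omega) (adjOf_symm _) hbip

end Pool.Agent.Lib.SubBisX.FinP
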