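import Pool.Agent.Lib.Pa7c826t.Nu

/-!
The vertex set described by a set `X` of sites, inside the induced subgraph `W` of a bipartite graph
whose left vertices are the numbers `< a`: the left vertices in `X` and the right vertices not in `X`.
-/

set_option autoImplicit false

namespace Pool.Agent.Lib.SubBisX

open Finset

/-- The left vertices of `W` in `X` and the right vertices of `W` not in `X`. -/
def IX (a : ℕ) (W X : Finset ℕ) : Finset ℕ := W.filter (fun v => if v < a then v ∈ X else v ∉ X)

theorem mem_IX {a : ℕ} {W X : Finset ℕ} {v : ℕ} :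
    v ∈ IX a W X ↔ v ∈ W ∧ (if v < a then v ∈ X else v ∉ X) := by
  unfold IX
  rw [mem_filter]

theorem IX_subset (a : ℕ) (W X : Finset ℕ) : IX a W X ⊆ W := filter_subset _ _

end Pool.Agent.Lib.SubBisX
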