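import Pool.Agent.Lib.SubBisX.LogDefs

/-!
The binary logarithm of the number of independent sets of a bipartite graph with `n` vertices lies
between `n / 2` and `n`.
-/

namespace Pool.Agent.Lib.SubBisX

open Pool.Agent.Lib.Pa7c826

theorem numIndep_le_two_pow (G : BGraph) : numIndep G.graph ≤ 2 ^ (G.a + G.b) := by
  have h : Nat.card {I : Set (Fin G.a ⊕ Fin G.b) // G.graph.IsIndepSet I} ≤
      Nat.card (Set (Fin G.a ⊕ Fin G.b)) :=
    Nat.card_le_card_of_injective _ Subtype.val_injective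
  refine h.trans (le_of_eq ?_)
  rw [Nat.card_eq_fintype_card, Fintype.card_set, Fintype.card_sum, Fintype.card_fin,
    Fintype.card_fin]

theorem two_pow_left_le (G : BGraph) : 2 ^ G.a ≤ numIndep G.graph := by
  have h : Nat.card (Set (Fin G.a)) ≤
      Nat.card {I : Set (Fin G.a ⊕ Fin G.b) // G.graph.IsIndepSet I} := by
    refine Nat.card_le_card_of_injective
      (fun S => ⟨Sum.inl '' S, ?_⟩) ?_
    · rintro x ⟨i, -, rfl⟩ y ⟨j, -, rfl⟩ _ hadj
      exact hadj
    · intro S T hST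
      exact Set.image_injective.2 Sum.inl_injective (Subtype.mk.inj hST)
  refine le_trans (le_of_eq ?_) h
  rw [Nat.card_eq_fintype_card, Fintype.card_set, Fintype.card_fin]

theorem two_pow_right_le (G : BGraph) : 2 ^ G.b ≤ numIndep G.graph := by
  have h : Nat.card (Set (Fin G.b)) ≤
      Nat.card {I : Set (Fin G.a ⊕ Fin G.b) // G.graph.IsIndepSet I} := by
    refine Nat.card_le_card_of_injective
      (fun S => ⟨Sum.inr '' S, ?_⟩) ?_
    · rintro x ⟨i, -, rfl⟩ y ⟨j, -, rfl⟩ _ hadj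
      exact hadj
    · intro S T hST
      exact Set.image_injective.2 Sum.inr_injective (Subtype.mk.inj hST)
  refine le_trans (le_of_eq ?_) h
  rw [Nat.card_eq_fintype_card, Fintype.card_set, Fintype.card_fin]

/-- `n / 2 ≤ log2 i(G) ≤ n` -/
theorem logb_numIndep_range (G : BGraph) :
    ((G.a + G.b : ℕ) : ℝ) / 2 ≤ Real.logb 2 (numIndep G.graph : ℝ) ∧
      Real.logb 2 (numIndep G.graph : ℝ) ≤ ((G.a + G.b : ℕ) : ℝ) := by
  have hlog : ∀ k : ℕ, Real.logb 2 ((2 : ℝ) ^ k) = k := by
    intro k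
    rw [Real.logb_pow, Real.logb_self_eq_one (by norm_num), mul_one]
  have h1 : ((2 : ℝ) ^ G.a) ≤ (numIndep G.graph : ℝ) := by exact_mod_cast two_pow_left_le G
  have h2 : ((2 : ℝ) ^ G.b) ≤ (numIndep G.graph : ℝ) := by exact_mod_cast two_pow_right_le G
  have h3 : (numIndep G.graph : ℝ) ≤ (2 : ℝ) ^ (G.a + G.b) := by
    exact_mod_cast numIndep_le_two_pow G
  have hpos : (0 : ℝ) < (numIndep G.graph : ℝ) := lt_of_lt_of_le (by positivity) h1
  have e1 := Real.logb_le_logb_of_le (b := 2) (by norm_num) (by positivity) h1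
  have e2 := Real.logb_le_logb_of_le (b := 2) (by norm_num) (by positivity) h2
  have e3 := Real.logb_le_logb_of_le (b := 2) (by norm_num) hpos h3
  rw [hlog] at e1 e2 e3
  push_cast at e3 ⊢
  constructor <;> linarith

end Pool.Agent.Lib.SubBisX
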