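import Mathlib

/-!
Nested worlds: the swap identity and the regret of the stochastic supergradient method in the space
of adapted families.
-/

open scoped BigOperators

namespace Pool.Agent.Lib.SubBisX.Reg

/-- The average of a function on a finite type. -/
noncomputable def av {Ω : Type*} [Fintype Ω] (f : Ω → ℝ) : ℝ := (∑ w, f w) / Fintype.card Ω

section av

variable {Ω Ω' : Type*} [Fintype Ω] [Fintype Ω']

theorem av_add (f g : Ω → ℝ) : av (fun w => f w + g w) = av f + av g := by
  simp only [av, Finset.sum_add_distrib, add_div]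

theorem av_sub (f g : Ω → ℝ) : av (fun w => f w - g w) = av f - av g := by
  simp only [av, Finset.sum_sub_distrib, sub_div]

theorem av_smul (c : ℝ) (f : Ω → ℝ) : av (fun w => c * f w) = c * av f := by
  simp only [av, ← Finset.mul_sum, mul_div_assoc]

theorem av_sum {ι : Type*} (s : Finset ι) (f : ι → Ω → ℝ) :
    av (fun w => ∑ i ∈ s, f i w) = ∑ i ∈ s, av (f i) := by
  simp only [av]
  rw [Finset.sum_comm, Finset.sum_div]

theorem av_mono {f g : Ω → ℝ} (h : ∀ w, f w ≤ g w) : av f ≤ av g :=
  div_le_div_of_nonneg_right (Finset.sum_le_sum fun w _ => h w) (Nat.cast_nonneg _)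

theorem av_nonneg {f : Ω → ℝ} (h : ∀ w, 0 ≤ f w) : 0 ≤ av f :=
  div_nonneg (Finset.sum_nonneg fun w _ => h w) (Nat.cast_nonneg _)

theorem av_const [Nonempty Ω] (c : ℝ) : av (fun _ : Ω => c) = c := by
  have h : (Fintype.card Ω : ℝ) ≠ 0 := by exact_mod_cast Fintype.card_ne_zero
  simp only [av, Finset.sum_const, Finset.card_univ, nsmul_eq_mul]
  field_simp

theorem av_equiv (e : Ω ≃ Ω') (f : Ω' → ℝ) : av (fun w => f (e w)) = av f := by
  simp only [av]
  rw [Equiv.sum_comp e f, Fintype.card_congr e]

theorem av_prod (f : Ω × Ω' → ℝ) : av f = av fun a => av fun b => f (a, b) := by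
  simp only [av]
  rw [Fintype.sum_prod_type, Fintype.card_prod, ← Finset.sum_div, div_div, Nat.cast_mul, mul_comm]

theorem av_comm (f : Ω → Ω' → ℝ) : (av fun a => av fun b => f a b) = av fun b => av fun a => f a b := by
  simp only [av]
  rw [← Finset.sum_div, ← Finset.sum_div, div_div, div_div, Finset.sum_comm, mul_comm]

theorem av_fst [Nonempty Ω'] (f : Ω → ℝ) : av (fun p : Ω × Ω' => f p.1) = av f := by
  rw [av_prod]
  exact congrArg av (funext fun a => av_const (f a))

theorem av_snd [Nonempty Ω] (f : Ω' → ℝ) : av (fun p : Ω × Ω' => f p.2) = av f := by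
  rw [av_prod]
  exact av_const (av f)

/-- The average over a product of a function of one coordinate. -/
theorem av_coord {n : ℕ} [Nonempty Ω] (v : Fin n) (f : Ω → ℝ) :
    av (fun c : Fin n → Ω => f (c v)) = av f := by
  have h := av_equiv (Equiv.funSplitAt v Ω) (fun p : Ω × ({j // j ≠ v} → Ω) => f p.1)
  rw [av_fst] at h
  rw [← h]
  rfl

end av

section splice

variable {X : Type*} {n : ℕ}

/-- The coordinates up to `v` of `a`, the later ones of `b`. -/
def splice (v : Fin n) (a b : Fin n → X) : Fin n → X := fun x => if x ≤ v then a x else b x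

theorem splice_le {v x : Fin n} (h : x ≤ v) (a b : Fin n → X) : splice v a b x = a x := if_pos h

theorem splice_gt {v x : Fin n} (h : ¬ x ≤ v) (a b : Fin n → X) : splice v a b x = b x := if_neg h

theorem splice_splice (v : Fin n) (a b : Fin n → X) :
    splice v (splice v a b) (splice v b a) = a := by
  funext x
  by_cases h : x ≤ v
  · rw [splice_le h, splice_le h]
  · rw [splice_gt h, splice_gt h]

/-- The exchange of the later coordinates. -/
def swapEquiv (v : Fin n) : ((Fin n → X) × (Fin n → X)) ≃ ((Fin n → X) × (Fin n → X)) where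
  toFun p := (splice v p.1 p.2, splice v p.2 p.1)
  invFun p := (splice v p.1 p.2, splice v p.2 p.1)
  left_inv p := by
    show (splice v (splice v p.1 p.2) (splice v p.2 p.1),
      splice v (splice v p.2 p.1) (splice v p.1 p.2)) = p
    rw [splice_splice, splice_splice]
  right_inv p := by
    show (splice v (splice v p.1 p.2) (splice v p.2 p.1),
      splice v (splice v p.2 p.1) (splice v p.1 p.2)) = p
    rw [splice_splice, splice_splice]

/-- The function depends on the coordinates up to `v` only. -/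
def Upto (v : Fin n) {α : Sort*} (h : (Fin n → X) → α) : Prop :=
  ∀ a b : Fin n → X, (∀ x ≤ v, a x = b x) → h a = h b

theorem av_swap [Fintype X] [Nonempty X] (v : Fin n) (h f : (Fin n → X) → ℝ) (hh : Upto v h) :
    (av fun a => av fun b => h a * f (splice v a b)) = av fun a => h a * f a := by
  have h1 := av_equiv (swapEquiv v)
    (fun p : (Fin n → X) × (Fin n → X) => h p.1 * f p.1)
  rw [av_fst (Ω' := Fin n → X) (fun a => h a * f a)] at h1
  rw [← h1, av_prod]
  refine congrArg av (funext fun a => congrArg av (funext fun b => ?_))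
  show h a * f (splice v a b) = h (splice v a b) * f (splice v a b)
  rw [hh (splice v a b) a fun x hx => splice_le hx a b]

end splice

section world

/-- The randomness at one vertex of a world of level `r`. -/
def XW (m n : ℕ) : ℕ → Type
  | 0 => Fin m
  | r + 1 => XW m n r × (Fin n → XW m n r)

instance fintypeXW (m n : ℕ) : ∀ r, Fintype (XW m n r)
  | 0 => inferInstanceAs (Fintype (Fin m))
  | r + 1 =>
    haveI := fintypeXW m n r
    inferInstanceAs (Fintype (XW m n r × (Fin n → XW m n r)))

instance nonemptyXW (m n : ℕ) [NeZero m] : ∀ r, Nonempty (XW m n r)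
  | 0 => inferInstanceAs (Nonempty (Fin m))
  | r + 1 =>
    haveI := nonemptyXW m n r
    inferInstanceAs (Nonempty (XW m n r × (Fin n → XW m n r)))

/-- The digit used by the process itself. -/
def base (m n : ℕ) : ∀ r, XW m n r → Fin m
  | 0, x => x
  | r + 1, x => base m n r x.1

variable {m n : ℕ}

/-- The digits used by the process itself. -/
def dig (r : ℕ) (w : Fin n → XW m n r) : Fin n → Fin m := fun v => base m n r (w v)

/-- The world of the level below. -/
def low {r : ℕ} (w : Fin n → XW m n (r + 1)) : Fin n → XW m n r := fun v => (w v).1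

/-- The fresh continuation at `v`. -/
def fresh {r : ℕ} (w : Fin n → XW m n (r + 1)) (v : Fin n) : Fin n → XW m n r := (w v).2

theorem dig_succ {r : ℕ} (w : Fin n → XW m n (r + 1)) : dig (r + 1) w = dig r (low w) := rfl

/-- The value in `[0, M]` nearest to `y`. -/
def clip (M y : ℤ) : ℤ := max 0 (min M y)

theorem clip_sq {M y z : ℤ} (h0 : 0 ≤ z) (h1 : z ≤ M) : (clip M y - z) ^ 2 ≤ (y - z) ^ 2 := by
  rw [sq_le_sq]
  unfold clip
  rcases le_total M y with h | h
  · rw [min_eq_left h, max_eq_right (h0.trans h1), abs_of_nonneg (by linarith),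
      abs_of_nonneg (by linarith)]
    linarith
  · rw [min_eq_right h]
    rcases le_total 0 y with h' | h'
    · rw [max_eq_right h']
    · rw [max_eq_left h', abs_of_nonpos (by linarith), abs_of_nonpos (by linarith)]
      linarith

/-- The `r`-th iterate of the stochastic supergradient method. -/
def Yit (M : ℤ) (g : Fin n → Fin m → (Fin n → ℤ) → ℤ) : ∀ r, (Fin n → XW m n r) → Fin n → ℤ
  | 0, _, _ => 0
  | r + 1, w, v =>
    clip M (Yit M g r (low w) v +
      g v (base m n r (w v).1) (Yit M g r (splice v (low w) (fresh w v))))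

variable {M : ℤ} {g : Fin n → Fin m → (Fin n → ℤ) → ℤ}

theorem Yit_mem (hM : 0 ≤ M) (r : ℕ) (w : Fin n → XW m n r) (v : Fin n) :
    0 ≤ Yit M g r w v ∧ Yit M g r w v ≤ M := by
  cases r with
  | zero => exact ⟨le_rfl, hM⟩
  | succ r => exact ⟨le_max_left _ _, max_le hM (min_le_left _ _)⟩

theorem Yit_upto (r : ℕ) (v : Fin n) : Upto v fun w => Yit M g r w v := by
  induction r generalizing v with
  | zero => exact fun a b _ => rfl
  | succ r ih =>
    intro a b hab
    have h1 : ∀ x ≤ v, low a x = low b x := fun x hx => congrArg Prod.fst (hab x hx)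
    have h2 : fresh a v = fresh b v := congrArg Prod.snd (hab v le_rfl)
    have h3 : splice v (low a) (fresh a v) = splice v (low b) (fresh b v) := by
      funext x
      by_cases hx : x ≤ v
      · rw [splice_le hx, splice_le hx, h1 x hx]
      · rw [splice_gt hx, splice_gt hx, h2]
    show clip M (Yit M g r (low a) v + g v (base m n r (a v).1)
      (Yit M g r (splice v (low a) (fresh a v)))) = clip M (Yit M g r (low b) v +
        g v (base m n r (b v).1) (Yit M g r (splice v (low b) (fresh b v))))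
    have h4 : Yit M g r (low a) v = Yit M g r (low b) v := ih v (low a) (low b) h1
    have h5 : low a v = low b v := h1 v le_rfl
    have h6 : (a v).1 = (b v).1 := h5
    rw [h3, h4, h6]

/-- The average over the worlds of level `r + 1`. -/
theorem av_world [NeZero m] (r : ℕ) (v : Fin n)
    (F : (Fin n → XW m n r) → (Fin n → XW m n r) → ℝ) :
    (av fun w : Fin n → XW m n (r + 1) => F (low w) (fresh w v)) =
      av fun a => av fun b => F a b := by
  have h1 := av_equiv (Equiv.arrowProdEquivProdArrow (Fin n) (fun _ => XW m n r)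
    (fun _ => Fin n → XW m n r))
    (fun p : (Fin n → XW m n r) × (Fin n → (Fin n → XW m n r)) => F p.1 (p.2 v))
  rw [av_prod] at h1
  have h2 : (fun a => av fun b : Fin n → (Fin n → XW m n r) => F a (b v)) =
      fun a => av fun b => F a b := funext fun a => av_coord v (F a)
  calc (av fun w : Fin n → XW m n (r + 1) => F (low w) (fresh w v))
      = av fun a => av fun b : Fin n → (Fin n → XW m n r) => F a (b v) := h1
    _ = _ := by rw [h2]

theorem av_low [NeZero m] (r : ℕ) (F : (Fin n → XW m n r) → ℝ) :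
    (av fun w : Fin n → XW m n (r + 1) => F (low w)) = av F := by
  have h1 := av_equiv (Equiv.arrowProdEquivProdArrow (Fin n) (fun _ => XW m n r)
    (fun _ => Fin n → XW m n r))
    (fun p : (Fin n → XW m n r) × (Fin n → (Fin n → XW m n r)) => F p.1)
  rw [av_fst] at h1
  exact h1

theorem av_dig [NeZero m] (r : ℕ) (F : (Fin n → Fin m) → ℝ) :
    (av fun w : Fin n → XW m n r => F (dig r w)) = av F := by
  induction r with
  | zero => rfl
  | succ r ih =>
    rw [← ih]
    exact av_low r fun w => F (dig r w)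

theorem dig_upto (r : ℕ) (v : Fin n) {α : Sort*} {h : (Fin n → Fin m) → α} (hh : Upto v h) :
    Upto v fun w : Fin n → XW m n r => h (dig r w) := fun a b hab =>
  hh _ _ fun x hx => congrArg (base m n r) (hab x hx)

/-- One step of the method. -/
theorem step [NeZero m] (hM : 0 ≤ M) (φ : (Fin n → Fin m) → (Fin n → ℤ) → ℤ)
    (hg : ∀ U y z, (∀ v, 0 ≤ y v ∧ y v ≤ M) → (∀ v, 0 ≤ z v ∧ z v ≤ M) →
      ∑ v, g v (U v) y * (y v - z v) ≤ φ U y - φ U z)
    (G2 : ℝ) (hG2 : ∀ (U : Fin n → Fin m) (y : Fin n → ℤ),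
      ((∑ v, g v (U v) y ^ 2 : ℤ) : ℝ) ≤ G2)
    (z : (Fin n → Fin m) → Fin n → ℤ) (hz0 : ∀ U v, 0 ≤ z U v) (hz1 : ∀ U v, z U v ≤ M)
    (hz : ∀ v, Upto v fun U => z U v) (r : ℕ) :
    (av fun w : Fin n → XW m n (r + 1) =>
      ∑ v, ((Yit M g (r + 1) w v - z (dig (r + 1) w) v : ℤ) : ℝ) ^ 2) ≤
    (av fun w : Fin n → XW m n r => ∑ v, ((Yit M g r w v - z (dig r w) v : ℤ) : ℝ) ^ 2) +
      2 * ((av fun w : Fin n → XW m n r => (φ (dig r w) (Yit M g r w) : ℝ)) -
        av fun U : Fin n → Fin m => (φ U (z U) : ℝ)) + G2 := by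
  classical
  rw [← av_dig r fun U => (φ U (z U) : ℝ)]
  set A : Fin n → (Fin n → XW m n r) → ℝ := fun v a =>
    ((Yit M g r a v - z (dig r a) v : ℤ) : ℝ) with hA
  set f : Fin n → (Fin n → XW m n r) → ℝ := fun v c =>
    ((g v (base m n r (c v)) (Yit M g r c) : ℤ) : ℝ) with hf
  have hAu : ∀ v, Upto v (A v) := by
    intro v a b hab
    have h1 : Yit M g r a v = Yit M g r b v := Yit_upto r v a b hab
    have h2 : z (dig r a) v = z (dig r b) v := dig_upto r v (hz v) a b hab
    show ((Yit M g r a v - z (dig r a) v : ℤ) : ℝ) = ((Yit M g r b v - z (dig r b) v : ℤ) : ℝ)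
    rw [h1, h2]
  have hv : ∀ v, (av fun w : Fin n → XW m n (r + 1) =>
      ((Yit M g (r + 1) w v - z (dig (r + 1) w) v : ℤ) : ℝ) ^ 2) ≤
      av (fun a => A v a ^ 2) + 2 * av (fun a => A v a * f v a) + av (fun a => f v a ^ 2) := by
    intro v
    have h1 : (av fun w : Fin n → XW m n (r + 1) =>
        ((Yit M g (r + 1) w v - z (dig (r + 1) w) v : ℤ) : ℝ) ^ 2) ≤
        av fun w : Fin n → XW m n (r + 1) =>
          (A v (low w) ^ 2 + 2 * (A v (low w) * f v (splice v (low w) (fresh w v))) +
            f v (splice v (low w) (fresh w v)) ^ 2) := by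
      refine av_mono fun w => ?_
      have h2 := clip_sq (y := Yit M g r (low w) v +
        g v (base m n r (low w v)) (Yit M g r (splice v (low w) (fresh w v))))
        (hz0 (dig r (low w)) v) (hz1 (dig r (low w)) v)
      have h3 : Yit M g (r + 1) w v = clip M (Yit M g r (low w) v +
        g v (base m n r (low w v)) (Yit M g r (splice v (low w) (fresh w v)))) := rfl
      rw [h3, dig_succ]
      have h4 : f v (splice v (low w) (fresh w v)) =
          ((g v (base m n r (low w v)) (Yit M g r (splice v (low w) (fresh w v))) : ℤ) : ℝ) := by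
        show ((g v (base m n r (splice v (low w) (fresh w v) v)) _ : ℤ) : ℝ) = _
        rw [splice_le le_rfl]
      rw [h4]
      have h5 : ((clip M (Yit M g r (low w) v +
          g v (base m n r (low w v)) (Yit M g r (splice v (low w) (fresh w v)))) -
          z (dig r (low w)) v : ℤ) : ℝ) ^ 2 ≤ ((Yit M g r (low w) v +
          g v (base m n r (low w v)) (Yit M g r (splice v (low w) (fresh w v))) -
          z (dig r (low w)) v : ℤ) : ℝ) ^ 2 := by exact_mod_cast h2
      refine h5.trans (le_of_eq ?_)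
      show _ = ((Yit M g r (low w) v - z (dig r (low w)) v : ℤ) : ℝ) ^ 2 +
        2 * (((Yit M g r (low w) v - z (dig r (low w)) v : ℤ) : ℝ) * _) + _
      push_cast
      ring
    have h6 := av_world (m := m) (n := n) r v fun a b =>
      (A v a ^ 2 + 2 * (A v a * f v (splice v a b)) + f v (splice v a b) ^ 2)
    have h7 : ∀ a : Fin n → XW m n r, (av fun b : Fin n → XW m n r =>
        (A v a ^ 2 + 2 * (A v a * f v (splice v a b)) + f v (splice v a b) ^ 2)) =
        A v a ^ 2 + 2 * (av fun b => A v a * f v (splice v a b)) +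
          (av fun b => 1 * f v (splice v a b) ^ 2) := by
      intro a
      rw [av_add, av_add, av_const, av_smul]
      simp only [one_mul]
    refine h1.trans (le_of_eq (h6.trans ?_))
    rw [funext h7, av_add, av_add, av_smul, av_swap v (A v) (f v) (hAu v),
      av_swap v (fun _ => 1) (fun c => f v c ^ 2) fun _ _ _ => rfl]
    simp only [one_mul]
  calc (av fun w : Fin n → XW m n (r + 1) =>
      ∑ v, ((Yit M g (r + 1) w v - z (dig (r + 1) w) v : ℤ) : ℝ) ^ 2)
      = ∑ v, av fun w : Fin n → XW m n (r + 1) =>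
        ((Yit M g (r + 1) w v - z (dig (r + 1) w) v : ℤ) : ℝ) ^ 2 := av_sum _ _
    _ ≤ ∑ v, (av (fun a => A v a ^ 2) + 2 * av (fun a => A v a * f v a) +
        av (fun a => f v a ^ 2)) := Finset.sum_le_sum fun v _ => hv v
    _ = (av fun a => ∑ v, A v a ^ 2) + 2 * (av fun a => ∑ v, A v a * f v a) +
        av fun a => ∑ v, f v a ^ 2 := by
      rw [Finset.sum_add_distrib, Finset.sum_add_distrib, ← Finset.mul_sum, av_sum, av_sum, av_sum]
    _ ≤ _ := by
      have h8 : (av fun a => ∑ v, A v a * f v a) ≤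
          (av fun w : Fin n → XW m n r => (φ (dig r w) (Yit M g r w) : ℝ)) -
          av fun w : Fin n → XW m n r => (φ (dig r w) (z (dig r w)) : ℝ) := by
        rw [← av_sub]
        refine av_mono fun a => ?_
        have h9 := hg (dig r a) (Yit M g r a) (z (dig r a)) (Yit_mem hM r a)
          fun v => ⟨hz0 _ v, hz1 _ v⟩
        have h10 : ((∑ v, g v (dig r a v) (Yit M g r a) * (Yit M g r a v - z (dig r a) v) : ℤ) : ℝ) ≤
            ((φ (dig r a) (Yit M g r a) - φ (dig r a) (z (dig r a)) : ℤ) : ℝ) := by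
          exact_mod_cast h9
        rw [Int.cast_sub] at h10
        refine (le_of_eq ?_).trans h10
        rw [Int.cast_sum]
        refine Finset.sum_congr rfl fun v _ => ?_
        rw [Int.cast_mul, mul_comm]
        rfl
      have h11 : (av fun a => ∑ v, f v a ^ 2) ≤ G2 := by
        refine (av_mono fun a => ?_).trans (le_of_eq (av_const G2))
        refine (le_of_eq ?_).trans (hG2 (dig r a) (Yit M g r a))
        rw [Int.cast_sum]
        refine Finset.sum_congr rfl fun v _ => ?_
        rw [Int.cast_pow]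
        rfl
      linarith

/-- The regret of the stochastic supergradient method against any adapted family `z`. -/
theorem regret [NeZero m] (hM : 0 ≤ M) (φ : (Fin n → Fin m) → (Fin n → ℤ) → ℤ)
    (hg : ∀ U y z, (∀ v, 0 ≤ y v ∧ y v ≤ M) → (∀ v, 0 ≤ z v ∧ z v ≤ M) →
      ∑ v, g v (U v) y * (y v - z v) ≤ φ U y - φ U z)
    (G2 : ℝ) (hG2 : ∀ (U : Fin n → Fin m) (y : Fin n → ℤ),
      ((∑ v, g v (U v) y ^ 2 : ℤ) : ℝ) ≤ G2)
    (z : (Fin n → Fin m) → Fin n → ℤ) (hz0 : ∀ U v, 0 ≤ z U v) (hz1 : ∀ U v, z U v ≤ M)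
    (hz : ∀ v, Upto v fun U => z U v) (T : ℕ) :
    2 * ∑ r ∈ Finset.range T, ((av fun U : Fin n → Fin m => (φ U (z U) : ℝ)) -
      av fun w : Fin n → XW m n r => (φ (dig r w) (Yit M g r w) : ℝ)) ≤
        n * (M : ℝ) ^ 2 + T * G2 := by
  have h : ∀ T : ℕ, (av fun w : Fin n → XW m n T =>
      ∑ v, ((Yit M g T w v - z (dig T w) v : ℤ) : ℝ) ^ 2) ≤ n * (M : ℝ) ^ 2 + T * G2 -
        2 * ∑ r ∈ Finset.range T, ((av fun U : Fin n → Fin m => (φ U (z U) : ℝ)) -
      av fun w : Fin n → XW m n r => (φ (dig r w) (Yit M g r w) : ℝ)) := by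
    intro T
    induction T with
    | zero =>
      rw [Finset.sum_range_zero, Nat.cast_zero, zero_mul, mul_zero, sub_zero, add_zero]
      refine (av_mono fun w => ?_).trans (le_of_eq (av_const ((n : ℝ) * (M : ℝ) ^ 2)))
      refine (Finset.sum_le_card_nsmul Finset.univ _ ((M : ℝ) ^ 2) fun v _ => ?_).trans
        (le_of_eq ?_)
      · have h1 : (Yit M g 0 w v - z (dig 0 w) v) ^ 2 ≤ M ^ 2 := by
          show (0 - z (dig 0 w) v) ^ 2 ≤ M ^ 2
          rw [sq_le_sq, zero_sub, abs_neg, abs_of_nonneg (hz0 _ _), abs_of_nonneg hM]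
          exact hz1 _ _
        exact_mod_cast h1
      · rw [Finset.card_univ, Fintype.card_fin, nsmul_eq_mul]
    | succ T ih =>
      have h1 := step hM φ hg G2 hG2 z hz0 hz1 hz T
      rw [Finset.sum_range_succ, Nat.cast_succ]
      linarith
  have h0 : 0 ≤ av fun w : Fin n → XW m n T =>
      ∑ v, ((Yit M g T w v - z (dig T w) v : ℤ) : ℝ) ^ 2 :=
    av_nonneg fun w => Finset.sum_nonneg fun v _ => sq_nonneg _
  have h1 := h T
  linarith

end world

end Pool.Agent.Lib.SubBisX.Reg
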