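import Pool.Agent.Lib.SubBisX.FinalP
import Pool.Agent.Lib.SubBisX.SharpP

/-!
Candidate for the hand-in MP_a7c826_lc.LogarithmScheme.
-/

namespace Pool.Agent.Lib.SubBisX.ResP

open Pool.Agent.Lib.Pa7c826

/-- **Result.** 1. For every `q` a randomised polynomial time algorithm approximates the number of
independent sets of every bipartite graph up to a factor `2 ^ (n / q)`, `n` the number of vertices.

2. This can be done in time polynomial in `n` and `q` if and only if the number of independent sets
has an FPRAS on all bipartite graphs.

3. For every real `δ > 0`, a randomised polynomial time algorithm that is correct up to a factor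
`2 ^ (n ^ (1 - δ))` exists if and only if the number of independent sets has an FPRAS on all
bipartite graphs. -/
theorem result :
    (∀ q : ℕ, 1 ≤ q → RScheme fun n _ => (n : ℝ) / q) ∧
      (HasFPRAS (fun _ => True) ↔ RScheme fun n t => (n : ℝ) / t) ∧
      ∀ δ : ℝ, 0 < δ → (HasFPRAS (fun _ => True) ↔ RScheme fun n _ => (n : ℝ) ^ (1 - δ)) :=
  ⟨fun _ hq => FinP.rscheme_const hq, fpras_iff_rscheme_div,
    fun δ hδ => fpras_iff_rscheme_rpow δ hδ⟩

end Pool.Agent.Lib.SubBisX.ResP
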