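import Pool.Agent.Lib.Pa7c826.NearHalf

/-!
Disjoint copies of a bipartite graph.
-/

namespace Pool.Agent.Lib.SubBisX

open Pool.Agent.Lib.Pa7c826 Pool.Agent.Lib.PolyTime

/-- The adjacency relation of `c` disjoint copies. -/
def cop {α β : Type*} (c : ℕ) (E : α → β → Prop) (x : Fin c × α) (y : Fin c × β) : Prop :=
  x.1 = y.1 ∧ E x.2 y.2

theorem cnt_cop {α β : Type*} (c : ℕ) (E : α → β → Prop) : cnt (cop c E) = cnt E ^ c := by
  have e : {P : Set (Fin c × α) × Set (Fin c × β) // ∀ x ∈ P.1, ∀ y ∈ P.2, ¬ cop c E x y} ≃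
      (Fin c → {P : Set α × Set β // ∀ a ∈ P.1, ∀ b ∈ P.2, ¬ E a b}) :=
    { toFun := fun P i => ⟨({a | (i, a) ∈ P.1.1}, {b | (i, b) ∈ P.1.2}), fun a ha b hb h =>
        P.2 (i, a) ha (i, b) hb ⟨rfl, h⟩⟩
      invFun := fun Q => ⟨({x | x.2 ∈ (Q x.1).1.1}, {y | y.2 ∈ (Q y.1).1.2}), by
        rintro ⟨i, a⟩ ha ⟨j, b⟩ hb ⟨h1, h2⟩
        simp only at h1 h2
        subst h1
        exact (Q i).2 a ha b hb h2⟩
      left_inv := by
        rintro ⟨⟨P, Q⟩, h⟩
        rfl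
      right_inv := by
        intro Q
        rfl }
  unfold cnt
  rw [Nat.card_congr e, Nat.card_fun]
  simp

/-- `c` disjoint copies of `G`. -/
def copies (c : ℕ) (G : BGraph) : BGraph :=
  mkGraph (c * G.a) (c * G.b) (fun i j => decide (i / G.a = j / G.b) && G.F (i % G.a) (j % G.b))

theorem copies_a (c : ℕ) (G : BGraph) : (copies c G).a = c * G.a := rfl

theorem copies_b (c : ℕ) (G : BGraph) : (copies c G).b = c * G.b := rfl

theorem numIndep_copies (c : ℕ) (G : BGraph) :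
    numIndep (copies c G).graph = numIndep G.graph ^ c := by
  unfold copies
  rw [numIndep_mkGraph (E := cop c (fun (i : Fin G.a) (j : Fin G.b) => G.F i j = true))
    finProdFinEquiv finProdFinEquiv ?_, cnt_cop, cnt_graph]
  rintro ⟨i, x⟩ ⟨j, y⟩
  have hx := x.2
  have hy := y.2
  have ha : 0 < G.a := by omega
  have hb : 0 < G.b := by omega
  simp only [finProdFinEquiv_apply_val, cop]
  rw [Nat.add_mul_div_left _ _ ha, Nat.add_mul_div_left _ _ hb, Nat.add_mul_mod_self_left,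
    Nat.add_mul_mod_self_left, Nat.div_eq_of_lt hx, Nat.div_eq_of_lt hy, Nat.mod_eq_of_lt hx,
    Nat.mod_eq_of_lt hy, zero_add, zero_add, Bool.and_eq_true, decide_eq_true_eq, Fin.ext_iff]

end Pool.Agent.Lib.SubBisX
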