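import Pool.Agent.Lib.SubBisX.Regret

/-!
The sum of the maxima of a vector over finitely many sets, and its subgradient by first maximisers.
-/

open scoped BigOperators

namespace Pool.Agent.Lib.SubBisX.Sup

variable {n : ℕ}

/-- The maximum of `y` over `N`, zero if `N` is empty. -/
def mx (N : Finset (Fin n)) (y : Fin n → ℤ) : ℤ := if h : N.Nonempty then N.sup' h y else 0

/-- `v` is the first maximiser of `y` over `N`. -/
def IsFirst (N : Finset (Fin n)) (y : Fin n → ℤ) (v : Fin n) : Prop :=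
  v ∈ N ∧ ∀ x ∈ N, y x ≤ y v ∧ (x < v → y x < y v)

instance (N : Finset (Fin n)) (y : Fin n → ℤ) (v : Fin n) : Decidable (IsFirst N y v) :=
  inferInstanceAs (Decidable (v ∈ N ∧ ∀ x ∈ N, y x ≤ y v ∧ (x < v → y x < y v)))

theorem le_mx {N : Finset (Fin n)} {x : Fin n} (hx : x ∈ N) (y : Fin n → ℤ) : y x ≤ mx N y := by
  have h : N.Nonempty := ⟨x, hx⟩
  rw [mx, dif_pos h]
  exact Finset.le_sup' y hx

theorem IsFirst.mx_eq {N : Finset (Fin n)} {y : Fin n → ℤ} {v : Fin n} (h : IsFirst N y v) :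
    mx N y = y v := by
  refine le_antisymm ?_ (le_mx h.1 y)
  rw [mx, dif_pos ⟨v, h.1⟩]
  exact Finset.sup'_le _ _ fun x hx => (h.2 x hx).1

theorem IsFirst.unique {N : Finset (Fin n)} {y : Fin n → ℤ} {v w : Fin n} (h : IsFirst N y v)
    (h' : IsFirst N y w) : v = w := by
  rcases lt_trichotomy v w with h1 | h1 | h1
  · exact absurd ((h'.2 v h.1).2 h1) (not_lt.2 (h.2 w h'.1).1)
  · exact h1
  · exact absurd ((h.2 w h'.1).2 h1) (not_lt.2 (h'.2 v h.1).1)

theorem exists_first {N : Finset (Fin n)} (hN : N.Nonempty) (y : Fin n → ℤ) :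
    ∃ v, IsFirst N y v := by
  classical
  set S : Finset (Fin n) := N.filter fun v => ∀ x ∈ N, y x ≤ y v with hS
  have hne : S.Nonempty := by
    obtain ⟨v, hv, h⟩ := Finset.exists_max_image N y hN
    exact ⟨v, Finset.mem_filter.2 ⟨hv, h⟩⟩
  set v := S.min' hne with hv
  have h1 : v ∈ S := Finset.min'_mem S hne
  obtain ⟨h2, h3⟩ := Finset.mem_filter.1 h1
  refine ⟨v, h2, fun x hx => ⟨h3 x hx, fun hxv => lt_of_le_of_ne (h3 x hx) fun he => ?_⟩⟩
  have h4 : x ∈ S := Finset.mem_filter.2 ⟨hx, fun x' hx' => he ▸ h3 x' hx'⟩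
  exact absurd (Finset.min'_le S x h4) (not_le.2 hxv)

/-- The sum of a function of the first maximiser. -/
theorem sum_first {N : Finset (Fin n)} (y t : Fin n → ℤ) :
    ∑ v, (if IsFirst N y v then t v else 0) ≤ mx N t ∨ ¬ N.Nonempty := by
  by_cases hN : N.Nonempty
  · left
    obtain ⟨v, hv⟩ := exists_first hN y
    rw [Finset.sum_eq_single v (fun w _ hw => if_neg fun h => hw (h.unique hv)) (by simp),
      if_pos hv]
    exact le_mx hv.1 t
  · exact Or.inr hN

theorem sum_first_le {N : Finset (Fin n)} (y t : Fin n → ℤ) :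
    ∑ v, (if IsFirst N y v then t v else 0) ≤ mx N t := by
  by_cases hN : N.Nonempty
  · rcases sum_first (N := N) y t with h | h
    · exact h
    · exact absurd hN h
  · rw [mx, dif_neg hN]
    refine le_of_eq (Finset.sum_eq_zero fun v _ => if_neg fun h => hN ⟨v, h.1⟩)

theorem sum_first_self {N : Finset (Fin n)} (y : Fin n → ℤ) :
    ∑ v, (if IsFirst N y v then y v else 0) = mx N y := by
  by_cases hN : N.Nonempty
  · obtain ⟨v, hv⟩ := exists_first hN y
    rw [Finset.sum_eq_single v (fun w _ hw => if_neg fun h => hw (h.unique hv)) (by simp),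
      if_pos hv, hv.mx_eq]
  · rw [mx, dif_neg hN]
    exact Finset.sum_eq_zero fun v _ => if_neg fun h => hN ⟨v, h.1⟩

theorem sum_first_one_le (N : Finset (Fin n)) (y : Fin n → ℤ) :
    ∑ v, (if IsFirst N y v then (1 : ℤ) else 0) ≤ 1 := by
  refine (sum_first_le y fun _ => 1).trans ?_
  unfold mx
  split_ifs with h
  · exact Finset.sup'_le _ _ fun _ _ => le_rfl
  · exact zero_le_one

section fam

variable {β : Type*} [Fintype β] (N : β → Finset (Fin n))

/-- The number of sets of which `v` is the first maximiser. -/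
def cnt (v : Fin n) (y : Fin n → ℤ) : ℕ := (Finset.univ.filter fun b => IsFirst (N b) y v).card

theorem cnt_eq (v : Fin n) (y : Fin n → ℤ) :
    (cnt N v y : ℤ) = ∑ b, if IsFirst (N b) y v then (1 : ℤ) else 0 := by
  rw [cnt, Finset.card_filter]
  push_cast
  rfl

/-- The number of sets containing `v`. -/
def deg (v : Fin n) : ℕ := (Finset.univ.filter fun b => v ∈ N b).card

theorem cnt_le_deg (v : Fin n) (y : Fin n → ℤ) : cnt N v y ≤ deg N v :=
  Finset.card_le_card fun b hb => Finset.mem_filter.2 ⟨Finset.mem_univ b,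
    (Finset.mem_filter.1 hb).2.1⟩

theorem sum_cnt_le (y : Fin n → ℤ) : ∑ v, cnt N v y ≤ Fintype.card β := by
  have h : ((∑ v, cnt N v y : ℕ) : ℤ) ≤ ((Fintype.card β : ℕ) : ℤ) := by
    push_cast
    rw [Finset.sum_congr rfl fun v _ => cnt_eq N v y, Finset.sum_comm]
    refine (Finset.sum_le_card_nsmul Finset.univ _ 1 fun b _ => sum_first_one_le (N b) y).trans ?_
    rw [Finset.card_univ, nsmul_eq_mul, mul_one]
  exact_mod_cast h

/-- The objective. -/
def phi {m : ℕ} (e : Fin n → Fin m → ℤ) (c : ℤ) (U : Fin n → Fin m) (y : Fin n → ℤ) : ℤ :=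
  ∑ v, e v (U v) * y v - c * ∑ b, mx (N b) y

/-- The step. -/
def gr {m : ℕ} (e : Fin n → Fin m → ℤ) (c : ℤ) (v : Fin n) (u : Fin m) (y : Fin n → ℤ) : ℤ :=
  e v u - c * cnt N v y

theorem gr_super {m : ℕ} (e : Fin n → Fin m → ℤ) {c : ℤ} (hc : 0 ≤ c) (U : Fin n → Fin m)
    (y z : Fin n → ℤ) :
    ∑ v, gr N e c v (U v) y * (y v - z v) ≤ phi N e c U y - phi N e c U z := by
  have h1 : ∑ v, (cnt N v y : ℤ) * (y v - z v) = ∑ b, mx (N b) y -
      ∑ b, ∑ v, (if IsFirst (N b) y v then z v else 0) := by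
    rw [← Finset.sum_sub_distrib, Finset.sum_congr rfl fun v _ =>
      (by rw [cnt_eq, Finset.sum_mul] : (cnt N v y : ℤ) * (y v - z v) =
        ∑ b, (if IsFirst (N b) y v then (1 : ℤ) else 0) * (y v - z v)), Finset.sum_comm]
    refine Finset.sum_congr rfl fun b _ => ?_
    rw [← sum_first_self y, ← Finset.sum_sub_distrib]
    refine Finset.sum_congr rfl fun v _ => ?_
    by_cases h : IsFirst (N b) y v
    · rw [if_pos h, if_pos h, if_pos h, one_mul]
    · rw [if_neg h, if_neg h, if_neg h, zero_mul, sub_zero]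
  have h2 : ∑ b, ∑ v, (if IsFirst (N b) y v then z v else 0) ≤ ∑ b, mx (N b) z :=
    Finset.sum_le_sum fun b _ => sum_first_le y z
  have h3 : ∑ v, gr N e c v (U v) y * (y v - z v) =
      ∑ v, e v (U v) * y v - ∑ v, e v (U v) * z v - c * ∑ v, (cnt N v y : ℤ) * (y v - z v) := by
    rw [Finset.mul_sum, ← Finset.sum_sub_distrib, ← Finset.sum_sub_distrib]
    refine Finset.sum_congr rfl fun v _ => ?_
    unfold gr
    ring
  rw [h3, h1]
  unfold phi
  nlinarith [mul_le_mul_of_nonneg_left h2 hc]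

/-- The square of the step. -/
theorem gr_sq {m : ℕ} (e : Fin n → Fin m → ℤ) {c E : ℤ} (he : ∀ v u, |e v u| ≤ E) {L : ℕ}
    (hL : ∀ v, deg N v ≤ L) (U : Fin n → Fin m) (y : Fin n → ℤ) :
    ∑ v, gr N e c v (U v) y ^ 2 ≤ 2 * n * E ^ 2 + 2 * c ^ 2 * (L * Fintype.card β) := by
  have h1 : ∀ v, gr N e c v (U v) y ^ 2 ≤ 2 * E ^ 2 + 2 * c ^ 2 * (L * cnt N v y) := by
    intro v
    have h2 : (e v (U v)) ^ 2 ≤ E ^ 2 := by
      rw [← sq_abs (e v (U v))]
      exact pow_le_pow_left₀ (abs_nonneg _) (he v (U v)) 2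
    have h3 : (cnt N v y : ℤ) ^ 2 ≤ L * cnt N v y := by
      rw [sq]
      have h4 : (cnt N v y : ℤ) ≤ L := by exact_mod_cast (cnt_le_deg N v y).trans (hL v)
      exact mul_le_mul_of_nonneg_right h4 (Int.natCast_nonneg _)
    have h5 : gr N e c v (U v) y ^ 2 ≤ 2 * (e v (U v)) ^ 2 + 2 * (c * cnt N v y) ^ 2 := by
      unfold gr
      nlinarith [sq_nonneg (e v (U v) + c * cnt N v y)]
    have h6 : c ^ 2 * (cnt N v y : ℤ) ^ 2 ≤ c ^ 2 * (L * cnt N v y) :=
      mul_le_mul_of_nonneg_left h3 (sq_nonneg c)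
    have h7 : (c * (cnt N v y : ℤ)) ^ 2 = c ^ 2 * (cnt N v y : ℤ) ^ 2 := by ring
    rw [h7] at h5
    linarith
  refine (Finset.sum_le_sum fun v _ => h1 v).trans ?_
  rw [Finset.sum_add_distrib, Finset.sum_const, Finset.card_univ, Fintype.card_fin, nsmul_eq_mul,
    ← Finset.mul_sum, ← Finset.mul_sum]
  have h8 : ∑ v, (cnt N v y : ℤ) ≤ Fintype.card β := by exact_mod_cast sum_cnt_le N y
  have h9 : (L : ℤ) * ∑ v, (cnt N v y : ℤ) ≤ L * Fintype.card β :=
    mul_le_mul_of_nonneg_left h8 (Int.natCast_nonneg _)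
  have h10 : c ^ 2 * ((L : ℤ) * ∑ v, (cnt N v y : ℤ)) ≤ c ^ 2 * (L * Fintype.card β) :=
    mul_le_mul_of_nonneg_left h9 (sq_nonneg c)
  linarith

end fam

end Pool.Agent.Lib.SubBisX.Sup
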