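import Pool.Agent.Lib.SubBisX.TabPolyA
import Pool.Agent.Lib.SubBisX.IXDef

/-!
The table machine: the tables of the iterates in polynomial time.
-/

namespace Pool.Agent.Lib.SubBisX.Tab

open Finset Pool.Agent.Lib.PolyTime Pool.Agent.Lib.Pa7c826 Pool.Agent.Lib.Pa7c826t

variable {α : Type*} {D : α → Prop} {ctx : List (α → List Bool)}

/-- The penalty: `κ` times the matching number of the subgraph described by `S` inside `W`. -/
def Gn (w : List Bool) (κ : ℕ) (W S : Finset ℕ) : ℕ :=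
  κ * nu (nOf w) (aOf w) (adjOf w) (IX (aOf w) W S)

namespace TabAux

theorem divz {f g : α → ℕ} (hf : PolyN D ctx f) (hg : PolyN D ctx g) :
    PolyN D ctx (fun a => f a / g a) := by
  have hφ : PolyB D ctx (fun a => decide (0 < g a)) := PolyB.lt (PolyN.const 0) hg
  have h1 : PolyN (fun a => D a ∧ decide (0 < g a) = true) ctx (fun a => f a / g a) :=
    PolyN.div (PolyC.mono hf fun _ h => h.1) (PolyC.mono hg fun _ h => h.1)
      (fun a ha => by simpa using ha.2)
  have h2 : PolyN (fun a => D a ∧ decide (0 < g a) = false) ctx (fun _ => 0) := PolyN.const 0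
  refine PolyC.congr (PolyC.ite hφ h1 h2) (fun a _ => ?_)
  by_cases h : 0 < g a
  · simp [h]
  · have h0 : g a = 0 := by omega
    simp [h0]

theorem modz {f g : α → ℕ} (hf : PolyN D ctx f) (hg : PolyN D ctx g) :
    PolyN D ctx (fun a => f a % g a) :=
  (PolyN.sub hf (hg.mul (divz hf hg))).congr (fun a _ => by
    have := Nat.div_add_mod (f a) (g a)
    omega)

theorem itez {φ : α → Bool} {f g : α → ℕ} (hφ : PolyB D ctx φ)
    (hf : PolyN (fun a => D a ∧ φ a = true) ctx f)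
    (hg : PolyN (fun a => D a ∧ φ a = false) ctx g) :
    PolyN D ctx (fun a => if φ a then f a else g a) := by
  refine (PolyC.ite hφ hf hg).congr (fun a _ => ?_)
  by_cases h : φ a = true
  · simp [h]
  · simp [h]

/-- A power with a polynomially bounded upper bound. -/
theorem powz {f g N : α → ℕ} (hf : PolyN D ctx f) (hg : PolyN D ctx g) (hN : PolyN D ctx N)
    (h : ∀ a, D a → f a ^ g a ≤ N a) : PolyN D ctx (fun a => f a ^ g a) := by
  obtain ⟨B, hB⟩ := PolyC.length_le hN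
  refine Pool.Agent.Lib.P8e91ed.PT.n_pow hf hg ⟨B, fun a ha => (h a ha).trans ?_⟩
  have := hB a ha
  rwa [un_length] at this

theorem poly_Gn {w : α → List Bool} {W S : α → Finset ℕ} {κ : α → ℕ} (hw : PolyC D ctx w)
    (hκ : PolyN D ctx κ) (hW : PolyS D ctx (fun x => nOf (w x)) W)
    (hS : PolyS D ctx (fun x => nOf (w x)) S) :
    PolyN D ctx (fun x => Gn (w x) (κ x) (W x) (S x)) := by
  refine hκ.mul (poly_nu hw ?_)
  have hn := poly_nOf hw
  have WW := up (n := fun x => nOf (w x)) hw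
  have L := last (D := D) (ctx := ctx) (n := fun x => nOf (w x))
  have S1 := (hS.up (m := fun x => nOf (w x))).mem L
  have c1 := PolyB.lt L (poly_aOf WW)
  have hφ : PolyB (fun p : α × ℕ => D p.1 ∧ p.2 < nOf (w p.1))
      (PolyTime.lift ctx ++ [fun p => un p.2])
      (fun p => if decide (p.2 < aOf (w p.1)) then decide (p.2 ∈ S p.1)
        else !decide (p.2 ∈ S p.1)) :=
    PolyB.ite c1 (PolyC.mono S1 fun _ h => h.1) (PolyC.mono S1.not fun _ h => h.1)
  refine (PolyS.filter hn hW hφ).congr (fun a _ => ?_)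
  unfold IX
  refine Finset.filter_congr fun i _ => ?_
  simp only [decide_eq_true_eq]
  by_cases h : i < aOf (w a)
  · simp [h]
  · simp [h]

theorem poly_upS {n v : α → ℕ} {y : α → ℕ → ℕ} (hn : PolyN D ctx n) (hv : PolyN D ctx v)
    (hyv : PolyN D ctx (fun a => y a (v a)))
    (hy : PolyN (fun p : α × ℕ => D p.1 ∧ p.2 < n p.1) (PolyTime.lift ctx ++ [fun p => un p.2])
      (fun p => y p.1 p.2)) :
    PolyS D ctx n (fun a => upS (n a) (y a) (v a)) := by
  have V := upN (n := n) hv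
  have YV := upN (n := n) hyv
  have L := last (D := D) (ctx := ctx) (n := n)
  refine (PolyS.filter hn (PolyS.range hn) ((PolyB.lt YV hy).or
    ((PolyB.natEq hy YV).and (PolyB.le L V)))).congr (fun a _ => ?_)
  unfold upS
  refine Finset.filter_congr fun i _ => ?_
  simp only [Bool.or_eq_true, Bool.and_eq_true, decide_eq_true_eq]

theorem poly_upoS {n v : α → ℕ} {y : α → ℕ → ℕ} (hn : PolyN D ctx n) (hv : PolyN D ctx v)
    (hyv : PolyN D ctx (fun a => y a (v a)))
    (hy : PolyN (fun p : α × ℕ => D p.1 ∧ p.2 < n p.1) (PolyTime.lift ctx ++ [fun p => un p.2])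
      (fun p => y p.1 p.2)) :
    PolyS D ctx n (fun a => upoS (n a) (y a) (v a)) := by
  have V := upN (n := n) hv
  have YV := upN (n := n) hyv
  have L := last (D := D) (ctx := ctx) (n := n)
  refine (PolyS.filter hn (PolyS.range hn) ((PolyB.lt YV hy).or
    ((PolyB.natEq hy YV).and (PolyB.lt L V)))).congr (fun a _ => ?_)
  unfold upoS
  refine Finset.filter_congr fun i _ => ?_
  simp only [Bool.or_eq_true, Bool.and_eq_true, decide_eq_true_eq]

theorem poly_newY {w : α → List Bool} {W : α → Finset ℕ} {m c M κ y0 u v : α → ℕ}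
    {y : α → ℕ → ℕ} (hw : PolyC D ctx w) (hW : PolyS D ctx (fun x => nOf (w x)) W)
    (hm : PolyN D ctx m) (hc : PolyN D ctx c) (hM : PolyN D ctx M) (hκ : PolyN D ctx κ)
    (hy0 : PolyN D ctx y0) (hu : PolyN D ctx u) (hv : PolyN D ctx v)
    (hyv : PolyN D ctx (fun a => y a (v a)))
    (hy : PolyN (fun p : α × ℕ => D p.1 ∧ p.2 < nOf (w p.1))
      (PolyTime.lift ctx ++ [fun p => un p.2]) (fun p => y p.1 p.2)) :
    PolyN D ctx (fun a => newY (nOf (w a)) (m a) (c a) (M a) (Gn (w a) (κ a) (W a)) (y0 a) (u a)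
      (y a) (v a)) := by
  have hn := poly_nOf hw
  have A := (hy0.add (poly_logpow (PolyN.sub hm hu) hc)).add
    (hc.mul (poly_Gn hw hκ hW (poly_upoS hn hv hyv hy)))
  have B := (poly_logpow hu.succ hc).add (hc.mul (poly_Gn hw hκ hW (poly_upS hn hv hyv hy)))
  have C := PolyN.sub A B
  refine (itez (PolyB.le hM C) (PolyC.mono hM fun _ h => h.1)
    (PolyC.mono C fun _ h => h.1)).congr (fun a _ => ?_)
  unfold newY
  simp only [decide_eq_true_eq]
  split_ifs with h
  · exact (min_eq_left h).symm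
  · exact (min_eq_right (not_le.1 h).le).symm

/-- The indices read by the step. -/
theorem idx_lt {n T r X v k : ℕ} (hr : r < T) (hX : X < (n + 1) ^ (T - (r + 1))) (hk : k ≤ n)
    (hv : v < n) : (X * (n + 1) + k) * n + v < (n + 1) ^ T * n := by
  have h1 : X * (n + 1) + k < (n + 1) ^ (T - r) := by
    have e : T - r = (T - (r + 1)) + 1 := by omega
    rw [e, pow_succ]
    calc X * (n + 1) + k < X * (n + 1) + (n + 1) := by omega
      _ = (X + 1) * (n + 1) := by ring
      _ ≤ (n + 1) ^ (T - (r + 1)) * (n + 1) := Nat.mul_le_mul_right _ hX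
  have h2 : (n + 1) ^ (T - r) ≤ (n + 1) ^ T := Nat.pow_le_pow_right (by omega) (by omega)
  calc (X * (n + 1) + k) * n + v < (X * (n + 1) + k) * n + n := by omega
    _ = (X * (n + 1) + k + 1) * n := by ring
    _ ≤ (n + 1) ^ T * n := Nat.mul_le_mul_right _ (by omega)

theorem poly_cell {w : α → List Bool} {W : α → Finset ℕ} {m c M T κ r I : α → ℕ}
    {R F : α → ℕ → ℕ} (hw : PolyC D ctx w) (hW : PolyS D ctx (fun x => nOf (w x)) W)
    (hm : PolyN D ctx m) (hc : PolyN D ctx c) (hM : PolyN D ctx M) (hT : PolyN D ctx T)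
    (hκ : PolyN D ctx κ) (hN : PolyN D ctx (fun x => (nOf (w x) + 1) ^ T x))
    (hR : PolyArr D ctx m (fun x => nOf (w x) * (nOf (w x) + 1) ^ T x) R)
    (hr : PolyN D ctx r) (hI : PolyN D ctx I)
    (hF : PolyArr D ctx M (fun x => (nOf (w x) + 1) ^ T x * nOf (w x)) F)
    (hrT : ∀ a, D a → r a < T a)
    (hIn : ∀ a, D a → I a / nOf (w a) < (nOf (w a) + 1) ^ (T a - (r a + 1)))
    (hn0 : ∀ a, D a → 0 < nOf (w a)) :
    PolyN D ctx (fun a => newY (nOf (w a)) (m a) (c a) (M a) (Gn (w a) (κ a) (W a))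
      (F a ((I a / nOf (w a) * (nOf (w a) + 1)) * nOf (w a) + I a % nOf (w a)))
      (R a (off (nOf (w a)) (T a - (r a + 1)) (r a + 1) (I a / nOf (w a)) (I a % nOf (w a))))
      (fun x => F a ((I a / nOf (w a) * (nOf (w a) + 1) + (I a % nOf (w a) + 1)) * nOf (w a) + x))
      (I a % nOf (w a))) := by
  have hn := poly_nOf hw
  have hX := divz hI hn
  have hv := modz hI hn
  have hvn : ∀ a, D a → I a % nOf (w a) < nOf (w a) := fun a ha => Nat.mod_lt _ (hn0 a ha)
  have hoff : PolyN D ctx (fun a => off (nOf (w a)) (T a - (r a + 1)) (r a + 1)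
      (I a / nOf (w a)) (I a % nOf (w a))) :=
    poly_off hn (PolyN.sub hT hr.succ) hr.succ hX hv (hN.congr (fun a ha => by
      have := hrT a ha
      congr 1
      omega))
  have hu := PolyArr.get hR hm hoff (fun a ha => by
    have h1 := off_lt (n := nOf (w a)) (T a - (r a + 1)) (r a + 1) (I a / nOf (w a))
      (I a % nOf (w a)) (hvn a ha) (hIn a ha)
    have h2 := hrT a ha
    have h3 : r a + 1 + (T a - (r a + 1)) = T a := by omega
    rwa [h3] at h1)
  have hy0 := PolyArr.get hF hM (((hX.mul hn.succ).mul hn).add hv) (fun a ha => by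
    have := idx_lt (k := 0) (hrT a ha) (hIn a ha) (Nat.zero_le _) (hvn a ha)
    simpa using this)
  have hyv := PolyArr.get hF hM ((((hX.mul hn.succ).add hv.succ).mul hn).add hv)
    (fun a ha => idx_lt (hrT a ha) (hIn a ha) (hvn a ha) (hvn a ha))
  refine poly_newY hw hW hm hc hM hκ hy0 hu hv hyv ?_
  have N := upN (n := fun x => nOf (w x)) hn
  have X := upN (n := fun x => nOf (w x)) hX
  have V := upN (n := fun x => nOf (w x)) hv
  have MM := upN (n := fun x => nOf (w x)) hM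
  have L := last (D := D) (ctx := ctx) (n := fun x => nOf (w x))
  exact PolyArr.get (hF.up (k := fun x => nOf (w x))) MM
    ((((X.mul N.succ).add V.succ).mul N).add L)
    (fun p hp => idx_lt (hrT p.1 hp.1) (hIn p.1 hp.1) (hvn p.1 hp.1) hp.2)

/-- The table of level `r`. -/
def tab (n m c M T : ℕ) (G : Finset ℕ → ℕ) (R : ℕ → ℕ) (r I : ℕ) : ℕ :=
  if I / n < (n + 1) ^ (T - r) then YN n m c M T G R r (I / n) (I % n) else 0

theorem tab_le (n m c M T : ℕ) (G : Finset ℕ → ℕ) (R : ℕ → ℕ) (r I : ℕ) :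
    tab n m c M T G R r I ≤ M := by
  unfold tab
  split_ifs
  · cases r with
    | zero => exact Nat.zero_le _
    | succ r => exact min_le_left _ _
  · exact Nat.zero_le _

theorem tab_at {n m c M T : ℕ} {G : Finset ℕ → ℕ} {R : ℕ → ℕ} {r X v : ℕ}
    (hX : X < (n + 1) ^ (T - r)) (hv : v < n) :
    tab n m c M T G R r (X * n + v) = YN n m c M T G R r X v := by
  have h1 : (X * n + v) / n = X := by
    rw [mul_comm, Nat.mul_add_div (by omega), Nat.div_eq_of_lt hv, Nat.add_zero]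
  have h2 : (X * n + v) % n = v := by
    rw [mul_comm, Nat.mul_add_mod, Nat.mod_eq_of_lt hv]
  unfold tab
  rw [h1, h2, if_pos hX]

theorem tab_succ {n m c M T : ℕ} {G : Finset ℕ → ℕ} {R : ℕ → ℕ} {r I : ℕ} (hr : r < T)
    (hn : 0 < n) (hI : I / n < (n + 1) ^ (T - (r + 1))) :
    tab n m c M T G R (r + 1) I = newY n m c M G
      (tab n m c M T G R r ((I / n * (n + 1)) * n + I % n))
      (R (off n (T - (r + 1)) (r + 1) (I / n) (I % n)))
      (fun x => tab n m c M T G R r ((I / n * (n + 1) + (I % n + 1)) * n + x)) (I % n) := by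
  have hv : I % n < n := Nat.mod_lt _ hn
  have e : T - r = (T - (r + 1)) + 1 := by omega
  have hk : ∀ k ≤ n, I / n * (n + 1) + k < (n + 1) ^ (T - r) := by
    intro k hk
    rw [e, pow_succ]
    calc I / n * (n + 1) + k < I / n * (n + 1) + (n + 1) := by omega
      _ = (I / n + 1) * (n + 1) := by ring
      _ ≤ (n + 1) ^ (T - (r + 1)) * (n + 1) := Nat.mul_le_mul_right _ hI
  have h0 : tab n m c M T G R (r + 1) I = YN n m c M T G R (r + 1) (I / n) (I % n) := by
    unfold tab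
    rw [if_pos hI]
  have h1 : tab n m c M T G R r ((I / n * (n + 1)) * n + I % n) =
      YN n m c M T G R r (I / n * (n + 1)) (I % n) := by
    have := hk 0 (Nat.zero_le _)
    exact tab_at (by simpa using this) hv
  rw [h0, h1]
  have hy : ∀ x < n, tab n m c M T G R r ((I / n * (n + 1) + (I % n + 1)) * n + x) =
      YN n m c M T G R r (I / n * (n + 1) + (I % n + 1)) x := fun x hx => tab_at (hk _ hv) hx
  show newY n m c M G _ _ _ _ = newY n m c M G _ _ _ _
  unfold newY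
  have u1 : upoS n (fun x => tab n m c M T G R r ((I / n * (n + 1) + (I % n + 1)) * n + x))
      (I % n) = upoS n (YN n m c M T G R r (I / n * (n + 1) + (I % n + 1))) (I % n) := by
    unfold upoS
    refine Finset.filter_congr fun x hx => ?_
    simp only [hy x (Finset.mem_range.1 hx), hy _ hv]
  have u2 : upS n (fun x => tab n m c M T G R r ((I / n * (n + 1) + (I % n + 1)) * n + x))
      (I % n) = upS n (YN n m c M T G R r (I / n * (n + 1) + (I % n + 1))) (I % n) := by
    unfold upS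
    refine Finset.filter_congr fun x hx => ?_
    simp only [hy x (Finset.mem_range.1 hx), hy _ hv]
  rw [u1, u2]

theorem poly_tab {w : α → List Bool} {W : α → Finset ℕ} {m c M T κ r : α → ℕ}
    {R : α → ℕ → ℕ} (hw : PolyC D ctx w) (hW : PolyS D ctx (fun x => nOf (w x)) W)
    (hm : PolyN D ctx m) (hc : PolyN D ctx c) (hM : PolyN D ctx M) (hT : PolyN D ctx T)
    (hκ : PolyN D ctx κ) (hN : PolyN D ctx (fun x => (nOf (w x) + 1) ^ T x))
    (hR : PolyArr D ctx m (fun x => nOf (w x) * (nOf (w x) + 1) ^ T x) R)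
    (hr : PolyN D ctx r) (hrT : ∀ a, D a → r a ≤ T a) :
    PolyArr D ctx M (fun x => (nOf (w x) + 1) ^ T x * nOf (w x))
      (fun a => tab (nOf (w a)) (m a) (c a) (M a) (T a) (Gn (w a) (κ a) (W a)) (R a) (r a)) := by
  have hn := poly_nOf hw
  have hl : PolyN D ctx (fun x => (nOf (w x) + 1) ^ T x * nOf (w x)) := hN.mul hn
  refine polyArr_rec (fun a r => tab (nOf (w a)) (m a) (c a) (M a) (T a)
    (Gn (w a) (κ a) (W a)) (R a) r) hM hl hr ?_ ?_
  · refine (PolyArr.mk (f := fun _ _ => 0) hM hl (PolyN.const 0)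
      (fun _ _ _ _ => Nat.zero_le _)).congr (fun a _ i _ => ?_)
    show 0 = tab _ _ _ _ _ _ _ 0 i
    unfold tab
    split_ifs <;> rfl
  · set st : α × ℕ → List Bool := fun p => arr (M p.1) ((nOf (w p.1) + 1) ^ T p.1 * nOf (w p.1))
      (tab (nOf (w p.1)) (m p.1) (c p.1) (M p.1) (T p.1) (Gn (w p.1) (κ p.1) (W p.1))
        (R p.1) p.2) with hst
    have U : ∀ {f : α → List Bool}, PolyC D ctx f →
        PolyC (fun p : α × ℕ => D p.1 ∧ p.2 < r p.1)
          (PolyTime.lift ctx ++ [fun p => un p.2, st]) (fun p => f p.1) := fun h => up2 h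
    have W1 := U hw
    have S1 : PolyS (fun p : α × ℕ => D p.1 ∧ p.2 < r p.1)
        (PolyTime.lift ctx ++ [fun p => un p.2, st]) (fun p => nOf (w p.1)) (fun p => W p.1) :=
      ⟨U hW.1, fun p hp => hW.2 p.1 hp.1⟩
    have R1 : PolyArr (fun p : α × ℕ => D p.1 ∧ p.2 < r p.1)
        (PolyTime.lift ctx ++ [fun p => un p.2, st]) (fun p => m p.1)
        (fun p => nOf (w p.1) * (nOf (w p.1) + 1) ^ T p.1) (fun p => R p.1) :=
      ⟨U hR.1, fun p hp => hR.2 p.1 hp.1⟩
    have F1 : PolyArr (fun p : α × ℕ => D p.1 ∧ p.2 < r p.1)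
        (PolyTime.lift ctx ++ [fun p => un p.2, st]) (fun p => M p.1)
        (fun p => (nOf (w p.1) + 1) ^ T p.1 * nOf (w p.1))
        (fun p => tab (nOf (w p.1)) (m p.1) (c p.1) (M p.1) (T p.1)
          (Gn (w p.1) (κ p.1) (W p.1)) (R p.1) p.2) :=
      ⟨PolyC.var (by simp [hst]), fun p _ i _ => tab_le _ _ _ _ _ _ _ _ _⟩
    have m1 : PolyN _ _ (fun p : α × ℕ => m p.1) := U hm
    have c1 : PolyN _ _ (fun p : α × ℕ => c p.1) := U hc
    have M1 : PolyN _ _ (fun p : α × ℕ => M p.1) := U hM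
    have T1 : PolyN _ _ (fun p : α × ℕ => T p.1) := U hT
    have κ1 : PolyN _ _ (fun p : α × ℕ => κ p.1) := U hκ
    have N1 : PolyN _ _ (fun p : α × ℕ => (nOf (w p.1) + 1) ^ T p.1) := U hN
    have l1 : PolyN _ _ (fun p : α × ℕ => (nOf (w p.1) + 1) ^ T p.1 * nOf (w p.1)) := U hl
    have r1 : PolyN (fun p : α × ℕ => D p.1 ∧ p.2 < r p.1)
        (PolyTime.lift ctx ++ [fun p => un p.2, st]) (fun p => p.2) := PolyC.var (by simp)
    refine PolyArr.mk M1 l1 ?_ (fun p _ i _ => tab_le _ _ _ _ _ _ _ _ _)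
    have W2 := up (n := fun p : α × ℕ => (nOf (w p.1) + 1) ^ T p.1 * nOf (w p.1)) W1
    have S2 := S1.up (m := fun p : α × ℕ => (nOf (w p.1) + 1) ^ T p.1 * nOf (w p.1))
    have R2 := R1.up (k := fun p : α × ℕ => (nOf (w p.1) + 1) ^ T p.1 * nOf (w p.1))
    have F2 := F1.up (k := fun p : α × ℕ => (nOf (w p.1) + 1) ^ T p.1 * nOf (w p.1))
    have m2 := upN (n := fun p : α × ℕ => (nOf (w p.1) + 1) ^ T p.1 * nOf (w p.1)) m1
    have c2 := upN (n := fun p : α × ℕ => (nOf (w p.1) + 1) ^ T p.1 * nOf (w p.1)) c1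
    have M2 := upN (n := fun p : α × ℕ => (nOf (w p.1) + 1) ^ T p.1 * nOf (w p.1)) M1
    have T2 := upN (n := fun p : α × ℕ => (nOf (w p.1) + 1) ^ T p.1 * nOf (w p.1)) T1
    have κ2 := upN (n := fun p : α × ℕ => (nOf (w p.1) + 1) ^ T p.1 * nOf (w p.1)) κ1
    have N2 := upN (n := fun p : α × ℕ => (nOf (w p.1) + 1) ^ T p.1 * nOf (w p.1)) N1
    have r2 := upN (n := fun p : α × ℕ => (nOf (w p.1) + 1) ^ T p.1 * nOf (w p.1)) r1
    have I2 := last (D := fun p : α × ℕ => D p.1 ∧ p.2 < r p.1)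
      (ctx := PolyTime.lift ctx ++ [fun p => un p.2, st])
      (n := fun p : α × ℕ => (nOf (w p.1) + 1) ^ T p.1 * nOf (w p.1))
    have n2 := poly_nOf W2
    have hφ := PolyB.lt (divz I2 n2) (powz (N := fun q : (α × ℕ) × ℕ =>
      (nOf (w q.1.1) + 1) ^ T q.1.1) n2.succ (PolyN.sub T2 r2.succ) N2
      (fun q _ => Nat.pow_le_pow_right (by omega) (Nat.sub_le _ _)))
    refine (itez hφ (poly_cell (PolyC.mono W2 fun _ h => h.1) (S2.mono fun _ h => h.1)
      (PolyC.mono m2 fun _ h => h.1) (PolyC.mono c2 fun _ h => h.1)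
      (PolyC.mono M2 fun _ h => h.1) (PolyC.mono T2 fun _ h => h.1)
      (PolyC.mono κ2 fun _ h => h.1) (PolyC.mono N2 fun _ h => h.1)
      (R2.mono fun _ h => h.1) (PolyC.mono r2 fun _ h => h.1)
      (PolyC.mono I2 fun _ h => h.1) (F2.mono fun _ h => h.1) ?_ ?_ ?_)
      (PolyN.const 0)).congr ?_
    · rintro ⟨⟨a, r'⟩, I⟩ ⟨⟨⟨h1, h2⟩, h3⟩, h4⟩
      exact lt_of_lt_of_le h2 (hrT a h1)
    · rintro ⟨⟨a, r'⟩, I⟩ ⟨⟨⟨h1, h2⟩, h3⟩, h4⟩
      exact of_decide_eq_true h4
    · rintro ⟨⟨a, r'⟩, I⟩ ⟨⟨⟨h1, h2⟩, h3⟩, h4⟩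
      simp only at h3
      show 0 < nOf (w a)
      rcases Nat.eq_zero_or_pos (nOf (w a)) with h5 | h5
      · rw [h5, Nat.mul_zero] at h3
        exact absurd h3 (Nat.not_lt_zero _)
      · exact h5
    · rintro ⟨⟨a, r'⟩, I⟩ ⟨⟨h1, h2⟩, h3⟩
      simp only at h2 h3
      have h5 : 0 < nOf (w a) := by
        rcases Nat.eq_zero_or_pos (nOf (w a)) with h5 | h5
        · rw [h5, Nat.mul_zero] at h3
          exact absurd h3 (Nat.not_lt_zero _)
        · exact h5
      simp only [decide_eq_true_eq]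
      split_ifs with h4
      · exact (tab_succ (lt_of_lt_of_le h2 (hrT a h1)) h5 h4).symm
      · show 0 = tab _ _ _ _ _ _ _ (r' + 1) I
        unfold tab
        rw [if_neg h4]

end TabAux

open TabAux

/-- The value at `v` of the `r`-th iterate in the world `X`. -/
theorem poly_YN {w : α → List Bool} {W : α → Finset ℕ} {m c M T κ r X v : α → ℕ}
    {R : α → ℕ → ℕ} (hw : PolyC D ctx w) (hW : PolyS D ctx (fun x => nOf (w x)) W)
    (hm : PolyN D ctx m) (hc : PolyN D ctx c) (hM : PolyN D ctx M) (hT : PolyN D ctx T)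
    (hκ : PolyN D ctx κ) (hN : PolyN D ctx (fun x => (nOf (w x) + 1) ^ T x))
    (hR : PolyArr D ctx m (fun x => nOf (w x) * (nOf (w x) + 1) ^ T x) R)
    (hr : PolyN D ctx r) (hX : PolyN D ctx X) (hv : PolyN D ctx v)
    (hrT : ∀ a, D a → r a ≤ T a) (hXN : ∀ a, D a → X a < (nOf (w a) + 1) ^ (T a - r a))
    (hvn : ∀ a, D a → v a < nOf (w a)) :
    PolyN D ctx (fun a => YN (nOf (w a)) (m a) (c a) (M a) (T a) (Gn (w a) (κ a) (W a)) (R a)
      (r a) (X a) (v a)) := by
  have hn := poly_nOf hw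
  refine (PolyArr.get (poly_tab hw hW hm hc hM hT hκ hN hR hr hrT) hM
    ((hX.mul hn).add hv) (fun a ha => ?_)).congr (fun a ha => tab_at (hXN a ha) (hvn a ha))
  have h2 : (nOf (w a) + 1) ^ (T a - r a) ≤ (nOf (w a) + 1) ^ T a :=
    Nat.pow_le_pow_right (by omega) (Nat.sub_le _ _)
  have h3 := hvn a ha
  calc X a * nOf (w a) + v a < X a * nOf (w a) + nOf (w a) := by omega
    _ = (X a + 1) * nOf (w a) := by ring
    _ ≤ (nOf (w a) + 1) ^ T a * nOf (w a) :=
      Nat.mul_le_mul_right _ (lt_of_lt_of_le (hXN a ha) h2)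

end Pool.Agent.Lib.SubBisX.Tab
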