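import Pool.Agent.Lib.SubBisX.TabDefs

/-!
A uniformly random string of digits codes a uniformly random world.

PROOF. `world` is injective on strings of length `n * (n + 1) ^ T`: by induction on `r`,
`el m n R r o = el m n R' r o` implies `R i % m = R' i % m` for `o ≤ i < o + (n + 1) ^ r` (the blocks
`o + k * (n + 1) ^ r`, `k ≤ n`). Both sets have `m ^ (n * (n + 1) ^ T)` elements (`card_XW` by
induction). Hence `world` is a bijection, and `av_equiv` applies.
-/

namespace Pool.Agent.Lib.SubBisX.Tab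

open Finset Pool.Agent.Lib.SubBisX.Reg Pool.Agent.Lib.SubBisX.Core

variable {n m : ℕ} [NeZero m]


theorem card_XW (m n r : ℕ) : Fintype.card (XW m n r) = m ^ (n + 1) ^ r := by
  induction r with
  | zero =>
    have h : Fintype.card (XW m n 0) = Fintype.card (Fin m) := Fintype.card_congr (Equiv.refl _)
    rw [h, Fintype.card_fin, pow_zero, pow_one]
  | succ r ih =>
    have h : Fintype.card (XW m n (r + 1)) = Fintype.card (XW m n r × (Fin n → XW m n r)) :=
      Fintype.card_congr (Equiv.refl _)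
    rw [h, Fintype.card_prod, Fintype.card_fun, Fintype.card_fin, ih, ← pow_mul, ← pow_add]
    congr 1
    ring

namespace TabUnifAux

theorem el_congr {R R' : ℕ → ℕ} (r : ℕ) : ∀ o : ℕ,
    (∀ i, o ≤ i → i < o + (n + 1) ^ r → R i = R' i) → el m n R r o = el m n R' r o := by
  induction r with
  | zero =>
    intro o h
    have h1 := h o le_rfl (by simp)
    show (⟨R o % m, _⟩ : Fin m) = ⟨R' o % m, _⟩
    exact Fin.ext (congrArg (· % m) h1)
  | succ r ih =>
    intro o h
    have hb : ∀ k ≤ n, ∀ i, o + k * (n + 1) ^ r ≤ i → i < o + k * (n + 1) ^ r + (n + 1) ^ r →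
        R i = R' i := by
      intro k hk i h1 h2
      refine h i (by omega) (h2.trans_le ?_)
      have h3 : (k + 1) * (n + 1) ^ r ≤ (n + 1) * (n + 1) ^ r := Nat.mul_le_mul_right _ (by omega)
      have h4 : (n + 1) * (n + 1) ^ r = (n + 1) ^ (r + 1) := by rw [pow_succ, mul_comm]
      have h5 : (k + 1) * (n + 1) ^ r = k * (n + 1) ^ r + (n + 1) ^ r := by rw [add_mul, one_mul]
      omega
    refine Prod.ext ?_ (funext fun x => ?_)
    · refine ih o fun i h1 h2 => hb 0 (Nat.zero_le n) i (by omega) (by omega)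
    · exact ih _ (hb ((x : ℕ) + 1) (by omega))

theorem el_inj {R R' : ℕ → ℕ} (r : ℕ) : ∀ o : ℕ, el m n R r o = el m n R' r o →
    ∀ i, o ≤ i → i < o + (n + 1) ^ r → R i % m = R' i % m := by
  induction r with
  | zero =>
    intro o h i h1 h2
    rw [pow_zero] at h2
    obtain rfl : i = o := by omega
    have h3 : (⟨R i % m, Nat.mod_lt _ (NeZero.pos m)⟩ : Fin m) =
      ⟨R' i % m, Nat.mod_lt _ (NeZero.pos m)⟩ := h
    exact congrArg Fin.val h3
  | succ r ih =>
    intro o h i h1 h2
    have hp : 0 < (n + 1) ^ r := pow_pos (Nat.succ_pos n) r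
    have h3 : (i - o) / (n + 1) ^ r < n + 1 := by
      rw [Nat.div_lt_iff_lt_mul hp]
      have h4 : (n + 1) * (n + 1) ^ r = (n + 1) ^ (r + 1) := by rw [pow_succ, mul_comm]
      omega
    have h4 := Nat.div_add_mod (i - o) ((n + 1) ^ r)
    have h5 := Nat.mod_lt (i - o) hp
    rw [mul_comm] at h4
    rcases Nat.eq_zero_or_pos ((i - o) / (n + 1) ^ r) with h6 | h6
    · rw [h6, zero_mul, zero_add] at h4
      exact ih o (congrArg Prod.fst h) i h1 (by omega)
    · have h7 := congrFun (congrArg Prod.snd h) ⟨(i - o) / (n + 1) ^ r - 1, by omega⟩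
      refine ih _ h7 i ?_ ?_
      · show o + ((i - o) / (n + 1) ^ r - 1 + 1) * (n + 1) ^ r ≤ i
        rw [Nat.sub_add_cancel h6]
        generalize (i - o) / (n + 1) ^ r * (n + 1) ^ r = q at h4
        generalize (i - o) % (n + 1) ^ r = q' at h4
        omega
      · show i < o + ((i - o) / (n + 1) ^ r - 1 + 1) * (n + 1) ^ r + (n + 1) ^ r
        rw [Nat.sub_add_cancel h6]
        generalize (i - o) / (n + 1) ^ r * (n + 1) ^ r = q at h4
        generalize (i - o) % (n + 1) ^ r = q' at h4 h5
        omega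

end TabUnifAux

theorem world_bijective (T : ℕ) : Function.Bijective
    (fun D : Fin (n * (n + 1) ^ T) → Fin m => world m n (ext D) T) := by
  rw [Fintype.bijective_iff_injective_and_card]
  constructor
  · intro D D' h
    funext i
    have hp : 0 < (n + 1) ^ T := pow_pos (Nat.succ_pos n) T
    have h1 : (i : ℕ) / (n + 1) ^ T < n := by
      rw [Nat.div_lt_iff_lt_mul hp]
      exact i.2
    have h2 := congrFun h ⟨(i : ℕ) / (n + 1) ^ T, h1⟩
    have h3 := TabUnifAux.el_inj T _ h2 i (Nat.div_mul_le_self _ _) (by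
      have h4 := Nat.div_add_mod (i : ℕ) ((n + 1) ^ T)
      have h5 := Nat.mod_lt (i : ℕ) hp
      rw [mul_comm] at h4
      show (i : ℕ) < (i : ℕ) / (n + 1) ^ T * (n + 1) ^ T + (n + 1) ^ T
      omega)
    have h4 : ∀ E : Fin (n * (n + 1) ^ T) → Fin m, ext E i % m = (E i : ℕ) := by
      intro E
      rw [ext, dif_pos i.2]
      exact Nat.mod_eq_of_lt (E i).2
    rw [h4, h4] at h3
    exact Fin.ext h3
  · rw [Fintype.card_fun, Fintype.card_fun, Fintype.card_fin, Fintype.card_fin, Fintype.card_fin,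
      card_XW, ← pow_mul, mul_comm]

theorem av_string (T : ℕ) (f : (Fin n → XW m n T) → ℝ) :
    av (fun D : Fin (n * (n + 1) ^ T) → Fin m => f (world m n (ext D) T)) = av f :=
  av_equiv (Equiv.ofBijective _ (world_bijective T)) f

/-- The coded world depends on the first `n * (n + 1) ^ T` digits only. -/
theorem world_congr {R R' : ℕ → ℕ} (T : ℕ) (h : ∀ i < n * (n + 1) ^ T, R i = R' i) :
    world m n R T = world m n R' T := by
  funext v
  refine TabUnifAux.el_congr T _ fun i _ h2 => h i (h2.trans_le ?_)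
  have h3 : ((v : ℕ) + 1) * (n + 1) ^ T ≤ n * (n + 1) ^ T := Nat.mul_le_mul_right _ v.2
  rw [add_mul, one_mul] at h3
  exact h3

end Pool.Agent.Lib.SubBisX.Tab
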